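import Pool.Agent.Helper77.JH.Dat

/-! # JH: the normal form of the data

`p` is chosen in its quaternionic line such that `h(p, ν) = s` is real and not negative; `P0` is the tangential part of `p`,
`- (n0 + ∑ n_i e_i) = h(p, ν - lam x)`; the condition `ball` is `|h(p, x) - h(p, ν)| ≤ 1`: `p` lies in the closed tangent horoball.
-/

set_option autoImplicit false
set_option linter.unusedSectionVars false
set_option linter.unusedVariables false

namespace Pool.Agent.Helper77.JH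

variable {H : Type*} [NormedAddCommGroup H] [InnerProductSpace ℝ H]
variable {ι : Type*} [Fintype ι] [DecidableEq ι]

/-- the normal form -/
structure Nf (d : Dat H ι) (P0 : H) (s n0 : ℝ) (n : ι → ℝ) : Prop where
  s0 : 0 ≤ s
  xP : ∀ i, inner ℝ (d.ξ i) P0 = 0
  G : ∀ v, d.G v = inner ℝ P0 v • P0 +
    ∑ i, inner ℝ (d.φ i P0 + s • d.ξ i) v • (d.φ i P0 + s • d.ξ i)
  U : d.U = s • P0
  W : d.W = -(n0 • P0 + ∑ i, n i • (d.φ i P0 + s • d.ξ i))
  A : d.A = s * n0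
  ρ : d.ρ = n0 ^ 2 + ∑ i, n i ^ 2
  κ : ∀ i, d.κ i = -(s * n i / d.lam)
  ball : (n0 - (d.lam - 1) * s) ^ 2 + ∑ i, n i ^ 2 ≤ d.lam ^ 2
  nrm : d.lam ^ 2 * ‖P0‖ ^ 2 + (d.lam ^ 2 - 1) * s ^ 2 = 2 * (d.A + (d.ρ - d.lam ^ 2) / 2)

end Pool.Agent.Helper77.JH
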