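import Mathlib

/-! # JH: linear algebra at a point of the hypersurface (definitions)

`H` is the tangent space of the hypersurface at the point, with its metric; `ι` has one element (complex hyperbolic space) or
three elements (quaternionic hyperbolic space); `ξ i = J_i ν`, `φ i` is the tangential part of `J_i`, `S = T + lam + lam⁻¹ ∑ ξ_i ξ_i^T`
the shape operator.  A `1`-jet of a vector field is a pair (value, covariant derivative).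
-/

set_option autoImplicit false
set_option linter.unusedSectionVars false
set_option linter.unusedVariables false

namespace Pool.Agent.Helper77.JH

variable (H : Type*) [NormedAddCommGroup H] [InnerProductSpace ℝ H]
variable (ι : Type*) [Fintype ι] [DecidableEq ι]

/-- the data at the point -/
structure Dat where
  lam : ℝ
  c : ι → ι → ι → ℝ
  T : H →ₗ[ℝ] H
  DT : H →ₗ[ℝ] H →ₗ[ℝ] H
  φ : ι → H →ₗ[ℝ] H
  ξ : ι → H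
  G : H →ₗ[ℝ] H
  W : H
  U : H
  A : ℝ
  ρ : ℝ
  κ : ι → ℝ

variable {H ι}

/-- the shape operator -/
noncomputable def Dat.S (d : Dat H ι) : H →ₗ[ℝ] H :=
  d.T + d.lam • LinearMap.id + d.lam⁻¹ • ∑ i, (innerₛₗ ℝ (d.ξ i)).smulRight (d.ξ i)

/-- `((lam² - 1) A - ρ) / lam²` (`C₀ / lam` in the notes) -/
noncomputable def Dat.c0 (d : Dat H ι) : ℝ := ((d.lam ^ 2 - 1) * d.A - d.ρ) / d.lam ^ 2

/-- the rules -/
structure Rul (d : Dat H ι) : Prop where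
  lam0 : d.lam ≠ 0
  as1 : ∀ i j k, d.c i j k = - d.c j i k
  as2 : ∀ i j k, d.c i j k = - d.c i k j
  sq : ∀ i l, ∑ j, ∑ k, d.c i j k * d.c l j k = if i = l then (Fintype.card ι : ℝ) - 1 else 0
  symT : ∀ u v, inner ℝ (d.T u) v = inner ℝ u (d.T v)
  trT : LinearMap.trace ℝ H d.T = 0
  symD : ∀ u v w, inner ℝ (d.DT u v) w = inner ℝ v (d.DT u w)
  trD : ∀ u, LinearMap.trace ℝ H (d.DT u) = 0
  cod : ∀ u v, d.DT u v - d.DT v u = -d.lam⁻¹ • ∑ i, (inner ℝ (d.ξ i) v • d.φ i (d.T u) +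
    inner ℝ (d.φ i (d.T u)) v • d.ξ i - inner ℝ (d.ξ i) u • d.φ i (d.T v) -
    inner ℝ (d.φ i (d.T v)) u • d.ξ i)
  skew : ∀ i u v, inner ℝ (d.φ i u) v = - inner ℝ u (d.φ i v)
  on : ∀ i j, inner ℝ (d.ξ i) (d.ξ j) = if i = j then (1 : ℝ) else 0
  phx : ∀ i j, d.φ i (d.ξ j) = ∑ k, d.c i j k • d.ξ k
  pp : ∀ i j v, d.φ i (d.φ j v) = (if i = j then -v else 0) + ∑ k, d.c i j k • d.φ k v +
    inner ℝ (d.ξ j) v • d.ξ i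
  symG : ∀ u v, inner ℝ (d.G u) v = inner ℝ u (d.G v)
  Wx : ∀ i, inner ℝ (d.ξ i) d.W = d.lam * d.κ i
  Ux : ∀ i, inner ℝ (d.ξ i) d.U = 0

/-- `1`-jets of vector fields and of functions -/
abbrev VJ (H : Type*) [NormedAddCommGroup H] [InnerProductSpace ℝ H] := H × (H →ₗ[ℝ] H)

abbrev SJ (H : Type*) [NormedAddCommGroup H] [InnerProductSpace ℝ H] := ℝ × (H →ₗ[ℝ] ℝ)

/-- product of a function and a field -/
noncomputable def smJ (s : SJ H) (Y : VJ H) : VJ H := (s.1 • Y.1, s.2.smulRight Y.1 + s.1 • Y.2)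

/-- product of functions -/
noncomputable def mJ (s t : SJ H) : SJ H := (s.1 * t.1, t.1 • s.2 + s.1 • t.2)

/-- inner product of fields -/
noncomputable def inJ (Y Z : VJ H) : SJ H :=
  (inner ℝ Y.1 Z.1, (innerₛₗ ℝ Z.1).comp Y.2 + (innerₛₗ ℝ Y.1).comp Z.2)

/-- `T Y` -/
noncomputable def Dat.tJ (d : Dat H ι) (Y : VJ H) : VJ H :=
  (d.T Y.1, d.DT.flip Y.1 + d.T.comp Y.2)

/-- `φ_i Y` -/
noncomputable def Dat.pJ (d : Dat H ι) (i : ι) (Y : VJ H) : VJ H :=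
  (d.φ i Y.1, (d.φ i).comp Y.2 + inner ℝ (d.ξ i) Y.1 • d.S -
    ((innerₛₗ ℝ Y.1).comp d.S).smulRight (d.ξ i))

/-- `ξ_i` -/
noncomputable def Dat.xJ (d : Dat H ι) (i : ι) : VJ H := (d.ξ i, (d.φ i).comp d.S)

/-- `W` -/
noncomputable def Dat.wJ (d : Dat H ι) : VJ H :=
  (d.W, d.G.comp d.T + d.A • d.T + (d.lam * d.c0) • LinearMap.id +
    d.lam⁻¹ • ∑ i, (innerₛₗ ℝ (d.ξ i)).smulRight (d.φ i d.W) + ∑ i, d.κ i • d.φ i)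

/-- `κ_i = lam⁻¹ ⟪W, ξ_i⟫` -/
noncomputable def Dat.kJ (d : Dat H ι) (i : ι) : SJ H := d.lam⁻¹ • inJ d.wJ (d.xJ i)

/-- `A` -/
noncomputable def Dat.aJ (d : Dat H ι) : SJ H :=
  (d.A, -(innerₛₗ ℝ (d.U + d.W)).comp d.T - d.lam • innerₛₗ ℝ d.W +
    ∑ i, d.κ i • innerₛₗ ℝ (d.ξ i))

/-- `ρ` -/
noncomputable def Dat.rJ (d : Dat H ι) : SJ H := (d.ρ, (2 : ℝ) • (innerₛₗ ℝ d.W).comp d.T)

/-- constants -/
noncomputable def cJ (x : ℝ) : SJ H := (x, 0)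

/-- `c0` -/
noncomputable def Dat.c0J (d : Dat H ι) : SJ H :=
  (d.lam ^ 2)⁻¹ • ((d.lam ^ 2 - 1) • d.aJ - d.rJ)

/-- `β = (ρ - lam²) / 2` -/
noncomputable def Dat.bJ (d : Dat H ι) : SJ H := (2 : ℝ)⁻¹ • (d.rJ - cJ (d.lam ^ 2))

/-- the five fields -/
noncomputable def Dat.F1 (d : Dat H ι) : VJ H := d.tJ d.wJ

noncomputable def Dat.F2 (d : Dat H ι) : VJ H := ∑ i, smJ (d.kJ i) (d.tJ (d.xJ i))

noncomputable def Dat.F3 (d : Dat H ι) : VJ H := ∑ i, d.pJ i (d.tJ (d.pJ i d.wJ))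

noncomputable def Dat.F4 (d : Dat H ι) : VJ H :=
  ∑ i, smJ (inJ (d.tJ (d.xJ i)) d.wJ) (d.xJ i) - smJ (∑ i, inJ (d.tJ (d.xJ i)) (d.xJ i)) d.wJ

noncomputable def Dat.F5 (d : Dat H ι) : VJ H := ∑ i, d.pJ i (d.tJ (d.xJ i))

/-- the coefficients; `M = (m + a + 1) / 2`, `a = card ι` -/
noncomputable def Dat.c1J (d : Dat H ι) (M : ℝ) : SJ H :=
  cJ (M * d.lam ^ 2 - ((Fintype.card ι : ℝ) - 1) / 2) +
    (M * (d.lam ^ 2 - 1) + ((Fintype.card ι : ℝ) - 1) / (2 * d.lam ^ 2)) • d.bJ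

noncomputable def Dat.c2J (d : Dat H ι) : SJ H :=
  cJ d.lam + (((Fintype.card ι : ℝ) - 1) / d.lam) • d.bJ

noncomputable def Dat.c3J (d : Dat H ι) : SJ H :=
  cJ 1 + ((d.lam ^ 2 - 1) / d.lam ^ 2) • d.bJ

/-- the field -/
noncomputable def Dat.V3 (d : Dat H ι) (M : ℝ) : VJ H :=
  smJ (d.c1J M) d.F1 + smJ d.c2J d.F2 - smJ d.c3J d.F3 + smJ d.bJ d.F4 +
    smJ (mJ d.bJ d.c0J) d.F5

/-- `∑ ⟪ξ_i, T ξ_i⟫` -/
noncomputable def Dat.tau (d : Dat H ι) : ℝ := ∑ i, inner ℝ (d.T (d.ξ i)) (d.ξ i)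

/-- `∑ ⟪T ξ_i, φ_i W⟫` -/
noncomputable def Dat.bb (d : Dat H ι) : ℝ := ∑ i, inner ℝ (d.T (d.ξ i)) (d.φ i d.W)

/-- the quadratic parts -/
noncomputable def Dat.q1 (d : Dat H ι) : ℝ :=
  LinearMap.trace ℝ H (d.T ∘ₗ d.G ∘ₗ d.T) + d.A * LinearMap.trace ℝ H (d.T ∘ₗ d.T)

noncomputable def Dat.q2 (d : Dat H ι) : ℝ :=
  d.lam⁻¹ * ∑ i, (inner ℝ (d.G (d.T (d.T (d.ξ i)))) (d.ξ i) + d.A * ‖d.T (d.ξ i)‖ ^ 2 -
    inner ℝ (d.φ i d.W) (d.T (d.T (d.ξ i))))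

noncomputable def Dat.q3 (d : Dat H ι) : ℝ :=
  ∑ i, (-inner ℝ (d.T (d.ξ i)) (d.T (d.φ i d.W)) + inner ℝ (d.φ i (d.T d.W)) (d.T (d.ξ i)) +
    LinearMap.trace ℝ H (d.φ i ∘ₗ d.T ∘ₗ d.φ i ∘ₗ (d.G ∘ₗ d.T + d.A • d.T)))

noncomputable def Dat.q4 (d : Dat H ι) : ℝ :=
  ∑ i, (3 * inner ℝ (d.T d.W) (d.φ i (d.T (d.ξ i))) + inner ℝ (d.G (d.T (d.ξ i))) (d.T (d.ξ i)) +
    d.A * ‖d.T (d.ξ i)‖ ^ 2) - d.tau * LinearMap.trace ℝ H (d.G ∘ₗ d.T)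

noncomputable def Dat.q5 (d : Dat H ι) : ℝ :=
  ∑ i, (-‖d.T (d.ξ i)‖ ^ 2 + LinearMap.trace ℝ H (d.φ i ∘ₗ d.T ∘ₗ d.φ i ∘ₗ d.T))

/-- `m + a` is the dimension, `M = (m + a + 1) / 2` -/
noncomputable def Dat.Qf (d : Dat H ι) (M : ℝ) : ℝ :=
  (d.c1J M).1 * d.q1 + d.c2J.1 * d.q2 - d.c3J.1 * d.q3 + d.bJ.1 * d.q4 +
    d.bJ.1 * (d.c0 * d.q5 - ((d.lam ^ 2 - 1) / d.lam ^ 2) * inner ℝ (d.T (d.U + d.W)) d.F5.1 -
      (2 / d.lam ^ 2) * inner ℝ (d.T d.W) d.F5.1) +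
    inner ℝ (d.T d.W) ((M * (d.lam ^ 2 - 1) + ((Fintype.card ι : ℝ) - 1) / (2 * d.lam ^ 2)) • d.F1.1 +
      (((Fintype.card ι : ℝ) - 1) / d.lam) • d.F2.1 - ((d.lam ^ 2 - 1) / d.lam ^ 2) • d.F3.1 +
      d.F4.1 + d.c0 • d.F5.1)

end Pool.Agent.Helper77.JH
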