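import Pool.Agent.Helper77.JE.Cal
import Pool.Agent.Helper77.JH.Dat

/-! # JH: the cone, several complex structures (definitions)

`J i`, `i ∈ ι`, are the right multiplications by the imaginary units (`ι` has one or three elements); `g` is the `B`-gradient of the
defining function on the cone (`Gd B (J i) U g` for all `i`); `Gp` is a `B`-symmetric operator which commutes with the `J i`
(in the application `B (Gp u) v = Re (conj h(p, u) h(p, v))`).
-/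

set_option autoImplicit false
set_option linter.unusedSectionVars false
set_option linter.unusedVariables false

namespace Pool.Agent.Helper77.JH

open Pool.Agent.Helper77.JE (Hf Pt Gd rr nu NN tt xs SS)

variable {L : Type*} [NormedAddCommGroup L] [NormedSpace ℝ L]
variable {ι : Type*} [Fintype ι] [DecidableEq ι] {κ : Type*} [Fintype κ] [DecidableEq κ]

/-- several complex structures -/
structure Hq (B : L →L[ℝ] L →L[ℝ] ℝ) (J : ι → L →L[ℝ] L) (c : ι → ι → ι → ℝ) : Prop where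
  hf : ∀ i, Hf B (J i)
  symm : ∀ u v, B u v = B v u
  nd : ∀ u, (∀ v, B u v = 0) → u = 0
  mul : ∀ i j v, J i (J j v) = (if i = j then -v else 0) + ∑ k, c i j k • J k v
  as1 : ∀ i j k, c i j k = - c j i k
  as2 : ∀ i j k, c i j k = - c i k j
  sq : ∀ i l, ∑ j, ∑ k, c i j k * c l j k = if i = l then (Fintype.card ι : ℝ) - 1 else 0

/-- horizontal tangential vectors -/
def HzQ (B : L →L[ℝ] L →L[ℝ] ℝ) (J : ι → L →L[ℝ] L) (X ν w : L) : Prop :=
  B w X = 0 ∧ (∀ i, B w (J i X) = 0) ∧ B w ν = 0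

/-- the first order data at a point of the cone -/
structure PtQ (B : L →L[ℝ] L →L[ℝ] ℝ) (J : ι → L →L[ℝ] L) (X ν : L) (N : L →L[ℝ] L) : Prop where
  nn : B ν ν = 1
  xn : B X ν = 0
  jxn : ∀ i, B (J i X) ν = 0
  Nx : N X = 0
  Njx : ∀ i, N (J i X) = J i ν
  Nn : ∀ v, B (N v) ν = 0
  NX : ∀ v, B (N v) X = - B ν v
  NJX : ∀ i v, B (N v) (J i X) = - B ν (J i v)
  sy : ∀ v w, B ν v = 0 → B ν w = 0 → B (N v) w = B (N w) v

/-- an orthonormal frame of the horizontal tangential vectors (at a point with `B X X = -1`) -/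
structure FrQ (B : L →L[ℝ] L →L[ℝ] ℝ) (J : ι → L →L[ℝ] L) (X ν : L) (e : κ ⊕ ι → L) : Prop where
  xi : ∀ i, e (Sum.inr i) = J i ν
  hz : ∀ i, HzQ B J X ν (e i)
  on : ∀ i j, B (e i) (e j) = if i = j then 1 else 0
  comp : ∀ w, w = -(B w X • X) - ∑ i, B w (J i X) • J i X + B w ν • ν + ∑ i, B w (e i) • e i

/-- the operator -/
structure Gs (B : L →L[ℝ] L →L[ℝ] ℝ) (J : ι → L →L[ℝ] L) (Gp : L →L[ℝ] L) : Prop where
  sym : ∀ u v, B (Gp u) v = B (Gp v) u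
  comm : ∀ i u, Gp (J i u) = J i (Gp u)

/-- the trace free part of the shape operator, as a function on the cone -/
noncomputable def TT (B : L →L[ℝ] L →L[ℝ] ℝ) (J : ι → L →L[ℝ] L) (lam : ℝ) (g : L → L) (X : L) :
    L →L[ℝ] L :=
  SS B g X + ∑ i, (B (J i (nu B g X))).smulRight (J i (xs B X)) -
    lam • ContinuousLinearMap.id ℝ L -
    lam⁻¹ • ∑ i, (B (J i (nu B g X))).smulRight (J i (nu B g X))

/-- `n = ν - lam x` -/
noncomputable def nv (B : L →L[ℝ] L →L[ℝ] ℝ) (lam : ℝ) (g : L → L) (X : L) : L :=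
  nu B g X - lam • xs B X

noncomputable def AA (B : L →L[ℝ] L →L[ℝ] ℝ) (lam : ℝ) (g : L → L) (Gp : L →L[ℝ] L) (X : L) : ℝ :=
  - B (Gp (nu B g X)) (nv B lam g X)

noncomputable def RR (B : L →L[ℝ] L →L[ℝ] ℝ) (lam : ℝ) (g : L → L) (Gp : L →L[ℝ] L) (X : L) : ℝ :=
  B (Gp (nv B lam g X)) (nv B lam g X)

/-- the field `W` -/
noncomputable def WW (B : L →L[ℝ] L →L[ℝ] ℝ) (J : ι → L →L[ℝ] L) (lam : ℝ) (g : L → L)
    (Gp : L →L[ℝ] L) (X : L) : L :=
  Gp (nv B lam g X) + B (Gp (nv B lam g X)) (xs B X) • xs B X +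
    ∑ i, B (Gp (nv B lam g X)) (J i (xs B X)) • J i (xs B X) + AA B lam g Gp X • nu B g X

/-- the tangential part of `J_i Y` -/
noncomputable def ph (B : L →L[ℝ] L →L[ℝ] ℝ) (J : ι → L →L[ℝ] L) (g : L → L) (i : ι) (Y : L → L)
    (X : L) : L :=
  J i (Y X) + B (Y X) (J i (nu B g X)) • nu B g X

noncomputable def bt (B : L →L[ℝ] L →L[ℝ] ℝ) (lam : ℝ) (g : L → L) (Gp : L →L[ℝ] L) (X : L) : ℝ :=
  (RR B lam g Gp X - lam ^ 2) / 2

noncomputable def cc0 (B : L →L[ℝ] L →L[ℝ] ℝ) (lam : ℝ) (g : L → L) (Gp : L →L[ℝ] L) (X : L) : ℝ :=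
  ((lam ^ 2 - 1) * AA B lam g Gp X - RR B lam g Gp X) / lam ^ 2

noncomputable def xi (B : L →L[ℝ] L →L[ℝ] ℝ) (J : ι → L →L[ℝ] L) (g : L → L) (i : ι) (X : L) : L :=
  J i (nu B g X)

noncomputable def G1 (B : L →L[ℝ] L →L[ℝ] ℝ) (J : ι → L →L[ℝ] L) (lam : ℝ) (g : L → L)
    (Gp : L →L[ℝ] L) (X : L) : L :=
  TT B J lam g X (WW B J lam g Gp X)

noncomputable def G2 (B : L →L[ℝ] L →L[ℝ] ℝ) (J : ι → L →L[ℝ] L) (lam : ℝ) (g : L → L)
    (Gp : L →L[ℝ] L) (X : L) : L :=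
  ∑ i, (lam⁻¹ * B (WW B J lam g Gp X) (xi B J g i X)) • TT B J lam g X (xi B J g i X)

noncomputable def G3 (B : L →L[ℝ] L →L[ℝ] ℝ) (J : ι → L →L[ℝ] L) (lam : ℝ) (g : L → L)
    (Gp : L →L[ℝ] L) (X : L) : L :=
  ∑ i, ph B J g i (fun Z => TT B J lam g Z (ph B J g i (WW B J lam g Gp) Z)) X

noncomputable def G4 (B : L →L[ℝ] L →L[ℝ] ℝ) (J : ι → L →L[ℝ] L) (lam : ℝ) (g : L → L)
    (Gp : L →L[ℝ] L) (X : L) : L :=
  ∑ i, B (TT B J lam g X (xi B J g i X)) (WW B J lam g Gp X) • xi B J g i X -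
    (∑ i, B (TT B J lam g X (xi B J g i X)) (xi B J g i X)) • WW B J lam g Gp X

noncomputable def G5 (B : L →L[ℝ] L →L[ℝ] ℝ) (J : ι → L →L[ℝ] L) (lam : ℝ) (g : L → L)
    (X : L) : L :=
  ∑ i, ph B J g i (fun Z => TT B J lam g Z (xi B J g i Z)) X

/-- the field (of degree zero) -/
noncomputable def V3c (B : L →L[ℝ] L →L[ℝ] ℝ) (J : ι → L →L[ℝ] L) (lam M : ℝ) (g : L → L)
    (Gp : L →L[ℝ] L) (X : L) : L :=
  (M * lam ^ 2 - ((Fintype.card ι : ℝ) - 1) / 2 +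
      (M * (lam ^ 2 - 1) + ((Fintype.card ι : ℝ) - 1) / (2 * lam ^ 2)) * bt B lam g Gp X) •
        G1 B J lam g Gp X +
    (lam + ((Fintype.card ι : ℝ) - 1) / lam * bt B lam g Gp X) • G2 B J lam g Gp X -
    (1 + (lam ^ 2 - 1) / lam ^ 2 * bt B lam g Gp X) • G3 B J lam g Gp X +
    bt B lam g Gp X • G4 B J lam g Gp X +
    (bt B lam g Gp X * cc0 B lam g Gp X) • G5 B J lam g X

/-- the field on the cone (of degree one) -/
noncomputable def VQ (B : L →L[ℝ] L →L[ℝ] ℝ) (J : ι → L →L[ℝ] L) (lam M : ℝ) (g : L → L)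
    (Gp : L →L[ℝ] L) (X : L) : L :=
  (tt B X * rr B g X) • V3c B J lam M g Gp X

/-- `∑ v_i e_i` -/
noncomputable def Fe (e : κ ⊕ ι → L) (v : EuclideanSpace ℝ (κ ⊕ ι)) : L := ∑ i, v i • e i

/-- the coordinates -/
noncomputable def Fs (B : L →L[ℝ] L →L[ℝ] ℝ) (e : κ ⊕ ι → L) (y : L) : EuclideanSpace ℝ (κ ⊕ ι) :=
  WithLp.toLp 2 fun i => B y (e i)

noncomputable def FeL (e : κ ⊕ ι → L) : EuclideanSpace ℝ (κ ⊕ ι) →ₗ[ℝ] L where
  toFun := Fe e
  map_add' u v := by simp [Fe, add_smul, Finset.sum_add_distrib]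
  map_smul' r u := by simp [Fe, mul_smul, Finset.smul_sum]

noncomputable def FsL (B : L →L[ℝ] L →L[ℝ] ℝ) (e : κ ⊕ ι → L) :
    L →ₗ[ℝ] EuclideanSpace ℝ (κ ⊕ ι) where
  toFun := Fs B e
  map_add' u v := by ext i; simp [Fs]
  map_smul' r u := by ext i; simp [Fs]

/-- an operator in coordinates -/
noncomputable def opH (B : L →L[ℝ] L →L[ℝ] ℝ) (e : κ ⊕ ι → L) (Y : L →L[ℝ] L) :
    EuclideanSpace ℝ (κ ⊕ ι) →ₗ[ℝ] EuclideanSpace ℝ (κ ⊕ ι) :=
  FsL B e ∘ₗ (Y : L →ₗ[ℝ] L) ∘ₗ FeL e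

/-- the covariant derivative of `T` in coordinates -/
noncomputable def dtH (B : L →L[ℝ] L →L[ℝ] ℝ) (J : ι → L →L[ℝ] L) (lam : ℝ) (g : L → L) (X : L)
    (e : κ ⊕ ι → L) : EuclideanSpace ℝ (κ ⊕ ι) →ₗ[ℝ] EuclideanSpace ℝ (κ ⊕ ι) →ₗ[ℝ]
      EuclideanSpace ℝ (κ ⊕ ι) :=
  LinearMap.mk₂ ℝ (fun u v => Fs B e (fderiv ℝ (TT B J lam g) X (Fe e u) (Fe e v)) -
      B (Fe e v) (NN B g X (Fe e u)) • Fs B e (NN B g X (nu B g X)) +
      ∑ i, B (Fe e v) (J i (Fe e u)) • Fs B e (xi B J g i X))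
    (by
      intro u u' v
      have h : Fe e (u + u') = Fe e u + Fe e u' := (FeL e).map_add u u'
      have h2 : ∀ a b : L, Fs B e (a + b) = Fs B e a + Fs B e b := (FsL B e).map_add
      simp only [h, map_add, ContinuousLinearMap.add_apply, h2, add_smul, Finset.sum_add_distrib]
      abel)
    (by
      intro r u v
      have h : Fe e (r • u) = r • Fe e u := (FeL e).map_smul r u
      have h2 : ∀ a : L, Fs B e (r • a) = r • Fs B e a := (FsL B e).map_smul r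
      simp only [h, map_smul, ContinuousLinearMap.smul_apply, h2, smul_eq_mul, mul_smul,
        ← Finset.smul_sum]
      module)
    (by
      intro u v v'
      have h : Fe e (v + v') = Fe e v + Fe e v' := (FeL e).map_add v v'
      have h2 : ∀ a b : L, Fs B e (a + b) = Fs B e a + Fs B e b := (FsL B e).map_add
      simp only [h, map_add, ContinuousLinearMap.add_apply, h2, add_smul, Finset.sum_add_distrib]
      abel)
    (by
      intro r u v
      have h : Fe e (r • v) = r • Fe e v := (FeL e).map_smul r v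
      have h2 : ∀ a : L, Fs B e (r • a) = r • Fs B e a := (FsL B e).map_smul r
      simp only [h, map_smul, ContinuousLinearMap.smul_apply, h2, smul_eq_mul, mul_smul,
        ← Finset.smul_sum]
      module)

/-- the data of `Dat.lean` at the point `X`, in the coordinates of the frame `e` -/
noncomputable def dat (B : L →L[ℝ] L →L[ℝ] ℝ) (J : ι → L →L[ℝ] L) (c : ι → ι → ι → ℝ) (lam : ℝ)
    (g : L → L) (Gp : L →L[ℝ] L) (X : L) (e : κ ⊕ ι → L) : Dat (EuclideanSpace ℝ (κ ⊕ ι)) ι where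
  lam := lam
  c := c
  T := opH B e (TT B J lam g X)
  DT := dtH B J lam g X e
  φ := fun i => opH B e (J i)
  ξ := fun i => Fs B e (xi B J g i X)
  G := opH B e Gp
  W := Fs B e (WW B J lam g Gp X)
  U := Fs B e (Gp (nu B g X))
  A := AA B lam g Gp X
  ρ := RR B lam g Gp X
  κ := fun i => lam⁻¹ * B (WW B J lam g Gp X) (xi B J g i X)

/-- `Y` is a horizontal tangential field with the `1`-jet `j` at `X` -/
structure CovV (B : L →L[ℝ] L →L[ℝ] ℝ) (J : ι → L →L[ℝ] L) (g : L → L) (U : Set L) (X : L)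
    (e : κ ⊕ ι → L) (Y : L → L) (j : VJ (EuclideanSpace ℝ (κ ⊕ ι))) : Prop where
  diff : DifferentiableAt ℝ Y X
  hz : ∀ Z ∈ U, HzQ B J Z (nu B g Z) (Y Z)
  val : Fs B e (Y X) = j.1
  der : ∀ v, Fs B e (fderiv ℝ Y X (Fe e v)) = j.2 v

/-- `s` is a function with the `1`-jet `j` at `X` -/
structure CovS (X : L) (e : κ ⊕ ι → L) (s : L → ℝ) (j : SJ (EuclideanSpace ℝ (κ ⊕ ι))) :
    Prop where
  diff : DifferentiableAt ℝ s X
  val : s X = j.1
  der : ∀ v, fderiv ℝ s X (Fe e v) = j.2 v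

/-- the hypotheses at the point `X` -/
structure Pnt (B : L →L[ℝ] L →L[ℝ] ℝ) (J : ι → L →L[ℝ] L) (c : ι → ι → ι → ℝ) (lam : ℝ)
    (g : L → L) (U : Set L) (Gp : L →L[ℝ] L) (X : L) (e : κ ⊕ ι → L) : Prop where
  hH : Hq B J c
  hG : ∀ i, Gd B (J i) U g
  gs : Gs B J Gp
  lam0 : lam ≠ 0
  mem : X ∈ U
  one : B X X = -1
  fr : FrQ B J X (nu B g X) e
  pt : PtQ B J X (nu B g X) (NN B g X)
  tr1 : ∑ i, B (NN B g X (e i)) (e i) =
    ((Fintype.card κ : ℝ) + Fintype.card ι) * lam + Fintype.card ι * lam⁻¹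
  tr2 : ∀ u, HzQ B J X (nu B g X) u → ∑ i, (B (fderiv ℝ (NN B g) X u (e i)) (e i) -
    B (NN B g X u) (e i) * B (NN B g X (nu B g X)) (e i)) = 0

end Pool.Agent.Helper77.JH
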