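import Pool.Agent.Helper77.JH.F2C

/-! # JH: the mean curvature at the farthest point, complex case -/

set_option autoImplicit false
set_option linter.unusedSectionVars false
set_option linter.unusedVariables false

open Filter Topology Set
open scoped ContDiff

namespace Pool.Agent.Helper77.JH.CH

open Pool.Agent.Helper77.JE
open Pool.Agent.Helper77.JH (far_first far_second)

variable {E : Type*} [NormedAddCommGroup E] [InnerProductSpace ℝ E] [FiniteDimensional ℝ E]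
variable {j : E →L[ℝ] E} {ρ : E → ℝ}

private theorem mcf_j {j : E →L[ℝ] E} (hj : Cj j) (z : E) :
    inner ℝ z (j z) = 0 ∧ inner ℝ (j z) (j z) = ‖z‖ ^ 2 := by
  have h1 := hj.inv z (j z)
  rw [hj.jj, inner_neg_right, real_inner_comm] at h1
  exact ⟨by linarith, by rw [hj.inv, real_inner_self_eq_norm_sq]⟩

/-- piece `JH-F2Cd`: the mean curvature at the farthest point. `μ = dρ(z) / ‖z‖²`, `r = ‖z‖`, `X = io z`, `ν = (r √(1 - r²))⁻¹ (r², 0, z)`,
`rr = μ r √(1 - r²)`. Frame at `X' = (√(1 - r²))⁻¹ X` (`exists_fr`): the vectors `e (some i)` are orthogonal to `X, J X, ν, J ν`, so they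
are `(0, 0, w)` with `|w| = 1`, `w ⟂ z`, and `B (N' e) e = √(1 - r²) rr⁻¹ D²ρ(w, w) ≥ 1 / r` (`far_second`); `e none = J ν` is
`(r √(1 - r²))⁻¹ ((1 - r²) (0, 0, j z) + r² J X)`, `DG (J X) = J G`, so `B (N' ξ) ξ ≥ (1 + r²) / r`. The sum over the frame is `mc`
(`Fr.trace`, `NN_smul`, as in `Gd.jt`, JE/Cal.lean) and it is at least `m / r + (1 + r²) / r > m + 2`, `m = dim E - 2` -/
theorem mc_far (hj : Cj j) (hs : ContDiffOn ℝ 3 ρ (Metric.ball 0 1)) {z : E} (h0 : 0 < ‖z‖)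
    (h1 : ‖z‖ < 1) (hz : ρ z = 0) (hr : fderiv ℝ ρ z ≠ 0)
    (hm : ∀ y ∈ Metric.ball (0 : E) 1, ρ y ≤ 0 → ‖y‖ ≤ ‖z‖) :
    (Module.finrank ℝ E : ℝ) < mc j ρ z := by
  have hH := hfL (E := E) hj
  have hG := gdL hj hs
  obtain ⟨r, hrz⟩ : ∃ r : ℝ, r = ‖z‖ := ⟨_, rfl⟩
  have hr0 : 0 < r := by rw [hrz]; exact h0
  have hr1 : r < 1 := by rw [hrz]; exact h1
  have hS : 0 < 1 - r ^ 2 := by nlinarith
  obtain ⟨s, hsd⟩ : ∃ s : ℝ, s = √(1 - r ^ 2) := ⟨_, rfl⟩
  have hs0 : 0 < s := by rw [hsd]; exact Real.sqrt_pos.2 hS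
  have hs2 : s ^ 2 = 1 - r ^ 2 := by rw [hsd]; exact Real.sq_sqrt hS.le
  have hzz : inner ℝ z z = r ^ 2 := by rw [real_inner_self_eq_norm_sq, hrz]
  obtain ⟨hzj, hjj⟩ := mcf_j hj z
  rw [← hrz] at hjj
  -- first order
  obtain ⟨hf1, hf2⟩ := far_first hs h0 h1 hz hr hm
  have hsec := fun {w : E} (hw : inner ℝ z w = 0) => far_second hs h0 h1 hz hr hm hw
  obtain ⟨μ, hμ⟩ : ∃ μ : ℝ, μ = fderiv ℝ ρ z z / r ^ 2 := ⟨_, rfl⟩
  have hμ0 : 0 < μ := by rw [hμ]; positivity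
  have hμz : fderiv ℝ ρ z z = μ * r ^ 2 := by
    rw [hμ]
    field_simp
  have hg : ∀ w, fderiv ℝ ρ z w = μ * inner ℝ z w := by
    intro w
    have e1 : inner ℝ z (w - (inner ℝ z w / r ^ 2) • z) = 0 := by
      rw [inner_sub_right, inner_smul_right, hzz]
      field_simp
      ring
    have e2 := hf1 _ e1
    rw [map_sub, map_smul, smul_eq_mul, hμz] at e2
    have e3 : inner ℝ z w / r ^ 2 * (μ * r ^ 2) = μ * inner ℝ z w := by
      field_simp
    linarith
  have hd : DifferentiableAt ℝ ρ z :=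
    (hs.contDiffAt (Metric.isOpen_ball.mem_nhds (mem_ball_zero_iff.2 h1))).differentiableAt
      (by norm_num)
  have hGf := GG_far hj hd hg
  rw [← hrz] at hGf
  -- the point
  have hBX : BL E (io z) (io z) = -(1 - r ^ 2) := by
    rw [BL_apply]
    show inner ℝ z z - ((1 : ℝ) * 1 + 0 * 0) = _
    rw [hzz]
    ring
  have hneg : BL E (io z) (io z) < 0 := by rw [hBX]; linarith
  have hX : io z ∈ UU j ρ := ⟨hneg, by rw [pr_io]; exact hr⟩
  have hxx : BL E (s⁻¹ • io z) (s⁻¹ • io z) = -1 := by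
    simp only [map_smul, smul_apply, smul_eq_mul]
    rw [hBX, ← hs2]
    field_simp
  have hX' : s⁻¹ • io z ∈ UU j ρ :=
    ⟨by rw [hxx]; norm_num, by rw [pr_smul j (inv_pos.2 hs0).ne', pr_io]; exact hr⟩
  have hGs : ∀ a : ℝ, 0 < a → ∀ Y, GG j ρ (a • Y) = a⁻¹ • GG j ρ Y := fun a ha Y => GG_smul j ρ ha Y
  obtain ⟨e1, e2, -⟩ := NN_smul hGs (inv_pos.2 hs0) (io z)
  rw [inv_inv] at e2
  have hP := hG.pt hH hX
  have hP' := hG.pt hH hX'
  obtain ⟨d, e, he⟩ := exists_fr hj hxx hP'.nn (by rw [hH.symm]; exact hP'.xn)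
    (by rw [hH.symm]; exact hP'.jxn)
  -- the normal
  have hrr : rr (BL E) (GG j ρ) (io z) = μ * r * s := by
    unfold rr
    have e3 : BL E (GG j ρ (io z)) (GG j ρ (io z)) = (μ * r * s) ^ 2 := by
      rw [hGf, BL_apply]
      show inner ℝ (μ • z) (μ • z) - (μ * r ^ 2 * (μ * r ^ 2) + μ * 0 * (μ * 0)) = _
      rw [inner_smul_left, inner_smul_right, hzz, mul_pow, mul_pow, hs2]
      simp
      ring
    rw [e3, Real.sqrt_sq (by positivity)]
  obtain ⟨ν, hν⟩ : ∃ ν, ν = nu (BL E) (GG j ρ) (io z) := ⟨_, rfl⟩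
  obtain ⟨N, hN⟩ : ∃ N, N = NN (BL E) (GG j ρ) (io z) := ⟨_, rfl⟩
  have hνe : ν = (r * s)⁻¹ • ((r ^ 2 : ℝ), (0 : ℝ), z) := by
    rw [hν]
    unfold nu
    rw [hrr, hGf, smul_smul]
    congr 1
    field_simp
  have hJν : JL j ν = (r * s)⁻¹ • ((0 : ℝ), (r ^ 2 : ℝ), j z) := by
    rw [hνe, map_smul, JL_apply]
    simp
  have hq : ∀ {v : ℝ × ℝ × E}, BL E v ν = 0 →
      BL E (N v) v = (μ * r * s)⁻¹ * BL E (fderiv ℝ (GG j ρ) (io z) v) v := by
    intro v hv
    rw [hν] at hv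
    rw [hN, N_DG hj hs h1 hr hv, hrr]
  have hqw : ∀ {w : E}, inner ℝ z w = 0 → r⁻¹ * ‖w‖ ^ 2 ≤ s * BL E (N (0, 0, w)) (0, 0, w) := by
    intro w hw
    have hv : BL E ((0 : ℝ), (0 : ℝ), w) ν = 0 := by
      rw [hνe, map_smul, BL_apply]
      show (r * s)⁻¹ • (inner ℝ w z - (0 * r ^ 2 + 0 * 0)) = 0
      rw [real_inner_comm, hw]
      simp
    rw [hq hv, DG_w hj hs h1 hr w]
    have h3 := hsec hw
    rw [hμz, ← hrz] at h3
    have h4 : μ * ‖w‖ ^ 2 ≤ fderiv ℝ (fderiv ℝ ρ) z w w := by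
      have h5 : r ^ 2 * (μ * ‖w‖ ^ 2) ≤ r ^ 2 * fderiv ℝ (fderiv ℝ ρ) z w w := by
        calc r ^ 2 * (μ * ‖w‖ ^ 2) = μ * r ^ 2 * ‖w‖ ^ 2 := by ring
          _ ≤ _ := h3
      exact le_of_mul_le_mul_left h5 (by positivity)
    have h6 : s * ((μ * r * s)⁻¹ * fderiv ℝ (fderiv ℝ ρ) z w w) =
        (μ * r)⁻¹ * fderiv ℝ (fderiv ℝ ρ) z w w := by
      field_simp
    rw [h6]
    have h7 : r⁻¹ * ‖w‖ ^ 2 = (μ * r)⁻¹ * (μ * ‖w‖ ^ 2) := by
      field_simp
    rw [h7]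
    exact mul_le_mul_of_nonneg_left h4 (by positivity)
  have hNp := hP
  rw [← hν, ← hN] at hNp
  -- the trace
  have htr : mc j ρ z = ∑ i, s * BL E (N (e i)) (e i) := by
    have h2 : mc j ρ z = LinearMap.trace ℝ _ (NN (BL E) (GG j ρ) (s⁻¹ • io z) :
        (ℝ × ℝ × E) →ₗ[ℝ] (ℝ × ℝ × E)) := by
      unfold mc
      rw [e2, ← hrz, ← hsd]
      have h6 : ((s • NN (BL E) (GG j ρ) (io z) : (ℝ × ℝ × E) →L[ℝ] (ℝ × ℝ × E)) :
          (ℝ × ℝ × E) →ₗ[ℝ] (ℝ × ℝ × E)) =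
          s • (NN (BL E) (GG j ρ) (io z) : (ℝ × ℝ × E) →ₗ[ℝ] (ℝ × ℝ × E)) := rfl
      rw [h6, map_smul, smul_eq_mul]
    rw [h2, Fr.trace hH he (NN (BL E) (GG j ρ) (s⁻¹ • io z)), hP'.Nx, hP'.Njx, hP'.Nn, hH.inv,
      hH.symm (nu (BL E) (GG j ρ) (s⁻¹ • io z)), hP'.xn, e2]
    simp only [map_zero, zero_apply, neg_zero, sub_zero, zero_add]
    refine Finset.sum_congr rfl fun i _ => ?_
    rw [← hN]
    simp only [smul_apply, map_smul, smul_eq_mul]
  have hdim : (Module.finrank ℝ E : ℝ) = d + 2 := by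
    have h := Fr.trace hH he (ContinuousLinearMap.id ℝ (ℝ × ℝ × E))
    have h3 : LinearMap.trace ℝ (ℝ × ℝ × E) ((ContinuousLinearMap.id ℝ (ℝ × ℝ × E) :
        (ℝ × ℝ × E) →L[ℝ] (ℝ × ℝ × E)) : (ℝ × ℝ × E) →ₗ[ℝ] (ℝ × ℝ × E)) =
        (Module.finrank ℝ (ℝ × ℝ × E) : ℝ) := by
      rw [ContinuousLinearMap.coe_id, LinearMap.trace_id]
    have h4 : ∑ i : Option (Fin d), BL E (ContinuousLinearMap.id ℝ (ℝ × ℝ × E) (e i)) (e i) =
        (d : ℝ) + 1 := by
      have h5 : ∀ i : Option (Fin d), BL E (ContinuousLinearMap.id ℝ (ℝ × ℝ × E) (e i)) (e i) = 1 :=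
        fun i => by rw [ContinuousLinearMap.id_apply, he.on i i, if_pos rfl]
      rw [Finset.sum_congr rfl (fun i _ => h5 i)]
      simp [Fintype.card_option]
    rw [h3, h4, Module.finrank_prod, Module.finrank_prod, Module.finrank_self] at h
    simp only [ContinuousLinearMap.id_apply] at h
    rw [hH.inv, hxx, hP'.nn] at h
    push_cast at h
    linarith
  -- the vectors `e (some i)`
  have hsome : ∀ i : Fin d, r⁻¹ ≤ s * BL E (N (e (some i))) (e (some i)) := by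
    intro i
    have g1 := (he.hz (some i)).1
    have g2 := (he.hz (some i)).2.1
    have g3 := (he.hz (some i)).2.2
    have g4 := he.on (some i) none
    have g5 := he.on (some i) (some i)
    rw [he.xi, e1, ← hν, hJν, if_neg (by simp)] at g4
    rw [e1, ← hν, hνe] at g3
    rw [if_pos rfl] at g5
    generalize e (some i) = v at g1 g2 g3 g4 g5 ⊢
    obtain ⟨a, b, w⟩ := v
    rw [map_smul, smul_eq_mul, mul_eq_zero] at g1
    replace g1 := g1.resolve_left (inv_pos.2 hs0).ne'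
    rw [map_smul, map_smul, smul_eq_mul, mul_eq_zero] at g2
    replace g2 := g2.resolve_left (inv_pos.2 hs0).ne'
    have hrs : (r * s)⁻¹ ≠ 0 := by positivity
    rw [map_smul, smul_eq_mul, mul_eq_zero] at g3 g4
    replace g3 := g3.resolve_left hrs
    replace g4 := g4.resolve_left hrs
    rw [BL_apply] at g1 g2 g3 g4 g5
    replace g1 : inner ℝ w z - (a * 1 + b * 0) = 0 := g1
    replace g2 : inner ℝ w (j z) - (a * -0 + b * 1) = 0 := g2
    replace g3 : inner ℝ w z - (a * r ^ 2 + b * 0) = 0 := g3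
    replace g4 : inner ℝ w (j z) - (a * 0 + b * r ^ 2) = 0 := g4
    replace g5 : inner ℝ w w - (a * a + b * b) = 1 := g5
    have ha : a = 0 := by
      have h6 : a * (1 - r ^ 2) = 0 := by linarith
      exact (mul_eq_zero.1 h6).resolve_right hS.ne'
    have hb : b = 0 := by
      have h6 : b * (1 - r ^ 2) = 0 := by linarith
      exact (mul_eq_zero.1 h6).resolve_right hS.ne'
    subst ha hb
    have hw : inner ℝ z w = 0 := by
      rw [real_inner_comm]
      linarith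
    have hw1 : ‖w‖ ^ 2 = 1 := by
      rw [← real_inner_self_eq_norm_sq]
      linarith
    have h7 := hqw hw
    rw [hw1, mul_one] at h7
    exact h7
  -- the vector `J ν`
  have hnone : (1 + r ^ 2) / r ≤ s * BL E (N (e none)) (e none) := by
    rw [he.xi, e1, ← hν]
    obtain ⟨p, hp⟩ : ∃ p : ℝ × ℝ × E, p = ((0 : ℝ), (0 : ℝ), j z) := ⟨_, rfl⟩
    have hdec : JL j ν = (s / r) • p + (r / s) • JL j (io z) := by
      rw [hJν, hp, JL_apply]
      refine Prod.ext ?_ (Prod.ext ?_ ?_)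
      · simp [io]
      · show (r * s)⁻¹ * r ^ 2 = (s / r) * 0 + (r / s) * 1
        field_simp
        ring
      · show (r * s)⁻¹ • j z = (s / r) • j z + (r / s) • j z
        rw [← add_smul]
        congr 1
        field_simp
        linarith
    have hJνν : BL E ν (JL j ν) = 0 := by
      have h2 := hH.inv ν (JL j ν)
      rw [hH.jj, map_neg, hH.symm (JL j ν) ν] at h2
      linarith
    have hpν : BL E ν p = 0 := by
      rw [hνe, hp, map_smul, smul_apply, BL_apply]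
      show (r * s)⁻¹ • (inner ℝ z (j z) - (r ^ 2 * 0 + 0 * 0)) = 0
      rw [hzj]
      simp
    have k1 : BL E (N (JL j ν)) (JL j (io z)) = 1 := by
      rw [hNp.NJX, hH.jj, map_neg, neg_neg, hNp.nn]
    have k2 : BL E (N p) (JL j (io z)) = r / s := by
      rw [hNp.NJX, hp, JL_apply, hνe, map_smul, smul_apply, BL_apply]
      show -((r * s)⁻¹ • (inner ℝ z (j (j z)) - (r ^ 2 * -0 + 0 * 0))) = r / s
      rw [hj.jj, inner_neg_right, hzz, smul_eq_mul]
      field_simp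
      ring
    have k3 : BL E (N (JL j ν)) p = BL E (N p) (JL j ν) := hNp.sy _ _ hJνν hpν
    have k4 : r⁻¹ * r ^ 2 ≤ s * BL E (N p) p := by
      have h2 := hqw (w := j z) hzj
      rw [← real_inner_self_eq_norm_sq, hjj, ← hp] at h2
      exact h2
    have k5 : BL E (N p) (JL j ν) = (s / r) * BL E (N p) p + (r / s) * (r / s) := by
      conv_lhs => rw [hdec]
      rw [map_add, map_smul, map_smul, smul_eq_mul, smul_eq_mul, k2]
    have k6 : BL E (N (JL j ν)) (JL j ν) =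
        (s / r) * ((s / r) * BL E (N p) p + (r / s) * (r / s)) + (r / s) * 1 := by
      have h2 : BL E (N (JL j ν)) (JL j ν) =
          (s / r) * BL E (N (JL j ν)) p + (r / s) * BL E (N (JL j ν)) (JL j (io z)) := by
        have h3 := congrArg (BL E (N (JL j ν))) hdec
        rwa [map_add, map_smul, map_smul, smul_eq_mul, smul_eq_mul] at h3
      rw [h2, k1, k3, k5]
    have k7 : s * BL E (N (JL j ν)) (JL j ν) = (s / r) ^ 2 * (s * BL E (N p) p) + 2 * r := by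
      rw [k6]
      field_simp
      ring
    have k8 : (1 + r ^ 2) / r = (s / r) ^ 2 * (r⁻¹ * r ^ 2) + 2 * r := by
      rw [div_pow, hs2]
      field_simp
      ring
    rw [k7, k8]
    have k9 : 0 ≤ (s / r) ^ 2 := by positivity
    have := mul_le_mul_of_nonneg_left k4 k9
    linarith
  rw [htr, hdim, Fintype.sum_option]
  have h8 : (d : ℝ) ≤ ∑ i : Fin d, s * BL E (N (e (some i))) (e (some i)) := by
    have h9 : ∀ i : Fin d, (1 : ℝ) ≤ s * BL E (N (e (some i))) (e (some i)) := by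
      intro i
      refine le_trans ?_ (hsome i)
      exact (one_le_inv₀ hr0).2 hr1.le
    have h10 := Finset.sum_le_sum (fun (i : Fin d) (_ : i ∈ Finset.univ) => h9 i)
    simpa using h10
  have h9 : (2 : ℝ) < (1 + r ^ 2) / r := by
    rw [lt_div_iff₀ hr0]
    nlinarith [sq_pos_of_pos (sub_pos.2 hr1)]
  linarith

end Pool.Agent.Helper77.JH.CH
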