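import Pool.Agent.Helper77.JH.C2

/-! # JH: regularity and horizontality of the field on the cone -/

set_option autoImplicit false
set_option linter.unusedSectionVars false
set_option linter.unusedVariables false

namespace Pool.Agent.Helper77.JH

open Pool.Agent.Helper77.JE (Hf Pt Gd rr nu NN tt xs SS)

variable {L : Type*} [NormedAddCommGroup L] [NormedSpace ℝ L]
variable {ι : Type*} [Fintype ι] [DecidableEq ι] {κ : Type*} [Fintype κ] [DecidableEq κ]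
variable {B : L →L[ℝ] L →L[ℝ] ℝ} {J : ι → L →L[ℝ] L} {c : ι → ι → ι → ℝ} {lam M : ℝ} {g : L → L}
variable {U : Set L} {Gp : L →L[ℝ] L} {X : L} {e : κ ⊕ ι → L}

private theorem c12_bil {f h : L → L} (hf : ContDiffOn ℝ 1 f U) (hh : ContDiffOn ℝ 1 h U) :
    ContDiffOn ℝ 1 (fun Z => B (f Z) (h Z)) U :=
  (B.contDiff.comp_contDiffOn hf).clm_apply hh

private theorem c12_lin (A : L →L[ℝ] L) {f : L → L} (hf : ContDiffOn ℝ 1 f U) :
    ContDiffOn ℝ 1 (fun Z => A (f Z)) U := A.contDiff.comp_contDiffOn hf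

private theorem c12_rk {f h : L → L} (hf : ContDiffOn ℝ 1 f U) (hh : ContDiffOn ℝ 1 h U) :
    ContDiffOn ℝ 1 (fun Z => (B (f Z)).smulRight (h Z)) U :=
  (B.contDiff.comp_contDiffOn hf).smulRight hh

/-- piece `JH-C12` (a): compare `Gd.VV_c1` in Helper77/JE/Cal.lean -/
theorem VQ_c1 [Nonempty ι] (hG : ∀ i, Gd B (J i) U g) (hH : Hq B J c) (lam M : ℝ) (Gp : L →L[ℝ] L) :
    ContDiffOn ℝ 1 (VQ B J lam M g Gp) U := by
  obtain ⟨i0⟩ := (inferInstance : Nonempty ι)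
  have hg := hG i0
  have ht : ContDiffOn ℝ 1 (tt B) U := (c12_bil (B := B) contDiffOn_id contDiffOn_id).neg
  have htp : ∀ Z ∈ U, 0 < tt B Z := fun Z hZ => neg_pos.2 (hg.neg Z hZ)
  have hst : ContDiffOn ℝ 1 (fun Z => √(tt B Z)) U := ht.sqrt fun Z hZ => (htp Z hZ).ne'
  have hx : ContDiffOn ℝ 1 (xs B) U :=
    (hst.inv fun Z hZ => (Real.sqrt_pos.2 (htp Z hZ)).ne').smul contDiffOn_id
  have hν : ContDiffOn ℝ 1 (nu B g) U := hg.nu_c2.of_le (by norm_num)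
  have hr : ContDiffOn ℝ 1 (rr B g) U := hg.rr_c2.of_le (by norm_num)
  have hS : ContDiffOn ℝ 1 (SS B g) U := hst.smul hg.NN_c1
  have hJν : ∀ i, ContDiffOn ℝ 1 (fun Z => J i (nu B g Z)) U := fun i => c12_lin (J i) hν
  have hJx : ∀ i, ContDiffOn ℝ 1 (fun Z => J i (xs B Z)) U := fun i => c12_lin (J i) hx
  have hT : ContDiffOn ℝ 1 (TT B J lam g) U := by
    have h1 : ContDiffOn ℝ 1 (fun Z => ∑ i, (B (J i (nu B g Z))).smulRight (J i (xs B Z))) U :=
      ContDiffOn.sum fun i _ => c12_rk (hJν i) (hJx i)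
    have h2 : ContDiffOn ℝ 1 (fun Z => ∑ i, (B (J i (nu B g Z))).smulRight (J i (nu B g Z))) U :=
      ContDiffOn.sum fun i _ => c12_rk (hJν i) (hJν i)
    exact ((hS.add h1).sub contDiffOn_const).sub (h2.const_smul lam⁻¹)
  have hn : ContDiffOn ℝ 1 (nv B lam g) U := hν.sub (hx.const_smul lam)
  have hGn : ContDiffOn ℝ 1 (fun Z => Gp (nv B lam g Z)) U := c12_lin Gp hn
  have hA : ContDiffOn ℝ 1 (AA B lam g Gp) U := (c12_bil (c12_lin Gp hν) hn).neg
  have hR : ContDiffOn ℝ 1 (RR B lam g Gp) U := c12_bil hGn hn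
  have hW : ContDiffOn ℝ 1 (WW B J lam g Gp) U := by
    have h1 : ContDiffOn ℝ 1 (fun Z => ∑ i, B (Gp (nv B lam g Z)) (J i (xs B Z)) • J i (xs B Z)) U :=
      ContDiffOn.sum fun i _ => (c12_bil hGn (hJx i)).smul (hJx i)
    exact ((hGn.add ((c12_bil hGn hx).smul hx)).add h1).add (hA.smul hν)
  have hph : ∀ (i : ι) (Y : L → L), ContDiffOn ℝ 1 Y U → ContDiffOn ℝ 1 (ph B J g i Y) U :=
    fun i Y hY => (c12_lin (J i) hY).add ((c12_bil hY (hJν i)).smul hν)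
  have hb : ContDiffOn ℝ 1 (bt B lam g Gp) U := by
    have h1 : ContDiffOn ℝ 1 (fun Z => (RR B lam g Gp Z - lam ^ 2) * 2⁻¹) U :=
      (hR.sub contDiffOn_const).mul contDiffOn_const
    exact h1
  have hc : ContDiffOn ℝ 1 (cc0 B lam g Gp) U := by
    have h1 : ContDiffOn ℝ 1 (fun Z => ((lam ^ 2 - 1) * AA B lam g Gp Z - RR B lam g Gp Z) * (lam ^ 2)⁻¹) U :=
      ((contDiffOn_const.mul hA).sub hR).mul contDiffOn_const
    exact h1
  have hTx : ∀ i, ContDiffOn ℝ 1 (fun Z => TT B J lam g Z (xi B J g i Z)) U :=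
    fun i => hT.clm_apply (hJν i)
  have h1 : ContDiffOn ℝ 1 (G1 B J lam g Gp) U := hT.clm_apply hW
  have h2 : ContDiffOn ℝ 1 (G2 B J lam g Gp) U :=
    ContDiffOn.sum fun i _ => (contDiffOn_const.mul (c12_bil hW (hJν i))).smul (hTx i)
  have h3 : ContDiffOn ℝ 1 (G3 B J lam g Gp) U :=
    ContDiffOn.sum fun i _ => hph i _ (hT.clm_apply (hph i _ hW))
  have h4 : ContDiffOn ℝ 1 (G4 B J lam g Gp) U := by
    have h5 : ContDiffOn ℝ 1 (fun Z => ∑ i, B (TT B J lam g Z (xi B J g i Z)) (WW B J lam g Gp Z) •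
        xi B J g i Z) U := ContDiffOn.sum fun i _ => (c12_bil (hTx i) hW).smul (hJν i)
    have h6 : ContDiffOn ℝ 1 (fun Z => ∑ i, B (TT B J lam g Z (xi B J g i Z)) (xi B J g i Z)) U :=
      ContDiffOn.sum fun i _ => c12_bil (hTx i) (hJν i)
    exact h5.sub (h6.smul hW)
  have h5 : ContDiffOn ℝ 1 (G5 B J lam g) U := ContDiffOn.sum fun i _ => hph i _ (hTx i)
  exact (ht.mul hr).smul
    ((((((contDiffOn_const.add (contDiffOn_const.mul hb)).smul h1).add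
      ((contDiffOn_const.add (contDiffOn_const.mul hb)).smul h2)).sub
      ((contDiffOn_const.add (contDiffOn_const.mul hb)).smul h3)).add (hb.smul h4)).add
      ((hb.mul hc).smul h5))

/-- (b): `TT_hz`, `WW_hz`, `xi_hz`, `ph_hz` -/
theorem VQ_hz [Nonempty ι] (hG : ∀ i, Gd B (J i) U g) (hH : Hq B J c) (lam M : ℝ) (gs : Gs B J Gp) {Z : L}
    (hZ : Z ∈ U) : HzQ B J Z (nu B g Z) (VQ B J lam M g Gp Z) := by
  have hW := WW_hz hG hH lam gs hZ
  have hx := fun i => xi_hz hG hH hZ i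
  have hTx := fun i => TT_hz hG hH lam hZ (hx i)
  have h1 : HzQ B J Z (nu B g Z) (G1 B J lam g Gp Z) := TT_hz hG hH lam hZ hW
  have h2 : HzQ B J Z (nu B g Z) (G2 B J lam g Gp Z) := HzQ.sum fun i => (hTx i).smul _
  have h3 : HzQ B J Z (nu B g Z) (G3 B J lam g Gp Z) :=
    HzQ.sum fun i => ph_hz hG hH hZ i (TT_hz hG hH lam hZ (ph_hz hG hH hZ i hW))
  have h4 : HzQ B J Z (nu B g Z) (G4 B J lam g Gp Z) := by
    have h5 : HzQ B J Z (nu B g Z) (∑ i, B (TT B J lam g Z (xi B J g i Z)) (WW B J lam g Gp Z) •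
        xi B J g i Z) := HzQ.sum fun i => (hx i).smul _
    have h6 := h5.add (hW.smul (-(∑ i, B (TT B J lam g Z (xi B J g i Z)) (xi B J g i Z))))
    rw [neg_smul, ← sub_eq_add_neg] at h6
    exact h6
  have h5 : HzQ B J Z (nu B g Z) (G5 B J lam g Z) := HzQ.sum fun i => ph_hz hG hH hZ i (hTx i)
  have h6 := (((((h1.smul (M * lam ^ 2 - ((Fintype.card ι : ℝ) - 1) / 2 +
      (M * (lam ^ 2 - 1) + ((Fintype.card ι : ℝ) - 1) / (2 * lam ^ 2)) * bt B lam g Gp Z)).add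
    (h2.smul (lam + ((Fintype.card ι : ℝ) - 1) / lam * bt B lam g Gp Z))).add
    (h3.smul (-(1 + (lam ^ 2 - 1) / lam ^ 2 * bt B lam g Gp Z)))).add (h4.smul (bt B lam g Gp Z))).add
    (h5.smul (bt B lam g Gp Z * cc0 B lam g Gp Z))).smul (tt B Z * rr B g Z)
  rw [neg_smul, ← sub_eq_add_neg] at h6
  exact h6

end Pool.Agent.Helper77.JH
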