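import Pool.Agent.Helper77.JH.K0
import Pool.Agent.Helper77.JH.C12
import Pool.Agent.Helper77.JE.Fin

/-! # JH, complex hyperbolic space: the hypotheses and the field on the ball -/

set_option autoImplicit false
set_option linter.unusedSectionVars false
set_option linter.unusedVariables false

open Filter Topology Set
open scoped ContDiff

namespace Pool.Agent.Helper77.JH.CH

open Pool.Agent.Helper77.JE
open Pool.Agent.Helper77.JH (HzQ TT VQ GpO JU Rq)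
open Pool.Agent.Helper41.ALX (divg Vertical ballMetric meanCurv PC bergman vertical_PC bergman_eq
  radial)

variable {E : Type*} [NormedAddCommGroup E] [InnerProductSpace ℝ E] [FiniteDimensional ℝ E]

/-- the hypotheses -/
structure Hy (j : E →L[ℝ] E) (ρ : E → ℝ) (n : ℕ) (lam : ℝ) (p : ℝ × ℝ × E) : Prop where
  cj : Cj j
  dim : Module.finrank ℝ E = 2 * n
  two : 2 ≤ n
  one : 1 < lam
  smooth : ContDiffOn ℝ 3 ρ (Metric.ball 0 1)
  reg : ∀ z : E, ‖z‖ < 1 → ρ z = 0 → fderiv ℝ ρ z ≠ 0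
  curv : ∀ z : E, ‖z‖ < 1 → ρ z = 0 → mc j ρ z = (2 * n - 1) * lam + lam⁻¹
  pp : BL E p p = -1
  cen : ∀ z : E, ‖z‖ < 1 → ρ z = 0 →
    BL E p (nu (BL E) (GG j ρ) (io z) - xs (BL E) (io z)) ^ 2 +
      BL E (JL j p) (nu (BL E) (GG j ρ) (io z) - xs (BL E) (io z)) ^ 2 ≤ 1

variable {j : E →L[ℝ] E} {ρ : E → ℝ} {n : ℕ} {lam : ℝ} {p : ℝ × ℝ × E}

/-- the field on the ball; `M = n` -/
noncomputable def fu (j : E →L[ℝ] E) (ρ : E → ℝ) (n : ℕ) (lam : ℝ) (p : ℝ × ℝ × E) (z : E) : E :=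
  ((1 - ‖z‖ ^ 2) ^ (n + 1))⁻¹ •
    dn j (VQ (BL E) (JU (JL j)) lam n (GG j ρ) (GpO (BL E) (JU (JL j)) p)) z

/-- piece `JH-K1` (a): compare `oo_open`, `io_UU` in Helper77/JE/Fin.lean -/
theorem oo_open (h : Hy j ρ n lam p) : IsOpen (OO ρ) := by
  have h1 : ContinuousOn (fderiv ℝ ρ) (Metric.ball (0 : E) 1) :=
    (h.smooth.fderiv_of_isOpen (m := 2) Metric.isOpen_ball (by norm_num)).continuousOn
  have h2 := h1.isOpen_inter_preimage Metric.isOpen_ball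
    (isOpen_compl_singleton (x := (0 : E →L[ℝ] ℝ)))
  have h3 : OO ρ = Metric.ball (0 : E) 1 ∩ fderiv ℝ ρ ⁻¹' {(0 : E →L[ℝ] ℝ)}ᶜ := by
    ext z
    simp [OO]
  rw [h3]
  exact h2

theorem io_UU (h : Hy j ρ n lam p) {z : E} (hz : z ∈ OO ρ) : io z ∈ UU j ρ := by
  refine ⟨?_, ?_⟩
  · rw [BL_apply]
    simp only [io]
    rw [real_inner_self_eq_norm_sq]
    have h1 := hz.1
    have := norm_nonneg z
    nlinarith
  · rw [pr_io]
    exact hz.2

/-- (b): `VQ_c1` (C12); compare `fu_c1` in Helper77/JE/Fin.lean and in Helper77/JH/E1.lean -/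
theorem fu_c1 (h : Hy j ρ n lam p) : ContDiffOn ℝ 1 (fu j ρ n lam p) (OO ρ) := by
  have hG : ∀ i, Gd (BL E) (JU (JL j) i) (UU j ρ) (GG j ρ) := fun _ => gdL h.cj h.smooth
  have hH := Pool.Agent.Helper77.JH.hq_unit (hfL h.cj)
  have hio : ContDiff ℝ 1 (fun z : E => (io z : ℝ × ℝ × E)) := by
    unfold io
    fun_prop
  have hV : ContDiffOn ℝ 1 (fun z : E => VQ (BL E) (JU (JL j)) lam n (GG j ρ)
      (GpO (BL E) (JU (JL j)) p) (io z)) (OO ρ) :=
    (Pool.Agent.Helper77.JH.VQ_c1 hG hH lam n (GpO (BL E) (JU (JL j)) p)).comp hio.contDiffOn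
      fun z hz => io_UU h hz
  have h1 : ContDiffOn ℝ 1 (fun z : E => (VQ (BL E) (JU (JL j)) lam n (GG j ρ)
      (GpO (BL E) (JU (JL j)) p) (io z)).1) (OO ρ) := contDiff_fst.comp_contDiffOn hV
  have h2 : ContDiffOn ℝ 1 (fun z : E => (VQ (BL E) (JU (JL j)) lam n (GG j ρ)
      (GpO (BL E) (JU (JL j)) p) (io z)).2) (OO ρ) := contDiff_snd.comp_contDiffOn hV
  have h3 : ContDiffOn ℝ 1 (fun z : E => (VQ (BL E) (JU (JL j)) lam n (GG j ρ)
      (GpO (BL E) (JU (JL j)) p) (io z)).2.1) (OO ρ) := contDiff_fst.comp_contDiffOn h2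
  have h4 : ContDiffOn ℝ 1 (fun z : E => (VQ (BL E) (JU (JL j)) lam n (GG j ρ)
      (GpO (BL E) (JU (JL j)) p) (io z)).2.2) (OO ρ) := contDiff_snd.comp_contDiffOn h2
  have h5 : ContDiffOn ℝ 1 (fun z : E => ((1 - ‖z‖ ^ 2) ^ (n + 1))⁻¹) (OO ρ) := by
    refine ContDiffOn.inv ?_ fun z hz => ?_
    · exact ((contDiff_const.sub (contDiff_norm_sq ℝ)).pow (n + 1)).contDiffOn
    · have h6 := hz.1
      have h7 := norm_nonneg z
      have h8 : 0 < 1 - ‖z‖ ^ 2 := by nlinarith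
      exact (pow_pos h8 _).ne'
  have h6 : ContDiffOn ℝ 1 (fun z : E => j z) (OO ρ) := j.contDiff.contDiffOn
  exact h5.smul ((h4.sub (h1.smul contDiffOn_id)).sub (h3.smul h6))

/-- (c): `VQ_hz` (C12); compare `fu_tan` in Helper77/JE/Fin.lean and in Helper77/JH/E1.lean -/
theorem fu_tan (h : Hy j ρ n lam p) {z : E} (hz : z ∈ OO ρ) :
    fderiv ℝ ρ z (fu j ρ n lam p z) = 0 := by
  have hG : ∀ i, Gd (BL E) (JU (JL j) i) (UU j ρ) (GG j ρ) := fun _ => gdL h.cj h.smooth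
  have hH := Pool.Agent.Helper77.JH.hq_unit (hfL h.cj)
  have hX := io_UU h hz
  have hV := (Pool.Agent.Helper77.JH.VQ_hz (M := (n : ℝ)) hG hH lam
    (Pool.Agent.Helper77.JH.gs_GpO hH p) hX).2.2
  have hr := (hG ()).rr_pos hX
  have hX0 : (io z : ℝ × ℝ × E).1 ^ 2 + (io z : ℝ × ℝ × E).2.1 ^ 2 ≠ 0 := by simp [io]
  have g1 : HasFDerivAt (pr j) (fderiv ℝ (pr j) (io z)) (io z) :=
    ((pr_smooth j hX0).differentiableAt (by simp)).hasFDerivAt
  have g2 : HasFDerivAt ρ (fderiv ℝ ρ z) (pr j (io z)) := by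
    rw [pr_io]
    exact ((h.smooth.contDiffAt (Metric.isOpen_ball.mem_nhds
      (mem_ball_zero_iff.2 hz.1))).differentiableAt (by norm_num)).hasFDerivAt
  have g3 : fderiv ℝ (ff j ρ) (io z) = (fderiv ℝ ρ z).comp (fderiv ℝ (pr j) (io z)) :=
    (g2.comp (io z) g1).fderiv
  unfold nu at hV
  rw [map_smul, smul_eq_mul] at hV
  have hV2 := (mul_eq_zero.1 hV).resolve_left (inv_pos.2 hr).ne'
  rw [hH.symm, GG_B, g3, ContinuousLinearMap.comp_apply, Dpr_io h.cj] at hV2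
  unfold fu
  rw [map_smul, smul_eq_mul]
  unfold dn
  rw [hV2, mul_zero]

end Pool.Agent.Helper77.JH.CH
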