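import Pool.Agent.Helper77.JH.Dat

/-! # JH: traces -/

set_option autoImplicit false
set_option linter.unusedSectionVars false
set_option linter.unusedVariables false

namespace Pool.Agent.Helper77.JH

variable {H : Type*} [NormedAddCommGroup H] [InnerProductSpace ℝ H] [FiniteDimensional ℝ H]
variable {ι : Type*} [Fintype ι] [DecidableEq ι]

/-- piece `JH-A1` (a): the trace of a rank one map (`Helper77/JE/Cal.lean` and `Lift.lean` have private versions:
`trace_smulRight_aux`, `tr_sm_h85`) -/
theorem tr_smulRight (f : H →ₗ[ℝ] ℝ) (w : H) : LinearMap.trace ℝ H (f.smulRight w) = f w := by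
  have h : f.smulRight w = dualTensorHom ℝ H H (f ⊗ₜ[ℝ] w) := by
    ext u
    simp [dualTensorHom_apply]
  rw [h, LinearMap.trace_eq_contract_apply, contractLeft_apply]

theorem tr_rank (v w : H) : LinearMap.trace ℝ H ((innerₛₗ ℝ v).smulRight w) = inner ℝ v w := by
  rw [tr_smulRight]
  rfl

theorem tr_smJ (s : SJ H) (Y : VJ H) :
    LinearMap.trace ℝ H (smJ s Y).2 = s.2 Y.1 + s.1 * LinearMap.trace ℝ H Y.2 := by
  have h : (smJ s Y).2 = s.2.smulRight Y.1 + s.1 • Y.2 := rfl
  rw [h, map_add, map_smul, tr_smulRight, smul_eq_mul]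

/-- (b): the trace of the transpose (`LinearMap.trace_eq_sum_inner` with `stdOrthonormalBasis ℝ H`) -/
theorem tr_transpose {f g : H →ₗ[ℝ] H} (h : ∀ u v, inner ℝ (f u) v = inner ℝ u (g v)) :
    LinearMap.trace ℝ H f = LinearMap.trace ℝ H g := by
  rw [LinearMap.trace_eq_sum_inner f (stdOrthonormalBasis ℝ H),
    LinearMap.trace_eq_sum_inner g (stdOrthonormalBasis ℝ H)]
  refine Finset.sum_congr rfl fun i _ => ?_
  rw [← h, real_inner_comm]

/-- (c): a linear function is the sum of its values: `∑ ⟪v, e⟫ f e = f v` for an orthonormal basis -/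
theorem sum_onb {κ' : Type*} [Fintype κ'] (e : OrthonormalBasis κ' ℝ H) (f : H →ₗ[ℝ] ℝ) (v : H) :
    ∑ i, inner ℝ v (e i) * f (e i) = f v := by
  conv_rhs => rw [← e.sum_repr' v, map_sum]
  refine Finset.sum_congr rfl fun i _ => ?_
  rw [map_smul, smul_eq_mul, real_inner_comm]

end Pool.Agent.Helper77.JH
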