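import Pool.Agent.Helper77.JH.A1

/-! # JH: rules, consequences -/

set_option autoImplicit false
set_option linter.unusedSectionVars false
set_option linter.unusedVariables false

namespace Pool.Agent.Helper77.JH

variable {H : Type*} [NormedAddCommGroup H] [InnerProductSpace ℝ H] [FiniteDimensional ℝ H]
variable {ι : Type*} [Fintype ι] [DecidableEq ι] {d : Dat H ι}

/-- piece `JH-A2` (a): `φ_i` times a symmetric map has trace zero (`tr_transpose` and `LinearMap.trace_comp_comm'`) -/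
theorem Rul.tr_phi (h : Rul d) (i : ι) {Y : H →ₗ[ℝ] H}
    (hY : ∀ u v, inner ℝ (Y u) v = inner ℝ u (Y v)) :
    LinearMap.trace ℝ H (d.φ i ∘ₗ Y) = 0 := by
  have h1 : LinearMap.trace ℝ H (d.φ i ∘ₗ Y) = LinearMap.trace ℝ H (-(Y ∘ₗ d.φ i)) := by
    apply tr_transpose
    intro u v
    rw [LinearMap.comp_apply, h.skew, LinearMap.neg_apply, LinearMap.comp_apply, inner_neg_right,
      hY]
  have h2 : LinearMap.trace ℝ H (d.φ i ∘ₗ Y) = LinearMap.trace ℝ H (Y ∘ₗ d.φ i) :=
    (LinearMap.trace_comp_comm' (d.φ i) Y).symm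
  rw [map_neg] at h1
  linarith

/-- (b): `pp`, `trT`, `tr_phi` for `k`, `tr_rank` -/
theorem Rul.tr_pp (h : Rul d) (i j : ι) :
    LinearMap.trace ℝ H (d.φ i ∘ₗ d.φ j ∘ₗ d.T) = inner ℝ (d.T (d.ξ i)) (d.ξ j) := by
  have h1 : d.φ i ∘ₗ d.φ j ∘ₗ d.T = (if i = j then (-1 : ℝ) else 0) • d.T +
      ∑ k, d.c i j k • (d.φ k ∘ₗ d.T) + (innerₛₗ ℝ (d.T (d.ξ j))).smulRight (d.ξ i) := by
    ext v
    simp only [LinearMap.comp_apply, LinearMap.add_apply, LinearMap.smul_apply,
      LinearMap.sum_apply, LinearMap.smulRight_apply, innerₛₗ_apply_apply]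
    rw [h.pp, h.symT]
    congr 2
    split_ifs
    · rw [neg_one_smul]
    · rw [zero_smul]
  rw [h1, map_add, map_add, map_smul, h.trT, smul_zero, zero_add, map_sum, tr_rank,
    Finset.sum_eq_zero, zero_add, h.symT, real_inner_comm]
  intro k _
  rw [map_smul, h.tr_phi k h.symT, smul_zero]

/-- (c): `c i j k = c k i j`, `sq` -/
theorem Rul.sq' (h : Rul d) (k l : ι) :
    ∑ i, ∑ j, d.c i j k * d.c i j l = if k = l then (Fintype.card ι : ℝ) - 1 else 0 := by
  rw [← h.sq k l]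
  refine Finset.sum_congr rfl fun i _ => Finset.sum_congr rfl fun j _ => ?_
  rw [h.as2 i j k, h.as1 i k j, h.as2 i j l, h.as1 i l j, neg_neg, neg_neg]

theorem Rul.c0 (h : Rul d) (i k : ι) : d.c i i k = 0 ∧ d.c i k k = 0 ∧ d.c k i k = 0 := by
  have h1 := h.as1 i i k
  have h2 := h.as2 i k k
  have h3 := h.as1 k i k
  refine ⟨by linarith, by linarith, by linarith⟩

/-- (d) -/
theorem Rul.S_apply (h : Rul d) (u : H) :
    d.S u = d.T u + d.lam • u + d.lam⁻¹ • ∑ i, inner ℝ (d.ξ i) u • d.ξ i := by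
  unfold Dat.S
  simp only [LinearMap.add_apply, LinearMap.smul_apply, LinearMap.id_apply,
    LinearMap.sum_apply, LinearMap.smulRight_apply, innerₛₗ_apply_apply]

theorem Rul.S_xi (h : Rul d) (i : ι) : d.S (d.ξ i) = d.T (d.ξ i) + (d.lam + d.lam⁻¹) • d.ξ i := by
  rw [h.S_apply, add_smul, add_assoc, Finset.sum_eq_single i]
  · rw [h.on, if_pos rfl, one_smul]
  · intro j _ hj
    rw [h.on, if_neg hj, zero_smul]
  · intro hi
    exact absurd (Finset.mem_univ i) hi

theorem Rul.S_symm (h : Rul d) (u v : H) : inner ℝ (d.S u) v = inner ℝ u (d.S v) := by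
  rw [h.S_apply, h.S_apply]
  simp only [inner_add_left, inner_add_right, real_inner_smul_left, real_inner_smul_right,
    sum_inner, inner_sum]
  rw [h.symT]
  congr 2
  refine Finset.sum_congr rfl fun i _ => ?_
  rw [real_inner_comm u (d.ξ i)]
  ring

theorem Rul.tr_S (h : Rul d) {M : ℝ} (hM : (Module.finrank ℝ H : ℝ) = 2 * M - 1) :
    LinearMap.trace ℝ H d.S = (2 * M - 1) * d.lam + (Fintype.card ι : ℝ) * d.lam⁻¹ := by
  unfold Dat.S
  rw [map_add, map_add, map_smul, map_smul, map_sum, h.trT, zero_add, LinearMap.trace_id, hM]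
  have h1 : ∑ i, LinearMap.trace ℝ H ((innerₛₗ ℝ (d.ξ i)).smulRight (d.ξ i)) =
      (Fintype.card ι : ℝ) := by
    rw [Finset.sum_congr rfl fun i _ => (tr_rank (d.ξ i) (d.ξ i)).trans
      ((h.on i i).trans (if_pos rfl))]
    simp
  rw [h1, smul_eq_mul, smul_eq_mul]
  ring

/-- (e): a sum over `i j` of `c i j k` times something symmetric in `i j` is zero -/
theorem Rul.anti (h : Rul d) (k : ι) (s : ι → ι → ℝ) (hs : ∀ i j, s i j = s j i) :
    ∑ i, ∑ j, d.c i j k * s i j = 0 := by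
  have h1 : ∑ i, ∑ j, d.c i j k * s i j = -∑ i, ∑ j, d.c i j k * s i j := by
    conv_lhs => rw [Finset.sum_comm]
    rw [← Finset.sum_neg_distrib]
    refine Finset.sum_congr rfl fun i _ => ?_
    rw [← Finset.sum_neg_distrib]
    refine Finset.sum_congr rfl fun j _ => ?_
    rw [h.as1 j i k, hs j i]
    ring
  linarith

end Pool.Agent.Helper77.JH
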