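import Pool.Agent.Helper77.JH.A2

/-! # JH: the divergence of T -/

set_option autoImplicit false
set_option linter.unusedSectionVars false
set_option linter.unusedVariables false

namespace Pool.Agent.Helper77.JH

variable {H : Type*} [NormedAddCommGroup H] [InnerProductSpace ℝ H] [FiniteDimensional ℝ H]
variable {ι : Type*} [Fintype ι] [DecidableEq ι] {d : Dat H ι}

/-- piece `JH-A3` (a): `div T = - lam⁻¹ ∑ φ_i T ξ_i` (`cod` with `u = e`, `v = Q`, tested with `e`, summed over an orthonormal basis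
`e`; `trD Q`, `symD`; `tr_phi`; `⟪φ_i T Q, ξ_i⟫ = - ⟪T Q, φ_i ξ_i⟫ = 0` because `c i i k = 0`) -/
theorem Rul.div_T (h : Rul d) (Q : H) :
    LinearMap.trace ℝ H (d.DT.flip Q) = -d.lam⁻¹ * ∑ i, inner ℝ (d.φ i (d.T (d.ξ i))) Q := by
  have hxx : ∀ i, d.φ i (d.ξ i) = 0 := by
    intro i
    rw [h.phx i i]
    exact Finset.sum_eq_zero (fun k _ => by rw [(h.c0 i k).1, zero_smul])
  have hz : ∀ i, inner ℝ (d.φ i (d.T Q)) (d.ξ i) = 0 := by
    intro i
    rw [h.skew, hxx, inner_zero_right, neg_zero]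
  have hm : d.DT.flip Q = d.DT Q + (-d.lam⁻¹) • ∑ i, (inner ℝ (d.ξ i) Q • (d.φ i ∘ₗ d.T) +
      ((innerₛₗ ℝ Q) ∘ₗ (d.φ i ∘ₗ d.T)).smulRight (d.ξ i) -
      (innerₛₗ ℝ (d.ξ i)).smulRight (d.φ i (d.T Q)) -
      (innerₛₗ ℝ (d.φ i (d.T Q))).smulRight (d.ξ i)) := by
    refine LinearMap.ext fun u => ?_
    have h1 := h.cod u Q
    rw [sub_eq_iff_eq_add] at h1
    rw [LinearMap.flip_apply, h1, LinearMap.add_apply, LinearMap.smul_apply, LinearMap.sum_apply,
      add_comm]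
    congr 2
    refine Finset.sum_congr rfl fun i _ => ?_
    simp only [LinearMap.sub_apply, LinearMap.add_apply, LinearMap.smul_apply,
      LinearMap.comp_apply, LinearMap.smulRight_apply, innerₛₗ_apply_apply]
    rw [real_inner_comm Q (d.φ i (d.T u))]
  have ht : ∀ i, LinearMap.trace ℝ H (inner ℝ (d.ξ i) Q • (d.φ i ∘ₗ d.T) +
      ((innerₛₗ ℝ Q) ∘ₗ (d.φ i ∘ₗ d.T)).smulRight (d.ξ i) -
      (innerₛₗ ℝ (d.ξ i)).smulRight (d.φ i (d.T Q)) -
      (innerₛₗ ℝ (d.φ i (d.T Q))).smulRight (d.ξ i)) = inner ℝ (d.φ i (d.T (d.ξ i))) Q := by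
    intro i
    rw [map_sub, map_sub, map_add, map_smul, h.tr_phi i h.symT, tr_smulRight, tr_smulRight,
      tr_smulRight]
    simp only [LinearMap.comp_apply, innerₛₗ_apply_apply, smul_zero, zero_add]
    rw [real_inner_comm (d.φ i (d.T Q)) (d.ξ i), hz i, real_inner_comm Q (d.φ i (d.T (d.ξ i)))]
    ring
  rw [hm, map_add, h.trD Q, map_smul, map_sum, Finset.sum_congr rfl fun i _ => ht i, zero_add,
    smul_eq_mul]

end Pool.Agent.Helper77.JH
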