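import Pool.Agent.Helper77.JH.A2

/-! # JH: the divergence of T, rotated -/

set_option autoImplicit false
set_option linter.unusedSectionVars false
set_option linter.unusedVariables false

namespace Pool.Agent.Helper77.JH

variable {H : Type*} [NormedAddCommGroup H] [InnerProductSpace ℝ H] [FiniteDimensional ℝ H]
variable {ι : Type*} [Fintype ι] [DecidableEq ι] {d : Dat H ι}

/-- piece `JH-A3b`. Proof: over an orthonormal basis `e`: `∑ ⟪φ_i (D_e T) Q, e⟫ = - ∑ ⟪(D_e T) Q, φ_i e⟫ = - ∑ ⟪(D_e T) (φ_i e), Q⟫`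
(`skew`, `symD`); as `φ_i` is skew, `∑ (D_{φ_i e} T) e = - ∑ (D_e T) (φ_i e)` (write `φ_i e = ∑ ⟪φ_i e, e'⟫ e'` and exchange the sums), so
this is `- (1/2) ∑ ⟪(D_e T) (φ_i e) - (D_{φ_i e} T) e, Q⟫`; insert `cod` with `u = e`, `v = φ_i e`:
`= (1 / (2 lam)) ∑_j ∑_e (⟪ξ_j, φ_i e⟫ ⟪φ_j T e, Q⟫ + ⟪φ_j T e, φ_i e⟫ ⟪ξ_j, Q⟫ - ⟪ξ_j, e⟫ ⟪φ_j T φ_i e, Q⟫ - ⟪φ_j T φ_i e, e⟫ ⟪ξ_j, Q⟫)`
`= (1 / (2 lam)) ∑_j (- 2 ⟪φ_j T φ_i ξ_j, Q⟫ - 2 tr (φ_i φ_j T) ⟪ξ_j, Q⟫)` (`sum_onb`; `tr (φ_j T φ_i) = tr (φ_i φ_j T)`);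
`tr_pp`, `phx`: `φ_i ξ_j = ∑ c i j k ξ_k`. -/
theorem Rul.div_phiT (h : Rul d) (i : ι) (Q : H) :
    LinearMap.trace ℝ H (d.φ i ∘ₗ d.DT.flip Q) =
      -d.lam⁻¹ * ∑ j, ((∑ k, d.c i j k * inner ℝ (d.φ j (d.T (d.ξ k))) Q) +
        inner ℝ (d.T (d.ξ i)) (d.ξ j) * inner ℝ (d.ξ j) Q) := by
  let e := stdOrthonormalBasis ℝ H
  -- the sum of the two traces
  have key : ∀ n, inner ℝ (e n) (d.φ i (d.DT (e n) Q)) + inner ℝ (e n) (d.DT (d.φ i (e n)) Q) =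
      d.lam⁻¹ * ∑ j, (inner ℝ (d.ξ j) (d.φ i (e n)) * inner ℝ (d.φ j (d.T (e n))) Q +
        inner ℝ (d.φ j (d.T (e n))) (d.φ i (e n)) * inner ℝ (d.ξ j) Q -
        inner ℝ (d.ξ j) (e n) * inner ℝ (d.φ j (d.T (d.φ i (e n)))) Q -
        inner ℝ (d.φ j (d.T (d.φ i (e n)))) (e n) * inner ℝ (d.ξ j) Q) := by
    intro n
    have h1 : inner ℝ (d.DT (e n) (d.φ i (e n)) - d.DT (d.φ i (e n)) (e n)) Q =
        -(inner ℝ (e n) (d.φ i (d.DT (e n) Q)) + inner ℝ (e n) (d.DT (d.φ i (e n)) Q)) := by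
      rw [inner_sub_left, h.symD, h.symD, h.skew]
      ring
    rw [h.cod, real_inner_smul_left, sum_inner] at h1
    have h2 : ∀ j, inner ℝ (inner ℝ (d.ξ j) (d.φ i (e n)) • d.φ j (d.T (e n)) +
        inner ℝ (d.φ j (d.T (e n))) (d.φ i (e n)) • d.ξ j -
        inner ℝ (d.ξ j) (e n) • d.φ j (d.T (d.φ i (e n))) -
        inner ℝ (d.φ j (d.T (d.φ i (e n)))) (e n) • d.ξ j) Q =
        inner ℝ (d.ξ j) (d.φ i (e n)) * inner ℝ (d.φ j (d.T (e n))) Q +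
        inner ℝ (d.φ j (d.T (e n))) (d.φ i (e n)) * inner ℝ (d.ξ j) Q -
        inner ℝ (d.ξ j) (e n) * inner ℝ (d.φ j (d.T (d.φ i (e n)))) Q -
        inner ℝ (d.φ j (d.T (d.φ i (e n)))) (e n) * inner ℝ (d.ξ j) Q := by
      intro j
      rw [inner_sub_left, inner_sub_left, inner_add_left, real_inner_smul_left, real_inner_smul_left,
        real_inner_smul_left, real_inner_smul_left]
    rw [Finset.sum_congr rfl fun j _ => h2 j] at h1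
    linarith
  have t1 : LinearMap.trace ℝ H (d.φ i ∘ₗ d.DT.flip Q) = ∑ n, inner ℝ (e n) (d.φ i (d.DT (e n) Q)) := by
    rw [LinearMap.trace_eq_sum_inner _ e]
    rfl
  have t2 : LinearMap.trace ℝ H (d.φ i ∘ₗ d.DT.flip Q) = ∑ n, inner ℝ (e n) (d.DT (d.φ i (e n)) Q) := by
    rw [LinearMap.trace_comp_comm', LinearMap.trace_eq_sum_inner _ e]
    rfl
  -- the four sums
  have s1 : ∀ j, ∑ n, inner ℝ (d.ξ j) (d.φ i (e n)) * inner ℝ (d.φ j (d.T (e n))) Q =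
      -inner ℝ (d.φ j (d.T (d.φ i (d.ξ j)))) Q := by
    intro j
    have h1 := sum_onb e ((innerₛₗ ℝ Q) ∘ₗ (d.φ j ∘ₗ d.T)) (d.φ i (d.ξ j))
    simp only [LinearMap.comp_apply, innerₛₗ_apply_apply] at h1
    rw [real_inner_comm Q (d.φ j (d.T (d.φ i (d.ξ j)))), ← h1, ← Finset.sum_neg_distrib]
    refine Finset.sum_congr rfl fun n _ => ?_
    rw [h.skew i (d.ξ j) (e n), real_inner_comm Q (d.φ j (d.T (e n)))]
    ring
  have s3 : ∀ j, ∑ n, inner ℝ (d.ξ j) (e n) * inner ℝ (d.φ j (d.T (d.φ i (e n)))) Q =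
      inner ℝ (d.φ j (d.T (d.φ i (d.ξ j)))) Q := by
    intro j
    have h1 := sum_onb e ((innerₛₗ ℝ Q) ∘ₗ (d.φ j ∘ₗ d.T ∘ₗ d.φ i)) (d.ξ j)
    simp only [LinearMap.comp_apply, innerₛₗ_apply_apply] at h1
    rw [real_inner_comm Q (d.φ j (d.T (d.φ i (d.ξ j)))), ← h1]
    refine Finset.sum_congr rfl fun n _ => ?_
    rw [real_inner_comm Q (d.φ j (d.T (d.φ i (e n))))]
  have s2 : ∀ j, ∑ n, inner ℝ (d.φ j (d.T (e n))) (d.φ i (e n)) * inner ℝ (d.ξ j) Q =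
      -(inner ℝ (d.T (d.ξ i)) (d.ξ j) * inner ℝ (d.ξ j) Q) := by
    intro j
    rw [← Finset.sum_mul, ← h.tr_pp i j, LinearMap.trace_eq_sum_inner _ e, ← neg_mul, ← Finset.sum_neg_distrib]
    congr 1
    refine Finset.sum_congr rfl fun n _ => ?_
    simp only [LinearMap.comp_apply]
    rw [real_inner_comm (d.φ i (e n)) (d.φ j (d.T (e n))), h.skew]
  have s4 : ∀ j, ∑ n, inner ℝ (d.φ j (d.T (d.φ i (e n)))) (e n) * inner ℝ (d.ξ j) Q =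
      inner ℝ (d.T (d.ξ i)) (d.ξ j) * inner ℝ (d.ξ j) Q := by
    intro j
    have h1 : LinearMap.trace ℝ H (d.φ i ∘ₗ d.φ j ∘ₗ d.T) = LinearMap.trace ℝ H ((d.φ j ∘ₗ d.T) ∘ₗ d.φ i) :=
      (LinearMap.trace_comp_comm' (d.φ i) (d.φ j ∘ₗ d.T)).symm
    rw [← Finset.sum_mul, ← h.tr_pp i j, h1, LinearMap.trace_eq_sum_inner _ e]
    congr 1
    refine Finset.sum_congr rfl fun n _ => ?_
    simp only [LinearMap.comp_apply]
    rw [real_inner_comm]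
  have hs : ∀ j, ∑ n, (inner ℝ (d.ξ j) (d.φ i (e n)) * inner ℝ (d.φ j (d.T (e n))) Q +
        inner ℝ (d.φ j (d.T (e n))) (d.φ i (e n)) * inner ℝ (d.ξ j) Q -
        inner ℝ (d.ξ j) (e n) * inner ℝ (d.φ j (d.T (d.φ i (e n)))) Q -
        inner ℝ (d.φ j (d.T (d.φ i (e n)))) (e n) * inner ℝ (d.ξ j) Q) =
      -2 * ((∑ k, d.c i j k * inner ℝ (d.φ j (d.T (d.ξ k))) Q) +
        inner ℝ (d.T (d.ξ i)) (d.ξ j) * inner ℝ (d.ξ j) Q) := by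
    intro j
    have h1 : inner ℝ (d.φ j (d.T (d.φ i (d.ξ j)))) Q = ∑ k, d.c i j k * inner ℝ (d.φ j (d.T (d.ξ k))) Q := by
      rw [h.phx, map_sum, map_sum, sum_inner]
      refine Finset.sum_congr rfl fun k _ => ?_
      rw [map_smul, map_smul, real_inner_smul_left]
    rw [Finset.sum_sub_distrib, Finset.sum_sub_distrib, Finset.sum_add_distrib, s1, s2, s3, s4, h1]
    ring
  have h3 : 2 * LinearMap.trace ℝ H (d.φ i ∘ₗ d.DT.flip Q) = d.lam⁻¹ * ∑ j,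
      (-2 * ((∑ k, d.c i j k * inner ℝ (d.φ j (d.T (d.ξ k))) Q) +
        inner ℝ (d.T (d.ξ i)) (d.ξ j) * inner ℝ (d.ξ j) Q)) := by
    rw [two_mul]
    nth_rewrite 1 [t1]
    rw [t2, ← Finset.sum_add_distrib, Finset.sum_congr rfl fun n _ => key n, ← Finset.mul_sum,
      Finset.sum_comm, Finset.sum_congr rfl fun j _ => hs j]
  rw [← Finset.mul_sum] at h3
  linarith

end Pool.Agent.Helper77.JH
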