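import Pool.Agent.Helper77.JH.A3

/-! # JH: the divergence of the first field -/

set_option autoImplicit false
set_option linter.unusedSectionVars false
set_option linter.unusedVariables false

namespace Pool.Agent.Helper77.JH

variable {H : Type*} [NormedAddCommGroup H] [InnerProductSpace ℝ H] [FiniteDimensional ℝ H]
variable {ι : Type*} [Fintype ι] [DecidableEq ι] {d : Dat H ι}

/-- piece `JH-A4`: `div (T W)`.  `tr (DT.flip W)`: `div_T`; `tr (T ∘ ∇W)` (`wJ`): `tr (T G T)`, `A tr (T T)`, `tr T = 0`,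
`lam⁻¹ ∑ ⟪ξ_i, T φ_i W⟫` (`tr_rank`), `κ_i tr (T φ_i) = 0` (`tr_phi`, commute); `⟪φ_i T ξ_i, W⟫ = - ⟪T ξ_i, φ_i W⟫`. -/
theorem Rul.div_F1 (h : Rul d) :
    LinearMap.trace ℝ H d.F1.2 = 2 * d.lam⁻¹ * d.bb + d.q1 := by
  have e1 : ∀ i : ι, d.T ∘ₗ ((innerₛₗ ℝ (d.ξ i)).smulRight (d.φ i d.W)) =
      (innerₛₗ ℝ (d.ξ i)).smulRight (d.T (d.φ i d.W)) := by
    intro i
    ext v
    simp
  have e2 : d.F1.2 = d.DT.flip d.W + (d.T ∘ₗ d.G ∘ₗ d.T + d.A • (d.T ∘ₗ d.T) +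
      (d.lam * d.c0) • d.T + d.lam⁻¹ • ∑ i, (innerₛₗ ℝ (d.ξ i)).smulRight (d.T (d.φ i d.W)) +
      ∑ i, d.κ i • (d.T ∘ₗ d.φ i)) := by
    show d.DT.flip d.W + d.T.comp (d.G.comp d.T + d.A • d.T + (d.lam * d.c0) • LinearMap.id +
      d.lam⁻¹ • ∑ i, (innerₛₗ ℝ (d.ξ i)).smulRight (d.φ i d.W) + ∑ i, d.κ i • d.φ i) = _
    congr 1
    ext v
    simp [map_sum]
  have e3 : ∀ i : ι, LinearMap.trace ℝ H ((innerₛₗ ℝ (d.ξ i)).smulRight (d.T (d.φ i d.W))) =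
      inner ℝ (d.T (d.ξ i)) (d.φ i d.W) := by
    intro i
    rw [tr_rank, h.symT]
  have e4 : ∀ i : ι, LinearMap.trace ℝ H (d.T ∘ₗ d.φ i) = 0 := by
    intro i
    rw [LinearMap.trace_comp_comm', h.tr_phi i h.symT]
  have e5 : ∀ i : ι, inner ℝ (d.φ i (d.T (d.ξ i))) d.W = - inner ℝ (d.T (d.ξ i)) (d.φ i d.W) :=
    fun i => h.skew i _ _
  rw [e2]
  simp only [map_add, map_smul, map_sum, h.div_T, h.trT, e3, e4, e5, smul_eq_mul]
  unfold Dat.bb Dat.q1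
  simp only [Finset.sum_neg_distrib, mul_zero, Finset.sum_const_zero]
  ring

end Pool.Agent.Helper77.JH
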