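import Pool.Agent.Helper77.JH.A3

/-! # JH: the divergence of the second field -/

set_option autoImplicit false
set_option linter.unusedSectionVars false
set_option linter.unusedVariables false

namespace Pool.Agent.Helper77.JH

variable {H : Type*} [NormedAddCommGroup H] [InnerProductSpace ℝ H] [FiniteDimensional ℝ H]
variable {ι : Type*} [Fintype ι] [DecidableEq ι] {d : Dat H ι}

private theorem anti12_h69 (h : Rul d) (i : ι) (s : ι → ι → ℝ) (hs : ∀ i j, s i j = s j i) :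
    ∑ j, ∑ k, d.c i j k * s j k = 0 := by
  rw [← h.anti i s hs]
  refine Finset.sum_congr rfl fun j _ => Finset.sum_congr rfl fun k _ => ?_
  rw [h.as1 i j k, h.as2 j i k, neg_neg]

private theorem anti13_h69 (h : Rul d) (i : ι) (s : ι → ι → ℝ) (hs : ∀ i j, s i j = s j i) :
    ∑ j, ∑ k, d.c j i k * s j k = 0 := by
  rw [← neg_eq_zero, ← h.anti i s hs, ← Finset.sum_neg_distrib]
  refine Finset.sum_congr rfl fun j _ => ?_
  rw [← Finset.sum_neg_distrib]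
  refine Finset.sum_congr rfl fun k _ => ?_
  rw [h.as2 j i k]
  ring

private theorem flip_h69 (h : Rul d) (i : ι) :
    LinearMap.trace ℝ H (d.DT.flip (d.ξ i)) = 0 := by
  rw [h.div_T]
  have h1 : ∑ j, inner ℝ (d.φ j (d.T (d.ξ j))) (d.ξ i) =
      -∑ j, ∑ k, d.c j i k * inner ℝ (d.T (d.ξ j)) (d.ξ k) := by
    rw [← Finset.sum_neg_distrib]
    refine Finset.sum_congr rfl fun j _ => ?_
    rw [h.skew, h.phx, inner_sum]
    congr 1
    refine Finset.sum_congr rfl fun k _ => ?_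
    rw [real_inner_smul_right]
  rw [h1, anti13_h69 h i (fun j k => inner ℝ (d.T (d.ξ j)) (d.ξ k)) (by
    intro j k
    rw [h.symT, real_inner_comm])]
  simp

private theorem tps_h69 (h : Rul d) (i : ι) :
    LinearMap.trace ℝ H (d.T.comp ((d.φ i).comp d.S)) = 0 := by
  have h1 : d.T.comp ((d.φ i).comp d.S) = d.T ∘ₗ (d.φ i ∘ₗ d.T) + d.lam • (d.T ∘ₗ d.φ i) +
      d.lam⁻¹ • ∑ j, (innerₛₗ ℝ (d.ξ j)).smulRight (d.T (d.φ i (d.ξ j))) := by
    ext v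
    simp only [Dat.S, LinearMap.comp_apply, LinearMap.add_apply, LinearMap.smul_apply,
      LinearMap.sum_apply, LinearMap.smulRight_apply, innerₛₗ_apply_apply, LinearMap.id_apply,
      map_add, map_smul, map_sum]
  have h2 : LinearMap.trace ℝ H (d.T ∘ₗ (d.φ i ∘ₗ d.T)) = 0 := by
    rw [LinearMap.trace_comp_comm', LinearMap.comp_assoc]
    apply h.tr_phi
    intro u v
    rw [LinearMap.comp_apply, LinearMap.comp_apply, h.symT, h.symT]
  have h3 : LinearMap.trace ℝ H (d.T ∘ₗ d.φ i) = 0 := by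
    rw [LinearMap.trace_comp_comm', h.tr_phi i h.symT]
  have h4 : ∑ j, LinearMap.trace ℝ H ((innerₛₗ ℝ (d.ξ j)).smulRight (d.T (d.φ i (d.ξ j)))) = 0 := by
    rw [← anti12_h69 h i (fun j k => inner ℝ (d.T (d.ξ j)) (d.ξ k)) (by
      intro j k
      rw [h.symT, real_inner_comm])]
    refine Finset.sum_congr rfl fun j _ => ?_
    rw [tr_rank, ← h.symT, h.phx, inner_sum]
    refine Finset.sum_congr rfl fun k _ => ?_
    rw [real_inner_smul_right]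
  rw [h1, map_add, map_add, map_smul, map_smul, map_sum, h2, h3, h4]
  simp

/-- piece `JH-A5`: `div (∑ κ_i T ξ_i) = ∑ (dκ_i (T ξ_i) + κ_i tr (DT.flip ξ_i) + κ_i tr (T φ_i S))` (`tr_smJ`; the value of `kJ i` is
`κ_i` by `Wx`).  Second term: `div_T` and `⟪φ_j T ξ_j, ξ_i⟫ = - ⟪T ξ_j, φ_j ξ_i⟫ = - ∑ c j i k ⟪T ξ_j, ξ_k⟫`, the sum over `j` is zero by
antisymmetry of `c` in `j, k`.  Third term: `T φ_i S` with `S = T + lam + lam⁻¹ ∑ ξ ξ^T`: `tr (φ_i T T) = 0`, `tr (φ_i T) = 0`,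
`∑_j ⟪ξ_j, T φ_i ξ_j⟫ = ∑ c i j k ⟪T ξ_j, ξ_k⟫ = 0`.  First term: `lam dκ_i (u) = ⟪∇_u W, ξ_i⟫ + ⟪W, φ_i S u⟫` with `u = T ξ_i`
(`wJ`, `S_apply`): `⟪G T u, ξ_i⟫ + A ⟪T ξ_i, T ξ_i⟫ + lam c0 ⟪T ξ_i, ξ_i⟫ + lam⁻¹ ∑_j ⟪ξ_j, T ξ_i⟫ ⟪φ_j W, ξ_i⟫ + ∑_j κ_j ⟪φ_j T ξ_i, ξ_i⟫`
`- ⟪φ_i W, T T ξ_i⟫ - lam ⟪φ_i W, T ξ_i⟫ - lam⁻¹ ∑_j ⟪ξ_j, T ξ_i⟫ ⟪φ_i W, ξ_j⟫`; the fourth, fifth and last terms, summed over `i`, are zero:
`⟪φ_j W, ξ_i⟫ = - ⟪W, φ_j ξ_i⟫ = - lam ∑ c j i k κ_k`, `⟪φ_j T ξ_i, ξ_i⟫ = - ∑ c j i k ⟪T ξ_i, ξ_k⟫`. -/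
theorem Rul.div_F2 (h : Rul d) :
    LinearMap.trace ℝ H d.F2.2 = d.c0 * d.tau - d.bb + d.q2 := by
  have hl := h.lam0
  have hF : d.F2.2 = ∑ i, (smJ (d.kJ i) (d.tJ (d.xJ i))).2 := by
    unfold Dat.F2
    rw [Prod.snd_sum]
  have hW : ∀ k, inner ℝ d.W (d.ξ k) = d.lam * d.κ k := by
    intro k
    rw [real_inner_comm, h.Wx]
  have hsy : ∀ i j, inner ℝ (d.ξ j) (d.T (d.ξ i)) = inner ℝ (d.ξ i) (d.T (d.ξ j)) := by
    intro i j
    rw [← h.symT, real_inner_comm]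
  -- the terms
  have h1 : ∀ i, LinearMap.trace ℝ H (smJ (d.kJ i) (d.tJ (d.xJ i))).2 =
      d.lam⁻¹ * (inner ℝ (d.G (d.T (d.T (d.ξ i)))) (d.ξ i) + d.A * ‖d.T (d.ξ i)‖ ^ 2 -
        inner ℝ (d.φ i d.W) (d.T (d.T (d.ξ i)))) + d.c0 * inner ℝ (d.T (d.ξ i)) (d.ξ i) -
      inner ℝ (d.T (d.ξ i)) (d.φ i d.W) +
      d.lam⁻¹ * (d.lam⁻¹ * (∑ j, inner ℝ (d.ξ j) (d.T (d.ξ i)) * inner ℝ (d.ξ i) (d.φ j d.W)) +
        (∑ j, d.κ j * inner ℝ (d.ξ i) (d.φ j (d.T (d.ξ i)))) -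
        d.lam⁻¹ * ∑ j, inner ℝ (d.ξ j) (d.T (d.ξ i)) * inner ℝ (d.φ i d.W) (d.ξ j)) := by
    intro i
    rw [tr_smJ]
    have h2 : LinearMap.trace ℝ H (d.tJ (d.xJ i)).2 = 0 := by
      change LinearMap.trace ℝ H (d.DT.flip (d.ξ i) + d.T.comp ((d.φ i).comp d.S)) = 0
      rw [map_add, flip_h69 h, tps_h69 h, add_zero]
    rw [h2, mul_zero, add_zero]
    change d.lam⁻¹ * (inner ℝ (d.ξ i) ((d.G.comp d.T + d.A • d.T + (d.lam * d.c0) • LinearMap.id +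
      d.lam⁻¹ • ∑ j, (innerₛₗ ℝ (d.ξ j)).smulRight (d.φ j d.W) + ∑ j, d.κ j • d.φ j : H →ₗ[ℝ] H)
        (d.T (d.ξ i))) + inner ℝ d.W (d.φ i (d.S (d.T (d.ξ i))))) = _
    have h3 : inner ℝ d.W (d.φ i (d.S (d.T (d.ξ i)))) =
        -inner ℝ (d.φ i d.W) (d.S (d.T (d.ξ i))) := by
      rw [h.skew, neg_neg]
    rw [h3, h.S_apply]
    simp only [LinearMap.add_apply, LinearMap.comp_apply, LinearMap.smul_apply,
      LinearMap.id_apply, LinearMap.sum_apply, LinearMap.smulRight_apply, innerₛₗ_apply_apply,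
      inner_add_right, real_inner_smul_right, inner_sum]
    have h4 : inner ℝ (d.ξ i) (d.T (d.T (d.ξ i))) = ‖d.T (d.ξ i)‖ ^ 2 := by
      rw [← h.symT, real_inner_self_eq_norm_sq]
    rw [h4, real_inner_comm (d.ξ i) (d.G (d.T (d.T (d.ξ i)))),
      real_inner_comm (d.ξ i) (d.T (d.ξ i)), real_inner_comm (d.φ i d.W) (d.T (d.ξ i))]
    field_simp
    ring
  rw [hF, map_sum, Finset.sum_congr rfl fun i _ => h1 i]
  -- the three sums which vanish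
  have z1 : ∑ i, ∑ j, inner ℝ (d.ξ j) (d.T (d.ξ i)) * inner ℝ (d.ξ i) (d.φ j d.W) = 0 := by
    have e : ∀ i j, inner ℝ (d.ξ j) (d.T (d.ξ i)) * inner ℝ (d.ξ i) (d.φ j d.W) =
        ∑ k, d.lam * d.κ k * (d.c i j k * inner ℝ (d.ξ j) (d.T (d.ξ i))) := by
      intro i j
      rw [real_inner_comm (d.φ j d.W) (d.ξ i), h.skew, h.phx, inner_sum, ← Finset.sum_neg_distrib,
        Finset.mul_sum]
      refine Finset.sum_congr rfl fun k _ => ?_
      rw [real_inner_smul_right, hW, h.as1 i j k]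
      ring
    rw [Finset.sum_congr rfl fun i _ => Finset.sum_congr rfl fun j _ => e i j]
    rw [Finset.sum_congr rfl fun i _ => Finset.sum_comm, Finset.sum_comm]
    refine Finset.sum_eq_zero fun k _ => ?_
    rw [← mul_zero (d.lam * d.κ k), ← h.anti k (fun i j => inner ℝ (d.ξ j) (d.T (d.ξ i))) hsy,
      Finset.mul_sum]
    refine Finset.sum_congr rfl fun i _ => ?_
    rw [Finset.mul_sum]
  have z3 : ∑ i, ∑ j, inner ℝ (d.ξ j) (d.T (d.ξ i)) * inner ℝ (d.φ i d.W) (d.ξ j) = 0 := by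
    have e : ∀ i j, inner ℝ (d.ξ j) (d.T (d.ξ i)) * inner ℝ (d.φ i d.W) (d.ξ j) =
        ∑ k, -(d.lam * d.κ k) * (d.c i j k * inner ℝ (d.ξ j) (d.T (d.ξ i))) := by
      intro i j
      rw [h.skew, h.phx, inner_sum, ← Finset.sum_neg_distrib, Finset.mul_sum]
      refine Finset.sum_congr rfl fun k _ => ?_
      rw [real_inner_smul_right, hW]
      ring
    rw [Finset.sum_congr rfl fun i _ => Finset.sum_congr rfl fun j _ => e i j]
    rw [Finset.sum_congr rfl fun i _ => Finset.sum_comm, Finset.sum_comm]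
    refine Finset.sum_eq_zero fun k _ => ?_
    rw [← mul_zero (-(d.lam * d.κ k)), ← h.anti k (fun i j => inner ℝ (d.ξ j) (d.T (d.ξ i))) hsy,
      Finset.mul_sum]
    refine Finset.sum_congr rfl fun i _ => ?_
    rw [Finset.mul_sum]
  have z2 : ∑ i, ∑ j, d.κ j * inner ℝ (d.ξ i) (d.φ j (d.T (d.ξ i))) = 0 := by
    rw [Finset.sum_comm]
    refine Finset.sum_eq_zero fun j _ => ?_
    rw [← Finset.mul_sum]
    have e : ∀ i, inner ℝ (d.ξ i) (d.φ j (d.T (d.ξ i))) =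
        -∑ k, d.c j i k * inner ℝ (d.ξ k) (d.T (d.ξ i)) := by
      intro i
      rw [real_inner_comm, h.skew, h.phx, inner_sum]
      congr 1
      refine Finset.sum_congr rfl fun k _ => ?_
      rw [real_inner_smul_right, real_inner_comm]
    rw [Finset.sum_congr rfl fun i _ => e i, Finset.sum_neg_distrib,
      anti12_h69 h j (fun i k => inner ℝ (d.ξ k) (d.T (d.ξ i))) hsy, neg_zero, mul_zero]
  simp only [Finset.sum_add_distrib, Finset.sum_sub_distrib, ← Finset.mul_sum]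
  rw [z1, z2, z3]
  unfold Dat.tau Dat.bb Dat.q2
  simp only [Finset.sum_add_distrib, Finset.sum_sub_distrib, ← Finset.mul_sum]
  ring

end Pool.Agent.Helper77.JH
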