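import Pool.Agent.Helper77.JH.A3b

/-! # JH: the divergence of the third field -/

set_option autoImplicit false
set_option linter.unusedSectionVars false
set_option linter.unusedVariables false

namespace Pool.Agent.Helper77.JH

variable {H : Type*} [NormedAddCommGroup H] [InnerProductSpace ℝ H] [FiniteDimensional ℝ H]
variable {ι : Type*} [Fintype ι] [DecidableEq ι] {d : Dat H ι}

private theorem anti_gen_aux {c s : ι → ι → ℝ} (hc : ∀ i j, c i j = - c j i)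
    (hs : ∀ i j, s i j = s j i) : ∑ i, ∑ j, c i j * s i j = 0 := by
  have h1 : ∑ i, ∑ j, c i j * s i j = - ∑ i, ∑ j, c i j * s i j := by
    calc ∑ i, ∑ j, c i j * s i j = ∑ j, ∑ i, c i j * s i j := Finset.sum_comm
      _ = - ∑ i, ∑ j, c i j * s i j := by
        rw [← Finset.sum_neg_distrib]
        refine Finset.sum_congr rfl fun i _ => ?_
        rw [← Finset.sum_neg_distrib]
        refine Finset.sum_congr rfl fun j _ => ?_
        rw [hc j i, hs j i]; ring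
  linarith

private theorem Rul.as3_aux (h : Rul d) (i j k : ι) : d.c i j k = - d.c k j i := by
  rw [h.as1 i j k, h.as2 j i k, h.as1 j k i, neg_neg]

private theorem Rul.anti23_aux (h : Rul d) (i : ι) (s : ι → ι → ℝ) (hs : ∀ j k, s j k = s k j) :
    ∑ j, ∑ k, d.c i j k * s j k = 0 :=
  anti_gen_aux (fun j k => h.as2 i j k) hs

private theorem Rul.anti13_aux (h : Rul d) (j : ι) (s : ι → ι → ℝ) (hs : ∀ i k, s i k = s k i) :
    ∑ i, ∑ k, d.c i j k * s i k = 0 :=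
  anti_gen_aux (fun i k => h.as3_aux i j k) hs

private theorem Rul.symTx_aux (h : Rul d) (j k : ι) :
    inner ℝ (d.T (d.ξ j)) (d.ξ k) = inner ℝ (d.T (d.ξ k)) (d.ξ j) := by
  rw [h.symT, real_inner_comm]

private theorem Rul.phx_inner_aux (h : Rul d) (i j : ι) (v : H) :
    inner ℝ (d.φ i (d.ξ j)) v = ∑ k, d.c i j k * inner ℝ (d.ξ k) v := by
  rw [h.phx, sum_inner]
  exact Finset.sum_congr rfl fun k _ => by rw [real_inner_smul_left]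

private theorem Rul.xi_phi_aux (h : Rul d) (i j : ι) (v : H) :
    inner ℝ (d.ξ j) (d.φ i v) = - ∑ k, d.c i j k * inner ℝ (d.ξ k) v := by
  rw [← h.phx_inner_aux, h.skew, neg_neg]

private theorem Rul.key_aux (h : Rul d) :
    ∑ i, ∑ j, ∑ k, d.c i j k * inner ℝ (d.T (d.ξ k)) (d.φ i (d.φ j d.W)) =
      ((Fintype.card ι : ℝ) - 1) * d.bb := by
  have e1 : ∀ i j k, d.c i j k * inner ℝ (d.T (d.ξ k)) (d.φ i (d.φ j d.W)) =
      (∑ l, (d.c i j k * d.c i j l) * inner ℝ (d.T (d.ξ k)) (d.φ l d.W)) +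
        inner ℝ (d.ξ j) d.W * (d.c i j k * inner ℝ (d.T (d.ξ k)) (d.ξ i)) := by
    intro i j k
    have e2 : d.c i j k * inner ℝ (d.T (d.ξ k)) (if i = j then -d.W else 0) = 0 := by
      split_ifs with hij
      · subst hij
        rw [(h.c0 i k).1, zero_mul]
      · rw [inner_zero_right, mul_zero]
    rw [h.pp, inner_add_right, inner_add_right, mul_add, mul_add, e2, zero_add, inner_sum,
      Finset.mul_sum, real_inner_smul_right]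
    congr 1
    · refine Finset.sum_congr rfl fun l _ => ?_
      rw [real_inner_smul_right]; ring
    · ring
  have e3 : ∑ i, ∑ j, ∑ k, ∑ l, (d.c i j k * d.c i j l) * inner ℝ (d.T (d.ξ k)) (d.φ l d.W) =
      ((Fintype.card ι : ℝ) - 1) * d.bb := by
    have e4 : ∑ i, ∑ j, ∑ k, ∑ l, (d.c i j k * d.c i j l) * inner ℝ (d.T (d.ξ k)) (d.φ l d.W) =
        ∑ k, ∑ l, (∑ i, ∑ j, d.c i j k * d.c i j l) * inner ℝ (d.T (d.ξ k)) (d.φ l d.W) := by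
      calc ∑ i, ∑ j, ∑ k, ∑ l, (d.c i j k * d.c i j l) * inner ℝ (d.T (d.ξ k)) (d.φ l d.W)
          = ∑ i, ∑ k, ∑ j, ∑ l, (d.c i j k * d.c i j l) * inner ℝ (d.T (d.ξ k)) (d.φ l d.W) :=
            Finset.sum_congr rfl fun i _ => Finset.sum_comm
        _ = ∑ i, ∑ k, ∑ l, ∑ j, (d.c i j k * d.c i j l) * inner ℝ (d.T (d.ξ k)) (d.φ l d.W) :=
            Finset.sum_congr rfl fun i _ => Finset.sum_congr rfl fun k _ => Finset.sum_comm
        _ = ∑ k, ∑ i, ∑ l, ∑ j, (d.c i j k * d.c i j l) * inner ℝ (d.T (d.ξ k)) (d.φ l d.W) :=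
            Finset.sum_comm
        _ = ∑ k, ∑ l, ∑ i, ∑ j, (d.c i j k * d.c i j l) * inner ℝ (d.T (d.ξ k)) (d.φ l d.W) :=
            Finset.sum_congr rfl fun k _ => Finset.sum_comm
        _ = _ := by
            refine Finset.sum_congr rfl fun k _ => Finset.sum_congr rfl fun l _ => ?_
            rw [Finset.sum_mul]
            exact Finset.sum_congr rfl fun i _ => by rw [Finset.sum_mul]
    rw [e4]
    unfold Dat.bb
    rw [Finset.mul_sum]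
    refine Finset.sum_congr rfl fun k _ => ?_
    have e5 : ∀ l, (∑ i, ∑ j, d.c i j k * d.c i j l) * inner ℝ (d.T (d.ξ k)) (d.φ l d.W) =
        if k = l then ((Fintype.card ι : ℝ) - 1) * inner ℝ (d.T (d.ξ k)) (d.φ k d.W) else 0 := by
      intro l
      rw [h.sq']
      split_ifs with hkl
      · rw [hkl]
      · rw [zero_mul]
    rw [Finset.sum_congr rfl fun l _ => e5 l, Finset.sum_ite_eq]
    simp
  have e6 : ∑ i, ∑ j, ∑ k, inner ℝ (d.ξ j) d.W * (d.c i j k * inner ℝ (d.T (d.ξ k)) (d.ξ i)) = 0 := by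
    rw [Finset.sum_comm]
    refine Finset.sum_eq_zero fun j _ => ?_
    have e7 : ∑ i, ∑ k, inner ℝ (d.ξ j) d.W * (d.c i j k * inner ℝ (d.T (d.ξ k)) (d.ξ i)) =
        inner ℝ (d.ξ j) d.W * ∑ i, ∑ k, d.c i j k * inner ℝ (d.T (d.ξ k)) (d.ξ i) := by
      rw [Finset.mul_sum]
      exact Finset.sum_congr rfl fun i _ => by rw [Finset.mul_sum]
    rw [e7, h.anti13_aux j (fun i k => inner ℝ (d.T (d.ξ k)) (d.ξ i))
      (fun i k => h.symTx_aux k i), mul_zero]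
  have e8 : ∑ i, ∑ j, ∑ k, d.c i j k * inner ℝ (d.T (d.ξ k)) (d.φ i (d.φ j d.W)) =
      (∑ i, ∑ j, ∑ k, ∑ l, (d.c i j k * d.c i j l) * inner ℝ (d.T (d.ξ k)) (d.φ l d.W)) +
      ∑ i, ∑ j, ∑ k, inner ℝ (d.ξ j) d.W * (d.c i j k * inner ℝ (d.T (d.ξ k)) (d.ξ i)) := by
    rw [← Finset.sum_add_distrib]
    refine Finset.sum_congr rfl fun i _ => ?_
    rw [← Finset.sum_add_distrib]
    refine Finset.sum_congr rfl fun j _ => ?_
    rw [← Finset.sum_add_distrib]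
    exact Finset.sum_congr rfl fun k _ => e1 i j k
  rw [e8, e3, e6, add_zero]

/-- piece `JH-A6` (a): `∑_i tr (φ_i ∘ DT.flip (φ_i W)) = - lam⁻¹ (a - 1) bb`: `div_phiT` with `Q = φ_i W`;
`⟪ξ_j, φ_i W⟫ = - lam ∑ c i j k κ_k` is antisymmetric in `i j`; `⟪φ_j T ξ_k, φ_i W⟫ = - ⟪T ξ_k, φ_j φ_i W⟫`, `pp` (the term `δ_ij` has
`c i i k = 0`), `sq'`, antisymmetry in `j k` of the term `⟪ξ_i, W⟫ ⟪T ξ_k, ξ_j⟫`. -/
theorem Rul.f3_a (h : Rul d) :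
    ∑ i, LinearMap.trace ℝ H (d.φ i ∘ₗ d.DT.flip (d.φ i d.W)) =
      -d.lam⁻¹ * ((Fintype.card ι : ℝ) - 1) * d.bb := by
  have e1 : ∀ i, LinearMap.trace ℝ H (d.φ i ∘ₗ d.DT.flip (d.φ i d.W)) =
      -d.lam⁻¹ * ((∑ j, ∑ k, d.c i j k * inner ℝ (d.φ j (d.T (d.ξ k))) (d.φ i d.W)) +
        ∑ j, inner ℝ (d.T (d.ξ i)) (d.ξ j) * inner ℝ (d.ξ j) (d.φ i d.W)) := by
    intro i
    rw [h.div_phiT, Finset.sum_add_distrib]
  have e2 : ∑ i, ∑ j, ∑ k, d.c i j k * inner ℝ (d.φ j (d.T (d.ξ k))) (d.φ i d.W) =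
      ((Fintype.card ι : ℝ) - 1) * d.bb := by
    rw [← h.key_aux, Finset.sum_comm]
    refine Finset.sum_congr rfl fun i _ => Finset.sum_congr rfl fun j _ =>
      Finset.sum_congr rfl fun k _ => ?_
    rw [h.as1 j i k, h.skew]; ring
  have e3 : ∑ i, ∑ j, inner ℝ (d.T (d.ξ i)) (d.ξ j) * inner ℝ (d.ξ j) (d.φ i d.W) = 0 := by
    have e4 : ∀ i j, inner ℝ (d.T (d.ξ i)) (d.ξ j) * inner ℝ (d.ξ j) (d.φ i d.W) =
        ∑ k, -(inner ℝ (d.ξ k) d.W) * (d.c i j k * inner ℝ (d.T (d.ξ i)) (d.ξ j)) := by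
      intro i j
      rw [h.xi_phi_aux, mul_neg, Finset.mul_sum, ← Finset.sum_neg_distrib]
      exact Finset.sum_congr rfl fun k _ => by ring
    have e5 : ∑ i, ∑ j, inner ℝ (d.T (d.ξ i)) (d.ξ j) * inner ℝ (d.ξ j) (d.φ i d.W) =
        ∑ k, -(inner ℝ (d.ξ k) d.W) * ∑ i, ∑ j, d.c i j k * inner ℝ (d.T (d.ξ i)) (d.ξ j) := by
      calc ∑ i, ∑ j, inner ℝ (d.T (d.ξ i)) (d.ξ j) * inner ℝ (d.ξ j) (d.φ i d.W)
          = ∑ i, ∑ j, ∑ k, -(inner ℝ (d.ξ k) d.W) *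
              (d.c i j k * inner ℝ (d.T (d.ξ i)) (d.ξ j)) :=
            Finset.sum_congr rfl fun i _ => Finset.sum_congr rfl fun j _ => e4 i j
        _ = ∑ i, ∑ k, ∑ j, -(inner ℝ (d.ξ k) d.W) *
              (d.c i j k * inner ℝ (d.T (d.ξ i)) (d.ξ j)) :=
            Finset.sum_congr rfl fun i _ => Finset.sum_comm
        _ = ∑ k, ∑ i, ∑ j, -(inner ℝ (d.ξ k) d.W) *
              (d.c i j k * inner ℝ (d.T (d.ξ i)) (d.ξ j)) := Finset.sum_comm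
        _ = _ := by
            refine Finset.sum_congr rfl fun k _ => ?_
            rw [Finset.mul_sum]
            exact Finset.sum_congr rfl fun i _ => by rw [Finset.mul_sum]
    rw [e5]
    refine Finset.sum_eq_zero fun k _ => ?_
    rw [h.anti k (fun i j => inner ℝ (d.T (d.ξ i)) (d.ξ j)) (fun i j => h.symTx_aux i j), mul_zero]
  rw [Finset.sum_congr rfl fun i _ => e1 i, ← Finset.mul_sum, Finset.sum_add_distrib, e2, e3]
  ring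

/-- (b): `∑_i tr (φ_i ∘ T ∘ φ_i ∘ ∇W)` (`wJ`): `tr (φ_i T φ_i (G T + A T))`; `lam c0 tr (φ_i T φ_i) = lam c0 ⟪T ξ_i, ξ_i⟫`;
`lam⁻¹ ∑_j ⟪ξ_j, φ_i T φ_i φ_j W⟫ = - lam⁻¹ ∑_j ⟪φ_i ξ_j, T φ_i φ_j W⟫`, with `phx`, `pp`, `sq'`: `- lam⁻¹ (a - 1) bb` after the sum over `i`
(the terms with `κ` are zero by antisymmetry); `∑_j κ_j tr (φ_i T φ_i φ_j)`: zero, because `tr (φ_i T φ_i φ_j) = tr (T φ_i φ_j φ_i)` and
`φ_i φ_j φ_i` is skew. -/
theorem Rul.f3_b (h : Rul d) :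
    ∑ i, LinearMap.trace ℝ H (d.φ i ∘ₗ d.T ∘ₗ d.φ i ∘ₗ d.wJ.2) =
      ∑ i, LinearMap.trace ℝ H (d.φ i ∘ₗ d.T ∘ₗ d.φ i ∘ₗ (d.G ∘ₗ d.T + d.A • d.T)) +
        d.lam * d.c0 * d.tau - d.lam⁻¹ * ((Fintype.card ι : ℝ) - 1) * d.bb := by
  have r1 : ∀ i, LinearMap.trace ℝ H (d.φ i ∘ₗ d.T ∘ₗ d.φ i) =
      inner ℝ (d.T (d.ξ i)) (d.ξ i) := by
    intro i
    rw [← h.tr_pp i i]
    rw [LinearMap.trace_comp_comm' (d.T ∘ₗ d.φ i) (d.φ i), LinearMap.comp_assoc,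
      LinearMap.trace_comp_comm' (d.φ i ∘ₗ d.φ i) d.T, LinearMap.comp_assoc]
  have r2 : ∀ i j, LinearMap.trace ℝ H (d.φ i ∘ₗ d.T ∘ₗ d.φ i ∘ₗ
      (innerₛₗ ℝ (d.ξ j)).smulRight (d.φ j d.W)) =
      - ∑ k, d.c i j k * inner ℝ (d.T (d.ξ k)) (d.φ i (d.φ j d.W)) := by
    intro i j
    have e1 : d.φ i ∘ₗ d.T ∘ₗ d.φ i ∘ₗ (innerₛₗ ℝ (d.ξ j)).smulRight (d.φ j d.W) =
        (innerₛₗ ℝ (d.ξ j)).smulRight (d.φ i (d.T (d.φ i (d.φ j d.W)))) := by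
      ext v
      simp
    rw [e1, tr_rank, h.xi_phi_aux]
    congr 1
    refine Finset.sum_congr rfl fun k _ => ?_
    rw [h.symT]
  have r3 : ∀ i j, LinearMap.trace ℝ H (d.φ i ∘ₗ d.T ∘ₗ d.φ i ∘ₗ d.φ j) = 0 := by
    intro i j
    have e1 : LinearMap.trace ℝ H (d.φ i ∘ₗ d.T ∘ₗ d.φ i ∘ₗ d.φ j) =
        LinearMap.trace ℝ H (-(d.φ j ∘ₗ (d.φ i ∘ₗ d.T ∘ₗ d.φ i))) := by
      refine tr_transpose fun u v => ?_
      simp only [LinearMap.comp_apply, LinearMap.neg_apply, inner_neg_right]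
      rw [h.skew, h.symT, h.skew, h.skew, neg_neg]
    have e2 : LinearMap.trace ℝ H (d.φ j ∘ₗ (d.φ i ∘ₗ d.T ∘ₗ d.φ i)) =
        LinearMap.trace ℝ H (d.φ i ∘ₗ d.T ∘ₗ d.φ i ∘ₗ d.φ j) := by
      rw [LinearMap.trace_comp_comm' (d.φ i ∘ₗ d.T ∘ₗ d.φ i) (d.φ j)]
      simp only [LinearMap.comp_assoc]
    rw [map_neg, e2] at e1
    linarith
  have r4 : ∀ i, LinearMap.trace ℝ H (d.φ i ∘ₗ d.T ∘ₗ d.φ i ∘ₗ d.wJ.2) =
      LinearMap.trace ℝ H (d.φ i ∘ₗ d.T ∘ₗ d.φ i ∘ₗ (d.G ∘ₗ d.T + d.A • d.T)) +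
        d.lam * d.c0 * inner ℝ (d.T (d.ξ i)) (d.ξ i) -
        d.lam⁻¹ * ∑ j, ∑ k, d.c i j k * inner ℝ (d.T (d.ξ k)) (d.φ i (d.φ j d.W)) := by
    intro i
    have e1 : d.φ i ∘ₗ d.T ∘ₗ d.φ i ∘ₗ d.wJ.2 =
        d.φ i ∘ₗ d.T ∘ₗ d.φ i ∘ₗ (d.G ∘ₗ d.T + d.A • d.T) +
        (d.lam * d.c0) • (d.φ i ∘ₗ d.T ∘ₗ d.φ i) +
        d.lam⁻¹ • ∑ j, d.φ i ∘ₗ d.T ∘ₗ d.φ i ∘ₗ (innerₛₗ ℝ (d.ξ j)).smulRight (d.φ j d.W) +
        ∑ j, d.κ j • (d.φ i ∘ₗ d.T ∘ₗ d.φ i ∘ₗ d.φ j) := by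
      ext v
      simp only [Dat.wJ, LinearMap.comp_apply, LinearMap.add_apply, LinearMap.smul_apply,
        LinearMap.sum_apply, map_add, map_smul, map_sum, LinearMap.id_apply,
        LinearMap.smulRight_apply]
    rw [e1]
    simp only [map_add, map_smul, map_sum, smul_eq_mul, r1, r2, r3, mul_zero,
      Finset.sum_const_zero, add_zero]
    rw [Finset.sum_neg_distrib]
    ring
  rw [Finset.sum_congr rfl fun i _ => r4 i, Finset.sum_sub_distrib, Finset.sum_add_distrib,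
    ← Finset.mul_sum, ← Finset.mul_sum, h.key_aux]
  unfold Dat.tau
  ring

/-- (c): `div (∑ φ_i T φ_i W)`: expand `F3.2` (`pJ`, `tJ`, `pJ`): for each `i` the trace is
`tr (φ_i ∘ DT.flip (φ_i W)) + tr (φ_i T φ_i ∇W) + ⟪ξ_i, W⟫ tr (φ_i T S) - ⟪S W, φ_i T ξ_i⟫`
`+ ⟪ξ_i, T φ_i W⟫ tr S - ⟪T φ_i W, S ξ_i⟫` (`tr_rank`, `tr_smulRight`).
`tr (φ_i T S)`: `S_apply`, `tr_phi` for `T T` and `T`, and `∑_j ⟪ξ_j, φ_i T ξ_j⟫ = 0` (antisymmetry).
`- ⟪S W, φ_i T ξ_i⟫ = ⟪φ_i S W, T ξ_i⟫ = ⟪φ_i T W, T ξ_i⟫ + lam ⟪φ_i W, T ξ_i⟫ + ∑_j κ_j ⟪φ_i ξ_j, T ξ_i⟫`, the last sum over `i` is zero.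
`tr_S`, `S_xi`. -/
theorem Rul.div_F3 (h : Rul d) {M : ℝ} (hM : (Module.finrank ℝ H : ℝ) = 2 * M - 1) :
    LinearMap.trace ℝ H d.F3.2 =
      ((2 * M - 1) * d.lam - ((Fintype.card ι : ℝ) - 1) * d.lam⁻¹) * d.bb +
        d.lam * d.c0 * d.tau + d.q3 := by
  have hS : ∀ i, LinearMap.trace ℝ H (d.φ i ∘ₗ d.T ∘ₗ d.S) = 0 := by
    intro i
    have e1 : d.φ i ∘ₗ d.T ∘ₗ d.S = d.φ i ∘ₗ (d.T ∘ₗ d.T) + d.lam • (d.φ i ∘ₗ d.T) +
        d.lam⁻¹ • ∑ j, (innerₛₗ ℝ (d.ξ j)).smulRight (d.φ i (d.T (d.ξ j))) := by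
      ext v
      simp only [Dat.S, LinearMap.comp_apply, LinearMap.add_apply, LinearMap.smul_apply,
        LinearMap.sum_apply, map_add, map_smul, map_sum, LinearMap.id_apply,
        LinearMap.smulRight_apply]
    have e2 : LinearMap.trace ℝ H (d.φ i ∘ₗ (d.T ∘ₗ d.T)) = 0 := by
      refine h.tr_phi i fun u v => ?_
      simp only [LinearMap.comp_apply]
      rw [h.symT, h.symT]
    have e3 : LinearMap.trace ℝ H (d.φ i ∘ₗ d.T) = 0 := h.tr_phi i h.symT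
    have e4 : ∑ j, inner ℝ (d.ξ j) (d.φ i (d.T (d.ξ j))) = 0 := by
      have e5 : ∀ j, inner ℝ (d.ξ j) (d.φ i (d.T (d.ξ j))) =
          - ∑ k, d.c i j k * inner ℝ (d.T (d.ξ j)) (d.ξ k) := by
        intro j
        rw [h.xi_phi_aux]
        congr 1
        exact Finset.sum_congr rfl fun k _ => by rw [real_inner_comm]
      rw [Finset.sum_congr rfl fun j _ => e5 j, Finset.sum_neg_distrib,
        h.anti23_aux i (fun j k => inner ℝ (d.T (d.ξ j)) (d.ξ k)) (fun j k => h.symTx_aux j k),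
        neg_zero]
    rw [e1]
    simp only [map_add, map_smul, map_sum, smul_eq_mul, tr_rank, e2, e3, e4, mul_zero, add_zero]
  have hi : ∀ i, LinearMap.trace ℝ H (d.pJ i (d.tJ (d.pJ i d.wJ))).2 =
      LinearMap.trace ℝ H (d.φ i ∘ₗ d.DT.flip (d.φ i d.W)) +
      LinearMap.trace ℝ H (d.φ i ∘ₗ d.T ∘ₗ d.φ i ∘ₗ d.wJ.2) +
      (inner ℝ (d.φ i (d.T d.W)) (d.T (d.ξ i)) + d.lam * inner ℝ (d.T (d.ξ i)) (d.φ i d.W) +
        ∑ j, d.κ j * ∑ k, d.c i j k * inner ℝ (d.T (d.ξ i)) (d.ξ k)) +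
      inner ℝ (d.T (d.ξ i)) (d.φ i d.W) * LinearMap.trace ℝ H d.S +
      (- inner ℝ (d.T (d.ξ i)) (d.T (d.φ i d.W)) -
        (d.lam + d.lam⁻¹) * inner ℝ (d.T (d.ξ i)) (d.φ i d.W)) := by
    intro i
    have w1 : d.wJ.1 = d.W := rfl
    have e1 : (d.pJ i (d.tJ (d.pJ i d.wJ))).2 =
        d.φ i ∘ₗ d.DT.flip (d.φ i d.W) + d.φ i ∘ₗ d.T ∘ₗ d.φ i ∘ₗ d.wJ.2 +
        inner ℝ (d.ξ i) d.W • (d.φ i ∘ₗ d.T ∘ₗ d.S) -
        ((innerₛₗ ℝ d.W).comp d.S).smulRight (d.φ i (d.T (d.ξ i))) +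
        inner ℝ (d.ξ i) (d.T (d.φ i d.W)) • d.S -
        ((innerₛₗ ℝ (d.T (d.φ i d.W))).comp d.S).smulRight (d.ξ i) := by
      ext v
      simp only [Dat.pJ, Dat.tJ, w1, LinearMap.comp_apply, LinearMap.add_apply,
        LinearMap.sub_apply, LinearMap.smul_apply, map_add, map_sub, map_smul,
        LinearMap.smulRight_apply]
      abel
    have e2 : inner ℝ d.W (d.S (d.φ i (d.T (d.ξ i)))) =
        -(inner ℝ (d.φ i (d.T d.W)) (d.T (d.ξ i)) + d.lam * inner ℝ (d.T (d.ξ i)) (d.φ i d.W) +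
        ∑ j, d.κ j * ∑ k, d.c i j k * inner ℝ (d.T (d.ξ i)) (d.ξ k)) := by
      have e3 : inner ℝ d.W (d.S (d.φ i (d.T (d.ξ i)))) =
          - inner ℝ (d.φ i (d.S d.W)) (d.T (d.ξ i)) := by
        rw [← h.S_symm, h.skew, neg_neg]
      have e4 : d.φ i (d.S d.W) = d.φ i (d.T d.W) + d.lam • d.φ i d.W +
          ∑ j, d.κ j • d.φ i (d.ξ j) := by
        rw [h.S_apply, map_add, map_add, map_smul, map_smul, map_sum, Finset.smul_sum]
        congr 1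
        refine Finset.sum_congr rfl fun j _ => ?_
        rw [map_smul, smul_smul, h.Wx, ← mul_assoc, inv_mul_cancel₀ h.lam0, one_mul]
      rw [e3, e4, inner_add_left, inner_add_left, real_inner_smul_left, sum_inner,
        real_inner_comm (d.T (d.ξ i)) (d.φ i d.W)]
      congr 2
      refine Finset.sum_congr rfl fun j _ => ?_
      rw [real_inner_smul_left, h.phx_inner_aux]
      congr 1
      exact Finset.sum_congr rfl fun k _ => by rw [real_inner_comm]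
    have e5 : inner ℝ (d.ξ i) (d.T (d.φ i d.W)) = inner ℝ (d.T (d.ξ i)) (d.φ i d.W) := by
      rw [h.symT]
    have e6 : inner ℝ (d.T (d.φ i d.W)) (d.S (d.ξ i)) =
        inner ℝ (d.T (d.ξ i)) (d.T (d.φ i d.W)) +
        (d.lam + d.lam⁻¹) * inner ℝ (d.T (d.ξ i)) (d.φ i d.W) := by
      rw [h.S_xi, inner_add_right, real_inner_smul_right, real_inner_comm, ← e5,
        real_inner_comm (d.ξ i) (d.T (d.φ i d.W))]
    rw [e1]
    simp only [map_add, map_sub, map_smul, smul_eq_mul, tr_smulRight, hS, mul_zero, add_zero,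
      LinearMap.comp_apply, innerₛₗ_apply_apply]
    rw [e2, e5, e6]
    ring
  have hz : ∑ i, ∑ j, d.κ j * ∑ k, d.c i j k * inner ℝ (d.T (d.ξ i)) (d.ξ k) = 0 := by
    rw [Finset.sum_comm]
    refine Finset.sum_eq_zero fun j _ => ?_
    rw [← Finset.mul_sum, h.anti13_aux j (fun i k => inner ℝ (d.T (d.ξ i)) (d.ξ k))
      (fun i k => h.symTx_aux i k), mul_zero]
  have hF : LinearMap.trace ℝ H d.F3.2 =
      ∑ i, LinearMap.trace ℝ H (d.pJ i (d.tJ (d.pJ i d.wJ))).2 := by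
    unfold Dat.F3
    rw [Prod.snd_sum, map_sum]
  rw [hF, Finset.sum_congr rfl fun i _ => hi i]
  simp only [Finset.sum_add_distrib, Finset.sum_sub_distrib, Finset.sum_neg_distrib,
    ← Finset.mul_sum, ← Finset.sum_mul]
  rw [h.f3_a, h.f3_b, hz, h.tr_S hM]
  unfold Dat.q3
  simp only [Finset.sum_add_distrib, Finset.sum_neg_distrib]
  change _ = ((2 * M - 1) * d.lam - ((Fintype.card ι : ℝ) - 1) * d.lam⁻¹) * d.bb +
        d.lam * d.c0 * d.tau + _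
  have hb : ∑ i, inner ℝ (d.T (d.ξ i)) (d.φ i d.W) = d.bb := rfl
  rw [hb]
  ring

end Pool.Agent.Helper77.JH
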