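import Pool.Agent.Helper77.JH.A2

/-! # JH: the divergence of the fourth field -/

set_option autoImplicit false
set_option linter.unusedSectionVars false
set_option linter.unusedVariables false

namespace Pool.Agent.Helper77.JH

variable {H : Type*} [NormedAddCommGroup H] [InnerProductSpace ℝ H] [FiniteDimensional ℝ H]
variable {ι : Type*} [Fintype ι] [DecidableEq ι] {d : Dat H ι}

private lemma a7_self (h : Rul d) (i : ι) : d.φ i (d.ξ i) = 0 := by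
  rw [h.phx i i]
  apply Finset.sum_eq_zero
  intro k _
  rw [(h.c0 i k).1, zero_smul]

private lemma a7_symm (h : Rul d) (i k : ι) :
    inner ℝ (d.T (d.ξ i)) (d.ξ k) = inner ℝ (d.T (d.ξ k)) (d.ξ i) := by
  rw [h.symT, real_inner_comm]

private lemma a7_anti1 (h : Rul d) (j : ι) :
    ∑ i, inner ℝ (d.T (d.ξ i)) (d.φ j (d.ξ i)) = 0 := by
  rw [← h.anti j (fun i k => inner ℝ (d.T (d.ξ i)) (d.ξ k)) (fun i k => a7_symm h i k)]
  apply Finset.sum_congr rfl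
  intro i _
  rw [h.phx, inner_sum]
  apply Finset.sum_congr rfl
  intro k _
  rw [real_inner_smul_right, h.as1 j i k, h.as2 i j k, neg_neg]

private lemma a7_anti2 (h : Rul d) (j : ι) :
    ∑ i, inner ℝ (d.T (d.ξ i)) (d.φ i (d.ξ j)) = 0 := by
  have h1 := h.anti j (fun i k => inner ℝ (d.T (d.ξ i)) (d.ξ k)) (fun i k => a7_symm h i k)
  rw [← neg_eq_zero, ← h1, ← Finset.sum_neg_distrib]
  apply Finset.sum_congr rfl
  intro i _
  rw [h.phx, inner_sum, ← Finset.sum_neg_distrib]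
  apply Finset.sum_congr rfl
  intro k _
  rw [real_inner_smul_right, h.as2 i j k]
  ring

/-- piece `JH-A7` (a): Codazzi -/
theorem Rul.f4_a (h : Rul d) :
    ∑ i, (inner ℝ (d.DT (d.ξ i) (d.ξ i)) d.W - inner ℝ (d.DT d.W (d.ξ i)) (d.ξ i)) =
      d.lam⁻¹ * d.bb := by
  have h1 : ∀ i, inner ℝ (d.DT (d.ξ i) (d.ξ i)) d.W - inner ℝ (d.DT d.W (d.ξ i)) (d.ξ i) =
      d.lam⁻¹ * ((∑ j, inner ℝ (d.ξ j) d.W * inner ℝ (d.T (d.ξ i)) (d.φ j (d.ξ i))) +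
        inner ℝ (d.T (d.ξ i)) (d.φ i d.W)) := by
    intro i
    have h2 := congrArg (fun z => inner ℝ z (d.ξ i)) (h.cod (d.ξ i) d.W)
    simp only [inner_sub_left, real_inner_smul_left, sum_inner, inner_add_left, neg_mul] at h2
    rw [h.symD (d.ξ i) d.W (d.ξ i), real_inner_comm _ d.W] at h2
    rw [h2, ← mul_neg]
    congr 1
    have h3 : ∀ j, (inner ℝ (d.ξ j) d.W * inner ℝ (d.φ j (d.T (d.ξ i))) (d.ξ i) +
        inner ℝ (d.φ j (d.T (d.ξ i))) d.W * inner ℝ (d.ξ j) (d.ξ i) -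
        inner ℝ (d.ξ j) (d.ξ i) * inner ℝ (d.φ j (d.T d.W)) (d.ξ i) -
        inner ℝ (d.φ j (d.T d.W)) (d.ξ i) * inner ℝ (d.ξ j) (d.ξ i)) =
        -(inner ℝ (d.ξ j) d.W * inner ℝ (d.T (d.ξ i)) (d.φ j (d.ξ i))) -
          (if j = i then inner ℝ (d.T (d.ξ i)) (d.φ i d.W) else 0) := by
      intro j
      rw [h.on j i, h.skew j (d.T (d.ξ i)) (d.ξ i), h.skew j (d.T (d.ξ i)) d.W,
        h.skew j (d.T d.W) (d.ξ i)]
      split_ifs with hji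
      · subst hji
        simp only [a7_self h j, inner_zero_right]
        ring
      · ring
    rw [Finset.sum_congr rfl fun j _ => h3 j, Finset.sum_sub_distrib, Finset.sum_neg_distrib,
      Finset.sum_ite_eq' Finset.univ i, if_pos (Finset.mem_univ i)]
    ring
  rw [Finset.sum_congr rfl fun i _ => h1 i, ← Finset.mul_sum, Finset.sum_add_distrib,
    Finset.sum_comm]
  have h4 : ∑ j, ∑ i, inner ℝ (d.ξ j) d.W * inner ℝ (d.T (d.ξ i)) (d.φ j (d.ξ i)) = 0 := by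
    apply Finset.sum_eq_zero
    intro j _
    rw [← Finset.mul_sum, a7_anti1 h j, mul_zero]
  rw [h4, zero_add]
  rfl

/-- (b): the trace of `∇W`: `tr (G T) + A tr T + lam c0 (2 M - 1) + lam⁻¹ ∑ ⟪ξ_i, φ_i W⟫ + ∑ κ_i tr φ_i`, the last two are zero -/
theorem Rul.tr_W (h : Rul d) {M : ℝ} (hM : (Module.finrank ℝ H : ℝ) = 2 * M - 1) :
    LinearMap.trace ℝ H d.wJ.2 = LinearMap.trace ℝ H (d.G ∘ₗ d.T) + d.lam * d.c0 * (2 * M - 1) := by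
  have h1 : ∀ i, LinearMap.trace ℝ H (d.φ i) = 0 := by
    intro i
    have := h.tr_phi i (Y := LinearMap.id) (fun u v => rfl)
    rwa [LinearMap.comp_id] at this
  have h2 : ∀ i, inner ℝ (d.ξ i) (d.φ i d.W) = 0 := by
    intro i
    rw [← neg_eq_zero, ← h.skew i (d.ξ i) d.W, a7_self h i, inner_zero_left]
  unfold Dat.wJ
  simp only [map_add, map_smul, map_sum, tr_rank, h1, h2, h.trT, smul_eq_mul, mul_zero,
    Finset.sum_const_zero, add_zero, LinearMap.trace_id, hM]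

/-- (c): `div Z`.  With `tr_smJ`: `∑_i (d⟪T ξ_i, W⟫ (ξ_i) + ⟪T ξ_i, W⟫ tr (φ_i S)) - ∑_i d⟪T ξ_i, ξ_i⟫ (W) - tau tr (∇W)`;
`tr (φ_i S) = 0`; `d⟪T ξ_i, W⟫ (ξ_i) = ⟪DT ξ_i ξ_i, W⟫ + ⟪T φ_i S ξ_i, W⟫ + ⟪T ξ_i, ∇_{ξ_i} W⟫`;
`d⟪T ξ_i, ξ_i⟫ (W) = ⟪DT W ξ_i, ξ_i⟫ + 2 ⟪T ξ_i, φ_i S W⟫`; (a).
`φ_i S ξ_i = φ_i T ξ_i`; `⟪T ξ_i, ∇_{ξ_i} W⟫ = ⟪T ξ_i, G T ξ_i⟫ + A ‖T ξ_i‖² + lam c0 ⟪T ξ_i, ξ_i⟫ + lam⁻¹ ⟪T ξ_i, φ_i W⟫ + ∑_j κ_j ⟪T ξ_i, φ_j ξ_i⟫`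
(last sum zero); `⟪T ξ_i, φ_i S W⟫ = ⟪T ξ_i, φ_i T W⟫ + lam ⟪T ξ_i, φ_i W⟫ + ∑_j κ_j ⟪T ξ_i, φ_i ξ_j⟫` (last sum zero);
`⟪T W, φ_i T ξ_i⟫ = - ⟪φ_i T W, T ξ_i⟫`. -/
theorem Rul.div_F4 (h : Rul d) {M : ℝ} (hM : (Module.finrank ℝ H : ℝ) = 2 * M - 1) :
    LinearMap.trace ℝ H d.F4.2 =
      (2 * d.lam⁻¹ - 2 * d.lam) * d.bb - (2 * M - 2) * d.lam * d.c0 * d.tau + d.q4 := by
  have hS : ∀ i, LinearMap.trace ℝ H (d.xJ i).2 = 0 := fun i => h.tr_phi i h.S_symm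
  have e1 : LinearMap.trace ℝ H d.F4.2 =
      ∑ i, (inJ (d.tJ (d.xJ i)) d.wJ).2 (d.ξ i) - (∑ i, (inJ (d.tJ (d.xJ i)) (d.xJ i)).2 d.W +
        d.tau * LinearMap.trace ℝ H d.wJ.2) := by
    unfold Dat.F4
    rw [Prod.snd_sub, Prod.snd_sum, map_sub, map_sum, tr_smJ, Prod.snd_sum, Prod.fst_sum,
      LinearMap.sum_apply]
    congr 1
    apply Finset.sum_congr rfl
    intro i _
    rw [tr_smJ, hS i, mul_zero, add_zero]
    rfl
  have hpS : ∀ i, d.φ i (d.S (d.ξ i)) = d.φ i (d.T (d.ξ i)) := by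
    intro i
    rw [h.S_xi, map_add, map_smul, a7_self h i, smul_zero, add_zero]
  have hSW : d.S d.W = d.T d.W + d.lam • d.W + ∑ j, d.κ j • d.ξ j := by
    rw [h.S_apply, Finset.smul_sum]
    congr 1
    apply Finset.sum_congr rfl
    intro j _
    rw [smul_smul, h.Wx, inv_mul_cancel_left₀ h.lam0]
  have hwx : ∀ i, d.wJ.2 (d.ξ i) = d.G (d.T (d.ξ i)) + d.A • d.T (d.ξ i) +
      (d.lam * d.c0) • d.ξ i + d.lam⁻¹ • d.φ i d.W + ∑ j, d.κ j • d.φ j (d.ξ i) := by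
    intro i
    unfold Dat.wJ
    simp only [LinearMap.add_apply, LinearMap.comp_apply, LinearMap.smul_apply, LinearMap.id_apply,
      LinearMap.sum_apply, LinearMap.smulRight_apply, innerₛₗ_apply_apply]
    congr 3
    rw [Finset.sum_eq_single i]
    · rw [h.on i i, if_pos rfl, one_smul]
    · intro j _ hj
      rw [h.on j i, if_neg hj, zero_smul]
    · intro hi
      exact absurd (Finset.mem_univ i) hi
  have e2 : ∀ i, (inJ (d.tJ (d.xJ i)) d.wJ).2 (d.ξ i) =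
      inner ℝ (d.DT (d.ξ i) (d.ξ i)) d.W + inner ℝ (d.T d.W) (d.φ i (d.T (d.ξ i))) +
      (inner ℝ (d.G (d.T (d.ξ i))) (d.T (d.ξ i)) + d.A * ‖d.T (d.ξ i)‖ ^ 2 +
        d.lam * d.c0 * inner ℝ (d.T (d.ξ i)) (d.ξ i) + d.lam⁻¹ * inner ℝ (d.T (d.ξ i)) (d.φ i d.W) +
        ∑ j, d.κ j * inner ℝ (d.T (d.ξ i)) (d.φ j (d.ξ i))) := by
    intro i
    have e3 : (inJ (d.tJ (d.xJ i)) d.wJ).2 (d.ξ i) =
        inner ℝ d.W (d.DT (d.ξ i) (d.ξ i) + d.T (d.φ i (d.S (d.ξ i)))) +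
          inner ℝ (d.T (d.ξ i)) (d.wJ.2 (d.ξ i)) := rfl
    rw [e3, hwx, hpS, inner_add_right, real_inner_comm d.W (d.DT (d.ξ i) (d.ξ i)), ← h.symT]
    simp only [inner_add_right, real_inner_smul_right, inner_sum]
    rw [real_inner_self_eq_norm_sq, real_inner_comm (d.T (d.ξ i)) (d.G (d.T (d.ξ i)))]
  have e4 : ∀ i, (inJ (d.tJ (d.xJ i)) (d.xJ i)).2 d.W =
      inner ℝ (d.DT d.W (d.ξ i)) (d.ξ i) + 2 * (-inner ℝ (d.T d.W) (d.φ i (d.T (d.ξ i))) +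
        d.lam * inner ℝ (d.T (d.ξ i)) (d.φ i d.W) +
        ∑ j, d.κ j * inner ℝ (d.T (d.ξ i)) (d.φ i (d.ξ j))) := by
    intro i
    have e5 : (inJ (d.tJ (d.xJ i)) (d.xJ i)).2 d.W =
        inner ℝ (d.ξ i) (d.DT d.W (d.ξ i) + d.T (d.φ i (d.S d.W))) +
          inner ℝ (d.T (d.ξ i)) (d.φ i (d.S d.W)) := rfl
    have e6 : inner ℝ (d.T (d.ξ i)) (d.φ i (d.S d.W)) =
        -inner ℝ (d.T d.W) (d.φ i (d.T (d.ξ i))) + d.lam * inner ℝ (d.T (d.ξ i)) (d.φ i d.W) +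
        ∑ j, d.κ j * inner ℝ (d.T (d.ξ i)) (d.φ i (d.ξ j)) := by
      rw [hSW]
      simp only [map_add, map_smul, map_sum, inner_add_right, real_inner_smul_right, inner_sum]
      congr 2
      rw [real_inner_comm, h.skew]
    rw [e5, inner_add_right, ← h.symT, e6, real_inner_comm (d.ξ i) (d.DT d.W (d.ξ i))]
    ring
  rw [e1, Finset.sum_congr rfl fun i _ => e2 i, Finset.sum_congr rfl fun i _ => e4 i, h.tr_W hM]
  have z1 : ∑ i, ∑ j, d.κ j * inner ℝ (d.T (d.ξ i)) (d.φ j (d.ξ i)) = 0 := by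
    rw [Finset.sum_comm]
    apply Finset.sum_eq_zero
    intro j _
    rw [← Finset.mul_sum, a7_anti1 h j, mul_zero]
  have z2 : ∑ i, ∑ j, d.κ j * inner ℝ (d.T (d.ξ i)) (d.φ i (d.ξ j)) = 0 := by
    rw [Finset.sum_comm]
    apply Finset.sum_eq_zero
    intro j _
    rw [← Finset.mul_sum, a7_anti2 h j, mul_zero]
  have z3 := h.f4_a
  rw [Finset.sum_sub_distrib] at z3
  unfold Dat.q4
  unfold Dat.bb at z3 ⊢
  unfold Dat.tau
  simp only [Finset.sum_add_distrib, ← Finset.mul_sum, Finset.sum_neg_distrib, z1, z2]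
  linear_combination z3

end Pool.Agent.Helper77.JH
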