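import Pool.Agent.Helper77.JH.A3b

/-! # JH: the divergence of the fifth field -/

set_option autoImplicit false
set_option linter.unusedSectionVars false
set_option linter.unusedVariables false

namespace Pool.Agent.Helper77.JH

variable {H : Type*} [NormedAddCommGroup H] [InnerProductSpace ℝ H] [FiniteDimensional ℝ H]
variable {ι : Type*} [Fintype ι] [DecidableEq ι] {d : Dat H ι}

/-- `S` as a sum -/
private theorem S_eq (i : ι) (Y : H →ₗ[ℝ] H) :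
    LinearMap.trace ℝ H (Y ∘ₗ d.S) = LinearMap.trace ℝ H (Y ∘ₗ d.T) +
      d.lam * LinearMap.trace ℝ H Y + d.lam⁻¹ * ∑ j, inner ℝ (d.ξ j) (Y (d.ξ j)) := by
  have h1 : Y ∘ₗ d.S = Y ∘ₗ d.T + d.lam • Y +
      d.lam⁻¹ • ∑ j, (innerₛₗ ℝ (d.ξ j)).smulRight (Y (d.ξ j)) := by
    refine LinearMap.ext fun u => ?_
    simp [Dat.S, map_add, map_sum]
  rw [h1, map_add, map_add, map_smul, map_smul, map_sum, smul_eq_mul, smul_eq_mul]
  congr 2
  exact Finset.sum_congr rfl fun j _ => tr_rank _ _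

/-- the double sum with the structure constants -/
private theorem Rul.cc (h : Rul d) (s : ι → ι → ℝ) :
    ∑ i, ∑ j, ∑ k, ∑ l, d.c i j k * (d.c i j l * s k l) =
      ((Fintype.card ι : ℝ) - 1) * ∑ k, s k k := by
  have h1 : ∀ k l, ∑ i, ∑ j, d.c i j k * (d.c i j l * s k l) =
      if k = l then ((Fintype.card ι : ℝ) - 1) * s k l else 0 := by
    intro k l
    have h2 : ∑ i, ∑ j, d.c i j k * (d.c i j l * s k l) =
        (∑ i, ∑ j, d.c i j k * d.c i j l) * s k l := by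
      rw [Finset.sum_mul]
      refine Finset.sum_congr rfl fun i _ => ?_
      rw [Finset.sum_mul]
      exact Finset.sum_congr rfl fun j _ => by ring
    rw [h2, h.sq' k l]
    split_ifs <;> ring
  calc ∑ i, ∑ j, ∑ k, ∑ l, d.c i j k * (d.c i j l * s k l)
      = ∑ k, ∑ l, ∑ i, ∑ j, d.c i j k * (d.c i j l * s k l) := by
        have e1 : ∀ i, ∑ j, ∑ k, ∑ l, d.c i j k * (d.c i j l * s k l) =
            ∑ k, ∑ l, ∑ j, d.c i j k * (d.c i j l * s k l) := by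
          intro i
          rw [Finset.sum_comm]
          exact Finset.sum_congr rfl fun k _ => Finset.sum_comm
        rw [Finset.sum_congr rfl fun i _ => e1 i, Finset.sum_comm]
        exact Finset.sum_congr rfl fun k _ => Finset.sum_comm
    _ = ∑ k, ∑ l, if k = l then ((Fintype.card ι : ℝ) - 1) * s k l else 0 :=
        Finset.sum_congr rfl fun k _ => Finset.sum_congr rfl fun l _ => h1 k l
    _ = ((Fintype.card ι : ℝ) - 1) * ∑ k, s k k := by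
        rw [Finset.mul_sum]
        refine Finset.sum_congr rfl fun k _ => ?_
        rw [Finset.sum_ite_eq]
        simp

/-- piece `JH-A8`: `div (∑ φ_i T ξ_i)`: for each `i` the trace is
`tr (φ_i ∘ DT.flip ξ_i) + tr (φ_i T φ_i S) + ⟪ξ_i, T ξ_i⟫ tr S - ⟪T ξ_i, S ξ_i⟫` (`tr_rank`).  `div_phiT` with `Q = ξ_i`, summed:
`- lam⁻¹ a tau` (`⟪φ_j T ξ_k, ξ_i⟫ = ∑_l c i j l ⟪T ξ_k, ξ_l⟫`, `sq'`); `tr (φ_i T φ_i S) = tr (φ_i T φ_i T) + lam ⟪T ξ_i, ξ_i⟫ +`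
`lam⁻¹ ∑_j ⟪ξ_j, φ_i T φ_i ξ_j⟫`, the last summed over `i`: `- lam⁻¹ (a - 1) tau`; `tr_S`, `S_xi`. -/
theorem Rul.div_F5 (h : Rul d) {M : ℝ} (hM : (Module.finrank ℝ H : ℝ) = 2 * M - 1) :
    LinearMap.trace ℝ H d.F5.2 =
      ((2 * M - 1) * d.lam - (Fintype.card ι : ℝ) * d.lam⁻¹) * d.tau + d.q5 := by
  have hi : ∀ i, LinearMap.trace ℝ H (d.pJ i (d.tJ (d.xJ i))).2 =
      LinearMap.trace ℝ H (d.φ i ∘ₗ d.DT.flip (d.ξ i)) +
      LinearMap.trace ℝ H ((d.φ i ∘ₗ d.T ∘ₗ d.φ i) ∘ₗ d.S) +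
      inner ℝ (d.T (d.ξ i)) (d.ξ i) * LinearMap.trace ℝ H d.S -
      inner ℝ (d.T (d.ξ i)) (d.S (d.ξ i)) := by
    intro i
    have e1 : (d.pJ i (d.tJ (d.xJ i))).2 = (d.φ i ∘ₗ d.DT.flip (d.ξ i)) +
        ((d.φ i ∘ₗ d.T ∘ₗ d.φ i) ∘ₗ d.S) + inner ℝ (d.ξ i) (d.T (d.ξ i)) • d.S -
        ((innerₛₗ ℝ (d.T (d.ξ i))).comp d.S).smulRight (d.ξ i) := by
      refine LinearMap.ext fun u => ?_
      simp [Dat.pJ, Dat.tJ, Dat.xJ]
    rw [e1, map_sub, map_add, map_add, map_smul, tr_smulRight, smul_eq_mul,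
      real_inner_comm (d.ξ i) (d.T (d.ξ i))]
    rfl
  have hsum : LinearMap.trace ℝ H d.F5.2 =
      ∑ i, LinearMap.trace ℝ H (d.pJ i (d.tJ (d.xJ i))).2 := by
    rw [Dat.F5, Prod.snd_sum, map_sum]
  -- the first term
  have hphi : ∀ i j k, inner ℝ (d.φ j (d.T (d.ξ k))) (d.ξ i) =
      ∑ l, d.c i j l * inner ℝ (d.T (d.ξ k)) (d.ξ l) := by
    intro i j k
    rw [h.skew, h.phx, inner_sum, ← Finset.sum_neg_distrib]
    refine Finset.sum_congr rfl fun l _ => ?_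
    rw [inner_smul_right, h.as1 j i l]
    ring
  have h1 : ∑ i, LinearMap.trace ℝ H (d.φ i ∘ₗ d.DT.flip (d.ξ i)) =
      -d.lam⁻¹ * ((Fintype.card ι : ℝ) * d.tau) := by
    have e1 : ∀ i, LinearMap.trace ℝ H (d.φ i ∘ₗ d.DT.flip (d.ξ i)) = -d.lam⁻¹ *
        ((∑ j, ∑ k, ∑ l, d.c i j k * (d.c i j l * inner ℝ (d.T (d.ξ k)) (d.ξ l))) +
          inner ℝ (d.T (d.ξ i)) (d.ξ i)) := by
      intro i
      rw [h.div_phiT, Finset.sum_add_distrib]
      congr 2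
      · refine Finset.sum_congr rfl fun j _ => Finset.sum_congr rfl fun k _ => ?_
        rw [hphi, Finset.mul_sum]
      · have e2 : ∀ j, inner ℝ (d.T (d.ξ i)) (d.ξ j) * inner ℝ (d.ξ j) (d.ξ i) =
            if j = i then inner ℝ (d.T (d.ξ i)) (d.ξ j) else 0 := by
          intro j
          rw [h.on]
          split_ifs <;> simp
        rw [Finset.sum_congr rfl fun j _ => e2 j, Finset.sum_ite_eq']
        simp
    rw [Finset.sum_congr rfl fun i _ => e1 i, ← Finset.mul_sum, Finset.sum_add_distrib,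
      h.cc (fun k l => inner ℝ (d.T (d.ξ k)) (d.ξ l))]
    simp only [Dat.tau]
    ring
  -- the second term
  have h2 : ∑ i, LinearMap.trace ℝ H ((d.φ i ∘ₗ d.T ∘ₗ d.φ i) ∘ₗ d.S) =
      ∑ i, LinearMap.trace ℝ H (d.φ i ∘ₗ d.T ∘ₗ d.φ i ∘ₗ d.T) + d.lam * d.tau -
        d.lam⁻¹ * (((Fintype.card ι : ℝ) - 1) * d.tau) := by
    have e1 : ∀ i, LinearMap.trace ℝ H ((d.φ i ∘ₗ d.T ∘ₗ d.φ i) ∘ₗ d.S) =
        LinearMap.trace ℝ H (d.φ i ∘ₗ d.T ∘ₗ d.φ i ∘ₗ d.T) +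
        d.lam * inner ℝ (d.T (d.ξ i)) (d.ξ i) +
        -d.lam⁻¹ * ∑ j, ∑ k, ∑ l, d.c i j k * (d.c i j l * inner ℝ (d.T (d.ξ k)) (d.ξ l)) := by
      intro i
      rw [S_eq i, show (d.φ i ∘ₗ d.T ∘ₗ d.φ i) ∘ₗ d.T = d.φ i ∘ₗ d.T ∘ₗ d.φ i ∘ₗ d.T from rfl]
      have e2 : LinearMap.trace ℝ H (d.φ i ∘ₗ d.T ∘ₗ d.φ i) = inner ℝ (d.T (d.ξ i)) (d.ξ i) := by
        rw [← h.tr_pp i i, ← LinearMap.comp_assoc, LinearMap.trace_comp_comm']
      rw [e2, neg_mul, ← mul_neg, ← Finset.sum_neg_distrib]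
      congr 2
      refine Finset.sum_congr rfl fun j _ => ?_
      have e3 : inner ℝ (d.ξ j) ((d.φ i ∘ₗ d.T ∘ₗ d.φ i) (d.ξ j)) =
          - inner ℝ (d.φ i (d.ξ j)) (d.T (d.φ i (d.ξ j))) := by
        rw [h.skew i (d.ξ j), neg_neg]
        rfl
      rw [e3, ← h.symT, h.phx, map_sum, sum_inner]
      congr 1
      refine Finset.sum_congr rfl fun k _ => ?_
      rw [map_smul, inner_smul_left, inner_sum, Finset.mul_sum]
      refine Finset.sum_congr rfl fun l _ => ?_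
      rw [inner_smul_right]
      rfl
    rw [Finset.sum_congr rfl fun i _ => e1 i, Finset.sum_add_distrib, Finset.sum_add_distrib,
      ← Finset.mul_sum, ← Finset.mul_sum, h.cc (fun k l => inner ℝ (d.T (d.ξ k)) (d.ξ l))]
    simp only [Dat.tau]
    ring
  -- the last term
  have h4 : ∑ i, inner ℝ (d.T (d.ξ i)) (d.S (d.ξ i)) =
      ∑ i, ‖d.T (d.ξ i)‖ ^ 2 + (d.lam + d.lam⁻¹) * d.tau := by
    rw [Dat.tau, Finset.mul_sum, ← Finset.sum_add_distrib]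
    refine Finset.sum_congr rfl fun i _ => ?_
    rw [h.S_xi, inner_add_right, inner_smul_right, real_inner_self_eq_norm_sq]
  have h3 : ∑ i, inner ℝ (d.T (d.ξ i)) (d.ξ i) * LinearMap.trace ℝ H d.S =
      d.tau * ((2 * M - 1) * d.lam + (Fintype.card ι : ℝ) * d.lam⁻¹) := by
    rw [← Finset.sum_mul, h.tr_S hM, Dat.tau]
  have h5 : d.q5 = -∑ i, ‖d.T (d.ξ i)‖ ^ 2 +
      ∑ i, LinearMap.trace ℝ H (d.φ i ∘ₗ d.T ∘ₗ d.φ i ∘ₗ d.T) := by
    rw [Dat.q5, Finset.sum_add_distrib, Finset.sum_neg_distrib]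
  rw [hsum, Finset.sum_congr rfl fun i _ => hi i, Finset.sum_sub_distrib,
    Finset.sum_add_distrib, Finset.sum_add_distrib, h1, h2, h3, h4, h5]
  ring

end Pool.Agent.Helper77.JH
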