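import Pool.Agent.Helper77.JH.A4
import Pool.Agent.Helper77.JH.A5
import Pool.Agent.Helper77.JH.A6
import Pool.Agent.Helper77.JH.A7
import Pool.Agent.Helper77.JH.A8

/-! # JH: the identity -/

set_option autoImplicit false
set_option linter.unusedSectionVars false
set_option linter.unusedVariables false

namespace Pool.Agent.Helper77.JH

variable {H : Type*} [NormedAddCommGroup H] [InnerProductSpace ℝ H] [FiniteDimensional ℝ H]
variable {ι : Type*} [Fintype ι] [DecidableEq ι] {d : Dat H ι}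

/-- piece `JH-A9` (a): `⟪W, φ_i T ξ_i⟫ = - ⟪φ_i W, T ξ_i⟫`, `∑ κ_j ⟪ξ_j, φ_i T ξ_i⟫ = 0` (antisymmetry) -/
theorem Rul.aJ_F5 (h : Rul d) :
    d.aJ.2 d.F5.1 = -inner ℝ (d.T (d.U + d.W)) d.F5.1 + d.lam * d.bb := by
  have e0 : d.F5.1 = ∑ i, d.φ i (d.T (d.ξ i)) := by
    unfold Dat.F5
    rw [Prod.fst_sum]
    rfl
  have e1 : inner ℝ d.W d.F5.1 = -d.bb := by
    rw [e0, inner_sum, Dat.bb, ← Finset.sum_neg_distrib]
    refine Finset.sum_congr rfl fun i _ => ?_
    rw [real_inner_comm, h.skew]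
  have e2 : ∑ j, d.κ j * inner ℝ (d.ξ j) d.F5.1 = 0 := by
    refine Finset.sum_eq_zero fun j _ => ?_
    have e3 : inner ℝ (d.ξ j) d.F5.1 =
        -∑ i, ∑ k, d.c i j k * inner ℝ (d.T (d.ξ i)) (d.ξ k) := by
      rw [e0, inner_sum, ← Finset.sum_neg_distrib]
      refine Finset.sum_congr rfl fun i _ => ?_
      rw [real_inner_comm, h.skew, h.phx, inner_sum]
      congr 1
      refine Finset.sum_congr rfl fun k _ => ?_
      rw [real_inner_smul_right]
    have e4 : ∑ i, ∑ k, d.c i j k * inner ℝ (d.T (d.ξ i)) (d.ξ k) = 0 := by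
      have h1 : ∑ i, ∑ k, d.c i j k * inner ℝ (d.T (d.ξ i)) (d.ξ k) =
          -∑ i, ∑ k, d.c i j k * inner ℝ (d.T (d.ξ i)) (d.ξ k) := by
        conv_lhs => rw [Finset.sum_comm]
        rw [← Finset.sum_neg_distrib]
        refine Finset.sum_congr rfl fun i _ => ?_
        rw [← Finset.sum_neg_distrib]
        refine Finset.sum_congr rfl fun k _ => ?_
        have h2 : d.c k j i = -d.c i j k := by
          rw [h.as1 k j i, h.as2 j k i, h.as1 j i k, neg_neg]
        rw [h2, h.symT, real_inner_comm]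
        ring
      linarith
    rw [e3, e4, neg_zero, mul_zero]
  have e5 : d.aJ.2 d.F5.1 = -inner ℝ (d.U + d.W) (d.T d.F5.1) - d.lam * inner ℝ d.W d.F5.1 +
      ∑ j, d.κ j * inner ℝ (d.ξ j) d.F5.1 := by
    unfold Dat.aJ
    simp only [LinearMap.add_apply, LinearMap.sub_apply, LinearMap.neg_apply,
      LinearMap.comp_apply, LinearMap.smul_apply, LinearMap.sum_apply, innerₛₗ_apply_apply,
      smul_eq_mul]
  rw [e5, e1, e2, ← h.symT]
  ring

/-- (b): the identity: `tr_smJ` for the five terms, `div_F1`, .., `div_F5`, (a); the terms which are linear in `T` cancel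
(`field_simp`, `ring`); the derivative of `β` is `⟪T W, .⟫` -/
theorem Rul.div_V3 (h : Rul d) {M : ℝ} (hM : (Module.finrank ℝ H : ℝ) = 2 * M - 1) :
    LinearMap.trace ℝ H (d.V3 M).2 = d.Qf M := by
  have hl := h.lam0
  have hb : ∀ u, d.bJ.2 u = inner ℝ (d.T d.W) u := by
    intro u
    unfold Dat.bJ Dat.rJ cJ
    simp only [Prod.smul_snd, Prod.snd_sub, sub_zero, LinearMap.smul_apply,
      LinearMap.comp_apply, innerₛₗ_apply_apply, smul_eq_mul, h.symT]
    ring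
  have hr : ∀ u, d.rJ.2 u = 2 * inner ℝ (d.T d.W) u := by
    intro u
    unfold Dat.rJ
    simp only [LinearMap.smul_apply,
      LinearMap.comp_apply, innerₛₗ_apply_apply, smul_eq_mul, h.symT]
  have hc1 : ∀ u, (d.c1J M).2 u = (M * (d.lam ^ 2 - 1) + ((Fintype.card ι : ℝ) - 1) /
      (2 * d.lam ^ 2)) * inner ℝ (d.T d.W) u := by
    intro u
    unfold Dat.c1J cJ
    simp only [Prod.snd_add, Prod.smul_snd, zero_add, LinearMap.smul_apply, smul_eq_mul, hb]
  have hc2 : ∀ u, d.c2J.2 u = (((Fintype.card ι : ℝ) - 1) / d.lam) * inner ℝ (d.T d.W) u := by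
    intro u
    unfold Dat.c2J cJ
    simp only [Prod.snd_add, Prod.smul_snd, zero_add, LinearMap.smul_apply, smul_eq_mul, hb]
  have hc3 : ∀ u, d.c3J.2 u = ((d.lam ^ 2 - 1) / d.lam ^ 2) * inner ℝ (d.T d.W) u := by
    intro u
    unfold Dat.c3J cJ
    simp only [Prod.snd_add, Prod.smul_snd, zero_add, LinearMap.smul_apply, smul_eq_mul, hb]
  have v0 : d.c0J.1 = d.c0 := by
    unfold Dat.c0J Dat.aJ Dat.rJ Dat.c0
    simp only [Prod.smul_fst, Prod.fst_sub, smul_eq_mul]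
    field_simp
  have hm : (mJ d.bJ d.c0J).2 d.F5.1 = d.c0 * inner ℝ (d.T d.W) d.F5.1 +
      d.bJ.1 * ((d.lam ^ 2)⁻¹ * ((d.lam ^ 2 - 1) *
        (-inner ℝ (d.T (d.U + d.W)) d.F5.1 + d.lam * d.bb) -
          2 * inner ℝ (d.T d.W) d.F5.1)) := by
    unfold mJ
    simp only [LinearMap.add_apply, LinearMap.smul_apply, smul_eq_mul, hb, v0]
    congr 2
    unfold Dat.c0J
    simp only [Prod.smul_snd, Prod.snd_sub, LinearMap.smul_apply, LinearMap.sub_apply,
      smul_eq_mul, h.aJ_F5, hr]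
  have hm1 : (mJ d.bJ d.c0J).1 = d.bJ.1 * d.c0 := by
    unfold mJ
    simp only [v0]
  have hV : (d.V3 M).2 = (smJ (d.c1J M) d.F1).2 + (smJ d.c2J d.F2).2 - (smJ d.c3J d.F3).2 +
      (smJ d.bJ d.F4).2 + (smJ (mJ d.bJ d.c0J) d.F5).2 := by
    unfold Dat.V3
    simp only [Prod.snd_add, Prod.snd_sub]
  have w1 : (d.c1J M).1 = M * d.lam ^ 2 - ((Fintype.card ι : ℝ) - 1) / 2 +
      (M * (d.lam ^ 2 - 1) + ((Fintype.card ι : ℝ) - 1) / (2 * d.lam ^ 2)) * d.bJ.1 := by
    unfold Dat.c1J cJ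
    simp only [Prod.fst_add, Prod.smul_fst, smul_eq_mul]
  have w2 : d.c2J.1 = d.lam + (((Fintype.card ι : ℝ) - 1) / d.lam) * d.bJ.1 := by
    unfold Dat.c2J cJ
    simp only [Prod.fst_add, Prod.smul_fst, smul_eq_mul]
  have w3 : d.c3J.1 = 1 + ((d.lam ^ 2 - 1) / d.lam ^ 2) * d.bJ.1 := by
    unfold Dat.c3J cJ
    simp only [Prod.fst_add, Prod.smul_fst, smul_eq_mul]
  rw [hV, map_add, map_add, map_sub, map_add, tr_smJ, tr_smJ, tr_smJ, tr_smJ, tr_smJ, hc1, hc2,
    hc3, hb, hm, hm1, h.div_F1, h.div_F2, h.div_F3 hM, h.div_F4 hM, h.div_F5 hM]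
  unfold Dat.Qf
  simp only [inner_add_right, inner_sub_right, real_inner_smul_right]
  rw [w1, w2, w3]
  generalize d.F5.1 = f5
  generalize d.F4.1 = f4
  generalize d.F3.1 = f3
  generalize d.F2.1 = f2
  generalize d.F1.1 = f1
  generalize d.bJ.1 = b
  generalize d.q1 = q1
  generalize d.q2 = q2
  generalize d.q3 = q3
  generalize d.q4 = q4
  generalize d.q5 = q5
  generalize d.bb = bb
  generalize d.tau = tau
  generalize d.c0 = c0
  generalize (inner ℝ (d.T d.W) f1 : ℝ) = i1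
  generalize (inner ℝ (d.T d.W) f2 : ℝ) = i2
  generalize (inner ℝ (d.T d.W) f3 : ℝ) = i3
  generalize (inner ℝ (d.T d.W) f4 : ℝ) = i4
  generalize (inner ℝ (d.T d.W) f5 : ℝ) = i5
  generalize (inner ℝ (d.T (d.U + d.W)) f5 : ℝ) = i6
  generalize d.lam = l at hl ⊢
  generalize (Fintype.card ι : ℝ) = a
  field_simp
  ring

end Pool.Agent.Helper77.JH
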