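import Pool.Agent.Helper77.JH.Cone

/-! # JH: the frame -/

set_option autoImplicit false
set_option linter.unusedSectionVars false
set_option linter.unusedVariables false

namespace Pool.Agent.Helper77.JH

open Pool.Agent.Helper77.JE (Hf Pt Gd rr nu NN tt xs SS)

variable {L : Type*} [NormedAddCommGroup L] [NormedSpace ℝ L]
variable {ι : Type*} [Fintype ι] [DecidableEq ι] {κ : Type*} [Fintype κ] [DecidableEq κ]
variable {B : L →L[ℝ] L →L[ℝ] ℝ} {J : ι → L →L[ℝ] L} {c : ι → ι → ι → ℝ} {lam M : ℝ} {g : L → L}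
variable {U : Set L} {Gp : L →L[ℝ] L} {X : L} {e : κ ⊕ ι → L}

/-- piece `JH-C1` (a): consequences of `Hq` -/
theorem Hq.skew (hH : Hq B J c) (i : ι) (u v : L) : B (J i u) v = - B u (J i v) := by
  have h := (hH.hf i).inv u (J i v)
  rw [(hH.hf i).jj, map_neg] at h
  linarith

theorem Hq.inv (hH : Hq B J c) (i : ι) (u v : L) : B (J i u) (J i v) = B u v := by
  exact (hH.hf i).inv u v

theorem Hq.self0 (hH : Hq B J c) (i : ι) (u : L) : B (J i u) u = 0 := by
  have h := hH.skew i u u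
  rw [hH.symm u (J i u)] at h
  linarith

/-- `c` vanishes if two indices agree -/
theorem Hq.c0 (hH : Hq B J c) (i k : ι) : c i i k = 0 ∧ c i k k = 0 ∧ c k i k = 0 := by
  have h1 := hH.as1 i i k
  have h2 := hH.as2 i k k
  have h3 := hH.as1 k i k
  exact ⟨by linarith, by linarith, by linarith⟩

/-- `B (J_i X) (J_j X) = δ_ij B X X` (from `mul`, `skew`, `self0`, `c0`) -/
theorem Hq.jj (hH : Hq B J c) (i j : ι) (u : L) :
    B (J i u) (J j u) = if i = j then B u u else 0 := by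
  rcases eq_or_ne i j with rfl | hij
  · rw [if_pos rfl]
    exact hH.inv i u u
  · rw [if_neg hij, hH.skew, hH.mul, if_neg hij, zero_add, map_sum, neg_eq_zero]
    refine Finset.sum_eq_zero fun k _ => ?_
    rw [map_smul, hH.symm, hH.self0, smul_zero]

/-- (b): `J_i` of a horizontal tangential vector tested with `X`, `J_k X` -/
theorem HzQ.jX (hH : Hq B J c) {Z ν w : L} (hw : HzQ B J Z ν w) (i : ι) :
    B (J i w) Z = 0 ∧ (∀ k, B (J i w) (J k Z) = 0) ∧ B (J i w) ν = - B w (J i ν) := by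
  refine ⟨?_, fun k => ?_, hH.skew i w ν⟩
  · rw [hH.skew, hw.2.1 i, neg_zero]
  · rw [hH.skew, hH.mul, map_add, map_sum, neg_eq_zero]
    have h1 : B w (if i = k then -Z else 0) = 0 := by
      split_ifs
      · rw [map_neg, hw.1, neg_zero]
      · rw [map_zero]
    rw [h1, zero_add]
    refine Finset.sum_eq_zero fun l _ => ?_
    rw [map_smul, hw.2.1 l, smul_zero]

/-- (c): linear combinations -/
theorem HzQ.add {Z ν u w : L} (hu : HzQ B J Z ν u) (hw : HzQ B J Z ν w) : HzQ B J Z ν (u + w) := by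
  refine ⟨?_, fun i => ?_, ?_⟩
  · rw [map_add, ContinuousLinearMap.add_apply, hu.1, hw.1, add_zero]
  · rw [map_add, ContinuousLinearMap.add_apply, hu.2.1 i, hw.2.1 i, add_zero]
  · rw [map_add, ContinuousLinearMap.add_apply, hu.2.2, hw.2.2, add_zero]

theorem HzQ.smul {Z ν w : L} (r : ℝ) (hw : HzQ B J Z ν w) : HzQ B J Z ν (r • w) := by
  refine ⟨?_, fun i => ?_, ?_⟩
  · rw [map_smul, ContinuousLinearMap.smul_apply, hw.1, smul_zero]
  · rw [map_smul, ContinuousLinearMap.smul_apply, hw.2.1 i, smul_zero]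
  · rw [map_smul, ContinuousLinearMap.smul_apply, hw.2.2, smul_zero]

theorem HzQ.sum {Z ν : L} {w : ι → L} (hw : ∀ i, HzQ B J Z ν (w i)) : HzQ B J Z ν (∑ i, w i) := by
  refine ⟨?_, fun j => ?_, ?_⟩
  · rw [map_sum, ContinuousLinearMap.sum_apply]
    exact Finset.sum_eq_zero fun i _ => (hw i).1
  · rw [map_sum, ContinuousLinearMap.sum_apply]
    exact Finset.sum_eq_zero fun i _ => (hw i).2.1 j
  · rw [map_sum, ContinuousLinearMap.sum_apply]
    exact Finset.sum_eq_zero fun i _ => (hw i).2.2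

/-- (d): the coordinates -/
theorem FrQ.fe_hz {ν : L} (he : FrQ B J X ν e) (v : EuclideanSpace ℝ (κ ⊕ ι)) : HzQ B J X ν (Fe e v) := by
  have key : ∀ y : L, (∀ i, B (e i) y = 0) → B (Fe e v) y = 0 := by
    intro y hy
    unfold Fe
    rw [map_sum, ContinuousLinearMap.sum_apply]
    refine Finset.sum_eq_zero fun i _ => ?_
    rw [map_smul, ContinuousLinearMap.smul_apply, hy i, smul_zero]
  exact ⟨key _ fun i => (he.hz i).1, fun j => key _ fun i => (he.hz i).2.1 j,
    key _ fun i => (he.hz i).2.2⟩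

theorem FrQ.fs_fe {ν : L} (he : FrQ B J X ν e) (v : EuclideanSpace ℝ (κ ⊕ ι)) : Fs B e (Fe e v) = v := by
  ext i
  show B (Fe e v) (e i) = v i
  unfold Fe
  rw [map_sum, ContinuousLinearMap.sum_apply]
  have h1 : ∀ j ∈ Finset.univ, (B (v j • e j)) (e i) = v j * (if j = i then 1 else 0) := by
    intro j _
    rw [map_smul, ContinuousLinearMap.smul_apply, he.on j i, smul_eq_mul]
  rw [Finset.sum_congr rfl h1]
  simp

theorem FrQ.fe_fs {ν : L} (he : FrQ B J X ν e) {w : L} (hw : HzQ B J X ν w) : Fe e (Fs B e w) = w := by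
  have h := he.comp w
  have h2 : (∑ i, B w (J i X) • J i X) = 0 := by
    refine Finset.sum_eq_zero fun i _ => ?_
    rw [hw.2.1 i, zero_smul]
  rw [hw.1, hw.2.2, h2, zero_smul, zero_smul, neg_zero, sub_zero, zero_add, zero_add] at h
  exact h.symm

theorem inner_fs (y : L) (v : EuclideanSpace ℝ (κ ⊕ ι)) : inner ℝ (Fs B e y) v = B y (Fe e v) := by
  have h1 : B y (Fe e v) = ∑ i, v i * B y (e i) := by
    unfold Fe
    rw [map_sum]
    exact Finset.sum_congr rfl fun i _ => by rw [map_smul, smul_eq_mul]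
  rw [h1, PiLp.inner_apply]
  refine Finset.sum_congr rfl fun i _ => ?_
  show inner ℝ (B y (e i)) (v i) = v i * B y (e i)
  rw [real_inner_eq_re_inner, RCLike.inner_apply]
  simp

/-- Parseval -/
theorem FrQ.inner_fs_fs (hH : Hq B J c) {ν : L} (he : FrQ B J X ν e) {w : L} (hw : HzQ B J X ν w) (y : L) :
    inner ℝ (Fs B e y) (Fs B e w) = B y w ∧ inner ℝ (Fs B e w) (Fs B e y) = B y w := by
  have h1 : inner ℝ (Fs B e y) (Fs B e w) = B y w := by
    rw [inner_fs, he.fe_fs hw]
  exact ⟨h1, by rw [real_inner_comm, h1]⟩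

theorem FrQ.fs_zero (hH : Hq B J c) {ν : L} (he : FrQ B J X ν e) :
    Fs B e X = 0 ∧ (∀ i, Fs B e (J i X) = 0) ∧ Fs B e ν = 0 := by
  refine ⟨?_, fun j => ?_, ?_⟩
  · ext i
    show B X (e i) = 0
    rw [hH.symm]
    exact (he.hz i).1
  · ext i
    show B (J j X) (e i) = 0
    rw [hH.symm]
    exact (he.hz i).2.1 j
  · ext i
    show B ν (e i) = 0
    rw [hH.symm]
    exact (he.hz i).2.2

theorem opH_apply (Y : L →L[ℝ] L) (v : EuclideanSpace ℝ (κ ⊕ ι)) :
    opH B e Y v = Fs B e (Y (Fe e v)) := by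
  rfl

theorem fs_add (y z : L) : Fs B e (y + z) = Fs B e y + Fs B e z := by
  ext i
  show B (y + z) (e i) = B y (e i) + B z (e i)
  rw [map_add, ContinuousLinearMap.add_apply]

theorem fs_smul (r : ℝ) (y : L) : Fs B e (r • y) = r • Fs B e y := by
  ext i
  show B (r • y) (e i) = r * B y (e i)
  rw [map_smul, ContinuousLinearMap.smul_apply, smul_eq_mul]

/-- (e): the trace (`LinearMap.trace_eq_sum_inner` with the standard basis; `Fe e (single i 1) = e i`) -/
theorem tr_opH (Y : L →L[ℝ] L) :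
    LinearMap.trace ℝ (EuclideanSpace ℝ (κ ⊕ ι)) (opH B e Y) = ∑ i, B (Y (e i)) (e i) := by
  rw [LinearMap.trace_eq_sum_inner _ (EuclideanSpace.basisFun (κ ⊕ ι) ℝ)]
  refine Finset.sum_congr rfl fun i _ => ?_
  have h1 : Fe e (EuclideanSpace.basisFun (κ ⊕ ι) ℝ i) = e i := by
    unfold Fe
    rw [Finset.sum_eq_single i]
    · simp
    · intro j _ hj
      simp [hj]
    · intro h
      exact absurd (Finset.mem_univ i) h
  rw [opH_apply, real_inner_comm, inner_fs, h1]

/-- (f): the decomposition of a vector (`FrQ.comp` with `Fe`, `Fs`) -/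
theorem FrQ.decomp {ν : L} (he : FrQ B J X ν e) (w : L) :
    w = -(B w X • X) - ∑ i, B w (J i X) • J i X + B w ν • ν + Fe e (Fs B e w) := by
  exact he.comp w

end Pool.Agent.Helper77.JH
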