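import Pool.Agent.Helper77.JH.C7

/-! # JH: jets: the field W, the functions A and rho -/

set_option autoImplicit false
set_option linter.unusedSectionVars false
set_option linter.unusedVariables false

namespace Pool.Agent.Helper77.JH

open Pool.Agent.Helper77.JE (Hf Pt Gd rr nu NN tt xs SS)

variable {L : Type*} [NormedAddCommGroup L] [NormedSpace ℝ L]
variable {ι : Type*} [Fintype ι] [DecidableEq ι] {κ : Type*} [Fintype κ] [DecidableEq κ]
variable {B : L →L[ℝ] L →L[ℝ] ℝ} {J : ι → L →L[ℝ] L} {c : ι → ι → ι → ℝ} {lam M : ℝ} {g : L → L}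
variable {U : Set L} {Gp : L →L[ℝ] L} {X : L} {e : κ ⊕ ι → L}

private theorem nv_one_c9 (h : Pnt B J c lam g U Gp X e) : nv B lam g X = nu B g X - lam • X := by
  unfold nv
  rw [(xs_one (g := g) h.one).1]

private theorem J_nv_c9 (h : Pnt B J c lam g U Gp X e) (i : ι) :
    J i (nv B lam g X) = J i (nu B g X) - lam • J i X := by
  rw [nv_one_c9 h, map_sub, map_smul]

private theorem WW_one_c9 (h : Pnt B J c lam g U Gp X e) :
    WW B J lam g Gp X = Gp (nv B lam g X) + B (Gp (nv B lam g X)) X • X +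
      ∑ i, B (Gp (nv B lam g X)) (J i X) • J i X + AA B lam g Gp X • nu B g X := by
  unfold WW
  rw [(xs_one (g := g) h.one).1]

private theorem JJX_c9 (h : Pnt B J c lam g U Gp X e) (k i : ι) :
    B (J k X) (J i (nu B g X)) = 0 := by
  have h1 : B (J k X) (J i (nu B g X)) = - B (J i (J k X)) (nu B g X) := by
    rw [h.hH.skew i (J k X) (nu B g X), neg_neg]
  rw [h1, h.hH.mul i k X]
  have h2 : ∀ l, B (J l X) (nu B g X) = 0 := fun l => h.pt.jxn l
  have h3 : B X (nu B g X) = 0 := h.pt.xn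
  by_cases hik : i = k
  · simp [hik, h2, h3, map_sum]
  · simp [hik, h2, map_sum]

/-- `W` tested with a horizontal tangential vector -/
private theorem W_hz_c9 (h : Pnt B J c lam g U Gp X e) {w : L} (hw : HzQ B J X (nu B g X) w) :
    B (WW B J lam g Gp X) w = B (Gp (nv B lam g X)) w := by
  have h1 : B X w = 0 := by rw [h.hH.symm]; exact hw.1
  have h2 : ∀ i, B (J i X) w = 0 := fun i => by rw [h.hH.symm]; exact hw.2.1 i
  have h3 : B (nu B g X) w = 0 := by rw [h.hH.symm]; exact hw.2.2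
  rw [WW_one_c9 h]
  simp [map_sum, h1, h2, h3]

/-- piece `JH-C9` (a): some values (all from `gs`, `skew`, `comm`) -/
theorem Pnt.vals (h : Pnt B J c lam g U Gp X e) [Nonempty ι] :
    (∀ i, B (Gp (nv B lam g X)) (J i X) = lam⁻¹ * B (WW B J lam g Gp X) (xi B J g i X)) ∧
    (∀ i, B (Gp (nv B lam g X)) (J i (nu B g X)) = B (WW B J lam g Gp X) (xi B J g i X)) ∧
    (∀ i, B (Gp (nu B g X)) (J i (nv B lam g X)) =
      - B (WW B J lam g Gp X) (xi B J g i X)) ∧
    (∀ i, B (Gp (nv B lam g X)) (J i (nv B lam g X)) = 0) ∧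
    B (Gp (nv B lam g X)) X = -(lam⁻¹ * (RR B lam g Gp X + AA B lam g Gp X)) := by
  have hl := h.lam0
  have k2 : ∀ i, B (Gp (nv B lam g X)) (J i (nu B g X)) = B (WW B J lam g Gp X) (xi B J g i X) := by
    intro i
    rw [W_hz_c9 h (xi_hz h.hG h.hH h.mem i)]
    rfl
  have k4 : ∀ i, B (Gp (nv B lam g X)) (J i (nv B lam g X)) = 0 := by
    intro i
    have h1 := h.gs.sym (nv B lam g X) (J i (nv B lam g X))
    rw [h.gs.comm, h.hH.skew] at h1
    linarith
  have k1 : ∀ i, B (Gp (nv B lam g X)) (J i X) = lam⁻¹ * B (WW B J lam g Gp X) (xi B J g i X) := by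
    intro i
    have h1 := k4 i
    rw [J_nv_c9 h i, map_sub, map_smul, k2 i, smul_eq_mul] at h1
    rw [eq_inv_mul_iff_mul_eq₀ hl]
    linarith
  refine ⟨k1, k2, ?_, k4, ?_⟩
  · intro i
    rw [h.gs.sym, h.gs.comm, h.hH.skew, k2 i]
  · have h1 : RR B lam g Gp X = B (Gp (nv B lam g X)) (nu B g X) - lam * B (Gp (nv B lam g X)) X := by
      show B (Gp (nv B lam g X)) (nv B lam g X) = _
      conv_lhs => rw [show (B (Gp (nv B lam g X))) (nv B lam g X) =
        (B (Gp (nv B lam g X))) (nu B g X - lam • X) by rw [← nv_one_c9 h]]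
      rw [map_sub, map_smul, smul_eq_mul]
    have h2 : AA B lam g Gp X = - B (Gp (nv B lam g X)) (nu B g X) := by
      show - B (Gp (nu B g X)) (nv B lam g X) = _
      rw [h.gs.sym]
    rw [h1, h2]
    field_simp
    ring

/-- (b): `n' = T u + lam⁻¹ ∑ B ξ_i u J_i n` -/
theorem Pnt.d_nv (h : Pnt B J c lam g U Gp X e) [Nonempty ι] {u : L} (hu : HzQ B J X (nu B g X) u) :
    DifferentiableAt ℝ (nv B lam g) X ∧ fderiv ℝ (nv B lam g) X u =
      TT B J lam g X u + lam⁻¹ • ∑ i, B (J i (nu B g X)) u • J i (nv B lam g X) := by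
  have hl := h.lam0
  obtain ⟨h1, h2⟩ := h.d_xs hu
  have h3 := h.d_nu
  have h4 : HasFDerivAt (nv B lam g) (NN B g X - lam • fderiv ℝ (xs B) X) X :=
    h3.sub (h1.hasFDerivAt.const_smul lam)
  refine ⟨h4.differentiableAt, ?_⟩
  rw [h4.fderiv]
  simp only [sub_apply, smul_apply, h2]
  rw [h.N_eq u]
  simp only [J_nv_c9 h, smul_sub, Finset.sum_sub_distrib]
  have h5 : lam⁻¹ • ∑ i, B (J i (nu B g X)) u • lam • J i X = ∑ i, B (J i (nu B g X)) u • J i X := by
    rw [Finset.smul_sum]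
    refine Finset.sum_congr rfl fun i _ => ?_
    rw [smul_smul, smul_smul]
    congr 1
    field_simp
  rw [h5]
  abel

private theorem N_test_c9 (h : Pnt B J c lam g U Gp X e) [Nonempty ι] {u : L}
    (hu : HzQ B J X (nu B g X) u) :
    B (Gp (nv B lam g X)) (NN B g X u) =
      B (WW B J lam g Gp X) (TT B J lam g X u) + lam * B (WW B J lam g Gp X) u := by
  obtain ⟨k1, k2, k3, k4, k5⟩ := h.vals
  have hT := TT_hz h.hG h.hH lam h.mem hu
  rw [h.N_eq u, W_hz_c9 h hT, W_hz_c9 h hu]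
  simp only [map_add, map_sub, map_smul, map_sum, smul_eq_mul, k1, k2]
  have h5 : lam⁻¹ * ∑ i, B (J i (nu B g X)) u * B (WW B J lam g Gp X) (xi B J g i X) =
      ∑ i, B (J i (nu B g X)) u * (lam⁻¹ * B (WW B J lam g Gp X) (xi B J g i X)) := by
    rw [Finset.mul_sum]
    exact Finset.sum_congr rfl fun i _ => by ring
  rw [h5]
  ring

private theorem dn_nu_c9 (h : Pnt B J c lam g U Gp X e) [Nonempty ι] {u : L}
    (hu : HzQ B J X (nu B g X) u) :
    B (Gp (nu B g X)) (fderiv ℝ (nv B lam g) X u) = B (Gp (nu B g X)) (TT B J lam g X u) -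
      ∑ i, (lam⁻¹ * B (WW B J lam g Gp X) (xi B J g i X)) * B (xi B J g i X) u := by
  obtain ⟨k1, k2, k3, k4, k5⟩ := h.vals
  rw [(h.d_nv hu).2]
  simp only [map_add, map_smul, map_sum, smul_eq_mul, k3]
  rw [sub_eq_add_neg, Finset.mul_sum, ← Finset.sum_neg_distrib]
  congr 1
  refine Finset.sum_congr rfl fun i _ => ?_
  show _ = -(lam⁻¹ * B (WW B J lam g Gp X) (xi B J g i X) * B (J i (nu B g X)) u)
  ring

private theorem dn_nv_c9 (h : Pnt B J c lam g U Gp X e) [Nonempty ι] {u : L}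
    (hu : HzQ B J X (nu B g X) u) :
    B (Gp (nv B lam g X)) (fderiv ℝ (nv B lam g) X u) =
      B (WW B J lam g Gp X) (TT B J lam g X u) := by
  obtain ⟨k1, k2, k3, k4, k5⟩ := h.vals
  have hT := TT_hz h.hG h.hH lam h.mem hu
  rw [(h.d_nv hu).2, W_hz_c9 h hT]
  simp [map_sum, k4]

private theorem Fe_hz_c9 (h : Pnt B J c lam g U Gp X e) (v : EuclideanSpace ℝ (κ ⊕ ι)) :
    HzQ B J X (nu B g X) (Fe e v) := h.fr.fe_hz v

private theorem nv_d_c9 (h : Pnt B J c lam g U Gp X e) [Nonempty ι] :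
    DifferentiableAt ℝ (nv B lam g) X :=
  (h.d_nv (Fe_hz_c9 h 0)).1

private theorem AA_has_c9 (h : Pnt B J c lam g U Gp X e) [Nonempty ι] :
    DifferentiableAt ℝ (AA B lam g Gp) X ∧ ∀ u, HzQ B J X (nu B g X) u →
      fderiv ℝ (AA B lam g Gp) X u = -(B (WW B J lam g Gp X) (TT B J lam g X u)) -
        B (Gp (nu B g X)) (TT B J lam g X u) - lam * B (WW B J lam g Gp X) u +
        ∑ i, (lam⁻¹ * B (WW B J lam g Gp X) (xi B J g i X)) * B (xi B J g i X) u := by
  have hnv := (nv_d_c9 h).hasFDerivAt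
  have hnu := h.d_nu
  have h1 : HasFDerivAt (fun Z => Gp (nu B g Z)) (Gp.comp (NN B g X)) X :=
    Gp.hasFDerivAt.comp X hnu
  have h2 := (B.hasFDerivAt_of_bilinear h1 hnv).neg
  have h3 : HasFDerivAt (AA B lam g Gp) _ X := h2
  refine ⟨h3.differentiableAt, fun u hu => ?_⟩
  rw [h3.fderiv]
  have h4 : (B (Gp (NN B g X u))) (nv B lam g X) = B (Gp (nv B lam g X)) (NN B g X u) := h.gs.sym _ _
  have h5 := N_test_c9 h hu
  have h6 := dn_nu_c9 h hu
  simp [h4, h5, h6]
  ring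

/-- (c): `A' = - B (Gp N u) n - B (Gp ν) n' = - B (W + U) (T u) - lam B W u + ∑ κ_i B ξ_i u` -/
theorem CovS.A (h : Pnt B J c lam g U Gp X e) [Nonempty ι] :
    CovS X e (AA B lam g Gp) (dat B J c lam g Gp X e).aJ := by
  obtain ⟨h1, h2⟩ := AA_has_c9 h
  refine ⟨h1, rfl, fun v => ?_⟩
  have hv := Fe_hz_c9 h v
  have hT := TT_hz h.hG h.hH lam h.mem hv
  rw [h2 _ hv]
  have e1 : inner ℝ (Fs B e (Gp (nu B g X))) (Fs B e (TT B J lam g X (Fe e v))) =
      B (Gp (nu B g X)) (TT B J lam g X (Fe e v)) := (h.fr.inner_fs_fs h.hH hT _).1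
  have e2 : inner ℝ (Fs B e (WW B J lam g Gp X)) (Fs B e (TT B J lam g X (Fe e v))) =
      B (WW B J lam g Gp X) (TT B J lam g X (Fe e v)) := (h.fr.inner_fs_fs h.hH hT _).1
  have e3 : inner ℝ (Fs B e (WW B J lam g Gp X)) v = B (WW B J lam g Gp X) (Fe e v) := inner_fs _ _
  have e4 : ∀ i, inner ℝ (Fs B e (xi B J g i X)) v = B (xi B J g i X) (Fe e v) :=
    fun i => inner_fs _ _
  simp only [Dat.aJ, dat, LinearMap.add_apply, LinearMap.sub_apply, LinearMap.neg_apply,
    LinearMap.smul_apply, LinearMap.sum_apply, LinearMap.comp_apply, innerₛₗ_apply_apply, opH_apply,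
    inner_add_left, e1, e2, e3, e4, smul_eq_mul]
  ring

/-- (d): `ρ' = 2 B (Gp n) n' = 2 B W (T u)` -/
theorem CovS.R (h : Pnt B J c lam g U Gp X e) [Nonempty ι] :
    CovS X e (RR B lam g Gp) (dat B J c lam g Gp X e).rJ := by
  have hnv := (nv_d_c9 h).hasFDerivAt
  have h1 : HasFDerivAt (fun Z => Gp (nv B lam g Z)) (Gp.comp (fderiv ℝ (nv B lam g) X)) X :=
    Gp.hasFDerivAt.comp X hnv
  have h2 := B.hasFDerivAt_of_bilinear h1 hnv
  have h3 : HasFDerivAt (RR B lam g Gp) _ X := h2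
  refine ⟨h3.differentiableAt, rfl, fun v => ?_⟩
  have hv := Fe_hz_c9 h v
  have hT := TT_hz h.hG h.hH lam h.mem hv
  rw [h3.fderiv]
  have h4 : (B (Gp (fderiv ℝ (nv B lam g) X (Fe e v)))) (nv B lam g X) =
      B (Gp (nv B lam g X)) (fderiv ℝ (nv B lam g) X (Fe e v)) := h.gs.sym _ _
  have h5 := dn_nv_c9 h hv
  have e2 : inner ℝ (Fs B e (WW B J lam g Gp X)) (Fs B e (TT B J lam g X (Fe e v))) =
      B (WW B J lam g Gp X) (TT B J lam g X (Fe e v)) := (h.fr.inner_fs_fs h.hH hT _).1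
  simp only [Dat.rJ, dat, LinearMap.smul_apply, LinearMap.comp_apply, innerₛₗ_apply_apply, opH_apply, e2,
    smul_eq_mul]
  simp [h4, h5]
  ring

private theorem CovV_W_c9 (h : Pnt B J c lam g U Gp X e) [Nonempty ι] :
    CovV B J g U X e (WW B J lam g Gp) (dat B J c lam g Gp X e).wJ := by
  obtain ⟨k1, k2, k3, k4, k5⟩ := h.vals
  have hl := h.lam0
  have hx0 : xs B X = X := (xs_one (g := g) h.one).1
  have hnv := (nv_d_c9 h).hasFDerivAt
  have hnu := h.d_nu
  have hxs := (h.d_xs (Fe_hz_c9 h 0)).1.hasFDerivAt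
  have hA := (AA_has_c9 h).1.hasFDerivAt
  have hG1 : HasFDerivAt (fun Z => Gp (nv B lam g Z)) (Gp.comp (fderiv ℝ (nv B lam g) X)) X :=
    Gp.hasFDerivAt.comp X hnv
  have hJx : ∀ i, HasFDerivAt (fun Z => J i (xs B Z)) ((J i).comp (fderiv ℝ (xs B) X)) X :=
    fun i => (J i).hasFDerivAt.comp X hxs
  have hs := B.hasFDerivAt_of_bilinear hG1 hxs
  have hsi := fun i => B.hasFDerivAt_of_bilinear hG1 (hJx i)
  have h3 := ((hG1.add (hs.smul hxs)).add
    (HasFDerivAt.fun_sum fun i (_ : i ∈ Finset.univ) => (hsi i).smul (hJx i))).add (hA.smul hnu)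
  have h4 : HasFDerivAt (WW B J lam g Gp) _ X := h3
  refine ⟨h4.differentiableAt, fun Z hZ => WW_hz h.hG h.hH lam h.gs hZ, rfl, fun v => ?_⟩
  have hv := Fe_hz_c9 h v
  have hT := TT_hz h.hG h.hH lam h.mem hv
  have hW := WW_hz h.hG h.hH lam h.gs h.mem
  obtain ⟨f1, f2, f3⟩ := h.fr.fs_zero h.hH
  have fsub : ∀ a b : L, Fs B e (a - b) = Fs B e a - Fs B e b := (FsL B e).map_sub
  have fsum : ∀ f : ι → L, Fs B e (∑ i, f i) = ∑ i, Fs B e (f i) := fun f => map_sum (FsL B e) f _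
  have hdx : fderiv ℝ (xs B) X (Fe e v) = Fe e v := (h.d_xs hv).2
  rw [h4.fderiv]
  have hFv : Fs B e (Fe e v) = v := h.fr.fs_fe v
  have hFT : Fe e (Fs B e (TT B J lam g X (Fe e v))) = TT B J lam g X (Fe e v) := h.fr.fe_fs hT
  have hFW : Fe e (Fs B e (WW B J lam g Gp X)) = WW B J lam g Gp X := h.fr.fe_fs hW
  have e4 : ∀ i, inner ℝ (Fs B e (xi B J g i X)) v = B (xi B J g i X) (Fe e v) :=
    fun i => inner_fs _ _
  -- the part of `Gp n`
  have hJG : ∀ i, Fs B e (J i (Gp (nv B lam g X))) =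
      Fs B e (J i (WW B J lam g Gp X)) - AA B lam g Gp X • Fs B e (xi B J g i X) := by
    intro i
    have e1 : Gp (nv B lam g X) = WW B J lam g Gp X - B (Gp (nv B lam g X)) X • X -
        ∑ i, B (Gp (nv B lam g X)) (J i X) • J i X - AA B lam g Gp X • nu B g X := by
      rw [WW_one_c9 h]
      abel
    have e2 : ∀ k, Fs B e (J i (J k X)) = 0 := by
      intro k
      rw [h.hH.mul i k X, fs_add, fsum]
      by_cases hik : i = k
      · rw [if_pos hik, ← neg_one_smul ℝ X, fs_smul, f1]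
        simp [fs_smul, f2]
      · rw [if_neg hik]
        have : Fs B e (0 : L) = 0 := (FsL B e).map_zero
        simp [fs_smul, f2, this]
    have e3 : J i (Gp (nv B lam g X)) = J i (WW B J lam g Gp X) - B (Gp (nv B lam g X)) X • J i X -
        ∑ k, B (Gp (nv B lam g X)) (J k X) • J i (J k X) - AA B lam g Gp X • J i (nu B g X) := by
      conv_lhs => rw [e1]
      simp only [map_sub, map_smul, map_sum]
    rw [e3]
    simp only [fsub, fs_smul, fsum, f2, e2]
    simp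
    rfl
  -- the part of `N u`
  have hN : Fs B e (NN B g X (Fe e v)) = Fs B e (TT B J lam g X (Fe e v)) + lam • v +
      lam⁻¹ • ∑ i, B (xi B J g i X) (Fe e v) • Fs B e (xi B J g i X) := by
    rw [h.N_eq (Fe e v)]
    simp only [fsub, fs_add, fs_smul, fsum, f2, hFv]
    simp
    rfl
  have hGn : Fs B e (Gp (fderiv ℝ (nv B lam g) X (Fe e v))) =
      Fs B e (Gp (TT B J lam g X (Fe e v))) + lam⁻¹ • ∑ i, B (xi B J g i X) (Fe e v) •
        (Fs B e (J i (WW B J lam g Gp X)) - AA B lam g Gp X • Fs B e (xi B J g i X)) := by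
    rw [(h.d_nv hv).2]
    simp only [map_add, map_smul, map_sum, h.gs.comm, fs_add, fs_smul, fsum, hJG]
    rfl
  have hc : lam * (((lam ^ 2 - 1) * AA B lam g Gp X - RR B lam g Gp X) / lam ^ 2) =
      B (Gp (nv B lam g X)) X + lam * AA B lam g Gp X := by
    rw [k5]
    field_simp
    ring
  simp only [Dat.wJ, dat, Dat.c0, LinearMap.add_apply, LinearMap.smul_apply, LinearMap.sum_apply,
    LinearMap.comp_apply, LinearMap.smulRight_apply, LinearMap.id_apply, innerₛₗ_apply_apply, opH_apply,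
    e4, hFT, hFW, hc]
  simp only [ContinuousLinearMap.add_apply, ContinuousLinearMap.smul_apply, ContinuousLinearMap.sum_apply,
    ContinuousLinearMap.comp_apply, ContinuousLinearMap.smulRight_apply, hx0, hdx, fs_add, fs_smul,
    fsum, f1, f2, f3, hN, hGn, k1, hFv]
  simp only [smul_zero, add_zero, zero_add, Finset.sum_add_distrib, smul_sub, smul_add, add_smul,
    Finset.smul_sum, Finset.sum_sub_distrib]
  have q1 : ∑ i, lam⁻¹ • B (xi B J g i X) (Fe e v) • AA B lam g Gp X • Fs B e (xi B J g i X) =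
      ∑ i, AA B lam g Gp X • lam⁻¹ • B (xi B J g i X) (Fe e v) • Fs B e (xi B J g i X) := by
    refine Finset.sum_congr rfl fun i _ => ?_
    simp only [smul_smul]
    congr 1
    ring
  rw [q1]
  module

/-- (e): `W' = Gp n' + (..) X + B (Gp n) X u + ∑ ((..) J_i X + B (Gp n) (J_i X) J_i u) + (..) ν + A N u`; in coordinates
`Fs (J_i (Gp n)) = φ_i W - A ξ_i` (`Gp n = W - B (Gp n) X X - ∑ B (Gp n) (J_k X) J_k X - A ν`); the coefficient of `u` is
`B (Gp n) X + lam A = lam c0` -/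
theorem CovV.W (h : Pnt B J c lam g U Gp X e) [Nonempty ι] :
    CovV B J g U X e (WW B J lam g Gp) (dat B J c lam g Gp X e).wJ :=
  CovV_W_c9 h

end Pool.Agent.Helper77.JH
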