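import Pool.Agent.Helper77.JH.C8
import Pool.Agent.Helper77.JH.C9

/-! # JH: jets: the field -/

set_option autoImplicit false
set_option linter.unusedSectionVars false
set_option linter.unusedVariables false

namespace Pool.Agent.Helper77.JH

open Pool.Agent.Helper77.JE (Hf Pt Gd rr nu NN tt xs SS)

variable {L : Type*} [NormedAddCommGroup L] [NormedSpace ℝ L]
variable {ι : Type*} [Fintype ι] [DecidableEq ι] {κ : Type*} [Fintype κ] [DecidableEq κ]
variable {B : L →L[ℝ] L →L[ℝ] ℝ} {J : ι → L →L[ℝ] L} {c : ι → ι → ι → ℝ} {lam M : ℝ} {g : L → L}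
variable {U : Set L} {Gp : L →L[ℝ] L} {X : L} {e : κ ⊕ ι → L}

/-- the function `bt` -/
private theorem covS_bt (h : Pnt B J c lam g U Gp X e) [Nonempty ι] :
    CovS X e (bt B lam g Gp) (dat B J c lam g Gp X e).bJ := by
  have h1 := CovS.cmul (X := X) (e := e) (2 : ℝ)⁻¹
    (CovS.sub (CovS.R h) (CovS.const (X := X) (e := e) (lam ^ 2)))
  have h2 : bt B lam g Gp = fun Z => (2 : ℝ)⁻¹ * (RR B lam g Gp Z - lam ^ 2) := by
    funext Z
    simp only [bt]
    ring
  rw [h2]
  exact h1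

/-- the function `cc0` -/
private theorem covS_cc0 (h : Pnt B J c lam g U Gp X e) [Nonempty ι] :
    CovS X e (cc0 B lam g Gp) (dat B J c lam g Gp X e).c0J := by
  have h1 := CovS.cmul (X := X) (e := e) (lam ^ 2)⁻¹
    (CovS.sub (CovS.cmul (lam ^ 2 - 1) (CovS.A h)) (CovS.R h))
  have h2 : cc0 B lam g Gp = fun Z => (lam ^ 2)⁻¹ *
      ((lam ^ 2 - 1) * AA B lam g Gp Z - RR B lam g Gp Z) := by
    funext Z
    simp only [cc0]
    ring
  rw [h2]
  exact h1

/-- piece `JH-C10`: assembly -/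
theorem CovV.V3 (h : Pnt B J c lam g U Gp X e) [Nonempty ι] (M : ℝ) :
    CovV B J g U X e (V3c B J lam M g Gp) ((dat B J c lam g Gp X e).V3 M) := by
  have hb := covS_bt h
  have hc := covS_cc0 h
  have hW := CovV.W h
  have hx := fun i => CovV.xi h i
  have hTx := fun i => CovV.T h (CovV.xi h i)
  have hk : ∀ i, CovS X e (fun Z => lam⁻¹ * B (WW B J lam g Gp Z) (JH.xi B J g i Z))
      ((dat B J c lam g Gp X e).kJ i) := fun i => CovS.cmul lam⁻¹ (CovV.inner h hW (hx i))
  have h1 : CovV B J g U X e (G1 B J lam g Gp) (dat B J c lam g Gp X e).F1 := CovV.T h hW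
  have h2 : CovV B J g U X e (G2 B J lam g Gp) (dat B J c lam g Gp X e).F2 :=
    CovV.sum fun i => CovV.smul (hk i) (hTx i)
  have h3 : CovV B J g U X e (G3 B J lam g Gp) (dat B J c lam g Gp X e).F3 :=
    CovV.sum fun i => CovV.phi h i (CovV.T h (CovV.phi h i hW))
  have h4 : CovV B J g U X e (G4 B J lam g Gp) (dat B J c lam g Gp X e).F4 :=
    CovV.sub (CovV.sum fun i => CovV.smul (CovV.inner h (hTx i) hW) (hx i))
      (CovV.smul (CovS.sum fun i => CovV.inner h (hTx i) (hx i)) hW)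
  have h5 : CovV B J g U X e (G5 B J lam g) (dat B J c lam g Gp X e).F5 :=
    CovV.sum fun i => CovV.phi h i (hTx i)
  have c1 : CovS X e (fun Z => M * lam ^ 2 - ((Fintype.card ι : ℝ) - 1) / 2 +
      (M * (lam ^ 2 - 1) + ((Fintype.card ι : ℝ) - 1) / (2 * lam ^ 2)) * bt B lam g Gp Z)
      ((dat B J c lam g Gp X e).c1J M) :=
    CovS.add (CovS.const _) (CovS.cmul _ hb)
  have c2 : CovS X e (fun Z => lam + ((Fintype.card ι : ℝ) - 1) / lam * bt B lam g Gp Z)
      (dat B J c lam g Gp X e).c2J :=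
    CovS.add (CovS.const _) (CovS.cmul _ hb)
  have c3 : CovS X e (fun Z => 1 + (lam ^ 2 - 1) / lam ^ 2 * bt B lam g Gp Z)
      (dat B J c lam g Gp X e).c3J :=
    CovS.add (CovS.const _) (CovS.cmul _ hb)
  exact CovV.add (CovV.add (CovV.sub (CovV.add (CovV.smul c1 h1) (CovV.smul c2 h2))
    (CovV.smul c3 h3)) (CovV.smul hb h4)) (CovV.smul (CovS.mul hb hc) h5)

end Pool.Agent.Helper77.JH
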