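import Pool.Agent.Helper77.JH.C10

/-! # JH: the trace of the derivative of the field on the cone -/

set_option autoImplicit false
set_option linter.unusedSectionVars false
set_option linter.unusedVariables false

namespace Pool.Agent.Helper77.JH

open Pool.Agent.Helper77.JE (Hf Pt Gd rr nu NN tt xs SS)

variable {L : Type*} [NormedAddCommGroup L] [NormedSpace ℝ L]
variable {ι : Type*} [Fintype ι] [DecidableEq ι] {κ : Type*} [Fintype κ] [DecidableEq κ]
variable {B : L →L[ℝ] L →L[ℝ] ℝ} {J : ι → L →L[ℝ] L} {c : ι → ι → ι → ℝ} {lam M : ℝ} {g : L → L}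
variable {U : Set L} {Gp : L →L[ℝ] L} {X : L} {e : κ ⊕ ι → L}

private theorem c11_trace_smulRight [FiniteDimensional ℝ L] (f : L →ₗ[ℝ] ℝ) (x : L) :
    LinearMap.trace ℝ L (f.smulRight x) = f x := by
  have h : f.smulRight x = dualTensorHom ℝ L L (f ⊗ₜ[ℝ] x) := by
    ext w
    simp [dualTensorHom_apply]
  rw [h, LinearMap.trace_eq_contract_apply, contractLeft_apply]

/-- piece `JH-C11` (a): the trace in the frame (compare `Fr.trace` in Helper77/JE/Cal.lean) -/
theorem FrQ.trace [FiniteDimensional ℝ L] (hH : Hq B J c) {ν : L} (he : FrQ B J X ν e) (Y : L →L[ℝ] L) :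
    LinearMap.trace ℝ L (Y : L →ₗ[ℝ] L) =
      - B (Y X) X - ∑ i, B (Y (J i X)) (J i X) + B (Y ν) ν + ∑ i, B (Y (e i)) (e i) := by
  let q : L → L →ₗ[ℝ] ℝ := fun y => ((B.flip y).comp Y : L →L[ℝ] ℝ)
  have hq : ∀ y w, q y w = B (Y w) y := fun y w => rfl
  have h : (Y : L →ₗ[ℝ] L) = -((q X).smulRight X) - ∑ i, (q (J i X)).smulRight (J i X) +
      (q ν).smulRight ν + ∑ i, (q (e i)).smulRight (e i) := by
    refine LinearMap.ext fun w => ?_
    have h1 := he.comp (Y w)
    rw [LinearMap.add_apply, LinearMap.add_apply, LinearMap.sub_apply, LinearMap.neg_apply,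
      LinearMap.sum_apply, LinearMap.sum_apply]
    exact h1
  rw [h, map_add, map_add, map_sub, map_neg, map_sum, map_sum]
  simp only [c11_trace_smulRight, hq]

/-- (b): compare `Gd.trace_VV` in Helper77/JE/Cal.lean.  `VQ` is a field with values in the horizontal tangential vectors on `U`
(`CovV.hz`), so differentiating `B VQ Z = 0`, `B VQ (J_i Z) = 0`, `B VQ ν = 0`: `B (VQ' X) X = 0`, `B (VQ' (J_i X)) (J_i X) = B VQ X = 0`,
`B (VQ' ν) ν = - B VQ (N ν)`; in the direction `e_i`: `tt' = 0`, `rr' = rr B (N ν) e_i` (`Gd.drr_hz`), so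
`∑ B (VQ' e_i) e_i = rr ∑ (B (N ν) e_i B V3 e_i + B (V3' e_i) e_i)` and the first terms cancel with `- B VQ (N ν)`. -/
theorem Pnt.trace_VQ [FiniteDimensional ℝ L] (h : Pnt B J c lam g U Gp X e) [Nonempty ι] (M : ℝ) :
    LinearMap.trace ℝ L (fderiv ℝ (VQ B J lam M g Gp) X : L →ₗ[ℝ] L) =
      rr B g X * LinearMap.trace ℝ (EuclideanSpace ℝ (κ ⊕ ι)) ((dat B J c lam g Gp X e).V3 M).2 := by
  obtain ⟨i0⟩ := id ‹Nonempty ι›
  have hU : U ∈ nhds X := (h.hG i0).isOpen.mem_nhds h.mem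
  have hc := CovV.V3 h M
  obtain ⟨y, hy⟩ : ∃ y, y = V3c B J lam M g Gp X := ⟨_, rfl⟩
  obtain ⟨D, hD⟩ : ∃ D, D = fderiv ℝ (V3c B J lam M g Gp) X := ⟨_, rfl⟩
  have htt1 : tt B X = 1 := (xs_one (g := g) h.one).2.2
  -- the derivative of the factor
  have ht : HasFDerivAt (fun Y => tt B Y) (-(B X + B.flip X)) X := by
    have h1 := B.hasFDerivAt_of_bilinear (hasFDerivAt_id X) (hasFDerivAt_id X)
    refine (h1.neg).congr_fderiv ?_
    ext u
    simp
  have hr : HasFDerivAt (rr B g) (fderiv ℝ (rr B g) X) X :=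
    (((h.hG i0).rr_c2.contDiffAt hU).differentiableAt (by norm_num)).hasFDerivAt
  have hV : HasFDerivAt (V3c B J lam M g Gp) D X := by
    rw [hD]
    exact hc.diff.hasFDerivAt
  have hs := ht.mul hr
  have hVQ : HasFDerivAt (VQ B J lam M g Gp)
      ((tt B X * rr B g X) • D + (tt B X • fderiv ℝ (rr B g) X +
        rr B g X • (-(B X + B.flip X))).smulRight y) X := by
    have h1 := hs.smul hV
    rw [← hy] at h1
    exact h1
  obtain ⟨E, hE⟩ : ∃ E, E = fderiv ℝ (VQ B J lam M g Gp) X := ⟨_, rfl⟩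
  have hEu : ∀ u, E u = rr B g X • D u + (fderiv ℝ (rr B g) X u + rr B g X * -(B X u + B u X)) • y := by
    intro u
    rw [hE, hVQ.fderiv, htt1, one_mul, one_smul]
    rfl
  -- the field is horizontal tangential
  have hhz : ∀ Z ∈ U, HzQ B J Z (nu B g Z) (VQ B J lam M g Gp Z) := fun Z hZ =>
    (hc.hz Z hZ).smul (tt B Z * rr B g Z)
  have hcv : CovV B J g U X e (VQ B J lam M g Gp)
      (Fs B e (VQ B J lam M g Gp X), opH B e (fderiv ℝ (VQ B J lam M g Gp) X)) :=
    ⟨hVQ.differentiableAt, hhz, rfl, fun v => rfl⟩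
  have hVX : VQ B J lam M g Gp X = rr B g X • y := by
    unfold VQ
    rw [htt1, one_mul, hy]
  have hyz : HzQ B J X (nu B g X) y := by
    rw [hy]
    exact hc.hz X h.mem
  have hcon := fun u => hcv.con h u
  rw [← hE, hVX] at hcon
  rw [← hE, h.fr.trace h.hH E, (hcon X).1, (hcon (nu B g X)).2.2]
  have e1 : ∀ i, B (E (J i X)) (J i X) = 0 := by
    intro i
    rw [(hcon (J i X)).2.1 i, (h.hH.hf i).jj, map_neg, map_smul, ContinuousLinearMap.smul_apply,
      hyz.1, smul_zero, neg_zero, neg_zero]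
  rw [Finset.sum_eq_zero fun i _ => e1 i]
  have e2 : ∀ i, B (E (e i)) (e i) = rr B g X * (B (NN B g X (nu B g X)) (e i) * B y (e i)) +
      rr B g X * B (D (e i)) (e i) := by
    intro i
    have h1 := (h.hG i0).drr_hz (h.hH.hf i0) h.mem (h.fr.hz i).2.2
    have h2 : B (e i) X = 0 := (h.fr.hz i).1
    have h3 : B X (e i) = 0 := by rw [h.hH.symm]; exact h2
    rw [hEu, h1, h2, h3]
    simp only [map_add, map_smul, ContinuousLinearMap.add_apply, ContinuousLinearMap.smul_apply, smul_eq_mul]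
    ring
  rw [Finset.sum_congr rfl fun i _ => e2 i, Finset.sum_add_distrib, ← Finset.mul_sum, ← Finset.mul_sum]
  have hpar : ∑ i, B (NN B g X (nu B g X)) (e i) * B y (e i) = B (NN B g X (nu B g X)) y := by
    have h1 := (h.fr.inner_fs_fs h.hH hyz (NN B g X (nu B g X))).1
    rw [← h1, PiLp.inner_apply]
    refine Finset.sum_congr rfl fun i _ => ?_
    show _ = inner ℝ (B (NN B g X (nu B g X)) (e i)) (B y (e i))
    rw [real_inner_eq_re_inner, RCLike.inner_apply]
    simp [mul_comm]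
  have htr : LinearMap.trace ℝ (EuclideanSpace ℝ (κ ⊕ ι)) ((dat B J c lam g Gp X e).V3 M).2 =
      ∑ i, B (D (e i)) (e i) := by
    have h1 : ((dat B J c lam g Gp X e).V3 M).2 = opH B e D := by
      refine LinearMap.ext fun v => ?_
      rw [← hc.der v, hD]
      rfl
    rw [h1, tr_opH]
  have h9 : B (rr B g X • y) X = 0 := by
    rw [map_smul, ContinuousLinearMap.smul_apply, hyz.1, smul_zero]
  have h10 : B (rr B g X • y) (NN B g X (nu B g X)) = rr B g X * B (NN B g X (nu B g X)) y := by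
    rw [map_smul, ContinuousLinearMap.smul_apply, smul_eq_mul, h.hH.symm y]
  rw [hpar, htr, h9, h10]
  ring

end Pool.Agent.Helper77.JH
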