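import Pool.Agent.Helper77.JH.C12

/-! # JH: the Euler field -/

set_option autoImplicit false
set_option linter.unusedSectionVars false
set_option linter.unusedVariables false

namespace Pool.Agent.Helper77.JH

open Pool.Agent.Helper77.JE (Hf Pt Gd rr nu NN tt xs SS)

variable {L : Type*} [NormedAddCommGroup L] [NormedSpace ℝ L]
variable {ι : Type*} [Fintype ι] [DecidableEq ι] {κ : Type*} [Fintype κ] [DecidableEq κ]
variable {B : L →L[ℝ] L →L[ℝ] ℝ} {J : ι → L →L[ℝ] L} {c : ι → ι → ι → ℝ} {lam M : ℝ} {g : L → L}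
variable {U : Set L} {Gp : L →L[ℝ] L} {X : L} {e : κ ⊕ ι → L}

private theorem rr_sm_h64 (hg : ∀ a : ℝ, 0 < a → ∀ Z, g (a • Z) = a⁻¹ • g Z) {a : ℝ} (ha : 0 < a)
    (Z : L) : rr B g (a • Z) = a⁻¹ * rr B g Z := by
  unfold rr
  rw [hg a ha Z]
  have h : B (a⁻¹ • g Z) (a⁻¹ • g Z) = a⁻¹ ^ 2 * B (g Z) (g Z) := by
    simp only [map_smul, ContinuousLinearMap.smul_apply, smul_eq_mul]
    ring
  rw [h, Real.sqrt_mul (sq_nonneg _), Real.sqrt_sq (inv_pos.2 ha).le]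

private theorem nu_sm_h64 (hg : ∀ a : ℝ, 0 < a → ∀ Z, g (a • Z) = a⁻¹ • g Z) {a : ℝ} (ha : 0 < a)
    (Z : L) : nu B g (a • Z) = nu B g Z := by
  unfold nu
  rw [rr_sm_h64 hg ha Z, hg a ha Z, smul_smul]
  congr 1
  rw [mul_inv, inv_inv]
  field_simp

private theorem NN_sm_h64 (hg : ∀ a : ℝ, 0 < a → ∀ Z, g (a • Z) = a⁻¹ • g Z) {a : ℝ} (ha : 0 < a)
    (Z : L) : NN B g (a • Z) = a⁻¹ • NN B g Z := by
  unfold NN
  have h1 : (fun Y => nu B g (a • Y)) = nu B g := funext fun Y => nu_sm_h64 hg ha Y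
  have h2 := fderiv_comp_smul (𝕜 := ℝ) (f := nu B g) (x := Z) a
  rw [h1] at h2
  rw [h2, smul_smul, inv_mul_cancel₀ ha.ne', one_smul]

private theorem tt_sm_h64 (a : ℝ) (Z : L) : tt B (a • Z) = a ^ 2 * tt B Z := by
  unfold tt
  simp only [map_smul, ContinuousLinearMap.smul_apply, smul_eq_mul]
  ring

private theorem sq_sm_h64 {a : ℝ} (ha : 0 < a) (Z : L) : √(tt B (a • Z)) = a * √(tt B Z) := by
  rw [tt_sm_h64, Real.sqrt_mul (sq_nonneg _), Real.sqrt_sq ha.le]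

/-- piece `JH-C13`: for `a > 0`: `tt (a Z) = a² tt Z`, `xs (a Z) = xs Z`, `nu (a Z) = nu Z`, `NN (a Z) = a⁻¹ NN Z`,
`SS (a Z) = SS Z`, `rr (a Z) = a⁻¹ rr Z` (compare `NN_smul`, `VV_smul` in Helper77/JE/Lift.lean, they are for any `L` up to the type) -/
theorem VQ_smul (hg : ∀ a : ℝ, 0 < a → ∀ Z, g (a • Z) = a⁻¹ • g Z) (lam M : ℝ) (Gp : L →L[ℝ] L) {a : ℝ}
    (ha : 0 < a) (Z : L) : VQ B J lam M g Gp (a • Z) = a • VQ B J lam M g Gp Z := by
  have hxs : xs B (a • Z) = xs B Z := by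
    unfold xs
    rw [sq_sm_h64 ha, smul_smul]
    congr 1
    rw [mul_inv]
    field_simp
  have hnu := nu_sm_h64 (B := B) hg ha Z
  have hSS : SS B g (a • Z) = SS B g Z := by
    unfold SS
    rw [sq_sm_h64 ha, NN_sm_h64 hg ha, smul_smul]
    congr 1
    field_simp
  have hTT : TT B J lam g (a • Z) = TT B J lam g Z := by
    unfold TT
    rw [hSS, hnu, hxs]
  have hnv : nv B lam g (a • Z) = nv B lam g Z := by
    unfold nv
    rw [hnu, hxs]
  have hAA : AA B lam g Gp (a • Z) = AA B lam g Gp Z := by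
    unfold AA
    rw [hnu, hnv]
  have hRR : RR B lam g Gp (a • Z) = RR B lam g Gp Z := by
    unfold RR
    rw [hnv]
  have hWW : WW B J lam g Gp (a • Z) = WW B J lam g Gp Z := by
    unfold WW
    rw [hnv, hxs, hAA, hnu]
  have hbt : bt B lam g Gp (a • Z) = bt B lam g Gp Z := by
    unfold bt
    rw [hRR]
  have hcc : cc0 B lam g Gp (a • Z) = cc0 B lam g Gp Z := by
    unfold cc0
    rw [hAA, hRR]
  have hxi : ∀ i, xi B J g i (a • Z) = xi B J g i Z := by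
    intro i
    unfold xi
    rw [hnu]
  have hph : ∀ i (Y : L → L), Y (a • Z) = Y Z → ph B J g i Y (a • Z) = ph B J g i Y Z := by
    intro i Y hY
    unfold ph
    rw [hY, hnu]
  have h1 : G1 B J lam g Gp (a • Z) = G1 B J lam g Gp Z := by
    unfold G1
    rw [hTT, hWW]
  have h2 : G2 B J lam g Gp (a • Z) = G2 B J lam g Gp Z := by
    unfold G2
    simp only [hTT, hWW, hxi]
  have h3 : G3 B J lam g Gp (a • Z) = G3 B J lam g Gp Z := by
    unfold G3
    refine Finset.sum_congr rfl fun i _ => hph i _ ?_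
    show TT B J lam g (a • Z) (ph B J g i (WW B J lam g Gp) (a • Z)) = _
    rw [hTT, hph i _ hWW]
  have h4 : G4 B J lam g Gp (a • Z) = G4 B J lam g Gp Z := by
    unfold G4
    simp only [hTT, hWW, hxi]
  have h5 : G5 B J lam g (a • Z) = G5 B J lam g Z := by
    unfold G5
    refine Finset.sum_congr rfl fun i _ => hph i _ ?_
    show TT B J lam g (a • Z) (xi B J g i (a • Z)) = _
    rw [hTT, hxi]
  have hV : V3c B J lam M g Gp (a • Z) = V3c B J lam M g Gp Z := by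
    unfold V3c
    rw [hbt, hcc, h1, h2, h3, h4, h5]
  unfold VQ
  rw [hV, rr_sm_h64 hg ha, tt_sm_h64, smul_smul]
  congr 1
  field_simp

/-- so the derivative in the direction `Z` is the field -/
theorem VQ_euler [Nonempty ι] (hG : ∀ i, Gd B (J i) U g) (hH : Hq B J c)
    (hg : ∀ a : ℝ, 0 < a → ∀ Z, g (a • Z) = a⁻¹ • g Z) (lam M : ℝ) (Gp : L →L[ℝ] L) {Z : L} (hZ : Z ∈ U) :
    fderiv ℝ (VQ B J lam M g Gp) Z Z = VQ B J lam M g Gp Z := by
  obtain ⟨i0⟩ := ‹Nonempty ι›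
  have hd : DifferentiableAt ℝ (VQ B J lam M g Gp) Z :=
    ((VQ_c1 hG hH lam M Gp).contDiffAt ((hG i0).isOpen.mem_nhds hZ)).differentiableAt (by norm_num)
  have h1 : HasDerivAt (fun t : ℝ => t • Z) Z 1 := by
    simpa using (hasDerivAt_id (1 : ℝ)).smul_const Z
  have h2 : HasFDerivAt (VQ B J lam M g Gp) (fderiv ℝ (VQ B J lam M g Gp) Z)
      ((fun t : ℝ => t • Z) 1) := by
    simpa using hd.hasFDerivAt
  have h3 := h2.comp_hasDerivAt (1 : ℝ) h1
  have h4 : HasDerivAt (fun t : ℝ => t • VQ B J lam M g Gp Z) (VQ B J lam M g Gp Z) 1 := by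
    simpa using (hasDerivAt_id (1 : ℝ)).smul_const (VQ B J lam M g Gp Z)
  have h5 : (VQ B J lam M g Gp ∘ fun t : ℝ => t • Z) =ᶠ[nhds 1]
      fun t : ℝ => t • VQ B J lam M g Gp Z := by
    filter_upwards [eventually_gt_nhds (show (0 : ℝ) < 1 by norm_num)] with t ht
    exact VQ_smul hg lam M Gp ht Z
  exact h3.unique (h4.congr_of_eventuallyEq h5)

end Pool.Agent.Helper77.JH
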