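import Pool.Agent.Helper77.JH.C12

/-! # JH: equivariance -/

set_option autoImplicit false
set_option linter.unusedSectionVars false
set_option linter.unusedVariables false

namespace Pool.Agent.Helper77.JH

open Pool.Agent.Helper77.JE (Hf Pt Gd rr nu NN tt xs SS)

variable {L : Type*} [NormedAddCommGroup L] [NormedSpace ℝ L]
variable {ι : Type*} [Fintype ι] [DecidableEq ι] {κ : Type*} [Fintype κ] [DecidableEq κ]
variable {B : L →L[ℝ] L →L[ℝ] ℝ} {J : ι → L →L[ℝ] L} {c : ι → ι → ι → ℝ} {lam M : ℝ} {g : L → L}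
variable {U : Set L} {Gp : L →L[ℝ] L} {X : L} {e : κ ⊕ ι → L}

/-- `Y ↦ ∑ J_j Y J_j` -/
noncomputable def Jm (J : ι → L →L[ℝ] L) (Y : L →L[ℝ] L) : L →L[ℝ] L := ∑ j, (J j).comp (Y.comp (J j))

/-- commutator of the complex structures -/
private theorem c14_comm (hH : Hq B J c) (i j : ι) (w : L) :
    J j (J i w) = J i (J j w) - (2 : ℝ) • ∑ k, c i j k • J k w := by
  have h1 : ∑ k, c j i k • J k w = - ∑ k, c i j k • J k w := by
    rw [← Finset.sum_neg_distrib]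
    refine Finset.sum_congr rfl fun k _ => ?_
    rw [hH.as1 j i k, neg_smul]
  rw [hH.mul j i w, hH.mul i j w, h1, two_smul]
  by_cases h : i = j
  · subst h
    simp only [if_true]
    abel
  · rw [if_neg h, if_neg (Ne.symm h)]
    abel

/-- piece `JH-C14` (a): `∑ J_j (J_i Y - Y J_i) J_j = J_i (∑ J_j Y J_j) - (∑ J_j Y J_j) J_i`: `J_j J_i = J_i J_j + 2 ∑ c j i k J_k` for `j ≠ i`,
and `c` is antisymmetric in `j, k` -/
theorem Jm_comm (hH : Hq B J c) (i : ι) (Y : L →L[ℝ] L) :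
    Jm J ((J i).comp Y - Y.comp (J i)) = (J i).comp (Jm J Y) - (Jm J Y).comp (J i) := by
  ext v
  simp only [Jm, sum_apply, ContinuousLinearMap.comp_apply,
    sub_apply, map_sum, map_sub]
  rw [← Finset.sum_sub_distrib]
  have e1 : ∀ j, J j (J i (Y (J j v))) - J j (Y (J i (J j v))) =
      (J i (J j (Y (J j v))) - J j (Y (J j (J i v)))) -
        (2 : ℝ) • ∑ k, (c i j k • J k (Y (J j v)) + c i j k • J j (Y (J k v))) := by
    intro j
    have h2 : J i (J j v) = J j (J i v) + (2 : ℝ) • ∑ k, c i j k • J k v := by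
      rw [c14_comm hH i j v]; abel
    rw [c14_comm hH i j (Y (J j v)), h2]
    simp only [map_add, map_smul, map_sum, Finset.sum_add_distrib, smul_add]
    abel
  rw [Finset.sum_congr rfl fun j _ => e1 j, Finset.sum_sub_distrib, ← Finset.smul_sum]
  have e2 : ∑ j, ∑ k, (c i j k • J k (Y (J j v)) + c i j k • J j (Y (J k v))) = 0 := by
    have e3 : ∀ j, ∑ k, (c i j k • J k (Y (J j v)) + c i j k • J j (Y (J k v))) =
        ∑ k, c i j k • J k (Y (J j v)) + ∑ k, c i j k • J j (Y (J k v)) :=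
      fun j => Finset.sum_add_distrib
    rw [Finset.sum_congr rfl fun j _ => e3 j, Finset.sum_add_distrib]
    have e4 : ∑ j, ∑ k, c i j k • J k (Y (J j v)) = ∑ j, ∑ k, c i k j • J j (Y (J k v)) :=
      Finset.sum_comm
    rw [e4, ← Finset.sum_add_distrib]
    refine Finset.sum_eq_zero fun j _ => ?_
    rw [← Finset.sum_add_distrib]
    refine Finset.sum_eq_zero fun k _ => ?_
    rw [hH.as2 i j k, ← add_smul, add_neg_cancel, zero_smul]
  rw [e2, smul_zero, sub_zero]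

/-- (b): `Y` is equivariant (to first order) in the direction `J_i Z` -/
structure EqV (J : ι → L →L[ℝ] L) (i : ι) (Z : L) (Y : L → L) : Prop where
  diff : DifferentiableAt ℝ Y Z
  der : fderiv ℝ Y Z (J i Z) = J i (Y Z)

structure EqO (J : ι → L →L[ℝ] L) (i : ι) (Z : L) (Y : L → L →L[ℝ] L) : Prop where
  diff : DifferentiableAt ℝ Y Z
  der : fderiv ℝ Y Z (J i Z) = (J i).comp (Y Z) - (Y Z).comp (J i)

structure EqS (J : ι → L →L[ℝ] L) (i : ι) (Z : L) (s : L → ℝ) : Prop where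
  diff : DifferentiableAt ℝ s Z
  der : fderiv ℝ s Z (J i Z) = 0

theorem EqO.apply {i : ι} {Z : L} {T : L → L →L[ℝ] L} {Y : L → L} (hT : EqO J i Z T) (hY : EqV J i Z Y) :
    EqV J i Z (fun P => T P (Y P)) := by
  refine ⟨hT.diff.clm_apply hY.diff, ?_⟩
  rw [fderiv_clm_apply hT.diff hY.diff]
  simp only [add_apply, ContinuousLinearMap.comp_apply,
    ContinuousLinearMap.flip_apply, hT.der, hY.der, sub_apply]
  abel

theorem EqO.comp {i : ι} {Z : L} {S T : L → L →L[ℝ] L} (hS : EqO J i Z S) (hT : EqO J i Z T) :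
    EqO J i Z (fun P => (S P).comp (T P)) := by
  refine ⟨hS.diff.clm_comp hT.diff, ?_⟩
  rw [fderiv_clm_comp hS.diff hT.diff]
  ext v
  simp only [add_apply, ContinuousLinearMap.comp_apply,
    ContinuousLinearMap.flip_apply, ContinuousLinearMap.compL_apply, hT.der, hS.der,
    sub_apply, map_sub]
  abel

/-- `Y ↦ ∑ J_j Y J_j` as a continuous linear map -/
private noncomputable def c14_L (J : ι → L →L[ℝ] L) : (L →L[ℝ] L) →L[ℝ] (L →L[ℝ] L) :=
  ∑ j, (ContinuousLinearMap.compL ℝ L L L (J j)).comp ((ContinuousLinearMap.compL ℝ L L L).flip (J j))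

private theorem c14_L_apply (J : ι → L →L[ℝ] L) (Y : L →L[ℝ] L) : c14_L J Y = Jm J Y := by
  simp only [c14_L, Jm, sum_apply, ContinuousLinearMap.comp_apply,
    ContinuousLinearMap.compL_apply, ContinuousLinearMap.flip_apply]

theorem EqO.jm (hH : Hq B J c) {i : ι} {Z : L} {T : L → L →L[ℝ] L} (hT : EqO J i Z T) :
    EqO J i Z (fun P => Jm J (T P)) := by
  have e : (fun P => Jm J (T P)) = fun P => c14_L J (T P) := funext fun P => (c14_L_apply J _).symm
  have h1 : HasFDerivAt (fun P => c14_L J (T P)) ((c14_L J).comp (fderiv ℝ T Z)) Z :=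
    (c14_L J).hasFDerivAt.comp Z hT.diff.hasFDerivAt
  refine ⟨?_, ?_⟩
  · rw [e]
    exact h1.differentiableAt
  · rw [e, h1.fderiv]
    simp only [ContinuousLinearMap.comp_apply, hT.der]
    rw [c14_L_apply, Jm_comm hH]

/-- `B (J_i u) v = - B u (J_i v)` -/
private theorem c14_skew (hH : Hq B J c) (i : ι) (u v : L) : B (J i u) v = - B u (J i v) := by
  have h := (hH.hf i).inv u (J i v)
  rw [(hH.hf i).jj, map_neg] at h
  rw [← h, neg_neg]

private theorem c14_self (hH : Hq B J c) (i : ι) (u : L) : B (J i u) u = 0 := by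
  have h := c14_skew hH i u u
  rw [hH.symm u (J i u)] at h
  linarith

theorem EqO.rank (hH : Hq B J c) {i : ι} {Z : L} {Y Y' : L → L} (hY : EqV J i Z Y) (hY' : EqV J i Z Y') :
    EqO J i Z (fun P => (B (Y P)).smulRight (Y' P)) := by
  have h0 : HasFDerivAt (fun P => B (Y P)) (B.comp (fderiv ℝ Y Z)) Z :=
    B.hasFDerivAt.comp Z hY.diff.hasFDerivAt
  have h1 := (ContinuousLinearMap.smulRightL ℝ L L).hasFDerivAt_of_bilinear h0 hY'.diff.hasFDerivAt
  have e : (fun P => (B (Y P)).smulRight (Y' P)) =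
      fun P => ContinuousLinearMap.smulRightL ℝ L L (B (Y P)) (Y' P) := by
    funext P
    ext v
    simp
  refine ⟨?_, ?_⟩
  · rw [e]
    exact h1.differentiableAt
  · rw [e, h1.fderiv]
    ext v
    simp [hY.der, hY'.der]
    rw [c14_skew hH]
    module

theorem EqV.inner (hH : Hq B J c) {i : ι} {Z : L} {Y Y' : L → L} (hY : EqV J i Z Y) (hY' : EqV J i Z Y') :
    EqS J i Z (fun P => B (Y P) (Y' P)) := by
  have h1 := B.hasFDerivAt_of_bilinear hY.diff.hasFDerivAt hY'.diff.hasFDerivAt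
  refine ⟨h1.differentiableAt, ?_⟩
  rw [h1.fderiv]
  simp [hY.der, hY'.der]
  rw [c14_skew hH]
  ring

theorem EqV.smul {i : ι} {Z : L} {s : L → ℝ} {Y : L → L} (hs : EqS J i Z s) (hY : EqV J i Z Y) :
    EqV J i Z (fun P => s P • Y P) := by
  have h1 := hs.diff.hasFDerivAt.smul hY.diff.hasFDerivAt
  refine ⟨h1.differentiableAt, ?_⟩
  have e : fderiv ℝ (fun P => s P • Y P) Z = _ := h1.fderiv
  rw [e]
  simp [hs.der, hY.der]

theorem EqV.add {i : ι} {Z : L} {Y Y' : L → L} (hY : EqV J i Z Y) (hY' : EqV J i Z Y') :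
    EqV J i Z (fun P => Y P + Y' P) := by
  have h1 := hY.diff.hasFDerivAt.add hY'.diff.hasFDerivAt
  have e : fderiv ℝ (fun P => Y P + Y' P) Z = _ := h1.fderiv
  refine ⟨h1.differentiableAt, ?_⟩
  rw [e]
  simp [hY.der, hY'.der]

theorem EqV.sub {i : ι} {Z : L} {Y Y' : L → L} (hY : EqV J i Z Y) (hY' : EqV J i Z Y') :
    EqV J i Z (fun P => Y P - Y' P) := by
  have h1 := hY.diff.hasFDerivAt.sub hY'.diff.hasFDerivAt
  have e : fderiv ℝ (fun P => Y P - Y' P) Z = _ := h1.fderiv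
  refine ⟨h1.differentiableAt, ?_⟩
  rw [e]
  simp [hY.der, hY'.der]

private theorem c14_tt (hG : ∀ i, Gd B (J i) U g) {Z : L} (hZ : Z ∈ U) (i : ι) : 0 < tt B Z :=
  neg_pos.2 ((hG i).neg Z hZ)

private theorem c14_htt (hH : Hq B J c) (i : ι) (Z : L) :
    ∃ f' : L →L[ℝ] ℝ, HasFDerivAt (tt B) f' Z ∧ f' (J i Z) = 0 := by
  have h1 := (B.hasFDerivAt_of_bilinear (hasFDerivAt_id Z) (hasFDerivAt_id Z)).neg
  refine ⟨_, h1, ?_⟩
  simp
  rw [hH.symm Z (J i Z), c14_self hH i Z]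
  ring

private theorem c14_sq (hG : ∀ i, Gd B (J i) U g) (hH : Hq B J c) {Z : L} (hZ : Z ∈ U) (i : ι) :
    ∃ f' : L →L[ℝ] ℝ, HasFDerivAt (fun P => √(tt B P)) f' Z ∧ f' (J i Z) = 0 := by
  obtain ⟨f', h1, h2⟩ := c14_htt hH i Z
  refine ⟨_, h1.sqrt (c14_tt hG hZ i).ne', ?_⟩
  simp [h2]

/-- (c): the ingredients: `xs`, `nu` (`ptQ`: `N (J_i Z) = J_i ν`), `SS` (`Gd.N2_JX`, `Gd.N2_symm`, compare `Gd.DVV_JX`), `tt`, `rr` -/
theorem eq_xs [Nonempty ι] (hG : ∀ i, Gd B (J i) U g) (hH : Hq B J c) {Z : L} (hZ : Z ∈ U) (i : ι) :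
    EqV J i Z (xs B) := by
  obtain ⟨f', h1, h2⟩ := c14_sq hG hH hZ i
  have h3 : HasFDerivAt (fun P => (√(tt B P))⁻¹) _ Z :=
    (hasDerivAt_inv (Real.sqrt_pos.2 (c14_tt hG hZ i)).ne').comp_hasFDerivAt Z h1
  have h4 := h3.smul (hasFDerivAt_id Z)
  have h5 : HasFDerivAt (xs B) _ Z := h4
  refine ⟨h5.differentiableAt, ?_⟩
  rw [h5.fderiv]
  simp [h2, xs]

theorem eq_nu [Nonempty ι] (hG : ∀ i, Gd B (J i) U g) (hH : Hq B J c) {Z : L} (hZ : Z ∈ U) (i : ι) :
    EqV J i Z (nu B g) := by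
  refine ⟨(((hG i).nu_c2.contDiffAt ((hG i).isOpen.mem_nhds hZ)).differentiableAt two_ne_zero), ?_⟩
  exact ((hG i).pt (hH.hf i) hZ).Njx

theorem eq_SS [Nonempty ι] (hG : ∀ i, Gd B (J i) U g) (hH : Hq B J c) {Z : L} (hZ : Z ∈ U) (i : ι) :
    EqO J i Z (SS B g) := by
  obtain ⟨f', h1, h2⟩ := c14_sq hG hH hZ i
  have h3 : HasFDerivAt (NN B g) (fderiv ℝ (NN B g) Z) Z :=
    (((hG i).NN_c1.contDiffAt ((hG i).isOpen.mem_nhds hZ)).differentiableAt one_ne_zero).hasFDerivAt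
  have h4 : HasFDerivAt (SS B g) _ Z := h1.smul h3
  refine ⟨h4.differentiableAt, ?_⟩
  rw [h4.fderiv]
  ext v
  simp [h2, SS]
  rw [(hG i).N2_symm hZ (J i Z) v, (hG i).N2_JX (hH.hf i) hZ v, smul_sub]

theorem eq_w [Nonempty ι] (hG : ∀ i, Gd B (J i) U g) (hH : Hq B J c) {Z : L} (hZ : Z ∈ U) (i : ι) :
    EqS J i Z (fun P => tt B P * rr B g P) := by
  obtain ⟨f', h1, h2⟩ := c14_htt hH i Z
  have h3 : HasFDerivAt (rr B g) (fderiv ℝ (rr B g) Z) Z :=
    (((hG i).rr_c2.contDiffAt ((hG i).isOpen.mem_nhds hZ)).differentiableAt two_ne_zero).hasFDerivAt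
  have h4 : HasFDerivAt (fun P => tt B P * rr B g P) _ Z := h1.mul h3
  refine ⟨h4.differentiableAt, ?_⟩
  rw [h4.fderiv]
  have h5 : fderiv ℝ (rr B g) Z (J i Z) = 0 := by
    rw [(hG i).drr (hH.hf i) hZ, (hG i).sym Z hZ]
    -- differentiate `B (g P) (J_i P) = 0`
    have hd : HasFDerivAt g (fderiv ℝ g Z) Z :=
      (((hG i).c2.contDiffAt ((hG i).isOpen.mem_nhds hZ)).differentiableAt two_ne_zero).hasFDerivAt
    have h6 := B.hasFDerivAt_of_bilinear hd (J i).hasFDerivAt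
    have h7 : HasFDerivAt (fun P => B (g P) (J i P)) (0 : L →L[ℝ] ℝ) Z := by
      refine (hasFDerivAt_const (0 : ℝ) Z).congr_of_eventuallyEq ?_
      filter_upwards [(hG i).isOpen.mem_nhds hZ] with P hP using (hG i).gjx P hP
    have h8 := congrArg (fun T : L →L[ℝ] ℝ => T (nu B g Z)) (h6.unique h7)
    simp at h8
    have h9 : B (g Z) (J i (nu B g Z)) = 0 := by
      unfold nu
      rw [map_smul, map_smul, hH.symm, c14_self hH, smul_zero]
    rw [h9, zero_add] at h8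
    exact h8
  simp [h2, h5]

/-- a constant operator which commutes with the `J_i` -/
theorem EqV.const_op {Gp : L →L[ℝ] L} (hs : ∀ i u, Gp (J i u) = J i (Gp u)) {i : ι} {Z : L} {Y : L → L}
    (hY : EqV J i Z Y) : EqV J i Z (fun P => Gp (Y P)) := by
  have h1 : HasFDerivAt (fun P => Gp (Y P)) (Gp.comp (fderiv ℝ Y Z)) Z :=
    Gp.hasFDerivAt.comp Z hY.diff.hasFDerivAt
  refine ⟨h1.differentiableAt, ?_⟩
  rw [h1.fderiv, ContinuousLinearMap.comp_apply, hY.der, hs]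

end Pool.Agent.Helper77.JH
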