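import Pool.Agent.Helper77.JH.C14

/-! # JH: equivariance of the field -/

set_option autoImplicit false
set_option linter.unusedSectionVars false
set_option linter.unusedVariables false

namespace Pool.Agent.Helper77.JH

open Pool.Agent.Helper77.JE (Hf Pt Gd rr nu NN tt xs SS)

variable {L : Type*} [NormedAddCommGroup L] [NormedSpace ℝ L]
variable {ι : Type*} [Fintype ι] [DecidableEq ι] {κ : Type*} [Fintype κ] [DecidableEq κ]
variable {B : L →L[ℝ] L →L[ℝ] ℝ} {J : ι → L →L[ℝ] L} {c : ι → ι → ι → ℝ} {lam M : ℝ} {g : L → L}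
variable {U : Set L} {Gp : L →L[ℝ] L} {X : L} {e : κ ⊕ ι → L}

private theorem c15_jm_rank (hH : Hq B J c) (a b : L) (v : L) :
    Jm J ((B a).smulRight b) v = - ∑ j, B (J j a) v • J j b := by
  simp only [Jm, sum_apply, ContinuousLinearMap.comp_apply, ContinuousLinearMap.smulRight_apply,
    map_smul]
  rw [← Finset.sum_neg_distrib]
  refine Finset.sum_congr rfl fun j _ => ?_
  rw [hH.skew j a v, neg_smul, neg_neg]

private theorem EqO.add' {i : ι} {Z : L} {S T : L → L →L[ℝ] L} (hS : EqO J i Z S) (hT : EqO J i Z T) :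
    EqO J i Z (fun P => S P + T P) := by
  have h1 : HasFDerivAt (fun P => S P + T P) _ Z := hS.diff.hasFDerivAt.add hT.diff.hasFDerivAt
  refine ⟨h1.differentiableAt, ?_⟩
  rw [h1.fderiv]
  ext v
  simp only [add_apply, hS.der, hT.der, sub_apply, ContinuousLinearMap.comp_apply, map_add]
  abel

private theorem EqO.sub' {i : ι} {Z : L} {S T : L → L →L[ℝ] L} (hS : EqO J i Z S) (hT : EqO J i Z T) :
    EqO J i Z (fun P => S P - T P) := by
  have h1 : HasFDerivAt (fun P => S P - T P) _ Z := hS.diff.hasFDerivAt.sub hT.diff.hasFDerivAt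
  refine ⟨h1.differentiableAt, ?_⟩
  rw [h1.fderiv]
  ext v
  simp only [sub_apply, hS.der, hT.der, ContinuousLinearMap.comp_apply, map_sub]
  abel

private theorem EqO.csmul' {i : ι} {Z : L} (r : ℝ) {T : L → L →L[ℝ] L} (hT : EqO J i Z T) :
    EqO J i Z (fun P => r • T P) := by
  have h1 : HasFDerivAt (fun P => r • T P) _ Z := hT.diff.hasFDerivAt.const_smul r
  refine ⟨h1.differentiableAt, ?_⟩
  rw [h1.fderiv]
  ext v
  simp only [smul_apply, sub_apply, hT.der, ContinuousLinearMap.comp_apply, map_smul, smul_sub]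

private theorem EqO.id' {i : ι} {Z : L} :
    EqO J i Z (fun _ => ContinuousLinearMap.id ℝ L) := by
  have h1 : HasFDerivAt (fun _ : L => ContinuousLinearMap.id ℝ L) (0 : L →L[ℝ] L →L[ℝ] L) Z :=
    hasFDerivAt_const _ Z
  refine ⟨h1.differentiableAt, ?_⟩
  rw [h1.fderiv]
  ext v
  simp

private theorem EqV.csmul' {i : ι} {Z : L} (r : ℝ) {Y : L → L} (hY : EqV J i Z Y) :
    EqV J i Z (fun P => r • Y P) := by
  have h1 : HasFDerivAt (fun P => r • Y P) _ Z := hY.diff.hasFDerivAt.const_smul r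
  refine ⟨h1.differentiableAt, ?_⟩
  rw [h1.fderiv]
  simp [hY.der]

private theorem EqS.const' {i : ι} {Z : L} (r : ℝ) : EqS J i Z (fun _ => r) := by
  have h1 : HasFDerivAt (fun _ : L => r) (0 : L →L[ℝ] ℝ) Z := hasFDerivAt_const _ Z
  refine ⟨h1.differentiableAt, ?_⟩
  rw [h1.fderiv]
  simp

private theorem EqS.add' {i : ι} {Z : L} {s t : L → ℝ} (hs : EqS J i Z s) (ht : EqS J i Z t) :
    EqS J i Z (fun P => s P + t P) := by
  have h1 : HasFDerivAt (fun P => s P + t P) _ Z := hs.diff.hasFDerivAt.add ht.diff.hasFDerivAt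
  refine ⟨h1.differentiableAt, ?_⟩
  rw [h1.fderiv]
  simp [hs.der, ht.der]

private theorem EqS.mul' {i : ι} {Z : L} {s t : L → ℝ} (hs : EqS J i Z s) (ht : EqS J i Z t) :
    EqS J i Z (fun P => s P * t P) := by
  have h1 : HasFDerivAt (fun P => s P * t P) _ Z := hs.diff.hasFDerivAt.mul ht.diff.hasFDerivAt
  refine ⟨h1.differentiableAt, ?_⟩
  rw [h1.fderiv]
  simp [hs.der, ht.der]

private theorem EqV.congr' {i : ι} {Z : L} {Y Y' : L → L} (hU : IsOpen U) (hZ : Z ∈ U)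
    (hY : EqV J i Z Y) (h : ∀ P ∈ U, Y' P = Y P) : EqV J i Z Y' := by
  have h1 : HasFDerivAt Y' (fderiv ℝ Y Z) Z :=
    hY.diff.hasFDerivAt.congr_of_eventuallyEq (Filter.eventuallyEq_of_mem (hU.mem_nhds hZ) h)
  refine ⟨h1.differentiableAt, ?_⟩
  rw [h1.fderiv, hY.der, h Z hZ]

/-- piece `JH-C15` (a): the pieces of the field by `Jm`: `∑ J_i ν ⊗ J_i ν = - Jm (ν ⊗ ν)`,
`∑ φ_i T φ_i Y = Q Y - B (Q Y) ν ν`, `Q = Jm (T ∘ (1 - ν ⊗ ν))`, ..  -/
theorem TT_jm (hH : Hq B J c) (lam : ℝ) (Z : L) :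
    TT B J lam g Z = SS B g Z - Jm J ((B (nu B g Z)).smulRight (xs B Z)) -
      lam • ContinuousLinearMap.id ℝ L + lam⁻¹ • Jm J ((B (nu B g Z)).smulRight (nu B g Z)) := by
  ext v
  simp only [TT, add_apply, sub_apply, smul_apply, sum_apply, ContinuousLinearMap.smulRight_apply,
    c15_jm_rank hH]
  rw [smul_neg]
  abel

/-- (b) -/
theorem eq_TT [Nonempty ι] (hG : ∀ i, Gd B (J i) U g) (hH : Hq B J c) (lam : ℝ) {Z : L} (hZ : Z ∈ U) (i : ι) :
    EqO J i Z (TT B J lam g) := by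
  have e : TT B J lam g = fun P => SS B g P - Jm J ((B (nu B g P)).smulRight (xs B P)) -
      lam • ContinuousLinearMap.id ℝ L + lam⁻¹ • Jm J ((B (nu B g P)).smulRight (nu B g P)) :=
    funext fun P => TT_jm hH lam P
  rw [e]
  have hx := eq_xs hG hH hZ i
  have hn := eq_nu hG hH hZ i
  exact EqO.add' (EqO.sub' (EqO.sub' (eq_SS hG hH hZ i) (EqO.jm hH (EqO.rank hH hn hx)))
    (EqO.csmul' lam EqO.id')) (EqO.csmul' lam⁻¹ (EqO.jm hH (EqO.rank hH hn hn)))

private theorem eq_nv [Nonempty ι] (hG : ∀ i, Gd B (J i) U g) (hH : Hq B J c) (lam : ℝ) {Z : L}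
    (hZ : Z ∈ U) (i : ι) : EqV J i Z (nv B lam g) :=
  EqV.sub (eq_nu hG hH hZ i) (EqV.csmul' lam (eq_xs hG hH hZ i))

private theorem eq_AA [Nonempty ι] (hG : ∀ i, Gd B (J i) U g) (hH : Hq B J c) (hs : Gs B J Gp) (lam : ℝ)
    {Z : L} (hZ : Z ∈ U) (i : ι) : EqS J i Z (AA B lam g Gp) := by
  have h1 := EqS.mul' (EqS.const' (-1)) (EqV.inner hH (EqV.const_op hs.comm (eq_nu hG hH hZ i))
    (eq_nv hG hH lam hZ i))
  have e : AA B lam g Gp = fun P => (-1) * B (Gp (nu B g P)) (nv B lam g P) := by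
    funext P
    simp [AA]
  rw [e]
  exact h1

private theorem eq_RR [Nonempty ι] (hG : ∀ i, Gd B (J i) U g) (hH : Hq B J c) (hs : Gs B J Gp) (lam : ℝ)
    {Z : L} (hZ : Z ∈ U) (i : ι) : EqS J i Z (RR B lam g Gp) :=
  EqV.inner hH (EqV.const_op hs.comm (eq_nv hG hH lam hZ i)) (eq_nv hG hH lam hZ i)

/-- `∑ B y (J_j a) J_j b` -/
private theorem eq_rk (hH : Hq B J c) {i : ι} {Z : L} {Y a b : L → L}
    (hY : EqV J i Z Y) (ha : EqV J i Z a) (hb : EqV J i Z b) :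
    EqV J i Z (fun P => ∑ j, B (Y P) (J j (a P)) • J j (b P)) := by
  have h1 := EqV.csmul' (-1) (EqO.apply (EqO.jm hH (EqO.rank hH ha hb)) hY)
  have e : (fun P => ∑ j, B (Y P) (J j (a P)) • J j (b P)) =
      fun P => (-1 : ℝ) • Jm J ((B (a P)).smulRight (b P)) (Y P) := by
    funext P
    rw [c15_jm_rank hH, neg_one_smul, neg_neg]
    refine Finset.sum_congr rfl fun j _ => ?_
    rw [hH.symm]
  rw [e]
  exact h1

theorem eq_W [Nonempty ι] (hG : ∀ i, Gd B (J i) U g) (hH : Hq B J c) (hs : Gs B J Gp) (lam : ℝ) {Z : L}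
    (hZ : Z ∈ U) (i : ι) : EqV J i Z (WW B J lam g Gp) := by
  have hx := eq_xs hG hH hZ i
  have hn := eq_nu hG hH hZ i
  have hg := EqV.const_op hs.comm (eq_nv hG hH lam hZ i)
  exact EqV.add (EqV.add (EqV.add hg (EqV.smul (EqV.inner hH hg hx) hx)) (eq_rk hH hg hx hx))
    (EqV.smul (eq_AA hG hH hs lam hZ i) hn)

theorem eq_G1 [Nonempty ι] (hG : ∀ i, Gd B (J i) U g) (hH : Hq B J c) (hs : Gs B J Gp) (lam : ℝ) {Z : L}
    (hZ : Z ∈ U) (i : ι) : EqV J i Z (G1 B J lam g Gp) :=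
  EqO.apply (eq_TT hG hH lam hZ i) (eq_W hG hH hs lam hZ i)

theorem eq_G2 [Nonempty ι] (hG : ∀ i, Gd B (J i) U g) (hH : Hq B J c) (hs : Gs B J Gp) (lam : ℝ) {Z : L}
    (hZ : Z ∈ U) (i : ι) : EqV J i Z (G2 B J lam g Gp) := by
  have hn := eq_nu hG hH hZ i
  have h1 := EqV.csmul' lam⁻¹ (EqO.apply (eq_TT hG hH lam hZ i)
    (eq_rk hH (eq_W hG hH hs lam hZ i) hn hn))
  have e : G2 B J lam g Gp = fun P => lam⁻¹ • TT B J lam g P
      (∑ j, B (WW B J lam g Gp P) (J j (nu B g P)) • J j (nu B g P)) := by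
    funext P
    simp only [G2, xi, map_sum, map_smul, Finset.smul_sum, smul_smul]
  rw [e]
  exact h1

/-- `P = 1 - ν ⊗ ν` -/
private theorem eq_pr [Nonempty ι] (hG : ∀ i, Gd B (J i) U g) (hH : Hq B J c) {Z : L}
    (hZ : Z ∈ U) (i : ι) : EqO J i Z (fun P => ContinuousLinearMap.id ℝ L -
      (B (nu B g P)).smulRight (nu B g P)) := by
  have hn := eq_nu hG hH hZ i
  exact EqO.sub' EqO.id' (EqO.rank hH hn hn)

private theorem ph_eq (hH : Hq B J c) (j : ι) (Y : L → L) (P : L) :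
    ph B J g j Y P = (ContinuousLinearMap.id ℝ L - (B (nu B g P)).smulRight (nu B g P))
      (J j (Y P)) := by
  simp only [ph, sub_apply, ContinuousLinearMap.id_apply, ContinuousLinearMap.smulRight_apply]
  rw [hH.symm (nu B g P) (J j (Y P)), hH.skew, neg_smul, sub_neg_eq_add]

theorem eq_G3 [Nonempty ι] (hG : ∀ i, Gd B (J i) U g) (hH : Hq B J c) (hs : Gs B J Gp) (lam : ℝ) {Z : L}
    (hZ : Z ∈ U) (i : ι) : EqV J i Z (G3 B J lam g Gp) := by
  have hp := eq_pr hG hH hZ i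
  have h1 := EqO.apply hp (EqO.apply (EqO.jm hH (EqO.comp (eq_TT hG hH lam hZ i) hp))
    (eq_W hG hH hs lam hZ i))
  have e : G3 B J lam g Gp = fun P => (ContinuousLinearMap.id ℝ L -
      (B (nu B g P)).smulRight (nu B g P)) (Jm J ((TT B J lam g P).comp
        (ContinuousLinearMap.id ℝ L - (B (nu B g P)).smulRight (nu B g P)))
          (WW B J lam g Gp P)) := by
    funext P
    unfold G3
    simp only [ph_eq hH]
    rw [← map_sum]
    congr 1
    simp only [Jm, sum_apply, ContinuousLinearMap.comp_apply]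
  rw [e]
  exact h1

/-- here `B (T ξ_i) W = B (T W) ξ_i` (`TT_symm`) on `U` -/
theorem eq_G4 [Nonempty ι] (hG : ∀ i, Gd B (J i) U g) (hH : Hq B J c) (hs : Gs B J Gp) (lam : ℝ) {Z : L}
    (hZ : Z ∈ U) (i : ι) : EqV J i Z (G4 B J lam g Gp) := by
  have hn := eq_nu hG hH hZ i
  have hT := eq_TT hG hH lam hZ i
  have hW := eq_W hG hH hs lam hZ i
  have h1 := EqV.sub (eq_rk hH (EqO.apply hT hW) hn hn)
    (EqV.smul (EqS.mul' (EqS.const' (-1)) (EqV.inner hH (EqO.apply (EqO.jm hH hT) hn) hn)) hW)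
  refine EqV.congr' (hG i).isOpen hZ h1 fun P hP => ?_
  unfold G4 xi
  have e1 : ∀ j, B (TT B J lam g P (J j (nu B g P))) (WW B J lam g Gp P) =
      B (TT B J lam g P (WW B J lam g Gp P)) (J j (nu B g P)) := fun j =>
    TT_symm hG hH lam hP (xi_hz hG hH hP j) (WW_hz hG hH lam hs hP)
  have e2 : ∑ j, B (TT B J lam g P (J j (nu B g P))) (J j (nu B g P)) =
      (-1) * B (Jm J (TT B J lam g P) (nu B g P)) (nu B g P) := by
    simp only [Jm, sum_apply, ContinuousLinearMap.comp_apply, map_sum]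
    rw [Finset.mul_sum]
    refine Finset.sum_congr rfl fun j _ => ?_
    rw [hH.skew j]
    ring
  simp only [e1]
  rw [e2]

theorem eq_G5 [Nonempty ι] (hG : ∀ i, Gd B (J i) U g) (hH : Hq B J c) (lam : ℝ) {Z : L}
    (hZ : Z ∈ U) (i : ι) : EqV J i Z (G5 B J lam g) := by
  have hn := eq_nu hG hH hZ i
  have h1 := EqO.apply (eq_pr hG hH hZ i) (EqO.apply (EqO.jm hH (eq_TT hG hH lam hZ i)) hn)
  have e : G5 B J lam g = fun P => (ContinuousLinearMap.id ℝ L -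
      (B (nu B g P)).smulRight (nu B g P)) (Jm J (TT B J lam g P) (nu B g P)) := by
    funext P
    unfold G5 xi
    simp only [ph_eq hH]
    rw [← map_sum]
    congr 1
    simp only [Jm, sum_apply, ContinuousLinearMap.comp_apply]
  rw [e]
  exact h1

private theorem eq_bt [Nonempty ι] (hG : ∀ i, Gd B (J i) U g) (hH : Hq B J c) (hs : Gs B J Gp) (lam : ℝ)
    {Z : L} (hZ : Z ∈ U) (i : ι) : EqS J i Z (bt B lam g Gp) := by
  have h1 := EqS.mul' (EqS.add' (eq_RR hG hH hs lam hZ i) (EqS.const' (-lam ^ 2)))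
    (EqS.const' ((2 : ℝ)⁻¹))
  have e : bt B lam g Gp = fun P => (RR B lam g Gp P + -lam ^ 2) * (2 : ℝ)⁻¹ := by
    funext P
    unfold bt
    ring
  rw [e]
  exact h1

private theorem eq_cc0 [Nonempty ι] (hG : ∀ i, Gd B (J i) U g) (hH : Hq B J c) (hs : Gs B J Gp) (lam : ℝ)
    {Z : L} (hZ : Z ∈ U) (i : ι) : EqS J i Z (cc0 B lam g Gp) := by
  have h1 := EqS.mul' (EqS.add' (EqS.mul' (EqS.const' (lam ^ 2 - 1)) (eq_AA hG hH hs lam hZ i))
    (EqS.mul' (EqS.const' (-1)) (eq_RR hG hH hs lam hZ i))) (EqS.const' ((lam ^ 2)⁻¹))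
  have e : cc0 B lam g Gp = fun P => ((lam ^ 2 - 1) * AA B lam g Gp P +
      (-1) * RR B lam g Gp P) * (lam ^ 2)⁻¹ := by
    funext P
    unfold cc0
    ring
  rw [e]
  exact h1

/-- (c) -/
theorem VQ_equiv [Nonempty ι] (hG : ∀ i, Gd B (J i) U g) (hH : Hq B J c) (hs : Gs B J Gp) (lam M : ℝ) {Z : L}
    (hZ : Z ∈ U) (i : ι) : fderiv ℝ (VQ B J lam M g Gp) Z (J i Z) = J i (VQ B J lam M g Gp Z) := by
  have hb := eq_bt hG hH hs lam hZ i
  have hc := eq_cc0 hG hH hs lam hZ i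
  have h1 := EqV.smul (EqS.add' (EqS.const' (M * lam ^ 2 - ((Fintype.card ι : ℝ) - 1) / 2))
    (EqS.mul' (EqS.const' (M * (lam ^ 2 - 1) + ((Fintype.card ι : ℝ) - 1) / (2 * lam ^ 2))) hb))
    (eq_G1 hG hH hs lam hZ i)
  have h2 := EqV.smul (EqS.add' (EqS.const' lam)
    (EqS.mul' (EqS.const' (((Fintype.card ι : ℝ) - 1) / lam)) hb)) (eq_G2 hG hH hs lam hZ i)
  have h3 := EqV.smul (EqS.add' (EqS.const' 1)
    (EqS.mul' (EqS.const' ((lam ^ 2 - 1) / lam ^ 2)) hb)) (eq_G3 hG hH hs lam hZ i)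
  have h4 := EqV.smul hb (eq_G4 hG hH hs lam hZ i)
  have h5 := EqV.smul (EqS.mul' hb hc) (eq_G5 hG hH lam hZ i)
  have h6 := EqV.smul (eq_w hG hH hZ i) (EqV.add (EqV.add (EqV.sub (EqV.add h1 h2) h3) h4) h5)
  exact h6.der

end Pool.Agent.Helper77.JH
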