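import Pool.Agent.Helper77.JH.C1

/-! # JH: first order facts on the cone -/

set_option autoImplicit false
set_option linter.unusedSectionVars false
set_option linter.unusedVariables false

namespace Pool.Agent.Helper77.JH

open Pool.Agent.Helper77.JE (Hf Pt Gd rr nu NN tt xs SS)

variable {L : Type*} [NormedAddCommGroup L] [NormedSpace ℝ L]
variable {ι : Type*} [Fintype ι] [DecidableEq ι] {κ : Type*} [Fintype κ] [DecidableEq κ]
variable {B : L →L[ℝ] L →L[ℝ] ℝ} {J : ι → L →L[ℝ] L} {c : ι → ι → ι → ℝ} {lam M : ℝ} {g : L → L}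
variable {U : Set L} {Gp : L →L[ℝ] L} {X : L} {e : κ ⊕ ι → L}

/-- piece `JH-C2` (a): `Gd.pt` for each `J i` (Helper77/JE/Cal.lean) -/
theorem ptQ [Nonempty ι] (hG : ∀ i, Gd B (J i) U g) (hH : Hq B J c) {Z : L} (hZ : Z ∈ U) :
    PtQ B J Z (nu B g Z) (NN B g Z) := by
  obtain ⟨i0⟩ := ‹Nonempty ι›
  have h : ∀ i, Pt B (J i) Z (nu B g Z) (NN B g Z) := fun i => (hG i).pt (hH.hf i) hZ
  exact ⟨(h i0).nn, (h i0).xn, fun i => (h i).jxn, (h i0).Nx, fun i => (h i).Njx, (h i0).Nn, (h i0).NX,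
    fun i => (h i).NJX, (h i0).sy⟩

private theorem c2_jn_X (hH : Hq B J c) {Z ν : L} {N : L →L[ℝ] L} (hP : PtQ B J Z ν N) (i : ι) :
    B (J i ν) Z = 0 := by
  rw [hH.skew i, hH.symm, hP.jxn, neg_zero]

private theorem c2_jn_JX (hH : Hq B J c) {Z ν : L} {N : L →L[ℝ] L} (hP : PtQ B J Z ν N) (i k : ι) :
    B (J i ν) (J k Z) = 0 := by
  rw [hH.skew i, hH.mul i k Z, map_add, map_sum]
  have h1 : B ν (if i = k then -Z else 0) = 0 := by
    split_ifs
    · rw [map_neg, hH.symm, hP.xn, neg_zero]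
    · exact map_zero _
  rw [h1, zero_add]
  have h2 : ∀ l, B ν (c i k l • J l Z) = 0 := by
    intro l
    rw [map_smul, hH.symm, hP.jxn, smul_zero]
  rw [Finset.sum_eq_zero (fun l _ => h2 l), neg_zero]

private theorem c2_xi_hz (hH : Hq B J c) {Z ν : L} {N : L →L[ℝ] L} (hP : PtQ B J Z ν N) (i : ι) :
    HzQ B J Z ν (J i ν) :=
  ⟨c2_jn_X hH hP i, fun k => c2_jn_JX hH hP i k, hH.self0 i ν⟩

/-- (b): `ξ_i` is horizontal tangential, `B (ξ_i) (ξ_j) = δ_ij` -/
theorem xi_hz [Nonempty ι] (hG : ∀ i, Gd B (J i) U g) (hH : Hq B J c) {Z : L} (hZ : Z ∈ U) (i : ι) :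
    HzQ B J Z (nu B g Z) (xi B J g i Z) :=
  c2_xi_hz hH (ptQ hG hH hZ) i

private theorem c2_TT_apply (B : L →L[ℝ] L →L[ℝ] ℝ) (J : ι → L →L[ℝ] L) (lam : ℝ) (g : L → L) (Z w : L) :
    TT B J lam g Z w = √(tt B Z) • NN B g Z w + ∑ i, B (J i (nu B g Z)) w • J i (xs B Z) - lam • w -
      lam⁻¹ • ∑ i, B (J i (nu B g Z)) w • J i (nu B g Z) := by
  simp only [TT, SS, sub_apply, add_apply,
    smul_apply, sum_apply, ContinuousLinearMap.smulRight_apply,
    ContinuousLinearMap.id_apply]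

private theorem c2_TT_B (B : L →L[ℝ] L →L[ℝ] ℝ) (J : ι → L →L[ℝ] L) (lam : ℝ) (g : L → L) (Z w y : L) :
    B (TT B J lam g Z w) y = √(tt B Z) * B (NN B g Z w) y +
      ∑ i, B (J i (nu B g Z)) w * ((√(tt B Z))⁻¹ * B (J i Z) y) - lam * B w y -
      lam⁻¹ * ∑ i, B (J i (nu B g Z)) w * B (J i (nu B g Z)) y := by
  rw [c2_TT_apply]
  simp only [xs, map_sub, map_add, map_smul, map_sum, sub_apply,
    add_apply, smul_apply, sum_apply, smul_eq_mul]

/-- (c): `TT` preserves horizontal tangential vectors and is symmetric there.  (`SS Z = √(tt Z) NN Z`, `xs Z = (√(tt Z))⁻¹ Z`,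
`tt Z = - B Z Z > 0`; compare `T_hz`, `T_symm` in Helper77/JE/PtA.lean and `Gd.VV_hz` in Helper77/JE/Cal.lean.) -/
theorem TT_hz [Nonempty ι] (hG : ∀ i, Gd B (J i) U g) (hH : Hq B J c) (lam : ℝ) {Z : L} (hZ : Z ∈ U) {w : L}
    (hw : HzQ B J Z (nu B g Z) w) : HzQ B J Z (nu B g Z) (TT B J lam g Z w) := by
  have hP := ptQ hG hH hZ
  obtain ⟨i0⟩ := ‹Nonempty ι›
  have ht : 0 < tt B Z := by
    unfold tt
    have := (hG i0).neg Z hZ
    linarith
  have hs : 0 < √(tt B Z) := Real.sqrt_pos.2 ht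
  have hs2 : √(tt B Z) * √(tt B Z) = tt B Z := Real.mul_self_sqrt ht.le
  obtain ⟨h1, h2, h3⟩ := hw
  refine ⟨?_, ?_, ?_⟩
  · rw [c2_TT_B, hP.NX, hH.symm (nu B g Z) w, h3, h1]
    have e1 : ∀ i, B (J i (nu B g Z)) w * ((√(tt B Z))⁻¹ * B (J i Z) Z) = 0 := by
      intro i
      rw [hH.self0 i Z]; ring
    have e2 : ∀ i, B (J i (nu B g Z)) w * B (J i (nu B g Z)) Z = 0 := by
      intro i
      rw [c2_jn_X hH hP i]; ring
    rw [Finset.sum_eq_zero (fun i _ => e1 i), Finset.sum_eq_zero (fun i _ => e2 i)]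
    ring
  · intro k
    rw [c2_TT_B, hP.NJX, h2 k]
    have e1 : ∀ i, B (J i (nu B g Z)) w * ((√(tt B Z))⁻¹ * B (J i Z) (J k Z)) =
        if i = k then B (J k (nu B g Z)) w * ((√(tt B Z))⁻¹ * -(tt B Z)) else 0 := by
      intro i
      rw [hH.jj i k Z]
      split_ifs with hik
      · subst hik
        unfold tt
        ring
      · ring
    have e2 : ∀ i, B (J i (nu B g Z)) w * B (J i (nu B g Z)) (J k Z) = 0 := by
      intro i
      rw [c2_jn_JX hH hP i k]; ring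
    rw [Finset.sum_congr rfl (fun i _ => e1 i), Finset.sum_eq_zero (fun i _ => e2 i)]
    simp only [Finset.sum_ite_eq', Finset.mem_univ, if_true]
    have e3 : B (J k (nu B g Z)) w = - B (nu B g Z) (J k w) := hH.skew k _ _
    rw [e3]
    have e4 : (√(tt B Z))⁻¹ * -(tt B Z) = -√(tt B Z) := by
      have h' : (√(tt B Z))⁻¹ * -(√(tt B Z) * √(tt B Z)) = -√(tt B Z) := by
        field_simp
      rwa [hs2] at h'
    rw [e4]
    ring
  · rw [c2_TT_B, hP.Nn, h3]
    have e1 : ∀ i, B (J i (nu B g Z)) w * ((√(tt B Z))⁻¹ * B (J i Z) (nu B g Z)) = 0 := by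
      intro i
      rw [hP.jxn i]; ring
    have e2 : ∀ i, B (J i (nu B g Z)) w * B (J i (nu B g Z)) (nu B g Z) = 0 := by
      intro i
      rw [hH.self0 i]; ring
    rw [Finset.sum_eq_zero (fun i _ => e1 i), Finset.sum_eq_zero (fun i _ => e2 i)]
    ring

theorem TT_symm [Nonempty ι] (hG : ∀ i, Gd B (J i) U g) (hH : Hq B J c) (lam : ℝ) {Z : L} (hZ : Z ∈ U)
    {v w : L} (hv : HzQ B J Z (nu B g Z) v) (hw : HzQ B J Z (nu B g Z) w) :
    B (TT B J lam g Z v) w = B (TT B J lam g Z w) v := by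
  have hP := ptQ hG hH hZ
  have h1 := hP.sy v w (by rw [hH.symm]; exact hv.2.2) (by rw [hH.symm]; exact hw.2.2)
  rw [c2_TT_B, c2_TT_B, h1, hH.symm v w]
  have e1 : ∀ i, B (J i (nu B g Z)) v * ((√(tt B Z))⁻¹ * B (J i Z) w) = 0 := by
    intro i
    rw [hH.symm (J i Z) w, hw.2.1 i]; ring
  have e2 : ∀ i, B (J i (nu B g Z)) w * ((√(tt B Z))⁻¹ * B (J i Z) v) = 0 := by
    intro i
    rw [hH.symm (J i Z) v, hv.2.1 i]; ring
  rw [Finset.sum_eq_zero (fun i _ => e1 i), Finset.sum_eq_zero (fun i _ => e2 i)]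
  have e3 : ∀ i, B (J i (nu B g Z)) v * B (J i (nu B g Z)) w = B (J i (nu B g Z)) w * B (J i (nu B g Z)) v :=
    fun i => mul_comm _ _
  rw [Finset.sum_congr rfl (fun i _ => e3 i)]

/-- (d): `W` is horizontal tangential (`Gp` symmetric) -/
theorem WW_hz [Nonempty ι] (hG : ∀ i, Gd B (J i) U g) (hH : Hq B J c) (lam : ℝ) (gs : Gs B J Gp) {Z : L}
    (hZ : Z ∈ U) : HzQ B J Z (nu B g Z) (WW B J lam g Gp Z) := by
  have hP := ptQ hG hH hZ
  obtain ⟨i0⟩ := ‹Nonempty ι›
  have ht : 0 < tt B Z := by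
    unfold tt
    have := (hG i0).neg Z hZ
    linarith
  have hs : 0 < √(tt B Z) := Real.sqrt_pos.2 ht
  have hs2 : √(tt B Z) * √(tt B Z) = tt B Z := Real.mul_self_sqrt ht.le
  have hz : Z = √(tt B Z) • xs B Z := by
    unfold xs
    rw [smul_smul, mul_inv_cancel₀ hs.ne', one_smul]
  have hxx : B (xs B Z) (xs B Z) = -1 := by
    unfold xs
    simp only [map_smul, smul_apply, smul_eq_mul]
    have : B Z Z = -(√(tt B Z) * √(tt B Z)) := by
      rw [hs2]; unfold tt; ring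
    rw [this]
    field_simp
  have hxn : B (nu B g Z) (xs B Z) = 0 := by
    unfold xs
    rw [map_smul, hH.symm, hP.xn, smul_zero]
  have hjxn : ∀ i, B (J i (xs B Z)) (nu B g Z) = 0 := by
    intro i
    unfold xs
    simp only [map_smul, smul_apply, smul_eq_mul, hP.jxn i, mul_zero]
  set x := xs B Z with hx
  set ν := nu B g Z with hν
  set n := nv B lam g Z with hn
  have hB : ∀ y, B (WW B J lam g Gp Z) y = B (Gp n) y + B (Gp n) x * B x y +
      ∑ i, B (Gp n) (J i x) * B (J i x) y + AA B lam g Gp Z * B ν y := by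
    intro y
    simp only [WW, map_add, map_smul, map_sum, add_apply, smul_apply,
      sum_apply, smul_eq_mul, ← hx, ← hν, ← hn]
  refine ⟨?_, ?_, ?_⟩
  · have h0 : B (WW B J lam g Gp Z) x = 0 := by
      rw [hB, hxx, hxn]
      have e1 : ∀ i, B (Gp n) (J i x) * B (J i x) x = 0 := by
        intro i
        rw [hH.self0]; ring
      rw [Finset.sum_eq_zero (fun i _ => e1 i)]
      ring
    have h1 : ∀ y, B y Z = √(tt B Z) * B y x := by
      intro y
      conv_lhs => rw [hz]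
      rw [map_smul, smul_eq_mul]
    rw [h1, h0, mul_zero]
  · intro k
    have h0 : B (WW B J lam g Gp Z) (J k x) = 0 := by
      rw [hB]
      have e0 : B x (J k x) = 0 := by rw [hH.symm, hH.self0]
      have e1 : ∀ i, B (Gp n) (J i x) * B (J i x) (J k x) = if i = k then - B (Gp n) (J k x) else 0 := by
        intro i
        rw [hH.jj i k x]
        split_ifs with hik
        · rw [hik, hxx]; ring
        · ring
      have e2 : B ν (J k x) = 0 := by rw [hH.symm, hjxn k]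
      rw [e0, e2, Finset.sum_congr rfl (fun i _ => e1 i)]
      simp only [Finset.sum_ite_eq', Finset.mem_univ, if_true]
      ring
    have h1 : J k Z = √(tt B Z) • J k x := by
      rw [← map_smul, ← hz]
    rw [h1, map_smul, h0, smul_zero]
  · rw [hB]
    have e0 : B x ν = 0 := by rw [hH.symm, hxn]
    have e1 : ∀ i, B (Gp n) (J i x) * B (J i x) ν = 0 := by
      intro i
      rw [hjxn i]; ring
    have e2 : B ν ν = 1 := hP.nn
    rw [e0, e2, Finset.sum_eq_zero (fun i _ => e1 i)]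
    unfold AA
    rw [← hν, ← hn, gs.sym n ν]
    ring

/-- (e): `φ_i Y` is horizontal tangential -/
theorem ph_hz [Nonempty ι] (hG : ∀ i, Gd B (J i) U g) (hH : Hq B J c) {Y : L → L} {Z : L} (hZ : Z ∈ U) (i : ι)
    (hY : HzQ B J Z (nu B g Z) (Y Z)) : HzQ B J Z (nu B g Z) (ph B J g i Y Z) := by
  have hP := ptQ hG hH hZ
  obtain ⟨h1, h2, h3⟩ := HzQ.jX hH hY i
  unfold ph
  refine ⟨?_, ?_, ?_⟩
  · rw [map_add, map_smul, add_apply, smul_apply, h1,
      hH.symm (nu B g Z) Z, hP.xn, smul_zero, add_zero]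
  · intro k
    rw [map_add, map_smul, add_apply, smul_apply, h2 k,
      hH.symm (nu B g Z) (J k Z), hP.jxn k, smul_zero, add_zero]
  · rw [map_add, map_smul, add_apply, smul_apply, h3, hP.nn,
      smul_eq_mul]
    ring

/-- (f): at the normalised point: `xs X = X`, `SS X = NN X` -/
theorem xs_one (h1 : B X X = -1) : xs B X = X ∧ SS B g X = NN B g X ∧ tt B X = 1 := by
  have h : tt B X = 1 := by
    unfold tt
    rw [h1]; norm_num
  refine ⟨?_, ?_, h⟩
  · unfold xs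
    rw [h, Real.sqrt_one, inv_one, one_smul]
  · unfold SS
    rw [h, Real.sqrt_one, one_smul]

private theorem c2_TT_one (h1 : B X X = -1) (lam : ℝ) (u : L) :
    TT B J lam g X u = NN B g X u + ∑ i, B (J i (nu B g X)) u • J i X - lam • u -
      lam⁻¹ • ∑ i, B (J i (nu B g X)) u • J i (nu B g X) := by
  obtain ⟨e1, e2, e3⟩ := xs_one (g := g) h1
  rw [c2_TT_apply, e1, e3, Real.sqrt_one, one_smul]

/-- (g): `N` in terms of `T` at the normalised point -/
theorem Pnt.N_eq (h : Pnt B J c lam g U Gp X e) (u : L) :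
    NN B g X u = TT B J lam g X u + lam • u + lam⁻¹ • ∑ i, B (J i (nu B g X)) u • J i (nu B g X) -
      ∑ i, B (J i (nu B g X)) u • J i X := by
  rw [c2_TT_one h.one]
  abel

/-- (h): `T` on the remaining directions (in coordinates) -/
theorem Pnt.T_rest (h : Pnt B J c lam g U Gp X e) :
    TT B J lam g X X = -(lam • X) ∧ (∀ i, TT B J lam g X (J i X) = J i (nu B g X) - lam • J i X) ∧
      TT B J lam g X (nu B g X) = NN B g X (nu B g X) - lam • nu B g X := by
  refine ⟨?_, ?_, ?_⟩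
  · rw [c2_TT_one h.one, h.pt.Nx]
    have e1 : ∀ (y : ι → L), ∑ i, B (J i (nu B g X)) X • y i = 0 := by
      intro y
      refine Finset.sum_eq_zero fun i _ => ?_
      rw [c2_jn_X h.hH h.pt i, zero_smul]
    rw [e1, e1, smul_zero]
    abel
  · intro k
    rw [c2_TT_one h.one, h.pt.Njx]
    have e1 : ∀ (y : ι → L), ∑ i, B (J i (nu B g X)) (J k X) • y i = 0 := by
      intro y
      refine Finset.sum_eq_zero fun i _ => ?_
      rw [c2_jn_JX h.hH h.pt i k, zero_smul]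
    rw [e1, e1, smul_zero]
    abel
  · rw [c2_TT_one h.one]
    have e1 : ∀ (y : ι → L), ∑ i, B (J i (nu B g X)) (nu B g X) • y i = 0 := by
      intro y
      refine Finset.sum_eq_zero fun i _ => ?_
      rw [h.hH.self0, zero_smul]
    rw [e1, e1, smul_zero]
    abel

end Pool.Agent.Helper77.JH
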