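import Pool.Agent.Helper77.JH.C2

/-! # JH: the derivative of T -/

set_option autoImplicit false
set_option linter.unusedSectionVars false
set_option linter.unusedVariables false

namespace Pool.Agent.Helper77.JH

open Pool.Agent.Helper77.JE (Hf Pt Gd rr nu NN tt xs SS)

variable {L : Type*} [NormedAddCommGroup L] [NormedSpace ℝ L]
variable {ι : Type*} [Fintype ι] [DecidableEq ι] {κ : Type*} [Fintype κ] [DecidableEq κ]
variable {B : L →L[ℝ] L →L[ℝ] ℝ} {J : ι → L →L[ℝ] L} {c : ι → ι → ι → ℝ} {lam M : ℝ} {g : L → L}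
variable {U : Set L} {Gp : L →L[ℝ] L} {X : L} {e : κ ⊕ ι → L}

private theorem c3_sq (h1 : B X X = -1) : ∃ s' : L →L[ℝ] ℝ, HasFDerivAt (fun Y => √(tt B Y)) s' X ∧
    ∀ u, s' u = (1 / 2) * -(B X u + B u X) := by
  have ht : HasFDerivAt (fun Y => tt B Y) (-(B X + B.flip X)) X := by
    have h := B.hasFDerivAt_of_bilinear (hasFDerivAt_id X) (hasFDerivAt_id X)
    refine (h.neg).congr_fderiv ?_
    ext u
    simp
  have h2 := ht.sqrt (by rw [(xs_one (g := fun _ => 0) h1).2.2]; norm_num)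
  refine ⟨_, h2, fun u => ?_⟩
  rw [(xs_one (g := fun _ => 0) h1).2.2]
  simp
  ring

private theorem c3_inv (h1 : B X X = -1) : ∃ s' : L →L[ℝ] ℝ,
    HasFDerivAt (fun Y => (√(tt B Y))⁻¹) s' X ∧ ∀ u, B X u + B u X = 0 → s' u = 0 := by
  obtain ⟨s', hs, hs'⟩ := c3_sq h1
  have h3 := (hasDerivAt_inv (x := √(tt B X)) (by
    rw [(xs_one (g := fun _ => 0) h1).2.2]; norm_num)).comp_hasFDerivAt X hs
  refine ⟨_, h3, fun u hu => ?_⟩
  show _ * s' u = 0
  rw [hs' u, hu]
  ring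

private theorem c3_xs (h1 : B X X = -1) : ∃ s' : L →L[ℝ] L, HasFDerivAt (xs B) s' X ∧
    ∀ u, B X u + B u X = 0 → s' u = u := by
  obtain ⟨s', hs, hs'⟩ := c3_inv h1
  refine ⟨_, hs.smul (hasFDerivAt_id X), fun u hu => ?_⟩
  rw [(xs_one (g := fun _ => 0) h1).2.2]
  simp [hs' u hu]

private theorem c3_hz (h : Pnt B J c lam g U Gp X e) {u : L} (hu : HzQ B J X (nu B g X) u) :
    B X u + B u X = 0 := by
  rw [h.hH.symm X u, hu.1, add_zero]

/-- piece `JH-C3` (a): derivatives at the normalised point in a horizontal direction (`tt = 1 - s² ..`; compare `Gd.DVV_hz` in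
Helper77/JE/Cal.lean) -/
theorem Pnt.d_xs (h : Pnt B J c lam g U Gp X e) {u : L} (hu : HzQ B J X (nu B g X) u) :
    DifferentiableAt ℝ (xs B) X ∧ fderiv ℝ (xs B) X u = u := by
  obtain ⟨s', hs, hs'⟩ := c3_xs h.one
  refine ⟨hs.differentiableAt, ?_⟩
  rw [hs.fderiv]
  exact hs' u (c3_hz h hu)

theorem Pnt.d_nu (h : Pnt B J c lam g U Gp X e) [Nonempty ι] : HasFDerivAt (nu B g) (NN B g X) X := by
  obtain ⟨i⟩ := ‹Nonempty ι›
  have hG := h.hG i
  exact ((hG.nu_c2.differentiableOn (by norm_num)).differentiableAt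
    (hG.isOpen.mem_nhds h.mem)).hasFDerivAt

private theorem c3_NN (h : Pnt B J c lam g U Gp X e) [Nonempty ι] :
    HasFDerivAt (NN B g) (fderiv ℝ (NN B g) X) X := by
  obtain ⟨i⟩ := ‹Nonempty ι›
  have hG := h.hG i
  exact ((hG.NN_c1.differentiableOn (by norm_num)).differentiableAt
    (hG.isOpen.mem_nhds h.mem)).hasFDerivAt

private theorem c3_sr {f : L → L →L[ℝ] ℝ} {k : L → L} {f' : L →L[ℝ] L →L[ℝ] ℝ} {k' : L →L[ℝ] L}
    (hf : HasFDerivAt f f' X) (hk : HasFDerivAt k k' X) :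
    ∃ s' : L →L[ℝ] L →L[ℝ] L, HasFDerivAt (fun Y => (f Y).smulRight (k Y)) s' X ∧
      ∀ u v, s' u v = f' u v • k X + f X v • k' u := by
  have h1 := (ContinuousLinearMap.smulRightL ℝ L L).hasFDerivAt_of_bilinear hf hk
  refine ⟨_, h1, fun u v => ?_⟩
  simp [add_comm]

theorem Pnt.d_SS (h : Pnt B J c lam g U Gp X e) [Nonempty ι] {u : L} (hu : HzQ B J X (nu B g X) u) :
    DifferentiableAt ℝ (SS B g) X ∧ fderiv ℝ (SS B g) X u = fderiv ℝ (NN B g) X u := by
  obtain ⟨s', hs, hs'⟩ := c3_sq h.one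
  have h1 : HasFDerivAt (SS B g) _ X := hs.smul (c3_NN h)
  refine ⟨h1.differentiableAt, ?_⟩
  rw [h1.fderiv, (xs_one (g := g) h.one).2.2]
  have h2 : s' u = 0 := by rw [hs' u, c3_hz h hu]; ring
  simp [h2]

/-- (b): expand `TT` -/
theorem Pnt.d_TT (h : Pnt B J c lam g U Gp X e) [Nonempty ι] {u : L} (hu : HzQ B J X (nu B g X) u) :
    DifferentiableAt ℝ (TT B J lam g) X ∧ ∀ v, fderiv ℝ (TT B J lam g) X u v =
      fderiv ℝ (NN B g) X u v + ∑ i, (B (J i (NN B g X u)) v • J i X + B (J i (nu B g X)) v • J i u) -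
      lam⁻¹ • ∑ i, (B (J i (NN B g X u)) v • J i (nu B g X) +
        B (J i (nu B g X)) v • J i (NN B g X u)) := by
  have hn := h.d_nu
  have hx := (h.d_xs hu).1.hasFDerivAt
  have hS := (h.d_SS hu).1.hasFDerivAt
  have hf : ∀ i, HasFDerivAt (fun Y => B (J i (nu B g Y))) (B.comp ((J i).comp (NN B g X))) X :=
    fun i => B.hasFDerivAt.comp X ((J i).hasFDerivAt.comp X hn)
  have hk1 : ∀ i, HasFDerivAt (fun Y => J i (xs B Y)) ((J i).comp (fderiv ℝ (xs B) X)) X :=
    fun i => (J i).hasFDerivAt.comp X hx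
  have hk2 : ∀ i, HasFDerivAt (fun Y => J i (nu B g Y)) ((J i).comp (NN B g X)) X :=
    fun i => (J i).hasFDerivAt.comp X hn
  choose s1 hs1 hs1' using fun i => c3_sr (hf i) (hk1 i)
  choose s2 hs2 hs2' using fun i => c3_sr (hf i) (hk2 i)
  have hT : HasFDerivAt (TT B J lam g) (fderiv ℝ (SS B g) X + ∑ i, s1 i - 0 - lam⁻¹ • ∑ i, s2 i) X := by
    have a1 : HasFDerivAt (fun Y => ∑ i, (B (J i (nu B g Y))).smulRight (J i (xs B Y)))
        (∑ i, s1 i) X := HasFDerivAt.fun_sum fun i _ => hs1 i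
    have a2 : HasFDerivAt (fun Y => ∑ i, (B (J i (nu B g Y))).smulRight (J i (nu B g Y)))
        (∑ i, s2 i) X := HasFDerivAt.fun_sum fun i _ => hs2 i
    exact ((hS.add a1).sub (hasFDerivAt_const _ X)).sub (a2.const_smul lam⁻¹)
  refine ⟨hT.differentiableAt, fun v => ?_⟩
  rw [hT.fderiv]
  have e1 : ∀ (s : ι → L →L[ℝ] L →L[ℝ] L), (∑ i, s i) u v = ∑ i, s i u v := by
    intro s
    simp
  rw [sub_zero]
  show fderiv ℝ (SS B g) X u v + (∑ i, s1 i) u v - lam⁻¹ • (∑ i, s2 i) u v = _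
  rw [e1, e1, (h.d_SS hu).2]
  simp only [hs1', hs2', ContinuousLinearMap.comp_apply, (h.d_xs hu).2, (xs_one (g := g) h.one).1]

/-- (c): `J_i (N u)` tested with a horizontal tangential vector (`N_eq`) -/
theorem Pnt.jN (h : Pnt B J c lam g U Gp X e) (i : ι) (u : L) {v : L} (hv : HzQ B J X (nu B g X) v) :
    B (J i (NN B g X u)) v = B (J i (TT B J lam g X u)) v + lam * B (J i u) v +
      lam⁻¹ * ∑ j, ∑ k, c i j k * (B (J j (nu B g X)) u * B (J k (nu B g X)) v) := by
  have hXv : B X v = 0 := by rw [h.hH.symm]; exact hv.1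
  have hnv : B (nu B g X) v = 0 := by rw [h.hH.symm]; exact hv.2.2
  have hJv : ∀ k, B (J k X) v = 0 := fun k => by rw [h.hH.symm]; exact hv.2.1 k
  have e1 : ∀ j, B (J i (J j (nu B g X))) v = ∑ k, c i j k * B (J k (nu B g X)) v := by
    intro j
    rw [h.hH.mul i j]
    split_ifs <;> simp [hnv]
  have e2 : ∀ j, B (J i (J j X)) v = 0 := by
    intro j
    rw [h.hH.mul i j]
    split_ifs <;> simp [hXv, hJv]
  rw [h.N_eq u]
  simp only [map_add, map_sub, map_smul, map_sum, _root_.add_apply,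
    _root_.sub_apply, _root_.smul_apply, _root_.sum_apply,
    smul_eq_mul, e1, e2, mul_zero, Finset.sum_const_zero, sub_zero, Finset.mul_sum]
  congr 1
  refine Finset.sum_congr rfl fun j _ => Finset.sum_congr rfl fun k _ => ?_
  ring

/-- (d): the main formula: `⟪(D_u T) v, w⟫ = C(u, v, w) - lam⁻¹ ∑ (⟪J_i T u, v⟫ ⟪ξ_i, w⟫ + ⟪ξ_i, v⟫ ⟪J_i T u, w⟫)` with
`C(u, v, w) = B (N2 u v) w - B (N u) v B (N ν) w`; `d_TT`, `jN` (the terms with `lam⁻¹ * lam` cancel, the terms with `c` are zero by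
antisymmetry in `i, k`); `u = Fe e u'` etc. -/
theorem Pnt.dt_apply (h : Pnt B J c lam g U Gp X e) [Nonempty ι] (u v w : EuclideanSpace ℝ (κ ⊕ ι)) :
    inner ℝ (dtH B J lam g X e u v) w =
      (B (fderiv ℝ (NN B g) X (Fe e u) (Fe e v)) (Fe e w) -
        B (NN B g X (Fe e u)) (Fe e v) * B (NN B g X (nu B g X)) (Fe e w)) -
      lam⁻¹ * ∑ i, (B (J i (TT B J lam g X (Fe e u))) (Fe e v) * B (J i (nu B g X)) (Fe e w) +
        B (J i (nu B g X)) (Fe e v) * B (J i (TT B J lam g X (Fe e u))) (Fe e w)) := by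
  have hu := h.fr.fe_hz u
  have hv := h.fr.fe_hz v
  have hw := h.fr.fe_hz w
  set a := Fe e u with ha
  set b := Fe e v with hb
  set d := Fe e w with hd
  have hJd : ∀ k, B (J k X) d = 0 := fun k => by rw [h.hH.symm]; exact hw.2.1 k
  have e0 : inner ℝ (dtH B J lam g X e u v) w = B (fderiv ℝ (TT B J lam g) X a b) d -
      B b (NN B g X a) * B (NN B g X (nu B g X)) d + ∑ i, B b (J i a) * B (J i (nu B g X)) d := by
    rw [dtH, LinearMap.mk₂_apply, ← ha, ← hb, inner_add_left, inner_sub_left, sum_inner,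
      inner_fs, real_inner_smul_left, inner_fs, ← hd]
    congr 1
    refine Finset.sum_congr rfl fun i _ => ?_
    rw [real_inner_smul_left, inner_fs, ← hd]
    rfl
  rw [e0, (h.d_TT hu).2 b]
  have l0 : lam⁻¹ * lam = 1 := inv_mul_cancel₀ h.lam0
  have e1 : B (fderiv ℝ (NN B g) X a b + ∑ i, (B (J i (NN B g X a)) b • J i X +
      B (J i (nu B g X)) b • J i a) - lam⁻¹ • ∑ i, (B (J i (NN B g X a)) b • J i (nu B g X) +
        B (J i (nu B g X)) b • J i (NN B g X a))) d = B (fderiv ℝ (NN B g) X a b) d +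
      ∑ i, B (J i (nu B g X)) b * B (J i a) d - lam⁻¹ * ∑ i, (B (J i (NN B g X a)) b *
        B (J i (nu B g X)) d + B (J i (nu B g X)) b * B (J i (NN B g X a)) d) := by
    simp only [map_add, map_sub, map_smul, map_sum, _root_.add_apply,
      _root_.sub_apply, _root_.smul_apply, _root_.sum_apply,
      smul_eq_mul, hJd, mul_zero, zero_add]
  rw [e1]
  have e2 : ∀ i, B (J i (NN B g X a)) b * B (J i (nu B g X)) d +
      B (J i (nu B g X)) b * B (J i (NN B g X a)) d =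
      (B (J i (TT B J lam g X a)) b * B (J i (nu B g X)) d +
        B (J i (nu B g X)) b * B (J i (TT B J lam g X a)) d) +
      lam * (B (J i a) b * B (J i (nu B g X)) d + B (J i (nu B g X)) b * B (J i a) d) +
      lam⁻¹ * ∑ j, ∑ k, c i j k * (B (J j (nu B g X)) a * (B (J k (nu B g X)) b * B (J i (nu B g X)) d +
        B (J i (nu B g X)) b * B (J k (nu B g X)) d)) := by
    intro i
    rw [h.jN i a hv, h.jN i a hw]
    have e3 : ∑ j, ∑ k, c i j k * (B (J j (nu B g X)) a * (B (J k (nu B g X)) b *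
        B (J i (nu B g X)) d + B (J i (nu B g X)) b * B (J k (nu B g X)) d)) =
        (∑ j, ∑ k, c i j k * (B (J j (nu B g X)) a * B (J k (nu B g X)) b)) * B (J i (nu B g X)) d +
        B (J i (nu B g X)) b * ∑ j, ∑ k, c i j k * (B (J j (nu B g X)) a * B (J k (nu B g X)) d) := by
      simp only [Finset.sum_mul, Finset.mul_sum, ← Finset.sum_add_distrib]
      refine Finset.sum_congr rfl fun j _ => Finset.sum_congr rfl fun k _ => ?_
      ring
    rw [e3]
    ring
  have e4 : ∑ i, ∑ j, ∑ k, c i j k * (B (J j (nu B g X)) a * (B (J k (nu B g X)) b *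
      B (J i (nu B g X)) d + B (J i (nu B g X)) b * B (J k (nu B g X)) d)) = 0 := by
    have e5 : ∑ i, ∑ j, ∑ k, c i j k * (B (J j (nu B g X)) a * (B (J k (nu B g X)) b *
        B (J i (nu B g X)) d + B (J i (nu B g X)) b * B (J k (nu B g X)) d)) =
        -∑ i, ∑ j, ∑ k, c i j k * (B (J j (nu B g X)) a * (B (J k (nu B g X)) b *
        B (J i (nu B g X)) d + B (J i (nu B g X)) b * B (J k (nu B g X)) d)) := by
      conv_lhs => rw [Finset.sum_comm]
      conv_rhs => rw [Finset.sum_comm]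
      rw [← Finset.sum_neg_distrib]
      refine Finset.sum_congr rfl fun j _ => ?_
      conv_lhs => rw [Finset.sum_comm]
      rw [← Finset.sum_neg_distrib]
      refine Finset.sum_congr rfl fun k _ => ?_
      rw [← Finset.sum_neg_distrib]
      refine Finset.sum_congr rfl fun i _ => ?_
      have hc : c i j k = - c k j i := by
        rw [h.hH.as1 i j k, h.hH.as2 j i k, h.hH.as1 j k i]
        ring
      rw [hc]
      ring
    linarith
  have e6 : ∑ i, (B (J i (NN B g X a)) b * B (J i (nu B g X)) d +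
      B (J i (nu B g X)) b * B (J i (NN B g X a)) d) =
      ∑ i, (B (J i (TT B J lam g X a)) b * B (J i (nu B g X)) d +
        B (J i (nu B g X)) b * B (J i (TT B J lam g X a)) d) +
      lam * ∑ i, (B (J i a) b * B (J i (nu B g X)) d + B (J i (nu B g X)) b * B (J i a) d) := by
    rw [Finset.sum_congr rfl fun i _ => e2 i, Finset.sum_add_distrib, Finset.sum_add_distrib,
      ← Finset.mul_sum, ← Finset.mul_sum, e4]
    ring
  rw [e6]
  have e7 : ∑ i, B b (J i a) * B (J i (nu B g X)) d = ∑ i, B (J i a) b * B (J i (nu B g X)) d :=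
    Finset.sum_congr rfl fun i _ => by rw [h.hH.symm b]
  rw [e7, h.hH.symm b, Finset.sum_add_distrib (f := fun i => B (J i a) b * B (J i (nu B g X)) d)]
  linear_combination (-(∑ i, B (J i a) b * B (J i (nu B g X)) d +
    ∑ i, B (J i (nu B g X)) b * B (J i a) d)) * l0

end Pool.Agent.Helper77.JH
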