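import Pool.Agent.Helper77.JH.C2

/-! # JH: the rules, first part -/

set_option autoImplicit false
set_option linter.unusedSectionVars false
set_option linter.unusedVariables false

namespace Pool.Agent.Helper77.JH

open Pool.Agent.Helper77.JE (Hf Pt Gd rr nu NN tt xs SS)

variable {L : Type*} [NormedAddCommGroup L] [NormedSpace ℝ L]
variable {ι : Type*} [Fintype ι] [DecidableEq ι] {κ : Type*} [Fintype κ] [DecidableEq κ]
variable {B : L →L[ℝ] L →L[ℝ] ℝ} {J : ι → L →L[ℝ] L} {c : ι → ι → ι → ℝ} {lam M : ℝ} {g : L → L}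
variable {U : Set L} {Gp : L →L[ℝ] L} {X : L} {e : κ ⊕ ι → L}

private theorem c4_inner (Y : L →L[ℝ] L) (u v : EuclideanSpace ℝ (κ ⊕ ι)) :
    inner ℝ (opH B e Y u) v = B (Y (Fe e u)) (Fe e v) := by
  rw [opH_apply, inner_fs]

private theorem c4_inner' (Y : L →L[ℝ] L) (u v : EuclideanSpace ℝ (κ ⊕ ι)) :
    inner ℝ u (opH B e Y v) = B (Y (Fe e v)) (Fe e u) := by
  rw [real_inner_comm, c4_inner]

private theorem c4_fs_neg (y : L) : Fs B e (-y) = - Fs B e y := by
  have h := fs_smul (B := B) (e := e) (-1) y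
  rwa [neg_one_smul, neg_one_smul] at h

private theorem c4_fs_sum {β : Type*} (s : Finset β) (f : β → L) :
    Fs B e (∑ i ∈ s, f i) = ∑ i ∈ s, Fs B e (f i) :=
  map_sum (FsL B e) f s

/-- piece `JH-C4`: the rules which do not contain the derivative of `T` -/
theorem Pnt.symT (h : Pnt B J c lam g U Gp X e) [Nonempty ι] (u v : EuclideanSpace ℝ (κ ⊕ ι)) :
    inner ℝ (opH B e (TT B J lam g X) u) v = inner ℝ u (opH B e (TT B J lam g X) v) := by
  rw [c4_inner, c4_inner']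
  exact TT_symm h.hG h.hH lam h.mem (h.fr.fe_hz u) (h.fr.fe_hz v)

/-- `tr1`, `N_eq`, `∑ B ξ_i (e_j)² = 1` -/
theorem Pnt.trT (h : Pnt B J c lam g U Gp X e) [Nonempty ι] :
    LinearMap.trace ℝ (EuclideanSpace ℝ (κ ⊕ ι)) (opH B e (TT B J lam g X)) = 0 := by
  rw [tr_opH]
  have h1 := h.tr1
  have hx : ∀ (j : ι) (i : κ ⊕ ι), B (J j (nu B g X)) (e i) = if Sum.inr j = i then 1 else 0 := by
    intro j i
    rw [← h.fr.xi j]
    exact h.fr.on _ _
  have hX : ∀ (j : ι) (i : κ ⊕ ι), B (J j X) (e i) = 0 := by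
    intro j i
    rw [h.hH.symm]
    exact (h.fr.hz i).2.1 j
  have h2 : ∀ i, B (NN B g X (e i)) (e i) = B (TT B J lam g X (e i)) (e i) + lam +
      lam⁻¹ * ∑ j, (if Sum.inr j = i then (1 : ℝ) else 0) := by
    intro i
    rw [h.N_eq (e i)]
    simp only [map_sub, map_add, map_smul, map_sum, ContinuousLinearMap.sub_apply,
      ContinuousLinearMap.add_apply, ContinuousLinearMap.smul_apply, smul_eq_mul,
      ContinuousLinearMap.sum_apply, hx, hX, mul_zero, Finset.sum_const_zero, sub_zero]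
    rw [h.fr.on i i, if_pos rfl, mul_one]
    congr 2
    refine Finset.sum_congr rfl fun j _ => ?_
    split_ifs <;> simp
  rw [Finset.sum_congr rfl fun i _ => h2 i, Finset.sum_add_distrib, Finset.sum_add_distrib,
    ← Finset.mul_sum, Finset.sum_comm] at h1
  have h3 : ∀ j : ι, ∑ i : κ ⊕ ι, (if Sum.inr j = i then (1 : ℝ) else 0) = 1 := by
    intro j
    rw [Finset.sum_ite_eq]
    simp
  rw [Finset.sum_congr rfl fun j _ => h3 j, Finset.sum_const, Finset.sum_const, Finset.card_univ,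
    Finset.card_univ, Fintype.card_sum, nsmul_eq_mul, nsmul_eq_mul] at h1
  push_cast at h1
  linarith

theorem Pnt.skewH (h : Pnt B J c lam g U Gp X e) (i : ι) (u v : EuclideanSpace ℝ (κ ⊕ ι)) :
    inner ℝ (opH B e (J i) u) v = - inner ℝ u (opH B e (J i) v) := by
  rw [c4_inner, c4_inner', h.hH.skew, h.hH.symm]

theorem Pnt.onH (h : Pnt B J c lam g U Gp X e) [Nonempty ι] (i j : ι) :
    inner ℝ (Fs B e (xi B J g i X)) (Fs B e (xi B J g j X)) = if i = j then (1 : ℝ) else 0 := by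
  rw [(h.fr.inner_fs_fs h.hH (xi_hz h.hG h.hH h.mem j) (xi B J g i X)).1]
  have h1 := h.hH.jj i j (nu B g X)
  rw [h.pt.nn] at h1
  exact h1

theorem Pnt.phxH (h : Pnt B J c lam g U Gp X e) [Nonempty ι] (i j : ι) :
    opH B e (J i) (Fs B e (xi B J g j X)) = ∑ k, c i j k • Fs B e (xi B J g k X) := by
  rw [opH_apply, h.fr.fe_fs (xi_hz h.hG h.hH h.mem j)]
  show Fs B e (J i (J j (nu B g X))) = _
  rw [h.hH.mul, fs_add, c4_fs_sum]
  have h0 : Fs B e (nu B g X) = 0 := (h.fr.fs_zero h.hH).2.2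
  have h1 : Fs B e (if i = j then -nu B g X else 0) = 0 := by
    split_ifs
    · rw [c4_fs_neg, h0, neg_zero]
    · exact (FsL B e).map_zero
  rw [h1, zero_add]
  exact Finset.sum_congr rfl fun k _ => fs_smul _ _

/-- `decomp` of `J_j v` -/
theorem Pnt.ppH (h : Pnt B J c lam g U Gp X e) [Nonempty ι] (i j : ι) (v : EuclideanSpace ℝ (κ ⊕ ι)) :
    opH B e (J i) (opH B e (J j) v) = (if i = j then -v else 0) + ∑ k, c i j k • opH B e (J k) v +
      inner ℝ (Fs B e (xi B J g j X)) v • Fs B e (xi B J g i X) := by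
  have hz := HzQ.jX h.hH (h.fr.fe_hz v) j
  have hd := h.fr.decomp (J j (Fe e v))
  rw [hz.1, hz.2.2, Finset.sum_congr rfl fun k _ => by rw [hz.2.1 k]] at hd
  simp only [zero_smul, neg_zero, Finset.sum_const_zero, sub_zero, zero_add, neg_smul] at hd
  have h1 : Fe e (Fs B e (J j (Fe e v))) =
      J j (Fe e v) + B (Fe e v) (J j (nu B g X)) • nu B g X := by
    rw [add_comm]
    exact (eq_neg_add_iff_add_eq.mp hd).symm
  rw [opH_apply (J i), opH_apply (J j), h1, map_add, map_smul, h.hH.mul, fs_add, fs_add, fs_smul,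
    c4_fs_sum, inner_fs, h.hH.symm (xi B J g j X)]
  have h2 : Fs B e (if i = j then -Fe e v else 0) = if i = j then -v else 0 := by
    split_ifs
    · rw [c4_fs_neg, h.fr.fs_fe]
    · exact (FsL B e).map_zero
  rw [h2]
  congr 2
  refine Finset.sum_congr rfl fun k _ => ?_
  rw [fs_smul, opH_apply]

theorem Pnt.symG (h : Pnt B J c lam g U Gp X e) (u v : EuclideanSpace ℝ (κ ⊕ ι)) :
    inner ℝ (opH B e Gp u) v = inner ℝ u (opH B e Gp v) := by
  rw [c4_inner, c4_inner']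
  exact h.gs.sym _ _

theorem Pnt.WxH (h : Pnt B J c lam g U Gp X e) [Nonempty ι] (i : ι) :
    inner ℝ (Fs B e (xi B J g i X)) (Fs B e (WW B J lam g Gp X)) =
      lam * (lam⁻¹ * B (WW B J lam g Gp X) (xi B J g i X)) := by
  rw [(h.fr.inner_fs_fs h.hH (WW_hz h.hG h.hH lam h.gs h.mem) (xi B J g i X)).1, ← mul_assoc,
    mul_inv_cancel₀ h.lam0, one_mul, h.hH.symm]

/-- `B (Gp ν) (J_i ν) = 0` -/
theorem Pnt.UxH (h : Pnt B J c lam g U Gp X e) [Nonempty ι] (i : ι) :
    inner ℝ (Fs B e (xi B J g i X)) (Fs B e (Gp (nu B g X))) = 0 := by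
  rw [(h.fr.inner_fs_fs h.hH (xi_hz h.hG h.hH h.mem i) (Gp (nu B g X))).2]
  show B (Gp (nu B g X)) (J i (nu B g X)) = 0
  have h1 := h.gs.sym (nu B g X) (J i (nu B g X))
  rw [h.gs.comm, h.hH.skew] at h1
  linarith

end Pool.Agent.Helper77.JH
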