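import Pool.Agent.Helper77.JH.C3
import Pool.Agent.Helper77.JH.C4

/-! # JH: the rules -/

set_option autoImplicit false
set_option linter.unusedSectionVars false
set_option linter.unusedVariables false

namespace Pool.Agent.Helper77.JH

open Pool.Agent.Helper77.JE (Hf Pt Gd rr nu NN tt xs SS)

variable {L : Type*} [NormedAddCommGroup L] [NormedSpace ℝ L]
variable {ι : Type*} [Fintype ι] [DecidableEq ι] {κ : Type*} [Fintype κ] [DecidableEq κ]
variable {B : L →L[ℝ] L →L[ℝ] ℝ} {J : ι → L →L[ℝ] L} {c : ι → ι → ι → ℝ} {lam M : ℝ} {g : L → L}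
variable {U : Set L} {Gp : L →L[ℝ] L} {X : L} {e : κ ⊕ ι → L}

private theorem c5_inner (Y : L →L[ℝ] L) (u v : EuclideanSpace ℝ (κ ⊕ ι)) :
    inner ℝ (opH B e Y u) v = B (Y (Fe e u)) (Fe e v) := by
  rw [opH_apply, inner_fs]

private theorem c5_fe (h : Pnt B J c lam g U Gp X e) [Nonempty ι] (u : EuclideanSpace ℝ (κ ⊕ ι)) :
    Fe e (opH B e (TT B J lam g X) u) = TT B J lam g X (Fe e u) := by
  rw [opH_apply]
  exact h.fr.fe_fs (TT_hz h.hG h.hH lam h.mem (h.fr.fe_hz u))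

/-- piece `JH-C5` (a): `N2_cc` (Helper77/JE/Cal.lean) -/
theorem Pnt.symD (h : Pnt B J c lam g U Gp X e) [Nonempty ι] (u v w : EuclideanSpace ℝ (κ ⊕ ι)) :
    inner ℝ (dtH B J lam g X e u v) w = inner ℝ v (dtH B J lam g X e u w) := by
  obtain ⟨i0⟩ := ‹Nonempty ι›
  have : Nonempty ι := ⟨i0⟩
  rw [real_inner_comm (dtH B J lam g X e u w) v, h.dt_apply u v w, h.dt_apply u w v,
    (h.hG i0).N2_cc (h.hH.hf i0) h.mem (h.fr.fe_hz v).2.2 (h.fr.fe_hz w).2.2]
  congr 2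
  refine Finset.sum_congr rfl fun i _ => ?_
  ring

/-- (b): `dt_apply`, `tr2`, and `∑_j ⟪J_i T u, e_j⟫ ⟪ξ_i, e_j⟫ = ⟪J_i T u, ξ_i⟫ = 0` -/
theorem Pnt.trD (h : Pnt B J c lam g U Gp X e) [Nonempty ι] (u : EuclideanSpace ℝ (κ ⊕ ι)) :
    LinearMap.trace ℝ (EuclideanSpace ℝ (κ ⊕ ι)) (dtH B J lam g X e u) = 0 := by
  rw [LinearMap.trace_eq_sum_inner _ (EuclideanSpace.basisFun (κ ⊕ ι) ℝ)]
  have h1 : ∀ i, Fe e (EuclideanSpace.basisFun (κ ⊕ ι) ℝ i) = e i := by
    intro i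
    unfold Fe
    rw [Finset.sum_eq_single i]
    · simp
    · intro j _ hj
      simp [hj]
    · intro h
      exact absurd (Finset.mem_univ i) h
  have h2 : ∀ j, inner ℝ (EuclideanSpace.basisFun (κ ⊕ ι) ℝ j)
      (dtH B J lam g X e u (EuclideanSpace.basisFun (κ ⊕ ι) ℝ j)) =
      (B (fderiv ℝ (NN B g) X (Fe e u) (e j)) (e j) -
        B (NN B g X (Fe e u)) (e j) * B (NN B g X (nu B g X)) (e j)) -
      lam⁻¹ * (2 * ∑ i, B (J i (TT B J lam g X (Fe e u))) (e j) * B (J i (nu B g X)) (e j)) := by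
    intro j
    have h0 : ∑ i, (B (J i (TT B J lam g X (Fe e u))) (e j) * B (J i (nu B g X)) (e j) +
        B (J i (nu B g X)) (e j) * B (J i (TT B J lam g X (Fe e u))) (e j)) =
        2 * ∑ i, B (J i (TT B J lam g X (Fe e u))) (e j) * B (J i (nu B g X)) (e j) := by
      rw [Finset.mul_sum]
      refine Finset.sum_congr rfl fun i _ => ?_
      ring
    rw [real_inner_comm, h.dt_apply, h1 j, h0]
  rw [Finset.sum_congr rfl (fun (j : κ ⊕ ι) _ => h2 j), Finset.sum_sub_distrib, h.tr2 _ (h.fr.fe_hz u),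
    ← Finset.mul_sum, ← Finset.mul_sum, Finset.sum_comm]
  have h3 : ∀ i : ι, ∑ j : κ ⊕ ι, B (J i (TT B J lam g X (Fe e u))) (e j) * B (J i (nu B g X)) (e j) = 0 := by
    intro i
    have h4 : ∀ j : κ ⊕ ι, B (J i (TT B J lam g X (Fe e u))) (e j) * B (J i (nu B g X)) (e j) =
        if j = Sum.inr i then B (J i (TT B J lam g X (Fe e u))) (e j) else 0 := by
      intro j
      rw [← h.fr.xi i, h.fr.on]
      by_cases hj : j = Sum.inr i
      · rw [if_pos hj.symm, if_pos hj, mul_one]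
      · rw [if_neg (fun h' => hj h'.symm), if_neg hj, mul_zero]
    rw [Finset.sum_congr rfl (fun (j : κ ⊕ ι) _ => h4 j), Finset.sum_ite_eq', if_pos (Finset.mem_univ _),
      h.fr.xi i, h.hH.inv]
    exact (TT_hz h.hG h.hH lam h.mem (h.fr.fe_hz u)).2.2
  rw [Finset.sum_eq_zero (fun (i : ι) _ => h3 i)]
  ring

/-- (c): `dt_apply`, `N2_symm`, `pt.sy`: `C(u, v, w) = C(v, u, w)`; test with `w` -/
theorem Pnt.cod (h : Pnt B J c lam g U Gp X e) [Nonempty ι] (u v : EuclideanSpace ℝ (κ ⊕ ι)) :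
    dtH B J lam g X e u v - dtH B J lam g X e v u = -lam⁻¹ • ∑ i,
      (inner ℝ (Fs B e (xi B J g i X)) v • opH B e (J i) (opH B e (TT B J lam g X) u) +
      inner ℝ (opH B e (J i) (opH B e (TT B J lam g X) u)) v • Fs B e (xi B J g i X) -
      inner ℝ (Fs B e (xi B J g i X)) u • opH B e (J i) (opH B e (TT B J lam g X) v) -
      inner ℝ (opH B e (J i) (opH B e (TT B J lam g X) v)) u • Fs B e (xi B J g i X)) := by
  obtain ⟨i0⟩ := ‹Nonempty ι›
  have : Nonempty ι := ⟨i0⟩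
  refine ext_inner_right ℝ fun w => ?_
  have hu := h.fr.fe_hz u
  have hv := h.fr.fe_hz v
  rw [inner_sub_left, h.dt_apply u v w, h.dt_apply v u w, (h.hG i0).N2_symm h.mem (Fe e u) (Fe e v),
    h.pt.sy (Fe e u) (Fe e v) (by rw [h.hH.symm]; exact hu.2.2) (by rw [h.hH.symm]; exact hv.2.2),
    real_inner_smul_left, sum_inner]
  simp only [inner_sub_left, inner_add_left, real_inner_smul_left, inner_fs, c5_inner, c5_fe h, xi]
  have e1 : ∀ i, B (J i (nu B g X)) (Fe e v) * B (J i (TT B J lam g X (Fe e u))) (Fe e w) +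
      B (J i (TT B J lam g X (Fe e u))) (Fe e v) * B (J i (nu B g X)) (Fe e w) -
      B (J i (nu B g X)) (Fe e u) * B (J i (TT B J lam g X (Fe e v))) (Fe e w) -
      B (J i (TT B J lam g X (Fe e v))) (Fe e u) * B (J i (nu B g X)) (Fe e w) =
      (B (J i (TT B J lam g X (Fe e u))) (Fe e v) * B (J i (nu B g X)) (Fe e w) +
        B (J i (nu B g X)) (Fe e v) * B (J i (TT B J lam g X (Fe e u))) (Fe e w)) -
      (B (J i (TT B J lam g X (Fe e v))) (Fe e u) * B (J i (nu B g X)) (Fe e w) +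
        B (J i (nu B g X)) (Fe e u) * B (J i (TT B J lam g X (Fe e v))) (Fe e w)) := by
    intro i
    ring
  rw [Finset.sum_congr rfl fun i _ => e1 i, Finset.sum_sub_distrib]
  ring

/-- (d): everything together -/
theorem Pnt.rul (h : Pnt B J c lam g U Gp X e) [Nonempty ι] : Rul (dat B J c lam g Gp X e) where
  lam0 := h.lam0
  as1 := h.hH.as1
  as2 := h.hH.as2
  sq := h.hH.sq
  symT := h.symT
  trT := h.trT
  symD := h.symD
  trD := h.trD
  cod := h.cod
  skew := h.skewH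
  on := h.onH
  phx := h.phxH
  pp := h.ppH
  symG := h.symG
  Wx := h.WxH
  Ux := h.UxH

end Pool.Agent.Helper77.JH
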