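import Pool.Agent.Helper77.JH.C2

/-! # JH: jets: sums and products -/

set_option autoImplicit false
set_option linter.unusedSectionVars false
set_option linter.unusedVariables false

namespace Pool.Agent.Helper77.JH

open Pool.Agent.Helper77.JE (Hf Pt Gd rr nu NN tt xs SS)

variable {L : Type*} [NormedAddCommGroup L] [NormedSpace ℝ L]
variable {ι : Type*} [Fintype ι] [DecidableEq ι] {κ : Type*} [Fintype κ] [DecidableEq κ]
variable {B : L →L[ℝ] L →L[ℝ] ℝ} {J : ι → L →L[ℝ] L} {c : ι → ι → ι → ℝ} {lam M : ℝ} {g : L → L}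
variable {U : Set L} {Gp : L →L[ℝ] L} {X : L} {e : κ ⊕ ι → L}

/-- piece `JH-C6`: closure properties (product rules for `fderiv`) -/
theorem CovS.const (r : ℝ) : CovS X e (fun _ => r) (cJ r) := by
  refine ⟨differentiableAt_const r, rfl, fun v => ?_⟩
  rw [(hasFDerivAt_const r X).fderiv]
  rfl

theorem CovS.add {s t : L → ℝ} {j k : SJ (EuclideanSpace ℝ (κ ⊕ ι))} (hs : CovS X e s j)
    (ht : CovS X e t k) : CovS X e (fun Z => s Z + t Z) (j + k) := by
  refine ⟨hs.diff.add ht.diff, ?_, fun v => ?_⟩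
  · rw [hs.val, ht.val]
    rfl
  · have hd : HasFDerivAt (fun Z => s Z + t Z) (fderiv ℝ s X + fderiv ℝ t X) X :=
      hs.diff.hasFDerivAt.add ht.diff.hasFDerivAt
    rw [hd.fderiv]
    show fderiv ℝ s X (Fe e v) + fderiv ℝ t X (Fe e v) = _
    rw [hs.der, ht.der]
    rfl

theorem CovS.sub {s t : L → ℝ} {j k : SJ (EuclideanSpace ℝ (κ ⊕ ι))} (hs : CovS X e s j)
    (ht : CovS X e t k) : CovS X e (fun Z => s Z - t Z) (j - k) := by
  refine ⟨hs.diff.sub ht.diff, ?_, fun v => ?_⟩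
  · rw [hs.val, ht.val]
    rfl
  · have hd : HasFDerivAt (fun Z => s Z - t Z) (fderiv ℝ s X - fderiv ℝ t X) X :=
      hs.diff.hasFDerivAt.sub ht.diff.hasFDerivAt
    rw [hd.fderiv]
    show fderiv ℝ s X (Fe e v) - fderiv ℝ t X (Fe e v) = _
    rw [hs.der, ht.der]
    rfl

theorem CovS.cmul (r : ℝ) {s : L → ℝ} {j : SJ (EuclideanSpace ℝ (κ ⊕ ι))} (hs : CovS X e s j) :
    CovS X e (fun Z => r * s Z) (r • j) := by
  refine ⟨hs.diff.const_mul r, ?_, fun v => ?_⟩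
  · rw [hs.val]
    rfl
  · have hd : HasFDerivAt (fun Z => r * s Z) (r • fderiv ℝ s X) X := hs.diff.hasFDerivAt.const_mul r
    rw [hd.fderiv]
    show r • fderiv ℝ s X (Fe e v) = _
    rw [hs.der]
    rfl

theorem CovS.mul {s t : L → ℝ} {j k : SJ (EuclideanSpace ℝ (κ ⊕ ι))} (hs : CovS X e s j)
    (ht : CovS X e t k) : CovS X e (fun Z => s Z * t Z) (mJ j k) := by
  refine ⟨hs.diff.mul ht.diff, ?_, fun v => ?_⟩
  · rw [hs.val, ht.val]
    rfl
  · have hd : HasFDerivAt (fun Z => s Z * t Z) (s X • fderiv ℝ t X + t X • fderiv ℝ s X) X :=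
      hs.diff.hasFDerivAt.mul ht.diff.hasFDerivAt
    rw [hd.fderiv]
    show s X • fderiv ℝ t X (Fe e v) + t X • fderiv ℝ s X (Fe e v) = _
    rw [hs.der, ht.der, hs.val, ht.val]
    show j.1 • k.2 v + k.1 • j.2 v = k.1 • j.2 v + j.1 • k.2 v
    rw [add_comm]

theorem CovS.sum {s : ι → L → ℝ} {j : ι → SJ (EuclideanSpace ℝ (κ ⊕ ι))}
    (hs : ∀ i, CovS X e (s i) (j i)) : CovS X e (fun Z => ∑ i, s i Z) (∑ i, j i) := by
  refine ⟨DifferentiableAt.fun_sum fun i _ => (hs i).diff, ?_, fun v => ?_⟩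
  · rw [Prod.fst_sum]
    exact Finset.sum_congr rfl fun i _ => (hs i).val
  · have hd : HasFDerivAt (fun Z => ∑ i, s i Z) (∑ i, fderiv ℝ (s i) X) X :=
      HasFDerivAt.fun_sum fun i _ => (hs i).diff.hasFDerivAt
    rw [hd.fderiv, Prod.snd_sum, ContinuousLinearMap.sum_apply, LinearMap.sum_apply]
    exact Finset.sum_congr rfl fun i _ => (hs i).der v

theorem CovV.add {Y Z : L → L} {j k : VJ (EuclideanSpace ℝ (κ ⊕ ι))} (hY : CovV B J g U X e Y j)
    (hZ : CovV B J g U X e Z k) : CovV B J g U X e (fun P => Y P + Z P) (j + k) := by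
  refine ⟨hY.diff.add hZ.diff, fun P hP => (hY.hz P hP).add (hZ.hz P hP), ?_, fun v => ?_⟩
  · show Fs B e (Y X + Z X) = _
    rw [fs_add, hY.val, hZ.val]
    rfl
  · have hd : HasFDerivAt (fun P => Y P + Z P) (fderiv ℝ Y X + fderiv ℝ Z X) X :=
      hY.diff.hasFDerivAt.add hZ.diff.hasFDerivAt
    rw [hd.fderiv]
    show Fs B e (fderiv ℝ Y X (Fe e v) + fderiv ℝ Z X (Fe e v)) = _
    rw [fs_add, hY.der, hZ.der]
    rfl

theorem CovV.sub {Y Z : L → L} {j k : VJ (EuclideanSpace ℝ (κ ⊕ ι))} (hY : CovV B J g U X e Y j)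
    (hZ : CovV B J g U X e Z k) : CovV B J g U X e (fun P => Y P - Z P) (j - k) := by
  have hneg : ∀ y : L, Fs B e (-y) = -Fs B e y := by
    intro y
    rw [← neg_one_smul ℝ y, fs_smul, neg_one_smul]
  refine ⟨hY.diff.sub hZ.diff, fun P hP => ?_, ?_, fun v => ?_⟩
  · show HzQ B J P (nu B g P) (Y P - Z P)
    rw [sub_eq_add_neg, ← neg_one_smul ℝ (Z P)]
    exact (hY.hz P hP).add ((hZ.hz P hP).smul (-1))
  · show Fs B e (Y X - Z X) = _
    rw [sub_eq_add_neg, fs_add, hneg, hY.val, hZ.val, ← sub_eq_add_neg]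
    rfl
  · have hd : HasFDerivAt (fun P => Y P - Z P) (fderiv ℝ Y X - fderiv ℝ Z X) X :=
      hY.diff.hasFDerivAt.sub hZ.diff.hasFDerivAt
    rw [hd.fderiv]
    show Fs B e (fderiv ℝ Y X (Fe e v) - fderiv ℝ Z X (Fe e v)) = _
    rw [sub_eq_add_neg, fs_add, hneg, hY.der, hZ.der, ← sub_eq_add_neg]
    rfl

theorem CovV.smul {s : L → ℝ} {Y : L → L} {j : SJ (EuclideanSpace ℝ (κ ⊕ ι))}
    {k : VJ (EuclideanSpace ℝ (κ ⊕ ι))} (hs : CovS X e s j)
    (hY : CovV B J g U X e Y k) : CovV B J g U X e (fun P => s P • Y P) (smJ j k) := by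
  refine ⟨hs.diff.smul hY.diff, fun P hP => (hY.hz P hP).smul (s P), ?_, fun v => ?_⟩
  · show Fs B e (s X • Y X) = _
    rw [fs_smul, hs.val, hY.val]
    rfl
  · have hd : HasFDerivAt (fun P => s P • Y P) (s X • fderiv ℝ Y X + (fderiv ℝ s X).smulRight (Y X)) X :=
      hs.diff.hasFDerivAt.smul hY.diff.hasFDerivAt
    rw [hd.fderiv]
    show Fs B e (s X • fderiv ℝ Y X (Fe e v) + fderiv ℝ s X (Fe e v) • Y X) = _
    rw [fs_add, fs_smul, fs_smul, hY.der, hs.der, hs.val, hY.val]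
    show j.1 • k.2 v + j.2 v • k.1 = j.2 v • k.1 + j.1 • k.2 v
    rw [add_comm]

theorem CovV.sum {Y : ι → L → L} {j : ι → VJ (EuclideanSpace ℝ (κ ⊕ ι))}
    (hY : ∀ i, CovV B J g U X e (Y i) (j i)) :
    CovV B J g U X e (fun P => ∑ i, Y i P) (∑ i, j i) := by
  have hfs : ∀ y : ι → L, Fs B e (∑ i, y i) = ∑ i, Fs B e (y i) := fun y => map_sum (FsL B e) y _
  refine ⟨DifferentiableAt.fun_sum fun i _ => (hY i).diff, fun P hP => HzQ.sum fun i => (hY i).hz P hP, ?_,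
    fun v => ?_⟩
  · rw [Prod.fst_sum, hfs]
    exact Finset.sum_congr rfl fun i _ => (hY i).val
  · have hd : HasFDerivAt (fun P => ∑ i, Y i P) (∑ i, fderiv ℝ (Y i) X) X :=
      HasFDerivAt.fun_sum fun i _ => (hY i).diff.hasFDerivAt
    rw [hd.fderiv, Prod.snd_sum, ContinuousLinearMap.sum_apply, LinearMap.sum_apply, hfs]
    exact Finset.sum_congr rfl fun i _ => (hY i).der v

/-- the inner product (`FrQ.inner_fs_fs`) -/
theorem CovV.inner (h : Pnt B J c lam g U Gp X e) {Y Z : L → L} {j k : VJ (EuclideanSpace ℝ (κ ⊕ ι))}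
    (hY : CovV B J g U X e Y j) (hZ : CovV B J g U X e Z k) :
    CovS X e (fun P => B (Y P) (Z P)) (inJ j k) := by
  have hd : HasFDerivAt (fun P => B (Y P) (Z P))
      ((B (Y X)).comp (fderiv ℝ Z X) + (B.flip (Z X)).comp (fderiv ℝ Y X)) X := by
    have h1 : HasFDerivAt (fun P => B (Y P)) (B.comp (fderiv ℝ Y X)) X := B.hasFDerivAt.comp X hY.diff.hasFDerivAt
    exact h1.clm_apply hZ.diff.hasFDerivAt
  refine ⟨hd.differentiableAt, ?_, fun v => ?_⟩
  · show B (Y X) (Z X) = Inner.inner ℝ j.1 k.1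
    rw [← hY.val, ← hZ.val, (h.fr.inner_fs_fs h.hH (hZ.hz X h.mem) (Y X)).1]
  · rw [hd.fderiv]
    show B (Y X) (fderiv ℝ Z X (Fe e v)) + B (fderiv ℝ Y X (Fe e v)) (Z X) =
      Inner.inner ℝ k.1 (j.2 v) + Inner.inner ℝ j.1 (k.2 v)
    rw [← hY.der, ← hZ.der, ← hY.val, ← hZ.val, (h.fr.inner_fs_fs h.hH (hZ.hz X h.mem) _).2,
      (h.fr.inner_fs_fs h.hH (hY.hz X h.mem) _).2, h.hH.symm (Y X), add_comm]

end Pool.Agent.Helper77.JH
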