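import Pool.Agent.Helper77.JH.C3
import Pool.Agent.Helper77.JH.C6

/-! # JH: jets: the fields xi, phi Y, T Y -/

set_option autoImplicit false
set_option linter.unusedSectionVars false
set_option linter.unusedVariables false

namespace Pool.Agent.Helper77.JH

open Pool.Agent.Helper77.JE (Hf Pt Gd rr nu NN tt xs SS)

variable {L : Type*} [NormedAddCommGroup L] [NormedSpace ℝ L]
variable {ι : Type*} [Fintype ι] [DecidableEq ι] {κ : Type*} [Fintype κ] [DecidableEq κ]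
variable {B : L →L[ℝ] L →L[ℝ] ℝ} {J : ι → L →L[ℝ] L} {c : ι → ι → ι → ℝ} {lam M : ℝ} {g : L → L}
variable {U : Set L} {Gp : L →L[ℝ] L} {X : L} {e : κ ⊕ ι → L}

private theorem c7_diff (hU : IsOpen U) (hX : X ∈ U) {Y k : L → L} {k' : L →L[ℝ] L}
    (hY : DifferentiableAt ℝ Y X) (hk : HasFDerivAt k k' X) (h0 : ∀ Z ∈ U, B (Y Z) (k Z) = 0) (u : L) :
    B (fderiv ℝ Y X u) (k X) = - B (Y X) (k' u) := by
  have h1 : HasFDerivAt (fun P => B (Y P)) (B.comp (fderiv ℝ Y X)) X := B.hasFDerivAt.comp X hY.hasFDerivAt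
  have hd : HasFDerivAt (fun P => B (Y P) (k P))
      ((B (Y X)).comp k' + (B.flip (k X)).comp (fderiv ℝ Y X)) X := h1.clm_apply hk
  have hz : HasFDerivAt (fun P => B (Y P) (k P)) (0 : L →L[ℝ] ℝ) X := by
    refine (hasFDerivAt_const (0 : ℝ) X).congr_of_eventuallyEq ?_
    filter_upwards [hU.mem_nhds hX] with P hP
    exact h0 P hP
  have h2 := congrArg (fun f : L →L[ℝ] ℝ => f u) (hd.unique hz)
  have h3 : B (Y X) (k' u) + B (fderiv ℝ Y X u) (k X) = 0 := h2
  linarith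

/-- piece `JH-C7` (a): differentiate the constraints -/
theorem CovV.con (h : Pnt B J c lam g U Gp X e) [Nonempty ι] {Y : L → L} {j : VJ (EuclideanSpace ℝ (κ ⊕ ι))}
    (hY : CovV B J g U X e Y j) (u : L) :
    B (fderiv ℝ Y X u) X = - B (Y X) u ∧ (∀ i, B (fderiv ℝ Y X u) (J i X) = - B (Y X) (J i u)) ∧
      B (fderiv ℝ Y X u) (nu B g X) = - B (Y X) (NN B g X u) := by
  obtain ⟨i0⟩ := ‹Nonempty ι›
  have hU := (h.hG i0).isOpen
  refine ⟨?_, fun i => ?_, ?_⟩
  · exact c7_diff hU h.mem hY.diff (hasFDerivAt_id X) (fun Z hZ => (hY.hz Z hZ).1) u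
  · exact c7_diff hU h.mem hY.diff (J i).hasFDerivAt (fun Z hZ => (hY.hz Z hZ).2.1 i) u
  · exact c7_diff hU h.mem hY.diff h.d_nu (fun Z hZ => (hY.hz Z hZ).2.2) u

private theorem c7_fs_sum (f : ι → L) : Fs B e (∑ i, f i) = ∑ i, Fs B e (f i) :=
  map_sum (FsL B e) f Finset.univ

private theorem c7_fs_sub (y z : L) : Fs B e (y - z) = Fs B e y - Fs B e z := (FsL B e).map_sub y z

private theorem c7_fs_neg (y : L) : Fs B e (-y) = -Fs B e y := (FsL B e).map_neg y

private theorem c7_jjX (h : Pnt B J c lam g U Gp X e) (i k : ι) : Fs B e (J i (J k X)) = 0 := by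
  have hz := h.fr.fs_zero h.hH
  rw [h.hH.mul i k X, fs_add, c7_fs_sum]
  have h1 : Fs B e (if i = k then -X else 0) = 0 := by
    split_ifs
    · rw [c7_fs_neg, hz.1, neg_zero]
    · exact (FsL B e).map_zero
  rw [h1, zero_add]
  refine Finset.sum_eq_zero fun l _ => ?_
  rw [fs_smul, hz.2.1 l, smul_zero]

private theorem c7_jdec (h : Pnt B J c lam g U Gp X e) (i : ι) (w : L) :
    Fs B e (J i w) = B w (nu B g X) • Fs B e (xi B J g i X) + Fs B e (J i (Fe e (Fs B e w))) := by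
  have hz := h.fr.fs_zero h.hH
  have h1 : J i w = -(B w X • J i X) - ∑ k, B w (J k X) • J i (J k X) + B w (nu B g X) • J i (nu B g X) +
      J i (Fe e (Fs B e w)) := by
    have h2 := congrArg (J i) (h.fr.decomp w)
    rw [map_add, map_add, map_sub, map_neg, map_smul, map_sum, map_smul] at h2
    rw [h2]
    congr 3
    exact Finset.sum_congr rfl fun k _ => map_smul _ _ _
  rw [h1, fs_add, fs_add, c7_fs_sub, c7_fs_neg, fs_smul, hz.2.1 i, c7_fs_sum]
  have h3 : ∑ k, Fs B e (B w (J k X) • J i (J k X)) = 0 := by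
    refine Finset.sum_eq_zero fun k _ => ?_
    rw [fs_smul, c7_jjX h i k, smul_zero]
  rw [h3, smul_zero, neg_zero, sub_zero, zero_add, fs_smul]
  rfl

/-- (b): `S` in coordinates (`N_eq`) -/
theorem Pnt.S_eq (h : Pnt B J c lam g U Gp X e) [Nonempty ι] (v : EuclideanSpace ℝ (κ ⊕ ι)) :
    (dat B J c lam g Gp X e).S v = Fs B e (NN B g X (Fe e v)) := by
  have hz := h.fr.fs_zero h.hH
  have h1 : (dat B J c lam g Gp X e).S v = opH B e (TT B J lam g X) v + lam • v +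
      lam⁻¹ • ∑ i, inner ℝ (Fs B e (xi B J g i X)) v • Fs B e (xi B J g i X) := by
    show (opH B e (TT B J lam g X) + lam • LinearMap.id +
      lam⁻¹ • ∑ i, (innerₛₗ ℝ (Fs B e (xi B J g i X))).smulRight (Fs B e (xi B J g i X)) :
        EuclideanSpace ℝ (κ ⊕ ι) →ₗ[ℝ] EuclideanSpace ℝ (κ ⊕ ι)) v = _
    simp only [LinearMap.add_apply, LinearMap.smul_apply, LinearMap.id_apply, LinearMap.sum_apply,
      LinearMap.smulRight_apply, innerₛₗ_apply_apply]
  rw [h1, h.N_eq, c7_fs_sub, fs_add, fs_add, fs_smul, fs_smul, c7_fs_sum, c7_fs_sum, h.fr.fs_fe, opH_apply]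
  have h2 : ∑ i, Fs B e (B (J i (nu B g X)) (Fe e v) • J i X) = 0 := by
    refine Finset.sum_eq_zero fun i _ => ?_
    rw [fs_smul, hz.2.1 i, smul_zero]
  rw [h2, sub_zero]
  congr 2
  refine Finset.sum_congr rfl fun i _ => ?_
  rw [fs_smul, inner_fs]
  rfl

/-- (c) -/
theorem CovV.xi (h : Pnt B J c lam g U Gp X e) [Nonempty ι] (i : ι) :
    CovV B J g U X e (xi B J g i) ((dat B J c lam g Gp X e).xJ i) := by
  have hd : HasFDerivAt (JH.xi B J g i) ((J i).comp (NN B g X)) X := (J i).hasFDerivAt.comp X h.d_nu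
  refine ⟨hd.differentiableAt, fun Z hZ => xi_hz h.hG h.hH hZ i, rfl, fun v => ?_⟩
  rw [hd.fderiv]
  show Fs B e (J i (NN B g X (Fe e v))) = opH B e (J i) ((dat B J c lam g Gp X e).S v)
  rw [h.S_eq, opH_apply, c7_jdec h i (NN B g X (Fe e v)), h.pt.Nn, zero_smul, zero_add]

/-- (d): `fderiv (φ_i Y) u = J_i Y' + (..) ν + B Y ξ_i N u`; `J_i Y'` in coordinates: `decomp` of `Y'`, `con` -/
theorem CovV.phi (h : Pnt B J c lam g U Gp X e) [Nonempty ι] (i : ι) {Y : L → L}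
    {j : VJ (EuclideanSpace ℝ (κ ⊕ ι))} (hY : CovV B J g U X e Y j) :
    CovV B J g U X e (ph B J g i Y) ((dat B J c lam g Gp X e).pJ i j) := by
  have hz := h.fr.fs_zero h.hH
  have hYX : Fe e j.1 = Y X := by
    rw [← hY.val]
    exact h.fr.fe_fs (hY.hz X h.mem)
  have hn := h.d_nu
  have hY' := hY.diff.hasFDerivAt
  have h1 : HasFDerivAt (fun P => B (Y P)) (B.comp (fderiv ℝ Y X)) X := B.hasFDerivAt.comp X hY'
  have h2 : HasFDerivAt (fun P => J i (nu B g P)) ((J i).comp (NN B g X)) X := (J i).hasFDerivAt.comp X hn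
  have h3 : HasFDerivAt (fun P => B (Y P) (J i (nu B g P)))
      ((B (Y X)).comp ((J i).comp (NN B g X)) + (B.flip (J i (nu B g X))).comp (fderiv ℝ Y X)) X := h1.clm_apply h2
  have h4 : HasFDerivAt (fun P => B (Y P) (J i (nu B g P)) • nu B g P)
      (B (Y X) (J i (nu B g X)) • NN B g X +
        ((B (Y X)).comp ((J i).comp (NN B g X)) + (B.flip (J i (nu B g X))).comp (fderiv ℝ Y X)).smulRight
          (nu B g X)) X := h3.smul hn
  have h5 : HasFDerivAt (fun P => J i (Y P)) ((J i).comp (fderiv ℝ Y X)) X := (J i).hasFDerivAt.comp X hY'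
  have hd : HasFDerivAt (ph B J g i Y) ((J i).comp (fderiv ℝ Y X) + (B (Y X) (J i (nu B g X)) • NN B g X +
        ((B (Y X)).comp ((J i).comp (NN B g X)) + (B.flip (J i (nu B g X))).comp (fderiv ℝ Y X)).smulRight
          (nu B g X))) X := h5.add h4
  refine ⟨hd.differentiableAt, fun Z hZ => ph_hz h.hG h.hH hZ i (hY.hz Z hZ), ?_, fun v => ?_⟩
  · show Fs B e (J i (Y X) + B (Y X) (J i (nu B g X)) • nu B g X) = opH B e (J i) j.1
    rw [fs_add, fs_smul, hz.2.2, smul_zero, add_zero, opH_apply, hYX]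
  · rw [hd.fderiv]
    show Fs B e (J i (fderiv ℝ Y X (Fe e v)) + (B (Y X) (J i (nu B g X)) • NN B g X (Fe e v) +
      (B (Y X) (J i (NN B g X (Fe e v))) + B (fderiv ℝ Y X (Fe e v)) (J i (nu B g X))) • nu B g X)) =
      opH B e (J i) (j.2 v) + Inner.inner ℝ (Fs B e (JH.xi B J g i X)) j.1 • (dat B J c lam g Gp X e).S v -
        Inner.inner ℝ j.1 ((dat B J c lam g Gp X e).S v) • Fs B e (JH.xi B J g i X)
    have hc := (hY.con h (Fe e v)).2.2
    have e1 : Inner.inner ℝ (Fs B e (JH.xi B J g i X)) j.1 = B (Y X) (J i (nu B g X)) := by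
      rw [inner_fs, hYX, h.hH.symm]
      rfl
    have e2 : Inner.inner ℝ j.1 ((dat B J c lam g Gp X e).S v) = B (Y X) (NN B g X (Fe e v)) := by
      rw [h.S_eq, ← hY.val, (h.fr.inner_fs_fs h.hH (hY.hz X h.mem) (NN B g X (Fe e v))).2, h.hH.symm]
    rw [e1, e2, h.S_eq, fs_add, fs_add, fs_smul, fs_smul, hz.2.2, smul_zero, add_zero,
      c7_jdec h i (fderiv ℝ Y X (Fe e v)), hc, hY.der, opH_apply, neg_smul]
    abel

end Pool.Agent.Helper77.JH
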