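import Pool.Agent.Helper77.JH.C7

/-! # JH: jets: the field T Y -/

set_option autoImplicit false
set_option linter.unusedSectionVars false
set_option linter.unusedVariables false

namespace Pool.Agent.Helper77.JH

open Pool.Agent.Helper77.JE (Hf Pt Gd rr nu NN tt xs SS)

variable {L : Type*} [NormedAddCommGroup L] [NormedSpace ℝ L]
variable {ι : Type*} [Fintype ι] [DecidableEq ι] {κ : Type*} [Fintype κ] [DecidableEq κ]
variable {B : L →L[ℝ] L →L[ℝ] ℝ} {J : ι → L →L[ℝ] L} {c : ι → ι → ι → ℝ} {lam M : ℝ} {g : L → L}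
variable {U : Set L} {Gp : L →L[ℝ] L} {X : L} {e : κ ⊕ ι → L}

/-- piece `JH-C8`: `fderiv (T Y) u = (D_u T) Y + T Y'`; `decomp` of `Y'`, `con`, `T_rest`; definition of `dtH` -/
theorem CovV.T (h : Pnt B J c lam g U Gp X e) [Nonempty ι] {Y : L → L}
    {j : VJ (EuclideanSpace ℝ (κ ⊕ ι))} (hY : CovV B J g U X e Y j) :
    CovV B J g U X e (fun Z => TT B J lam g Z (Y Z)) ((dat B J c lam g Gp X e).tJ j) := by
  have hd : DifferentiableAt ℝ (TT B J lam g) X := (h.d_TT (h.fr.fe_hz 0)).1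
  have hYX : Fe e j.1 = Y X := by
    rw [← hY.val]
    exact h.fr.fe_fs (hY.hz X h.mem)
  have hneg : ∀ y : L, Fs B e (-y) = -Fs B e y := fun y => (FsL B e).map_neg y
  have hsub : ∀ y z : L, Fs B e (y - z) = Fs B e y - Fs B e z := fun y z => (FsL B e).map_sub y z
  have hsum : ∀ f : ι → L, Fs B e (∑ i, f i) = ∑ i, Fs B e (f i) := fun f =>
    map_sum (FsL B e) f Finset.univ
  refine ⟨hd.clm_apply hY.diff, fun Z hZ => TT_hz h.hG h.hH lam hZ (hY.hz Z hZ), ?_, ?_⟩
  · show Fs B e (TT B J lam g X (Y X)) = opH B e (TT B J lam g X) j.1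
    rw [opH_apply, hYX]
  · intro v
    have h1 : fderiv ℝ (fun Z => TT B J lam g Z (Y Z)) X (Fe e v) =
        TT B J lam g X (fderiv ℝ Y X (Fe e v)) + fderiv ℝ (TT B J lam g) X (Fe e v) (Y X) := by
      rw [fderiv_clm_apply hd hY.diff]
      rfl
    have h2 : ((dat B J c lam g Gp X e).tJ j).2 v =
        dtH B J lam g X e v j.1 + opH B e (TT B J lam g X) (j.2 v) := rfl
    have h3 : dtH B J lam g X e v j.1 = Fs B e (fderiv ℝ (TT B J lam g) X (Fe e v) (Fe e j.1)) -
      B (Fe e j.1) (NN B g X (Fe e v)) • Fs B e (NN B g X (nu B g X)) +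
      ∑ i, B (Fe e j.1) (J i (Fe e v)) • Fs B e (JH.xi B J g i X) := rfl
    have h4 := h.fr.decomp (fderiv ℝ Y X (Fe e v))
    have hc := hY.con h (Fe e v)
    have hr := h.T_rest
    have hz := h.fr.fs_zero h.hH
    have h5 : Fs B e (TT B J lam g X (fderiv ℝ Y X (Fe e v))) =
        ∑ i, B (Y X) (J i (Fe e v)) • Fs B e (JH.xi B J g i X) -
          B (Y X) (NN B g X (Fe e v)) • Fs B e (NN B g X (nu B g X)) +
          Fs B e (TT B J lam g X (Fe e (j.2 v))) := by
      rw [h4, map_add, map_add, map_sub, map_neg, map_smul, map_smul, map_sum, hr.1, hr.2.2,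
        hY.der v, hc.1, hc.2.2, fs_add, fs_add, hsub, hneg, hsum, fs_smul, fs_smul, hneg, fs_smul,
        hz.1, hsub, fs_smul, hz.2.2]
      have h6 : ∀ i, Fs B e (TT B J lam g X (B (fderiv ℝ Y X (Fe e v)) (J i X) • J i X)) =
          -(B (Y X) (J i (Fe e v)) • Fs B e (JH.xi B J g i X)) := by
        intro i
        rw [map_smul, hr.2.1 i, hc.2.1 i, fs_smul, hsub, fs_smul, hz.2.1 i, smul_zero, sub_zero,
          neg_smul]
        rfl
      rw [Finset.sum_congr rfl fun i _ => h6 i, Finset.sum_neg_distrib]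
      simp only [smul_zero, neg_zero, sub_neg_eq_add, zero_add, sub_zero, neg_smul]
      abel
    rw [h1, h2, h3, fs_add, h5, opH_apply, hYX]
    abel

end Pool.Agent.Helper77.JH
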