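import Pool.Agent.Helper77.JH.C4
import Pool.Agent.Helper77.JH.Nf

/-! # JH: from the cone to the normal form -/

set_option autoImplicit false
set_option linter.unusedSectionVars false
set_option linter.unusedVariables false

namespace Pool.Agent.Helper77.JH

open Pool.Agent.Helper77.JE (Hf Pt Gd rr nu NN tt xs SS)

variable {L : Type*} [NormedAddCommGroup L] [NormedSpace ℝ L]
variable {ι : Type*} [Fintype ι] [DecidableEq ι] {κ : Type*} [Fintype κ] [DecidableEq κ]
variable {B : L →L[ℝ] L →L[ℝ] ℝ} {J : ι → L →L[ℝ] L} {c : ι → ι → ι → ℝ} {lam M : ℝ} {g : L → L}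
variable {U : Set L} {X p : L} {e : κ ⊕ ι → L}

/-- the operator of the point `p` -/
noncomputable def GpO (B : L →L[ℝ] L →L[ℝ] ℝ) (J : ι → L →L[ℝ] L) (p : L) : L →L[ℝ] L :=
  (B p).smulRight p + ∑ i, (B (J i p)).smulRight (J i p)

theorem GpO_apply (p u : L) : GpO B J p u = B p u • p + ∑ i, B (J i p) u • J i p := by
  simp [GpO, ContinuousLinearMap.add_apply, ContinuousLinearMap.sum_apply]

theorem GpO_B (p u v : L) : B (GpO B J p u) v = B p u * B p v + ∑ i, B (J i p) u * B (J i p) v := by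
  rw [GpO_apply]
  simp [map_add, map_sum, map_smul, ContinuousLinearMap.add_apply, ContinuousLinearMap.sum_apply]

/-- right multiplication by `q0 + ∑ q_i e_i` -/
noncomputable def Rq (J : ι → L →L[ℝ] L) (q0 : ℝ) (q : ι → ℝ) : L →L[ℝ] L :=
  q0 • ContinuousLinearMap.id ℝ L + ∑ i, q i • J i

theorem Rq_apply (q0 : ℝ) (q : ι → ℝ) (u : L) : Rq J q0 q u = q0 • u + ∑ i, q i • J i u := by
  simp [Rq, ContinuousLinearMap.add_apply, ContinuousLinearMap.sum_apply]

private theorem as_sum (hH : Hq B J c) (q : ι → ℝ) (w : ι → L) :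
    ∑ i, ∑ j, (q i * q j) • ∑ k, c i j k • w k = 0 := by
  have h1 : ∑ i, ∑ j, (q i * q j) • ∑ k, c i j k • w k =
      -∑ i, ∑ j, (q i * q j) • ∑ k, c i j k • w k := by
    conv_rhs => rw [Finset.sum_comm]
    rw [← Finset.sum_neg_distrib]
    refine Finset.sum_congr rfl fun i _ => ?_
    rw [← Finset.sum_neg_distrib]
    refine Finset.sum_congr rfl fun j _ => ?_
    rw [← smul_neg, ← Finset.sum_neg_distrib, mul_comm (q i)]
    congr 1
    refine Finset.sum_congr rfl fun k _ => ?_
    rw [hH.as1 i j k, neg_smul]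
  have h2 : (2 : ℝ) • ∑ i, ∑ j, (q i * q j) • ∑ k, c i j k • w k = 0 := by
    rw [two_smul]
    nth_rewrite 1 [h1]
    exact neg_add_cancel _
  exact (smul_eq_zero.1 h2).resolve_left two_ne_zero

theorem Rq_conj (hH : Hq B J c) (q0 : ℝ) (q : ι → ℝ) (u : L) :
    Rq J q0 (fun i => - q i) (Rq J q0 q u) = (q0 ^ 2 + ∑ i, q i ^ 2) • u := by
  have h1 : ∀ i, J i (Rq J q0 q u) = q0 • J i u + ∑ j, q j • J i (J j u) := by
    intro i
    rw [Rq_apply, map_add, map_smul, map_sum]
    congr 1
    refine Finset.sum_congr rfl fun j _ => ?_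
    rw [map_smul]
  have h2 : ∑ i, q i • ∑ j, q j • J i (J j u) = -((∑ i, q i ^ 2) • u) := by
    have h3 : ∑ i, q i • ∑ j, q j • J i (J j u) =
        ∑ i, (∑ j, (q i * q j) • (if i = j then -u else 0)) +
          ∑ i, ∑ j, (q i * q j) • ∑ k, c i j k • J k u := by
      rw [← Finset.sum_add_distrib]
      refine Finset.sum_congr rfl fun i _ => ?_
      rw [Finset.smul_sum, ← Finset.sum_add_distrib]
      refine Finset.sum_congr rfl fun j _ => ?_
      rw [hH.mul i j u, ← smul_add, smul_smul]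
    rw [h3, as_sum hH q (fun k => J k u), add_zero, Finset.sum_smul, ← Finset.sum_neg_distrib]
    refine Finset.sum_congr rfl fun i _ => ?_
    rw [Finset.sum_eq_single i]
    · rw [if_pos rfl, smul_neg, sq]
    · intro j _ hj
      rw [if_neg (Ne.symm hj), smul_zero]
    · intro h
      exact absurd (Finset.mem_univ i) h
  rw [Rq_apply q0 (fun i => - q i)]
  have h4 : ∑ i, -q i • J i (Rq J q0 q u) = -(q0 • ∑ i, q i • J i u) + (∑ i, q i ^ 2) • u := by
    have h5 : ∑ i, -q i • J i (Rq J q0 q u) =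
        -(q0 • ∑ i, q i • J i u) - ∑ i, q i • ∑ j, q j • J i (J j u) := by
      rw [Finset.smul_sum, ← Finset.sum_neg_distrib, ← Finset.sum_sub_distrib]
      refine Finset.sum_congr rfl fun i _ => ?_
      rw [h1 i]
      module
    rw [h5, h2]
    abel
  rw [h4, Rq_apply]
  module

theorem Rq_B (hH : Hq B J c) (q0 : ℝ) (q : ι → ℝ) (u v : L) :
    B (Rq J q0 q u) v = B u (Rq J q0 (fun i => - q i) v) := by
  rw [Rq_apply, Rq_apply]
  simp only [map_add, map_sum, map_smul, ContinuousLinearMap.add_apply,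
    ContinuousLinearMap.sum_apply, ContinuousLinearMap.smul_apply, smul_eq_mul]
  congr 1
  refine Finset.sum_congr rfl fun i _ => ?_
  rw [hH.skew i u v]
  ring

theorem gs_GpO (hH : Hq B J c) (p : L) : Gs B J (GpO B J p) := by
  refine ⟨fun u v => ?_, fun k u => ?_⟩
  · rw [GpO_B, GpO_B, mul_comm (B p u)]
    congr 1
    exact Finset.sum_congr rfl fun i _ => mul_comm _ _
  · rw [GpO_apply, GpO_apply, map_add, map_smul, map_sum]
    have h1 : B p (J k u) = - B (J k p) u := by
      rw [hH.skew k p u, neg_neg]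
    have h2 : ∀ i, B (J i p) (J k u) = (if k = i then B p u else 0) -
        ∑ l, c k i l * B (J l p) u := by
      intro i
      have h3 : B (J i p) (J k u) = - B (J k (J i p)) u := by
        rw [hH.skew k (J i p) u, neg_neg]
      rw [h3, hH.mul k i p]
      simp only [map_add, map_sum, map_smul, ContinuousLinearMap.add_apply,
        ContinuousLinearMap.sum_apply, ContinuousLinearMap.smul_apply, smul_eq_mul]
      split_ifs with hk
      · simp only [map_neg, ContinuousLinearMap.neg_apply]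
        ring
      · simp only [map_zero, ContinuousLinearMap.zero_apply]
        ring
    have h4 : ∑ i, J k (B (J i p) u • J i p) = -(B (J k p) u • p) +
        ∑ i, B (J i p) u • ∑ l, c k i l • J l p := by
      have h5 : ∀ i, J k (B (J i p) u • J i p) = B (J i p) u • (if k = i then -p else 0) +
          B (J i p) u • ∑ l, c k i l • J l p := by
        intro i
        rw [map_smul, hH.mul k i p, smul_add]
      rw [Finset.sum_congr rfl fun i _ => h5 i, Finset.sum_add_distrib]
      congr 1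
      rw [Finset.sum_eq_single k]
      · rw [if_pos rfl, smul_neg]
      · intro j _ hj
        rw [if_neg (Ne.symm hj), smul_zero]
      · intro h
        exact absurd (Finset.mem_univ k) h
    have h6 : ∑ i, B (J i p) (J k u) • J i p = B p u • J k p -
        ∑ i, (∑ l, c k i l * B (J l p) u) • J i p := by
      rw [Finset.sum_congr rfl fun i _ => by rw [h2 i, sub_smul], Finset.sum_sub_distrib]
      congr 1
      rw [Finset.sum_eq_single k]
      · rw [if_pos rfl]
      · intro j _ hj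
        rw [if_neg (Ne.symm hj), zero_smul]
      · intro h
        exact absurd (Finset.mem_univ k) h
    have h7 : ∑ i, (∑ l, c k i l * B (J l p) u) • J i p =
        -∑ i, B (J i p) u • ∑ l, c k i l • J l p := by
      have h8 : ∀ i, (∑ l, c k i l * B (J l p) u) • J i p =
          ∑ l, (c k i l * B (J l p) u) • J i p := fun i => Finset.sum_smul
      rw [Finset.sum_congr rfl fun i _ => h8 i, Finset.sum_comm, ← Finset.sum_neg_distrib]
      refine Finset.sum_congr rfl fun l _ => ?_
      rw [← smul_neg, ← Finset.sum_neg_distrib, Finset.smul_sum]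
      refine Finset.sum_congr rfl fun i _ => ?_
      rw [hH.as2 k i l]
      module
    rw [h1, h6, h7, h4]
    module

theorem GpO_Rq (hH : Hq B J c) (p : L) (q0 : ℝ) (q : ι → ℝ) (u : L) :
    GpO B J p (Rq J q0 q u) = Rq J q0 q (GpO B J p u) := by
  rw [Rq_apply, Rq_apply, map_add, map_smul, map_sum]
  congr 1
  refine Finset.sum_congr rfl fun i _ => ?_
  rw [map_smul, (gs_GpO hH p).comm]

theorem GpO_self (hH : Hq B J c) (hp : B p p = -1) : GpO B J p p = -p := by
  rw [GpO_apply, hp, neg_one_smul]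
  have h1 : ∑ i, B (J i p) p • J i p = 0 := by
    refine Finset.sum_eq_zero fun i _ => ?_
    rw [hH.self0 i p, zero_smul]
  rw [h1, add_zero]

theorem Rq_norm (hH : Hq B J c) (hp : B p p = -1) {q0 : ℝ} {q : ι → ℝ}
    (hq : q0 ^ 2 + ∑ i, q i ^ 2 = 1) : B (Rq J q0 q p) (Rq J q0 q p) = -1 := by
  rw [Rq_B hH, Rq_conj hH, hq, one_smul, hp]

/-- the operator does not depend on the choice of `p` in its line -/
theorem GpO_gauge (hH : Hq B J c) (hp : B p p = -1) {q0 : ℝ} {q : ι → ℝ}
    (hq : q0 ^ 2 + ∑ i, q i ^ 2 = 1) : GpO B J (Rq J q0 q p) = GpO B J p := by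
  set p' := Rq J q0 q p with hp'
  have hn := Rq_norm hH hp hq
  rw [← hp'] at hn
  have h1 : p = Rq J q0 (fun i => - q i) p' := by
    rw [hp', Rq_conj hH, hq, one_smul]
  have h2 : GpO B J p' p = -p := by
    conv_lhs => rw [h1]
    rw [GpO_Rq hH, GpO_self hH hn, map_neg, ← h1]
  refine ContinuousLinearMap.ext fun u => ?_
  have h3 : GpO B J p u = Rq J (B p u) (fun i => B (J i p) u) p := by
    rw [GpO_apply, Rq_apply]
  have h4 : GpO B J p' (GpO B J p u) = - GpO B J p u := by
    rw [h3, GpO_Rq hH, h2, map_neg]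
  have h5 : GpO B J p p' = -p' := by
    rw [hp', GpO_Rq hH, GpO_self hH hp, map_neg]
  have h6 : B p' (GpO B J p u) = - B p' u := by
    rw [hH.symm, (gs_GpO hH p).sym u p', h5, map_neg, ContinuousLinearMap.neg_apply]
  have h7 : ∀ i, B (J i p') (GpO B J p u) = - B (J i p') u := by
    intro i
    rw [hH.symm, (gs_GpO hH p).sym u (J i p'), (gs_GpO hH p).comm, h5, map_neg, map_neg,
      ContinuousLinearMap.neg_apply]
  have h8 : GpO B J p' (GpO B J p u) = - GpO B J p' u := by
    rw [GpO_apply p' (GpO B J p u), GpO_apply p' u, h6, neg_add, ← Finset.sum_neg_distrib, neg_smul]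
    congr 1
    refine Finset.sum_congr rfl fun i _ => ?_
    rw [h7 i, neg_smul]
  have h9 := h4.symm.trans h8
  exact (neg_injective h9).symm

/-- the gauge in which `h(p, ν)` is real -/
theorem exists_gauge (hH : Hq B J c) (hp : B p p = -1) (ν : L) :
    ∃ p' : L, GpO B J p' = GpO B J p ∧ B p' p' = -1 ∧ 0 ≤ B p' ν ∧ ∀ i, B (J i p') ν = 0 := by
  have hG := gs_GpO hH p
  by_cases h0 : B p ν ^ 2 + ∑ i, B (J i p) ν ^ 2 = 0
  · have h1 : 0 ≤ ∑ i, B (J i p) ν ^ 2 := Finset.sum_nonneg fun i _ => sq_nonneg _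
    have h2 : B p ν ^ 2 = 0 := by nlinarith [sq_nonneg (B p ν)]
    have h3 : ∑ i, B (J i p) ν ^ 2 = 0 := by rw [h2, zero_add] at h0; exact h0
    have h4 := (Finset.sum_eq_zero_iff_of_nonneg fun i _ => sq_nonneg (B (J i p) ν)).1 h3
    refine ⟨p, rfl, hp, ?_, fun i => ?_⟩
    · rw [pow_eq_zero_iff two_ne_zero] at h2
      rw [h2]
    · exact (pow_eq_zero_iff two_ne_zero).1 (h4 i (Finset.mem_univ i))
  · have h1 : 0 < B p ν ^ 2 + ∑ i, B (J i p) ν ^ 2 := by
      have h2 : 0 ≤ ∑ i, B (J i p) ν ^ 2 := Finset.sum_nonneg fun i _ => sq_nonneg _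
      have h3 : 0 ≤ B p ν ^ 2 + ∑ i, B (J i p) ν ^ 2 := by positivity
      exact lt_of_le_of_ne h3 (Ne.symm h0)
    obtain ⟨s, hs, hs2⟩ : ∃ s : ℝ, 0 < s ∧ s ^ 2 = B p ν ^ 2 + ∑ i, B (J i p) ν ^ 2 :=
      ⟨√(B p ν ^ 2 + ∑ i, B (J i p) ν ^ 2), Real.sqrt_pos.2 h1, Real.sq_sqrt h1.le⟩
    have hq : (s⁻¹ * B p ν) ^ 2 + ∑ i, (s⁻¹ * B (J i p) ν) ^ 2 = 1 := by
      have h2 : ∑ i, (s⁻¹ * B (J i p) ν) ^ 2 = (s⁻¹) ^ 2 * ∑ i, B (J i p) ν ^ 2 := by
        rw [Finset.mul_sum]
        exact Finset.sum_congr rfl fun i _ => mul_pow _ _ _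
      rw [h2, mul_pow, ← mul_add, ← hs2, ← mul_pow, inv_mul_cancel₀ hs.ne', one_pow]
    have hp' : Rq J (s⁻¹ * B p ν) (fun i => s⁻¹ * B (J i p) ν) p = s⁻¹ • GpO B J p ν := by
      rw [Rq_apply, GpO_apply, smul_add, Finset.smul_sum, smul_smul]
      congr 1
      exact Finset.sum_congr rfl fun i _ => by rw [smul_smul]
    refine ⟨_, GpO_gauge hH hp hq, Rq_norm hH hp hq, ?_, fun i => ?_⟩
    · rw [hp', map_smul, ContinuousLinearMap.smul_apply, smul_eq_mul, GpO_B]
      have h2 : B p ν * B p ν + ∑ i, B (J i p) ν * B (J i p) ν = s ^ 2 := by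
        rw [hs2, sq]
        congr 1
        exact Finset.sum_congr rfl fun i _ => (sq _).symm
      rw [h2]
      positivity
    · rw [hp', map_smul, map_smul, ContinuousLinearMap.smul_apply, smul_eq_mul]
      have h2 : B (J i (GpO B J p ν)) ν = - B (J i (GpO B J p ν)) ν := by
        conv_lhs => rw [← hG.comm i ν, hG.sym (J i ν) ν]
        rw [hH.skew i (GpO B J p ν) ν, neg_neg]
      have h3 : B (J i (GpO B J p ν)) ν = 0 := by linarith
      rw [h3, mul_zero]

/-- the normal form at a point -/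
theorem Pnt.nf (h : Pnt B J c lam g U (GpO B J p) X e) [Nonempty ι] (hp : B p p = -1)
    (hball : B (GpO B J p (nu B g X - X)) (nu B g X - X) ≤ 1) :
    ∃ P0 s n0 n, Nf (dat B J c lam g (GpO B J p) X e) P0 s n0 n ∧
      s ^ 2 = B (GpO B J p (nu B g X)) (nu B g X) := by
  have hH := h.hH
  obtain ⟨p', h1, hpp, hs0, hJ⟩ := exists_gauge hH hp (nu B g X)
  rw [← h1] at hball ⊢
  have hxs := (xs_one (g := g) h.one).1
  have hfz := h.fr.fs_zero hH
  set ν := nu B g X with hν
  set n := nv B lam g X with hn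
  have hnd : n = ν - lam • X := by rw [hn, nv, hxs]
  have hxi : ∀ i, HzQ B J X ν (xi B J g i X) := fun i => xi_hz h.hG hH h.mem i
  have hP : ∀ i, opH B e (J i) (Fs B e p') + B p' ν • Fs B e (xi B J g i X) = Fs B e (J i p') := by
    intro i
    rw [opH_apply]
    have h2 := h.fr.decomp p'
    have h3 : J i p' = -(B p' X • J i X) - ∑ k, B p' (J k X) • J i (J k X) + B p' ν • J i ν +
        J i (Fe e (Fs B e p')) := by
      conv_lhs => rw [h2]
      simp only [map_add, map_sub, map_neg, map_smul, map_sum]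
      rfl
    have h4 : ∀ k, Fs B e (J i (J k X)) = 0 := by
      intro k
      have h5 : Fs B e (J i (J k X)) = FsL B e (J i (J k X)) := rfl
      rw [h5, hH.mul i k X, map_add, map_sum]
      have h6 : ∑ l, FsL B e (c i k l • J l X) = 0 := by
        refine Finset.sum_eq_zero fun l _ => ?_
        rw [map_smul]
        show c i k l • Fs B e (J l X) = 0
        rw [hfz.2.1 l, smul_zero]
      rw [h6, add_zero]
      split_ifs
      · rw [map_neg]
        show -(Fs B e X) = 0
        rw [hfz.1, neg_zero]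
      · rw [map_zero]
    have h7 : Fs B e (J i p') = FsL B e (J i p') := rfl
    rw [h7, h3]
    simp only [map_add, map_sub, map_neg, map_smul, map_sum]
    have h8 : FsL B e (J i X) = 0 := hfz.2.1 i
    have h9 : ∀ k, FsL B e (J i (J k X)) = 0 := h4
    rw [h8, smul_zero, neg_zero, Finset.sum_eq_zero fun k _ => by rw [h9 k, smul_zero]]
    show _ = 0 - 0 + B p' ν • Fs B e (J i ν) + Fs B e (J i (Fe e (Fs B e p')))
    rw [sub_zero, zero_add, add_comm]
    rfl
  have hin : ∀ y : L, ∀ i, inner ℝ (Fs B e y) (Fs B e (xi B J g i X)) = B y (xi B J g i X) :=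
    fun y i => (h.fr.inner_fs_fs hH (hxi i) y).1
  have hin' : ∀ y : L, ∀ i, inner ℝ (Fs B e (xi B J g i X)) (Fs B e y) = B y (xi B J g i X) :=
    fun y i => (h.fr.inner_fs_fs hH (hxi i) y).2
  have hGf : ∀ u, Fs B e (GpO B J p' u) = B p' u • Fs B e p' + ∑ i, B (J i p') u • Fs B e (J i p') := by
    intro u
    have h2 : Fs B e (GpO B J p' u) = FsL B e (GpO B J p' u) := rfl
    rw [h2, GpO_apply]
    simp only [map_add, map_smul, map_sum]
    rfl
  have hW : Fs B e (WW B J lam g (GpO B J p') X) = Fs B e (GpO B J p' n) := by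
    have h2 : Fs B e (WW B J lam g (GpO B J p') X) = FsL B e (WW B J lam g (GpO B J p') X) := rfl
    rw [h2]
    unfold WW
    rw [hxs]
    simp only [map_add, map_smul, map_sum]
    have h3 : FsL B e X = 0 := hfz.1
    have h4 : ∀ k, FsL B e (J k X) = 0 := hfz.2.1
    have h5 : FsL B e (nu B g X) = 0 := hfz.2.2
    rw [h3, h5, Finset.sum_eq_zero fun k _ => by rw [h4 k, smul_zero], smul_zero, smul_zero, add_zero,
      add_zero, add_zero]
    rfl
  have hnB : ∀ y : L, B y n = B y ν - lam * B y X := by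
    intro y
    rw [hnd, map_sub, map_smul, smul_eq_mul]
  refine ⟨Fs B e p', B p' ν, - B p' n, fun i => - B (J i p') n,
    ⟨hs0, ?_, ?_, ?_, ?_, ?_, ?_, ?_, ?_, ?_⟩, ?_⟩
  · intro i
    show inner ℝ (Fs B e (xi B J g i X)) (Fs B e p') = 0
    rw [hin']
    have h2 : B p' (xi B J g i X) = - B (J i p') ν := by
      rw [hH.skew i p' ν, neg_neg]
      rfl
    rw [h2, hJ i, neg_zero]
  · intro v
    show opH B e (GpO B J p') v = inner ℝ (Fs B e p') v • Fs B e p' + ∑ i, inner ℝ
      (opH B e (J i) (Fs B e p') + B p' ν • Fs B e (xi B J g i X)) v •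
      (opH B e (J i) (Fs B e p') + B p' ν • Fs B e (xi B J g i X))
    rw [opH_apply, hGf, inner_fs]
    congr 1
    refine Finset.sum_congr rfl fun i _ => ?_
    rw [hP i, inner_fs]
  · show Fs B e (GpO B J p' (nu B g X)) = B p' ν • Fs B e p'
    rw [hGf, Finset.sum_eq_zero fun i _ => by rw [hJ i, zero_smul], add_zero]
  · show Fs B e (WW B J lam g (GpO B J p') X) = -(-B p' n • Fs B e p' + ∑ i, -B (J i p') n •
      (opH B e (J i) (Fs B e p') + B p' ν • Fs B e (xi B J g i X)))
    rw [hW, hGf, neg_add, ← Finset.sum_neg_distrib, neg_smul, neg_neg]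
    congr 1
    refine Finset.sum_congr rfl fun i _ => ?_
    rw [hP i, neg_smul, neg_neg]
  · show - B (GpO B J p' (nu B g X)) (nv B lam g X) = B p' ν * -B p' n
    rw [GpO_B, Finset.sum_eq_zero fun i _ => by rw [hJ i, zero_mul], add_zero]
    ring
  · show B (GpO B J p' (nv B lam g X)) (nv B lam g X) = (-B p' n) ^ 2 + ∑ i, (-B (J i p') n) ^ 2
    rw [GpO_B]
    congr 1
    · ring
    · exact Finset.sum_congr rfl fun i _ => by ring
  · intro i
    show lam⁻¹ * B (WW B J lam g (GpO B J p') X) (xi B J g i X) = -(B p' ν * -B (J i p') n / lam)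
    rw [← hin, hW, hGf, inner_add_left, inner_smul_left, sum_inner, hin]
    have h2 : B p' (xi B J g i X) = 0 := by
      have h3 : B p' (xi B J g i X) = - B (J i p') ν := by
        rw [hH.skew i p' ν, neg_neg]
        rfl
      rw [h3, hJ i, neg_zero]
    have h4 : ∀ k, inner ℝ (B (J k p') n • Fs B e (J k p')) (Fs B e (xi B J g i X)) =
        if i = k then B (J k p') n * B p' ν else 0 := by
      intro k
      rw [inner_smul_left, hin]
      have h5 : B (J k p') (xi B J g i X) = if i = k then B p' ν else 0 := by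
        have h6 : B (J k p') (xi B J g i X) = - B (J i (J k p')) ν := by
          rw [hH.skew i (J k p') ν, neg_neg]
          rfl
        rw [h6, hH.mul i k p']
        simp only [map_add, map_sum, map_smul, ContinuousLinearMap.add_apply,
          ContinuousLinearMap.sum_apply, ContinuousLinearMap.smul_apply, smul_eq_mul]
        rw [Finset.sum_eq_zero fun l _ => by rw [hJ l, mul_zero], add_zero]
        split_ifs
        · simp
        · simp
      rw [h5]
      simp
    rw [Finset.sum_congr rfl fun k _ => h4 k, Finset.sum_ite_eq, if_pos (Finset.mem_univ i), h2]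
    simp only [mul_zero, zero_add]
    ring
  · show (-B p' n - (lam - 1) * B p' ν) ^ 2 + ∑ i, (-B (J i p') n) ^ 2 ≤ lam ^ 2
    have h2 : ∀ y : L, lam * B y (ν - X) = (lam - 1) * B y ν + B y n := by
      intro y
      rw [hnB, map_sub]
      ring
    have h3 : (-B p' n - (lam - 1) * B p' ν) ^ 2 + ∑ i, (-B (J i p') n) ^ 2 =
        lam ^ 2 * B (GpO B J p' (ν - X)) (ν - X) := by
      rw [GpO_B, mul_add, Finset.mul_sum]
      congr 1
      · have h4 := h2 p'
        have h5 : -B p' n - (lam - 1) * B p' ν = -(lam * B p' (ν - X)) := by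
          rw [h4]
          ring
        rw [h5]
        ring
      · refine Finset.sum_congr rfl fun i _ => ?_
        have h4 := h2 (J i p')
        rw [hJ i] at h4
        have h5 : -B (J i p') n = -(lam * B (J i p') (ν - X)) := by
          rw [h4]
          ring
        rw [h5]
        ring
    rw [h3]
    have h4 : 0 ≤ lam ^ 2 := sq_nonneg _
    nlinarith
  · show lam ^ 2 * ‖Fs B e p'‖ ^ 2 + (lam ^ 2 - 1) * (B p' ν) ^ 2 =
      2 * (- B (GpO B J p' (nu B g X)) (nv B lam g X) +
        (B (GpO B J p' (nv B lam g X)) (nv B lam g X) - lam ^ 2) / 2)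
    have h2 := h.fr.decomp p'
    have h3 : B p' p' = -(B p' X * B p' X) - ∑ k, B p' (J k X) * B p' (J k X) + B p' ν * B p' ν +
        ‖Fs B e p'‖ ^ 2 := by
      conv_lhs => arg 2; rw [h2]
      simp only [map_add, map_sub, map_neg, map_smul, map_sum, smul_eq_mul]
      rw [← inner_fs, real_inner_self_eq_norm_sq]
    have h4 : B (GpO B J p' (nu B g X)) (nv B lam g X) = B p' ν * B p' n := by
      rw [GpO_B, Finset.sum_eq_zero fun i _ => by rw [hJ i, zero_mul], add_zero]
    have h5 : B (GpO B J p' (nv B lam g X)) (nv B lam g X) =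
        B p' n * B p' n + lam ^ 2 * ∑ k, B p' (J k X) * B p' (J k X) := by
      rw [GpO_B, Finset.mul_sum]
      congr 1
      refine Finset.sum_congr rfl fun i _ => ?_
      have h6 : B p' (J i X) = - B (J i p') X := by
        rw [hH.skew i p' X, neg_neg]
      have h7 := hnB (J i p')
      rw [hJ i] at h7
      show B (J i p') n * B (J i p') n = _
      rw [h6, h7]
      ring
    have h8 := hnB p'
    rw [h4, h5]
    rw [hpp] at h3
    have h9 : lam * B p' X = B p' ν - B p' n := by rw [h8]; ring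
    have h10 : lam ^ 2 * (B p' X * B p' X) = (B p' ν - B p' n) ^ 2 := by rw [← h9]; ring
    linear_combination (-(lam ^ 2)) * h3 + h10
  · rw [GpO_B, Finset.sum_eq_zero fun i _ => by rw [hJ i, zero_mul], add_zero, sq]

/-- `A ≥ (lam - 1) s²` -/
theorem Nf.A_ge {H : Type*} [NormedAddCommGroup H] [InnerProductSpace ℝ H] {d : Dat H ι} {P0 : H}
    {s n0 : ℝ} {n : ι → ℝ} (hN : Nf d P0 s n0 n) (hlam : 1 < d.lam) : (d.lam - 1) * s ^ 2 ≤ d.A := by
  have h1 := hN.ball
  have h2 := hN.nrm
  rw [hN.A, hN.ρ] at h2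
  rw [hN.A]
  have h3 : 0 ≤ d.lam ^ 2 * ‖P0‖ ^ 2 := by positivity
  have h4 : d.lam * ((d.lam - 1) * s ^ 2) ≤ d.lam * (s * n0) := by nlinarith
  exact le_of_mul_le_mul_left h4 (by linarith)

/-- if `h(p, ν) = 0` then `p` lies in the line of `X` -/
theorem Pnt.line (h : Pnt B J c lam g U (GpO B J p) X e) [Nonempty ι] (hp : B p p = -1)
    (hball : B (GpO B J p (nu B g X - X)) (nu B g X - X) ≤ 1)
    (h0 : B (GpO B J p (nu B g X)) (nu B g X) = 0) :
    p = Rq J (-(B p X)) (fun i => -(B p (J i X))) X := by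
  have hH := h.hH
  rw [GpO_B] at h0 hball
  have h1 : 0 ≤ ∑ i, B (J i p) (nu B g X) * B (J i p) (nu B g X) :=
    Finset.sum_nonneg fun i _ => mul_self_nonneg _
  have h2 : B p (nu B g X) * B p (nu B g X) = 0 := by nlinarith [mul_self_nonneg (B p (nu B g X))]
  have h3 : ∑ i, B (J i p) (nu B g X) * B (J i p) (nu B g X) = 0 := by
    rw [h2, zero_add] at h0
    exact h0
  have h4 : B p (nu B g X) = 0 := mul_self_eq_zero.1 h2
  have h5 : ∀ i, B (J i p) (nu B g X) = 0 := fun i =>
    mul_self_eq_zero.1 ((Finset.sum_eq_zero_iff_of_nonneg fun i _ => mul_self_nonneg _).1 h3 i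
      (Finset.mem_univ i))
  have h6 := h.fr.decomp p
  have h7 : B p p = -(B p X * B p X) - ∑ k, B p (J k X) * B p (J k X) +
      B p (nu B g X) * B p (nu B g X) + ‖Fs B e p‖ ^ 2 := by
    conv_lhs => arg 2; rw [h6]
    simp only [map_add, map_sub, map_neg, map_smul, map_sum, smul_eq_mul]
    rw [← inner_fs, real_inner_self_eq_norm_sq]
  have h8 : B p X * B p X + ∑ k, B p (J k X) * B p (J k X) ≤ 1 := by
    have h9 : ∀ i, B (J i p) (nu B g X - X) * B (J i p) (nu B g X - X) =
        B p (J i X) * B p (J i X) := by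
      intro i
      rw [map_sub, h5 i, hH.skew i p X]
      ring
    rw [map_sub, h4, Finset.sum_congr rfl fun i _ => h9 i] at hball
    linarith
  rw [hp, h2] at h7
  have h10 : ‖Fs B e p‖ ^ 2 = 0 := by nlinarith [sq_nonneg ‖Fs B e p‖]
  have h11 : Fs B e p = 0 := norm_eq_zero.1 (pow_eq_zero_iff two_ne_zero |>.1 h10)
  have h12 : Fe e (Fs B e p) = 0 := by
    rw [h11]
    exact (FeL e).map_zero
  rw [h12, h4, zero_smul, add_zero, add_zero] at h6
  rw [Rq_apply]
  conv_lhs => rw [h6]
  rw [neg_smul, sub_eq_add_neg, ← Finset.sum_neg_distrib]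
  congr 1
  exact Finset.sum_congr rfl fun i _ => (neg_smul _ _).symm

end Pool.Agent.Helper77.JH
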