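import Pool.Agent.Helper59.JH.Fin

/-! # JH: positivity (part B: `Helper59/JH`) -/

set_option autoImplicit false
set_option linter.unusedSectionVars false
set_option linter.unusedVariables false

namespace Pool.Agent.Helper77.JH

variable {H : Type*} [NormedAddCommGroup H] [InnerProductSpace ℝ H] [FiniteDimensional ℝ H]
variable {ι : Type*} [Fintype ι] [DecidableEq ι]

/-- part B: the quadratic form is positive definite in the region -/
theorem Rul.pos {d : Dat H ι} (h : Rul d) {P0 : H} {s n0 : ℝ} {n : ι → ℝ} (hN : Nf d P0 s n0 n)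
    (hlam : 1 < d.lam) (h3 : Fintype.card ι = 3) {M : ℝ} (hM : 4 ≤ M)
    (hf : (Module.finrank ℝ H : ℝ) = 2 * M - 1) :
    0 ≤ d.Qf M ∧ (0 < d.A → d.Qf M = 0 → d.T = 0) :=
  Pool.Agent.Helper59.JH.pos3 h hN hlam h3 hM

end Pool.Agent.Helper77.JH
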