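import Pool.Agent.Helper77.JH.C5
import Pool.Agent.Helper77.JH.C11
import Pool.Agent.Helper77.JH.A9
import Pool.Agent.Helper77.JH.Nf1
import Pool.Agent.Helper77.JH.Pos

/-! # JH: the divergence at a point -/

set_option autoImplicit false
set_option linter.unusedSectionVars false
set_option linter.unusedVariables false

namespace Pool.Agent.Helper77.JH

open Pool.Agent.Helper77.JE (Hf Pt Gd rr nu NN tt xs SS)

variable {L : Type*} [NormedAddCommGroup L] [NormedSpace ℝ L] [FiniteDimensional ℝ L]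
variable {ι : Type*} [Fintype ι] [DecidableEq ι] {κ : Type*} [Fintype κ] [DecidableEq κ]
variable {B : L →L[ℝ] L →L[ℝ] ℝ} {J : ι → L →L[ℝ] L} {c : ι → ι → ι → ℝ} {lam M : ℝ} {g : L → L}
variable {U : Set L} {X p : L} {e : κ ⊕ ι → L}

/-- the trace of the derivative of the field is not negative, and `T = 0` if it is zero and `p` is not in the line of `X` -/
theorem Pnt.pos (h : Pnt B J c lam g U (GpO B J p) X e) (h3 : Fintype.card ι = 3)
    (hp : B p p = -1) (hball : B (GpO B J p (nu B g X - X)) (nu B g X - X) ≤ 1)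
    (hlam : 1 < lam) (hM : 4 ≤ M) (hf : (Fintype.card κ : ℝ) + 3 = 2 * M - 1) :
    0 ≤ LinearMap.trace ℝ L (fderiv ℝ (VQ B J lam M g (GpO B J p)) X : L →ₗ[ℝ] L) ∧
      (LinearMap.trace ℝ L (fderiv ℝ (VQ B J lam M g (GpO B J p)) X : L →ₗ[ℝ] L) = 0 →
        (∀ q0 q, p ≠ Rq J q0 q X) → ∀ w, HzQ B J X (nu B g X) w → TT B J lam g X w = 0) := by
  have hne : Nonempty ι := by
    rw [← Fintype.card_pos_iff, h3]
    norm_num
  obtain ⟨P0, s, n0, n, hN, hs⟩ := h.nf hp hball
  have hR := h.rul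
  have hfin : (Module.finrank ℝ (EuclideanSpace ℝ (κ ⊕ ι)) : ℝ) = 2 * M - 1 := by
    rw [finrank_euclideanSpace, Fintype.card_sum, h3, ← hf]
    push_cast
    ring
  have hpos := hR.pos hN (show 1 < (dat B J c lam g (GpO B J p) X e).lam from hlam) h3 hM hfin
  have htr := h.trace_VQ M
  rw [hR.div_V3 hfin] at htr
  have hrr : 0 < rr B g X := (h.hG (Classical.arbitrary ι)).rr_pos h.mem
  rw [htr]
  refine ⟨mul_nonneg hrr.le hpos.1, fun h0 hne w hw => ?_⟩
  have hA : 0 < (dat B J c lam g (GpO B J p) X e).A := by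
    have hs0 : 0 < s ^ 2 := by
      refine lt_of_le_of_ne (sq_nonneg s) fun h4 => ?_
      rw [hs] at h4
      exact hne _ _ (h.line hp hball h4.symm)
    have h5 := hN.A_ge (show 1 < (dat B J c lam g (GpO B J p) X e).lam from hlam)
    have h6 : 0 < ((dat B J c lam g (GpO B J p) X e).lam - 1) * s ^ 2 :=
      mul_pos (sub_pos.2 hlam) hs0
    linarith
  have h1 := hpos.2 hA ((mul_eq_zero.1 h0).resolve_left hrr.ne')
  have h2 : Fs B e (TT B J lam g X w) = 0 := by
    have h3 : (dat B J c lam g (GpO B J p) X e).T (Fs B e w) = 0 := by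
      rw [h1]
      rfl
    have h4 : (dat B J c lam g (GpO B J p) X e).T (Fs B e w) =
        Fs B e (TT B J lam g X (Fe e (Fs B e w))) := opH_apply _ _
    rw [h4, h.fr.fe_fs hw] at h3
    exact h3
  have h5 := h.fr.fe_fs (TT_hz h.hG h.hH lam h.mem hw)
  rw [← h5, h2]
  exact (FeL e).map_zero

end Pool.Agent.Helper77.JH
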