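import Pool.Agent.Helper77.JH.C12
import Pool.Agent.Helper77.JH.Nf1
import Pool.Agent.Helper64.JH.Lall

/-! # JH: the hypotheses and the field on the ball -/

set_option autoImplicit false
set_option linter.unusedSectionVars false
set_option linter.unusedVariables false

open Filter Topology Set Quaternion
open scoped ContDiff

namespace Pool.Agent.Helper77.JH

open Pool.Agent.Helper77.JE (Hf Pt Gd rr nu NN tt xs SS)
open Pool.Agent.Helper41.ALX (divg Vertical ballMetric meanCurv radial)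
open Pool.Agent.Helper64.JH (Qs BQ RL JQ pr io GG UU dn mc cQ hqQ gdQ)

variable {E : Type*} [NormedAddCommGroup E] [InnerProductSpace ℝ E] [FiniteDimensional ℝ E]

/-- the set where everything is defined -/
def OO (ρ : E → ℝ) : Set E := {z | ‖z‖ < 1 ∧ fderiv ℝ ρ z ≠ 0}

/-- the hypotheses -/
structure Hyp (R : ℍ[ℝ] →L[ℝ] E →L[ℝ] E) (m : E →L[ℝ] E →L[ℝ] ℍ[ℝ]) (ρ : E → ℝ) (k : ℕ) (lam : ℝ)
    (p : ℍ[ℝ] × E) : Prop where
  qs : Qs R m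
  dim : Module.finrank ℝ E + 4 = 2 * k
  two : 6 ≤ k
  one : 1 < lam
  smooth : ContDiffOn ℝ 3 ρ (Metric.ball 0 1)
  reg : ∀ z : E, ‖z‖ < 1 → ρ z = 0 → fderiv ℝ ρ z ≠ 0
  curv : ∀ z : E, ‖z‖ < 1 → ρ z = 0 → mc R ρ z = ((2 * k - 5 : ℝ)) * lam + 3 * lam⁻¹
  pp : BQ E p p = -1
  cen : ∀ z : E, ‖z‖ < 1 → ρ z = 0 →
    BQ E p (nu (BQ E) (GG R ρ) (io z) - xs (BQ E) (io z)) ^ 2 +
      ∑ i, BQ E (JQ R i p) (nu (BQ E) (GG R ρ) (io z) - xs (BQ E) (io z)) ^ 2 ≤ 1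

variable {R : ℍ[ℝ] →L[ℝ] E →L[ℝ] E} {m : E →L[ℝ] E →L[ℝ] ℍ[ℝ]} {ρ : E → ℝ} {k : ℕ} {lam : ℝ}
variable {p : ℍ[ℝ] × E}

/-- the field on the ball; `M = k - 2` -/
noncomputable def fu (R : ℍ[ℝ] →L[ℝ] E →L[ℝ] E) (ρ : E → ℝ) (k : ℕ) (lam : ℝ) (p : ℍ[ℝ] × E)
    (z : E) : E :=
  ((1 - ‖z‖ ^ 2) ^ k)⁻¹ • dn R (VQ (BQ E) (JQ R) lam (k - 2) (GG R ρ) (GpO (BQ E) (JQ R) p)) z

/-- piece `JH-E1` (a): compare `oo_open`, `io_UU` in Helper77/JE/Fin.lean -/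
theorem oo_open (h : Hyp R m ρ k lam p) : IsOpen (OO ρ) := by
  have h1 : ContinuousOn (fderiv ℝ ρ) (Metric.ball (0 : E) 1) :=
    (h.smooth.fderiv_of_isOpen (m := 2) Metric.isOpen_ball (by norm_num)).continuousOn
  have h2 := h1.isOpen_inter_preimage Metric.isOpen_ball
    (isOpen_compl_singleton (x := (0 : E →L[ℝ] ℝ)))
  have h3 : OO ρ = Metric.ball (0 : E) 1 ∩ fderiv ℝ ρ ⁻¹' {(0 : E →L[ℝ] ℝ)}ᶜ := by
    ext z
    simp [OO]
  rw [h3]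
  exact h2

theorem io_UU (h : Hyp R m ρ k lam p) {z : E} (hz : z ∈ OO ρ) : io z ∈ UU R ρ := by
  refine ⟨?_, ?_⟩
  · have h1 := Pool.Agent.Helper64.JH.tt_io z
    unfold tt at h1
    have h2 := hz.1
    have h3 := norm_nonneg z
    nlinarith
  · rw [Pool.Agent.Helper64.JH.pr_io h.qs]
    exact hz.2

/-- (b): `VQ_c1`; compare `fu_c1` -/
theorem fu_c1 (h : Hyp R m ρ k lam p) : ContDiffOn ℝ 1 (fu R ρ k lam p) (OO ρ) := by
  have hG := fun i => gdQ h.qs h.smooth i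
  have hio : ContDiff ℝ 1 (fun z : E => (io z : ℍ[ℝ] × E)) := by
    unfold io
    fun_prop
  have hV : ContDiffOn ℝ 1 (fun z : E => VQ (BQ E) (JQ R) lam (k - 2) (GG R ρ)
      (GpO (BQ E) (JQ R) p) (io z)) (OO ρ) :=
    (VQ_c1 hG (hqQ h.qs) lam (k - 2) (GpO (BQ E) (JQ R) p)).comp hio.contDiffOn
      fun z hz => io_UU h hz
  have h1 : ContDiffOn ℝ 1 (fun z : E => (VQ (BQ E) (JQ R) lam (k - 2) (GG R ρ)
      (GpO (BQ E) (JQ R) p) (io z)).1) (OO ρ) := contDiff_fst.comp_contDiffOn hV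
  have h2 : ContDiffOn ℝ 1 (fun z : E => (VQ (BQ E) (JQ R) lam (k - 2) (GG R ρ)
      (GpO (BQ E) (JQ R) p) (io z)).2) (OO ρ) := contDiff_snd.comp_contDiffOn hV
  have h5 : ContDiffOn ℝ 1 (fun z : E => ((1 - ‖z‖ ^ 2) ^ k)⁻¹) (OO ρ) := by
    refine ContDiffOn.inv ?_ fun z hz => ?_
    · exact ((contDiff_const.sub (contDiff_norm_sq ℝ)).pow k).contDiffOn
    · have h6 := hz.1
      have h7 := norm_nonneg z
      have h8 : 0 < 1 - ‖z‖ ^ 2 := by nlinarith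
      exact (pow_pos h8 _).ne'
  have h6 : ContDiffOn ℝ 1 (fun z : E => R (VQ (BQ E) (JQ R) lam (k - 2) (GG R ρ)
      (GpO (BQ E) (JQ R) p) (io z)).1 z) (OO ρ) :=
    (R.contDiff.comp_contDiffOn h1).clm_apply contDiffOn_id
  exact h5.smul (h2.sub h6)

/-- (c): `VQ_hz`, `Dpr_io`, `GG_B`; compare `fu_tan` -/
theorem fu_tan (h : Hyp R m ρ k lam p) {z : E} (hz : z ∈ OO ρ) :
    fderiv ℝ ρ z (fu R ρ k lam p z) = 0 := by
  have hG := fun i => gdQ h.qs h.smooth i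
  have hH := hqQ h.qs
  have hX := io_UU h hz
  have hV := (VQ_hz (M := (k : ℝ) - 2) hG hH lam (gs_GpO hH p) hX).2.2
  have hr := (hG 0).rr_pos hX
  have hX0 : (io z : ℍ[ℝ] × E).1 ≠ 0 := by simp [io]
  have g1 : HasFDerivAt (pr R) (fderiv ℝ (pr R) (io z)) (io z) :=
    (Pool.Agent.Helper64.JH.pr_diff R hX0).hasFDerivAt
  have g2 : HasFDerivAt ρ (fderiv ℝ ρ z) (pr R (io z)) := by
    rw [Pool.Agent.Helper64.JH.pr_io h.qs]
    exact ((h.smooth.contDiffAt (Metric.isOpen_ball.mem_nhds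
      (mem_ball_zero_iff.2 hz.1))).differentiableAt (by norm_num)).hasFDerivAt
  have g3 : fderiv ℝ (Pool.Agent.Helper64.JH.ff R ρ) (io z) =
      (fderiv ℝ ρ z).comp (fderiv ℝ (pr R) (io z)) :=
    (g2.comp (io z) g1).fderiv
  unfold nu at hV
  rw [map_smul, smul_eq_mul] at hV
  have hV2 := (mul_eq_zero.1 hV).resolve_left (inv_pos.2 hr).ne'
  rw [hH.symm, Pool.Agent.Helper64.JH.GG_B, g3, ContinuousLinearMap.comp_apply,
    Pool.Agent.Helper64.JH.Dpr_io h.qs] at hV2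
  unfold fu
  rw [map_smul, smul_eq_mul]
  unfold dn
  rw [hV2, mul_zero]

end Pool.Agent.Helper77.JH
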