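import Pool.Agent.Helper77.JH.C11

/-! # JH: the hypotheses at a point of the cone -/

set_option autoImplicit false
set_option linter.unusedSectionVars false
set_option linter.unusedVariables false

namespace Pool.Agent.Helper77.JH

open Pool.Agent.Helper77.JE (Hf Pt Gd rr nu NN tt xs SS)

variable {L : Type*} [NormedAddCommGroup L] [NormedSpace ℝ L] [FiniteDimensional ℝ L]
variable {ι : Type*} [Fintype ι] [DecidableEq ι] {κ : Type*} [Fintype κ] [DecidableEq κ]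
variable {B : L →L[ℝ] L →L[ℝ] ℝ} {J : ι → L →L[ℝ] L} {c : ι → ι → ι → ℝ} {lam M : ℝ} {g : L → L}
variable {U : Set L} {Gp : L →L[ℝ] L} {X p : L} {e : κ ⊕ ι → L}

private theorem e2_rr (hg : ∀ a : ℝ, 0 < a → ∀ Z, g (a • Z) = a⁻¹ • g Z) {a : ℝ} (ha : 0 < a)
    (Z : L) : rr B g (a • Z) = a⁻¹ * rr B g Z := by
  unfold rr
  rw [hg a ha Z]
  have h : B (a⁻¹ • g Z) (a⁻¹ • g Z) = a⁻¹ ^ 2 * B (g Z) (g Z) := by
    simp only [map_smul, ContinuousLinearMap.smul_apply, smul_eq_mul]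
    ring
  rw [h, Real.sqrt_mul (sq_nonneg _), Real.sqrt_sq (inv_pos.2 ha).le]

private theorem e2_nu (hg : ∀ a : ℝ, 0 < a → ∀ Z, g (a • Z) = a⁻¹ • g Z) {a : ℝ} (ha : 0 < a)
    (Z : L) : nu B g (a • Z) = nu B g Z := by
  unfold nu
  rw [e2_rr hg ha Z, hg a ha Z, smul_smul]
  congr 1
  rw [mul_inv, inv_inv]
  field_simp

private theorem e2_NN (hg : ∀ a : ℝ, 0 < a → ∀ Z, g (a • Z) = a⁻¹ • g Z) {a : ℝ} (ha : 0 < a)
    (Z : L) : NN B g (a • Z) = a⁻¹ • NN B g Z := by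
  unfold NN
  have h1 : (fun Y => nu B g (a • Y)) = nu B g := funext fun Y => e2_nu hg ha Y
  have h2 := fderiv_comp_smul (𝕜 := ℝ) (f := nu B g) (x := Z) a
  rw [h1] at h2
  rw [h2, smul_smul, inv_mul_cancel₀ ha.ne', one_smul]

private theorem e2_tt {a : ℝ} (ha : 0 < a) (Z : L) : √(tt B (a • Z)) = a * √(tt B Z) := by
  have h : tt B (a • Z) = a ^ 2 * tt B Z := by
    unfold tt
    simp only [map_smul, ContinuousLinearMap.smul_apply, smul_eq_mul]
    ring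
  rw [h, Real.sqrt_mul (sq_nonneg _), Real.sqrt_sq ha.le]

/-- piece `JH-E2` (a): compare `Gd.jt` in Helper77/JE/Cal.lean; `FrQ.trace` (C11) for `N` and for `fderiv N u` (`Gd.N2_X`, `Gd.N2_JX`,
`Gd.N2_ν`); `B (N u) (N ν) = ∑ B (N u) e_i B (N ν) e_i` by `FrQ.comp`, `B (N u) X = 0`, `B (N ν) (J_i X) = 0` -/
theorem mk_pnt [Nonempty ι] (hH : Hq B J c) (hG : ∀ i, Gd B (J i) U g) (gs : Gs B J Gp) (lam0 : lam ≠ 0)
    (hX : X ∈ U) (h1 : B X X = -1) (he : FrQ B J X (nu B g X) e)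
    (htr : LinearMap.trace ℝ L (NN B g X : L →ₗ[ℝ] L) =
      ((Fintype.card κ : ℝ) + Fintype.card ι) * lam + Fintype.card ι * lam⁻¹)
    (htr2 : ∀ u, HzQ B J X (nu B g X) u →
      LinearMap.trace ℝ L (fderiv ℝ (NN B g) X u : L →ₗ[ℝ] L) = 0) :
    Pnt B J c lam g U Gp X e := by
  obtain ⟨i0⟩ := ‹Nonempty ι›
  have : Nonempty ι := ⟨i0⟩
  have hP := ptQ hG hH hX
  refine ⟨hH, hG, gs, lam0, hX, h1, he, hP, ?_, ?_⟩
  · have h := he.trace hH (NN B g X)
    rw [htr, hP.Nx, hP.Nn] at h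
    have h2 : ∀ i, B (NN B g X (J i X)) (J i X) = 0 := by
      intro i
      rw [hP.Njx, hH.inv, hH.symm, hP.xn]
    rw [Finset.sum_congr rfl fun i _ => h2 i] at h
    simp only [map_zero, ContinuousLinearMap.zero_apply, Finset.sum_const_zero] at h
    linarith
  · intro u hu
    have h := he.trace hH (fderiv ℝ (NN B g) X u)
    have hu1 : B (nu B g X) u = 0 := by rw [hH.symm]; exact hu.2.2
    have e1 : B (fderiv ℝ (NN B g) X u X) X = 0 := by
      rw [(hG i0).N2_X (hH.hf i0) hX, map_neg, ContinuousLinearMap.neg_apply, hP.NX, hu1]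
      simp
    have e2 : ∀ i, B (fderiv ℝ (NN B g) X u (J i X)) (J i X) = 0 := by
      intro i
      rw [(hG i).N2_JX (hH.hf i) hX, map_sub, ContinuousLinearMap.sub_apply, hH.inv, hP.NX,
        hP.NJX, (hH.hf i).jj, map_neg, hu1]
      simp
    rw [htr2 u hu, e1, (hG i0).N2_ν (hH.hf i0) hX, Finset.sum_congr rfl fun i _ => e2 i] at h
    have e3 : ∀ i, B (NN B g X (nu B g X)) (J i X) = 0 := by
      intro i
      rw [hP.NJX, hH.symm, hH.self0, neg_zero]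
    have e4 : B (NN B g X u) X = 0 := by rw [hP.NX, hu1, neg_zero]
    have e5 : B (NN B g X (nu B g X)) (NN B g X u) =
        ∑ i, B (NN B g X u) (e i) * B (NN B g X (nu B g X)) (e i) := by
      have h6 := congrArg (B (NN B g X (nu B g X))) (he.comp (NN B g X u))
      rw [e4, hP.Nn] at h6
      simp only [map_add, map_sub, map_neg, map_smul, map_sum, smul_eq_mul, zero_smul,
        zero_mul, neg_zero, map_zero, e3, mul_zero, Finset.sum_const_zero] at h6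
      rw [h6]
      ring
    rw [Finset.sum_sub_distrib, ← e5]
    simp only [Finset.sum_const_zero] at h
    linarith

/-- (b): `T` is of degree zero (`a > 0`): `tt (a Z) = a² tt Z`, `xs (a Z) = xs Z`, `nu (a Z) = nu Z`, `NN (a Z) = a⁻¹ NN Z` (`NN_smul` in
Helper64/JH/Ld.lean or Helper77/JE/Lift.lean), `SS (a Z) = SS Z` -/
theorem TT_smul (hg : ∀ a : ℝ, 0 < a → ∀ Z, g (a • Z) = a⁻¹ • g Z) (lam : ℝ) {a : ℝ}
    (ha : 0 < a) (Z : L) : TT B J lam g (a • Z) = TT B J lam g Z ∧ nu B g (a • Z) = nu B g Z ∧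
      xs B (a • Z) = xs B Z := by
  have hnu := e2_nu (B := B) hg ha Z
  have hxs : xs B (a • Z) = xs B Z := by
    unfold xs
    rw [e2_tt ha, smul_smul]
    congr 1
    rw [mul_inv]
    field_simp
  have hSS : SS B g (a • Z) = SS B g Z := by
    unfold SS
    rw [e2_tt ha, e2_NN hg ha, smul_smul]
    congr 1
    field_simp
  refine ⟨?_, hnu, hxs⟩
  unfold TT
  rw [hSS, hnu, hxs]

/-- (c): the derivative of `VQ` is of degree zero (`VQ_smul`, C13) -/
theorem VQ_fderiv_smul (hg : ∀ a : ℝ, 0 < a → ∀ Z, g (a • Z) = a⁻¹ • g Z) (lam M : ℝ) (Gp : L →L[ℝ] L)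
    {a : ℝ} (ha : 0 < a) (Z : L)
    (hV : ∀ b : ℝ, 0 < b → ∀ Y, VQ B J lam M g Gp (b • Y) = b • VQ B J lam M g Gp Y) :
    fderiv ℝ (VQ B J lam M g Gp) (a • Z) = fderiv ℝ (VQ B J lam M g Gp) Z := by
  have h1 : (fun Y => VQ B J lam M g Gp (a • Y)) = a • VQ B J lam M g Gp :=
    funext fun Y => hV a ha Y
  have h2 := fderiv_comp_smul (𝕜 := ℝ) (f := VQ B J lam M g Gp) (x := Z) a
  rw [h1, fderiv_const_smul_field, Pi.smul_apply] at h2
  exact (smul_right_injective _ ha.ne' h2).symm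

end Pool.Agent.Helper77.JH
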