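import Pool.Agent.Helper77.JH.E0
import Pool.Agent.Helper77.JH.E1
import Pool.Agent.Helper77.JH.E2
import Pool.Agent.Helper77.JH.C13
import Pool.Agent.Helper77.JH.C15
import Pool.Agent.Helper77.JE.Meas

/-! # JH: the divergence -/

set_option autoImplicit false
set_option linter.unusedSectionVars false
set_option linter.unusedVariables false

open Filter Topology Set Quaternion
open scoped ContDiff

namespace Pool.Agent.Helper77.JH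

open Pool.Agent.Helper77.JE (Hf Pt Gd rr nu NN tt xs SS divg_zero)
open Pool.Agent.Helper41.ALX (divg Vertical ballMetric meanCurv radial)
open Pool.Agent.Helper64.JH (Qs BQ RL JQ pr io GG UU dn mc cQ hqQ gdQ)

variable {E : Type*} [NormedAddCommGroup E] [InnerProductSpace ℝ E] [FiniteDimensional ℝ E]
variable {R : ℍ[ℝ] →L[ℝ] E →L[ℝ] E} {m : E →L[ℝ] E →L[ℝ] ℍ[ℝ]} {ρ : E → ℝ} {k : ℕ} {lam : ℝ}
variable {p : ℍ[ℝ] × E}

/-- piece `JH-E3` (a) -/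
theorem pr_of_line (h : Hyp R m ρ k lam p) {z : E} {a q0 : ℝ} {q : Fin 3 → ℝ}
    (hp : p = Rq (JQ R) q0 q (a • io z)) : pr R p = z := by
  have h1 : ∀ X : ℍ[ℝ] × E, Rq (JQ R) q0 q X =
      RL R ((q0 : ℍ[ℝ]) + ∑ i, q i • Pool.Agent.Helper64.JH.uq i) X := by
    intro X
    rw [Rq_apply, Pool.Agent.Helper64.JH.RL_add, add_apply,
      Pool.Agent.Helper64.JH.RL_real h.qs, Fin.sum_univ_three, Fin.sum_univ_three,
      Pool.Agent.Helper64.JH.RL_add, Pool.Agent.Helper64.JH.RL_add,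
      Pool.Agent.Helper64.JH.RL_smul, Pool.Agent.Helper64.JH.RL_smul,
      Pool.Agent.Helper64.JH.RL_smul]
    rfl
  have hpp := h.pp
  have hp0 : p ≠ 0 := by
    intro h0
    rw [h0] at hpp
    simp at hpp
  have ha : a ≠ 0 := by
    intro h0
    apply hp0
    rw [hp, h0, zero_smul, map_zero]
  have hq : (q0 : ℍ[ℝ]) + ∑ i, q i • Pool.Agent.Helper64.JH.uq i ≠ 0 := by
    intro h0
    apply hp0
    rw [hp, h1, h0]
    have h2 := Pool.Agent.Helper64.JH.RL_real h.qs 0 (a • (io z : ℍ[ℝ] × E))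
    rw [zero_smul] at h2
    rw [← h2]
    norm_cast
  rw [hp, h1, Pool.Agent.Helper64.JH.pr_RL h.qs hq, Pool.Agent.Helper64.JH.pr_smul h.qs ha,
    Pool.Agent.Helper64.JH.pr_io h.qs]

/-- (b): compare `fu_div` in Helper77/JE/Fin.lean. `X = io z`, `X' = c • X`, `c = (√(1 - ‖z‖²))⁻¹`. Frame at `X'`:
`exists_fr` (Helper64/JH/D5.lean); `mk_pnt` at `X'` (trace: `h.curv`, `mc`, `NN_smul`; `trace_const`); `Pnt.pos` (E0) at `X'` with
`M = k - 2`, `h.cen` (`GpO_B`, `xs X' = X'`), (a); `descent` (`VQ_euler`, `VQ_equiv`, `VQ_hz`); `VQ_fderiv_smul`, `TT_smul` -/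
theorem fu_div (h : Hyp R m ρ k lam p) {z : E} (hz : ‖z‖ < 1) (h0 : ρ z = 0) :
    0 ≤ divg (fu R ρ k lam p) z ∧ (divg (fu R ρ k lam p) z = 0 → pr R p ≠ z →
      ∀ w, HzQ (BQ E) (JQ R) (io z) (nu (BQ E) (GG R ρ) (io z)) w →
        TT (BQ E) (JQ R) lam (GG R ρ) (io z) w = 0) := by
  have hr := h.reg z hz h0
  have hH := hqQ h.qs
  have hG := fun i => gdQ h.qs h.smooth i
  have hs : 0 < 1 - ‖z‖ ^ 2 := by
    have := norm_nonneg z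
    nlinarith
  have htt : tt (BQ E) (io z) = 1 - ‖z‖ ^ 2 := Pool.Agent.Helper64.JH.tt_io z
  have hBX : BQ E (io z) (io z) = ‖z‖ ^ 2 - 1 := by
    have := htt
    unfold tt at this
    linarith
  have hneg : BQ E (io z) (io z) < 0 := by rw [hBX]; linarith
  obtain ⟨c, hc⟩ : ∃ c : ℝ, c = (√(1 - ‖z‖ ^ 2))⁻¹ := ⟨_, rfl⟩
  have hsq : 0 < √(1 - ‖z‖ ^ 2) := Real.sqrt_pos.2 hs
  have hc0 : 0 < c := by rw [hc]; exact inv_pos.2 hsq
  have hci : c⁻¹ = √(1 - ‖z‖ ^ 2) := by rw [hc, inv_inv]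
  have hxs : xs (BQ E) (io z) = c • io z := by
    unfold xs
    rw [htt, hc]
  have hcc : c * c * (1 - ‖z‖ ^ 2) = 1 := by
    have h4 : √(1 - ‖z‖ ^ 2) * √(1 - ‖z‖ ^ 2) = 1 - ‖z‖ ^ 2 := Real.mul_self_sqrt hs.le
    have h5 : c * √(1 - ‖z‖ ^ 2) = 1 := by
      rw [hc]
      exact inv_mul_cancel₀ hsq.ne'
    linear_combination (-(c * c)) * h4 + (c * √(1 - ‖z‖ ^ 2) + 1) * h5
  have hxx : BQ E (c • io z) (c • io z) = -1 := by
    simp only [map_smul, smul_apply, smul_eq_mul]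
    rw [hBX]
    linear_combination -hcc
  have hX : io z ∈ UU R ρ := ⟨hneg, by rw [Pool.Agent.Helper64.JH.pr_io h.qs]; exact hr⟩
  have hX' : c • io z ∈ UU R ρ :=
    ⟨by rw [hxx]; norm_num, by
      rw [Pool.Agent.Helper64.JH.pr_smul h.qs hc0.ne', Pool.Agent.Helper64.JH.pr_io h.qs]
      exact hr⟩
  have hGs : ∀ a : ℝ, 0 < a → ∀ Y, GG R ρ (a • Y) = a⁻¹ • GG R ρ Y :=
    fun a ha Y => Pool.Agent.Helper64.JH.GG_smul h.qs ρ ha Y
  obtain ⟨e1, e2, e3⟩ := Pool.Agent.Helper64.JH.NN_smul (B := BQ E) hGs hc0 (io z)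
  have hP := ptQ hG hH hX'
  obtain ⟨d, e, he, hd⟩ := Pool.Agent.Helper64.JH.exists_fr h.qs hxx hP.nn
    (by rw [hH.symm]; exact hP.xn) (fun i => by rw [hH.symm]; exact hP.jxn i)
  have hdk : d + 8 = 2 * k := by
    have := h.dim
    omega
  have hdR : (d : ℝ) = 2 * k - 8 := by
    have h1 : ((d + 8 : ℕ) : ℝ) = ((2 * k : ℕ) : ℝ) := by rw [hdk]
    push_cast at h1
    linarith
  have htr : LinearMap.trace ℝ _ (NN (BQ E) (GG R ρ) (c • io z) : (ℍ[ℝ] × E) →ₗ[ℝ] (ℍ[ℝ] × E)) =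
      ((Fintype.card (Fin d) : ℝ) + Fintype.card (Fin 3)) * lam + Fintype.card (Fin 3) * lam⁻¹ := by
    have h5 := h.curv z hz h0
    unfold mc at h5
    rw [e2, hci]
    have h6 : ((√(1 - ‖z‖ ^ 2) • NN (BQ E) (GG R ρ) (io z) : (ℍ[ℝ] × E) →L[ℝ] (ℍ[ℝ] × E)) :
        (ℍ[ℝ] × E) →ₗ[ℝ] (ℍ[ℝ] × E)) =
        √(1 - ‖z‖ ^ 2) • (NN (BQ E) (GG R ρ) (io z) : (ℍ[ℝ] × E) →ₗ[ℝ] (ℍ[ℝ] × E)) := rfl
    rw [h6, map_smul, smul_eq_mul, h5, Fintype.card_fin, Fintype.card_fin, hdR]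
    push_cast
    ring
  have htr2 : ∀ u, HzQ (BQ E) (JQ R) (c • io z) (nu (BQ E) (GG R ρ) (c • io z)) u →
      LinearMap.trace ℝ _ (fderiv ℝ (NN (BQ E) (GG R ρ)) (c • io z) u :
        (ℍ[ℝ] × E) →ₗ[ℝ] (ℍ[ℝ] × E)) = 0 := by
    intro u hu
    have h7 : HzQ (BQ E) (JQ R) (io z) (nu (BQ E) (GG R ρ) (io z)) u := by
      refine ⟨?_, fun i => ?_, ?_⟩
      · have h8 := hu.1
        rw [map_smul, smul_eq_mul] at h8
        exact (mul_eq_zero.1 h8).resolve_left hc0.ne'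
      · have h8 := hu.2.1 i
        rw [map_smul, map_smul, smul_eq_mul] at h8
        exact (mul_eq_zero.1 h8).resolve_left hc0.ne'
      · rw [← e1]
        exact hu.2.2
    have h9 := Pool.Agent.Helper64.JH.trace_const h.qs h.smooth hz h0 hr h.curv u h7
    rw [e3]
    have h6 : (((c⁻¹ ^ 2) • fderiv ℝ (NN (BQ E) (GG R ρ)) (io z)) u : (ℍ[ℝ] × E) →L[ℝ] (ℍ[ℝ] × E)) =
        (c⁻¹ ^ 2) • (fderiv ℝ (NN (BQ E) (GG R ρ)) (io z) u) := rfl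
    rw [h6]
    have h10 : (((c⁻¹ ^ 2) • (fderiv ℝ (NN (BQ E) (GG R ρ)) (io z) u) :
        (ℍ[ℝ] × E) →L[ℝ] (ℍ[ℝ] × E)) : (ℍ[ℝ] × E) →ₗ[ℝ] (ℍ[ℝ] × E)) =
        (c⁻¹ ^ 2) • ((fderiv ℝ (NN (BQ E) (GG R ρ)) (io z) u : (ℍ[ℝ] × E) →L[ℝ] (ℍ[ℝ] × E)) :
          (ℍ[ℝ] × E) →ₗ[ℝ] (ℍ[ℝ] × E)) := rfl
    rw [h10, map_smul, h9, smul_zero]
  have hlam0 : lam ≠ 0 := by
    have := h.one
    positivity
  have hPnt := mk_pnt hH hG (gs_GpO hH p) hlam0 hX' hxx he htr htr2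
  have hcen : BQ E (GpO (BQ E) (JQ R) p (nu (BQ E) (GG R ρ) (c • io z) - c • io z))
      (nu (BQ E) (GG R ρ) (c • io z) - c • io z) ≤ 1 := by
    have h1 := h.cen z hz h0
    rw [hxs] at h1
    rw [GpO_B, e1]
    simp only [← sq]
    exact h1
  have hkR : (6 : ℝ) ≤ k := by exact_mod_cast h.two
  obtain ⟨q1, q2⟩ := hPnt.pos (M := (k : ℝ) - 2) (Fintype.card_fin 3) h.pp hcen h.one (by linarith)
    (by rw [Fintype.card_fin, hdR]; ring)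
  have hdiff : DifferentiableAt ℝ (VQ (BQ E) (JQ R) lam ((k : ℝ) - 2) (GG R ρ)
      (GpO (BQ E) (JQ R) p)) (io z) :=
    ((VQ_c1 hG hH lam ((k : ℝ) - 2) (GpO (BQ E) (JQ R) p)).contDiffAt
      ((hG 0).isOpen.mem_nhds hX)).differentiableAt one_ne_zero
  have hdes := Pool.Agent.Helper64.JH.descent h.qs h.dim
    (V := VQ (BQ E) (JQ R) lam ((k : ℝ) - 2) (GG R ρ) (GpO (BQ E) (JQ R) p)) hz hdiff
    (VQ_euler hG hH hGs lam ((k : ℝ) - 2) (GpO (BQ E) (JQ R) p) hX)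
    (fun i => VQ_equiv hG hH (gs_GpO hH p) lam ((k : ℝ) - 2) hX i)
    (VQ_hz hG hH lam ((k : ℝ) - 2) (gs_GpO hH p) hX).1
  have hVs := VQ_fderiv_smul (B := BQ E) (J := JQ R) (g := GG R ρ) hGs lam ((k : ℝ) - 2)
    (GpO (BQ E) (JQ R) p) hc0 (io z)
    (fun b hb Y => VQ_smul hGs lam ((k : ℝ) - 2) (GpO (BQ E) (JQ R) p) hb Y)
  rw [hVs] at q1 q2
  have hfu : divg (fu R ρ k lam p) z = ((1 - ‖z‖ ^ 2) ^ k)⁻¹ * LinearMap.trace ℝ _
      (fderiv ℝ (VQ (BQ E) (JQ R) lam ((k : ℝ) - 2) (GG R ρ) (GpO (BQ E) (JQ R) p)) (io z) :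
        (ℍ[ℝ] × E) →ₗ[ℝ] (ℍ[ℝ] × E)) := hdes
  have hK : 0 < ((1 - ‖z‖ ^ 2) ^ k)⁻¹ := inv_pos.2 (pow_pos hs _)
  rw [hfu]
  refine ⟨mul_nonneg hK.le q1, fun h12 hpz w hw => ?_⟩
  have h13 := (mul_eq_zero.1 h12).resolve_left hK.ne'
  have h14 : HzQ (BQ E) (JQ R) (c • io z) (nu (BQ E) (GG R ρ) (c • io z)) w := by
    refine ⟨?_, fun i => ?_, ?_⟩
    · rw [map_smul, hw.1, smul_zero]
    · rw [map_smul, map_smul, hw.2.1 i, smul_zero]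
    · rw [e1]
      exact hw.2.2
  have h15 := q2 h13 (fun q0 q hq => hpz (pr_of_line h hq)) w h14
  rw [(TT_smul (B := BQ E) (J := JQ R) hGs lam hc0 (io z)).1] at h15
  exact h15

/-- (c): `divg_zero` (Helper77/JE/Meas.lean); compare `T_zero` in Helper77/JE/Fin.lean -/
theorem T_zero0 (h : Hyp R m ρ k lam p)
    (hbd : ∃ r : ℝ, r < 1 ∧ ∀ z ∈ Metric.ball (0 : E) 1, ρ z ≤ 0 → ‖z‖ ≤ r) {z : E}
    (hz : ‖z‖ < 1) (h0 : ρ z = 0) (hzp : pr R p ≠ z) {w : ℍ[ℝ] × E}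
    (hw : HzQ (BQ E) (JQ R) (io z) (nu (BQ E) (GG R ρ) (io z)) w) :
    TT (BQ E) (JQ R) lam (GG R ρ) (io z) w = 0 := by
  have hsub : OO ρ ⊆ Metric.ball (0 : E) 1 := fun y hy => mem_ball_zero_iff.2 hy.1
  have hcomp : IsCompact {y : E | y ∈ OO ρ ∧ ρ y = 0} := by
    obtain ⟨r, hR1, hR⟩ := hbd
    have hsub' : Metric.closedBall (0 : E) r ⊆ Metric.ball (0 : E) 1 :=
      Metric.closedBall_subset_ball hR1
    have e : {y : E | y ∈ OO ρ ∧ ρ y = 0} = Metric.closedBall (0 : E) r ∩ ρ ⁻¹' {0} := by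
      ext y
      constructor
      · rintro ⟨hy, hy0⟩
        exact ⟨mem_closedBall_zero_iff.2 (hR y (hsub hy) hy0.le), hy0⟩
      · rintro ⟨hy, hy0⟩
        have hy1 : ‖y‖ < 1 := mem_ball_zero_iff.1 (hsub' hy)
        exact ⟨⟨hy1, h.reg y hy1 hy0⟩, hy0⟩
    rw [e]
    have hcl : IsClosed (Metric.closedBall (0 : E) r ∩ ρ ⁻¹' {0}) :=
      (h.smooth.continuousOn.mono hsub').preimage_isClosed_of_isClosed
        Metric.isClosed_closedBall isClosed_singleton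
    exact (isCompact_closedBall (0 : E) r).of_isClosed_subset hcl Set.inter_subset_left
  have hd := divg_zero (oo_open h) ((h.smooth.mono hsub).of_le (by norm_num)) hcomp
    (fun y hy => hy.2) (fu_c1 h) (fun y hy => fu_tan h hy)
    (fun y hy hy0 => (fu_div h hy.1 hy0).1) z ⟨hz, h.reg z hz h0⟩ h0
  exact (fu_div h hz h0).2 hd hzp w hw

end Pool.Agent.Helper77.JH
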