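import Pool.Agent.Helper77.JH.E3

/-! # JH: the point `p` on the hypersurface -/

set_option autoImplicit false
set_option linter.unusedSectionVars false
set_option linter.unusedVariables false

open Filter Topology Set Quaternion
open scoped ContDiff

namespace Pool.Agent.Helper77.JH

open Pool.Agent.Helper77.JE (Hf Pt Gd rr nu NN tt xs SS)
open Pool.Agent.Helper64.JH (Qs BQ RL JQ pr io GG UU dn mc cQ hqQ gdQ)

variable {E : Type*} [NormedAddCommGroup E] [InnerProductSpace ℝ E] [FiniteDimensional ℝ E]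
variable {R : ℍ[ℝ] →L[ℝ] E →L[ℝ] E} {m : E →L[ℝ] E →L[ℝ] ℍ[ℝ]} {ρ : E → ℝ} {k : ℕ} {lam : ℝ}
variable {p : ℍ[ℝ] × E}

/-- zeros close to a regular zero -/
private theorem ni_aux {ρ : E → ℝ} (hdim : 2 ≤ Module.finrank ℝ E) {z : E} (hz : ‖z‖ < 1)
    (hs : ContDiffOn ℝ 1 ρ (Metric.ball 0 1)) (h0 : ρ z = 0) (hr : fderiv ℝ ρ z ≠ 0) {δ : ℝ}
    (hδ : 0 < δ) : ∃ y : E, ‖y - z‖ < δ ∧ ‖y‖ < 1 ∧ ρ y = 0 ∧ y ≠ z := by
  obtain ⟨v, hv⟩ : ∃ v, 0 < fderiv ℝ ρ z v := by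
    obtain ⟨v, hv⟩ : ∃ v, fderiv ℝ ρ z v ≠ 0 := by
      by_contra hc
      push Not at hc
      exact hr (ContinuousLinearMap.ext hc)
    rcases lt_or_gt_of_ne hv with h | h
    · exact ⟨-v, by rw [map_neg]; linarith⟩
    · exact ⟨v, h⟩
  have hv0 : v ≠ 0 := by
    intro h
    rw [h, map_zero] at hv
    exact lt_irrefl _ hv
  have hvn : 0 < ‖v‖ := norm_pos_iff.2 hv0
  have hd : HasFDerivAt ρ (fderiv ℝ ρ z) z :=
    ((hs.contDiffAt (Metric.isOpen_ball.mem_nhds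
      (mem_ball_zero_iff.2 hz))).differentiableAt (by norm_num)).hasFDerivAt
  have hline : HasDerivAt (fun s : ℝ => z + s • v) v 0 := by
    have h2 := ((hasDerivAt_id (0 : ℝ)).smul_const v).const_add z
    rw [one_smul] at h2
    exact h2
  have hf : HasDerivAt (fun s : ℝ => ρ (z + s • v)) (fderiv ℝ ρ z v) 0 := by
    have hd' : HasFDerivAt ρ (fderiv ℝ ρ z) (z + (0 : ℝ) • v) := by
      rw [zero_smul, add_zero]
      exact hd
    exact hd'.comp_hasDerivAt (0 : ℝ) hline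
  have hpos : ∀ᶠ s in 𝓝[>] (0 : ℝ), 0 < ρ (z + s • v) ∧ ρ (z - s • v) < 0 := by
    have h1 := (hasDerivAt_iff_tendsto_slope.1 hf)
    have h2 : ∀ᶠ s in 𝓝[≠] (0 : ℝ), 0 < slope (fun s : ℝ => ρ (z + s • v)) 0 s :=
      h1.eventually (lt_mem_nhds hv)
    have h3 : ∀ s : ℝ, slope (fun s : ℝ => ρ (z + s • v)) 0 s = s⁻¹ * ρ (z + s • v) := by
      intro s
      rw [slope_def_field]
      simp only [zero_smul, add_zero, h0, sub_zero]
      rw [div_eq_inv_mul]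
    have h4 : ∀ᶠ s in 𝓝[>] (0 : ℝ), 0 < s⁻¹ * ρ (z + s • v) := by
      refine (h2.filter_mono (nhdsWithin_mono _ fun s hs => ?_)).mono fun s hs => by
        rw [← h3]
        exact hs
      exact (ne_of_gt hs : s ≠ 0)
    have h5 : ∀ᶠ s in 𝓝[>] (0 : ℝ), 0 < (-s)⁻¹ * ρ (z + (-s) • v) := by
      have h6 : Tendsto (fun s : ℝ => -s) (𝓝[>] (0 : ℝ)) (𝓝[≠] (0 : ℝ)) := by
        refine tendsto_nhdsWithin_iff.2 ⟨?_, ?_⟩
        · have h7 : Tendsto (fun s : ℝ => -s) (𝓝 (0 : ℝ)) (𝓝 (-0)) := tendsto_neg 0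
          rw [neg_zero] at h7
          exact h7.mono_left nhdsWithin_le_nhds
        · filter_upwards [self_mem_nhdsWithin] with s hs
          have hs' : (0 : ℝ) < s := hs
          exact (neg_ne_zero.2 hs'.ne' : -s ≠ 0)
      filter_upwards [h6.eventually h2] with s hs
      rw [← h3]
      exact hs
    filter_upwards [h4, h5, self_mem_nhdsWithin] with s h6 h7 h8
    have hs' : (0 : ℝ) < s := h8
    refine ⟨?_, ?_⟩
    · exact (mul_pos_iff_of_pos_left (inv_pos.2 hs')).1 h6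
    · have h9 : (-s)⁻¹ < 0 := inv_lt_zero.2 (neg_neg_of_pos hs')
      have h10 : z + (-s) • v = z - s • v := by rw [neg_smul, sub_eq_add_neg]
      rw [h10] at h7
      exact (neg_iff_neg_of_mul_pos h7).1 h9
  have hsmall : ∀ᶠ s in 𝓝[>] (0 : ℝ), s * ‖v‖ < δ ∧ ‖z‖ + s * ‖v‖ < 1 := by
    have h1 : Tendsto (fun s : ℝ => s * ‖v‖) (𝓝[>] (0 : ℝ)) (𝓝 0) := by
      have h2 : Tendsto (fun s : ℝ => s * ‖v‖) (𝓝 (0 : ℝ)) (𝓝 (0 * ‖v‖)) :=
        tendsto_id.mul_const _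
      rw [zero_mul] at h2
      exact h2.mono_left nhdsWithin_le_nhds
    have h3 : Tendsto (fun s : ℝ => ‖z‖ + s * ‖v‖) (𝓝[>] (0 : ℝ)) (𝓝 (‖z‖ + 0)) :=
      h1.const_add _
    rw [add_zero] at h3
    exact (h1.eventually (gt_mem_nhds hδ)).and (h3.eventually (gt_mem_nhds hz))
  obtain ⟨s, ⟨hs1, hs2⟩, ⟨hs3, hs4⟩, hs5⟩ :=
    (hpos.and (hsmall.and self_mem_nhdsWithin)).exists
  have hs0 : (0 : ℝ) < s := hs5
  have hrank : 1 < Module.rank ℝ E := by
    have h1 : (1 : Cardinal) < (Module.finrank ℝ E : Cardinal) := by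
      exact_mod_cast (show 1 < Module.finrank ℝ E by omega)
    rwa [Module.finrank_eq_rank] at h1
  have hsph := isPreconnected_sphere hrank z (s * ‖v‖)
  have hin : ∀ y ∈ Metric.sphere z (s * ‖v‖), ‖y‖ < 1 := by
    intro y hy
    rw [mem_sphere_iff_norm] at hy
    have h1 : ‖y‖ ≤ ‖y - z‖ + ‖z‖ := by
      have := norm_add_le (y - z) z
      rwa [sub_add_cancel] at this
    rw [hy] at h1
    linarith
  have hcont : ContinuousOn ρ (Metric.sphere z (s * ‖v‖)) :=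
    hs.continuousOn.mono fun y hy => mem_ball_zero_iff.2 (hin y hy)
  have ha : z - s • v ∈ Metric.sphere z (s * ‖v‖) := by
    rw [mem_sphere_iff_norm, sub_sub_cancel_left, norm_neg, norm_smul, Real.norm_of_nonneg hs0.le]
  have hb : z + s • v ∈ Metric.sphere z (s * ‖v‖) := by
    rw [mem_sphere_iff_norm, add_sub_cancel_left, norm_smul, Real.norm_of_nonneg hs0.le]
  obtain ⟨y, hy, hy0⟩ := hsph.intermediate_value ha hb hcont ⟨hs2.le, hs1.le⟩
  have hyn := hy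
  rw [mem_sphere_iff_norm] at hyn
  refine ⟨y, by rw [hyn]; exact hs3, hin y hy, hy0, fun h => ?_⟩
  rw [h, sub_self, norm_zero] at hyn
  have : 0 < s * ‖v‖ := mul_pos hs0 hvn
  linarith

/-- piece `JH-E3b` (a): a regular point of a hypersurface is not isolated in it: for small `ε` the function `ρ` has different signs
at `z ± ε ∇ρ z`, and the sphere is connected (`isPreconnected_sphere`), `intermediate_value` -/
theorem not_isolated {ρ : E → ℝ} (hdim : 2 ≤ Module.finrank ℝ E) {z : E} (hz : ‖z‖ < 1)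
    (hs : ContDiffOn ℝ 1 ρ (Metric.ball 0 1)) (h0 : ρ z = 0) (hr : fderiv ℝ ρ z ≠ 0) :
    ∃ y : ℕ → E, Tendsto y atTop (𝓝 z) ∧ ∀ i, ‖y i‖ < 1 ∧ ρ (y i) = 0 ∧ y i ≠ z := by
  have key : ∀ i : ℕ, ∃ y : E, ‖y - z‖ < 1 / ((i : ℝ) + 1) ∧ ‖y‖ < 1 ∧ ρ y = 0 ∧ y ≠ z :=
    fun i => ni_aux hdim hz hs h0 hr (by positivity)
  choose y hy using key
  refine ⟨y, ?_, fun i => (hy i).2⟩
  rw [tendsto_iff_norm_sub_tendsto_zero]
  exact squeeze_zero (fun i => norm_nonneg _) (fun i => (hy i).1.le)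
    tendsto_one_div_add_atTop_nhds_zero_nat

/-- (b): the projection on the horizontal tangential vectors: `w + (tt)⁻¹ (B(w, X) X + ∑ B(w, J_i X) J_i X) - B(w, ν) ν` -/
noncomputable def pH (R : ℍ[ℝ] →L[ℝ] E →L[ℝ] E) (ρ : E → ℝ) (w : ℍ[ℝ] × E) (z : E) : ℍ[ℝ] × E :=
  w + (1 - ‖z‖ ^ 2)⁻¹ • (BQ E w (io z) • io z + ∑ i, BQ E w (JQ R i (io z)) • JQ R i (io z)) -
    BQ E w (nu (BQ E) (GG R ρ) (io z)) • nu (BQ E) (GG R ρ) (io z)

theorem pH_hz (h : Hyp R m ρ k lam p) {z : E} (hz : z ∈ OO ρ) (w : ℍ[ℝ] × E) :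
    HzQ (BQ E) (JQ R) (io z) (nu (BQ E) (GG R ρ) (io z)) (pH R ρ w z) := by
  have hH := hqQ h.qs
  have hG := fun i => gdQ h.qs h.smooth i
  have hX := io_UU h hz
  have hP := ptQ hG hH hX
  have hn := norm_nonneg z
  have hz1 := hz.1
  have hs : 0 < 1 - ‖z‖ ^ 2 := by nlinarith
  have hBX : BQ E (io z) (io z) = -(1 - ‖z‖ ^ 2) := by
    have h1 : tt (BQ E) (io z) = 1 - ‖z‖ ^ 2 := Pool.Agent.Helper64.JH.tt_io z
    unfold tt at h1
    linarith
  have x1 : ∀ i, BQ E (JQ R i (io z)) (io z) = 0 := fun i => hH.self0 i (io z)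
  have x2 : ∀ i, BQ E (io z) (JQ R i (io z)) = 0 := fun i => by rw [hH.symm]; exact x1 i
  have x3 : ∀ i j, BQ E (JQ R i (io z)) (JQ R j (io z)) =
      if i = j then -(1 - ‖z‖ ^ 2) else 0 := fun i j => by rw [hH.jj, hBX]
  have x4 : BQ E (nu (BQ E) (GG R ρ) (io z)) (io z) = 0 := by rw [hH.symm]; exact hP.xn
  have x5 : ∀ i, BQ E (nu (BQ E) (GG R ρ) (io z)) (JQ R i (io z)) = 0 := fun i => by
    rw [hH.symm]; exact hP.jxn i
  refine ⟨?_, fun i => ?_, ?_⟩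
  · unfold pH
    simp only [map_add, map_sub, map_smul, map_sum, add_apply, sub_apply, smul_apply,
      ContinuousLinearMap.sum_apply, smul_eq_mul, x1, x4, hBX, mul_zero, Finset.sum_const_zero,
      add_zero, sub_zero]
    field_simp
    ring
  · unfold pH
    simp only [map_add, map_sub, map_smul, map_sum, add_apply, sub_apply, smul_apply,
      ContinuousLinearMap.sum_apply, smul_eq_mul, x2, x3, x5, mul_zero, mul_ite,
      Finset.sum_ite_eq', Finset.mem_univ, if_true, zero_add, sub_zero]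
    field_simp
    ring
  · unfold pH
    simp only [map_add, map_sub, map_smul, map_sum, add_apply, sub_apply, smul_apply,
      ContinuousLinearMap.sum_apply, smul_eq_mul, hP.xn, hP.jxn, hP.nn, mul_zero,
      Finset.sum_const_zero, add_zero, mul_one, sub_self]

theorem pH_self (h : Hyp R m ρ k lam p) {z : E} {w : ℍ[ℝ] × E}
    (hw : HzQ (BQ E) (JQ R) (io z) (nu (BQ E) (GG R ρ) (io z)) w) : pH R ρ w z = w := by
  unfold pH
  rw [hw.1, hw.2.2]
  simp only [hw.2.1, zero_smul, Finset.sum_const_zero, add_zero, smul_zero, sub_zero]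

private theorem e3b_TT_c1 {L : Type*} [NormedAddCommGroup L] [NormedSpace ℝ L] {ι : Type*} [Fintype ι]
    [DecidableEq ι] {B : L →L[ℝ] L →L[ℝ] ℝ} {J : ι → L →L[ℝ] L} {g : L → L} {U : Set L}
    [Nonempty ι] (hG : ∀ i, Gd B (J i) U g) (lam : ℝ) : ContDiffOn ℝ 1 (TT B J lam g) U := by
  obtain ⟨i0⟩ := (inferInstance : Nonempty ι)
  have hg := hG i0
  have hrk : ∀ {f h : L → L}, ContDiffOn ℝ 1 f U → ContDiffOn ℝ 1 h U →
      ContDiffOn ℝ 1 (fun Z => (B (f Z)).smulRight (h Z)) U := fun hf hh =>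
    (B.contDiff.comp_contDiffOn hf).smulRight hh
  have ht : ContDiffOn ℝ 1 (tt B) U :=
    ((B.contDiff.comp_contDiffOn contDiffOn_id).clm_apply contDiffOn_id).neg
  have htp : ∀ Z ∈ U, 0 < tt B Z := fun Z hZ => neg_pos.2 (hg.neg Z hZ)
  have hst : ContDiffOn ℝ 1 (fun Z => √(tt B Z)) U := ht.sqrt fun Z hZ => (htp Z hZ).ne'
  have hx : ContDiffOn ℝ 1 (xs B) U :=
    (hst.inv fun Z hZ => (Real.sqrt_pos.2 (htp Z hZ)).ne').smul contDiffOn_id
  have hν : ContDiffOn ℝ 1 (nu B g) U := hg.nu_c2.of_le (by norm_num)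
  have hS : ContDiffOn ℝ 1 (SS B g) U := hst.smul hg.NN_c1
  have hJν : ∀ i, ContDiffOn ℝ 1 (fun Z => J i (nu B g Z)) U := fun i =>
    (J i).contDiff.comp_contDiffOn hν
  have hJx : ∀ i, ContDiffOn ℝ 1 (fun Z => J i (xs B Z)) U := fun i =>
    (J i).contDiff.comp_contDiffOn hx
  have h1 : ContDiffOn ℝ 1 (fun Z => ∑ i, (B (J i (nu B g Z))).smulRight (J i (xs B Z))) U :=
    ContDiffOn.sum fun i _ => hrk (hJν i) (hJx i)
  have h2 : ContDiffOn ℝ 1 (fun Z => ∑ i, (B (J i (nu B g Z))).smulRight (J i (nu B g Z))) U :=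
    ContDiffOn.sum fun i _ => hrk (hJν i) (hJν i)
  exact ((hS.add h1).sub contDiffOn_const).sub (h2.const_smul lam⁻¹)

/-- (c): `z ↦ TT (io z) (pH w z)` is continuous at the points of `OO ρ` (`gdQ`, `Gd.nu_c2`, `Gd.NN_c1`) -/
theorem TT_cont (h : Hyp R m ρ k lam p) {z : E} (hz : z ∈ OO ρ) (w : ℍ[ℝ] × E) :
    ContinuousAt (fun y => TT (BQ E) (JQ R) lam (GG R ρ) (io y) (pH R ρ w y)) z := by
  have hG := fun i => gdQ h.qs h.smooth i
  have hX := io_UU h hz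
  have hU := (hG 0).isOpen.mem_nhds hX
  have hio : Continuous (fun y : E => (io y : ℍ[ℝ] × E)) := by
    unfold io
    fun_prop
  have hT : ContinuousAt (fun y : E => TT (BQ E) (JQ R) lam (GG R ρ) (io y)) z :=
    (((e3b_TT_c1 hG lam).contDiffAt hU).continuousAt).comp (f := fun y : E => (io y : ℍ[ℝ] × E))
      hio.continuousAt
  have hν : ContinuousAt (fun y : E => nu (BQ E) (GG R ρ) (io y)) z :=
    (((hG 0).nu_c2.contDiffAt hU).continuousAt).comp (f := fun y : E => (io y : ℍ[ℝ] × E))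
      hio.continuousAt
  have hn := norm_nonneg z
  have hz1 := hz.1
  have hs : 1 - ‖z‖ ^ 2 ≠ 0 := by
    have : 0 < 1 - ‖z‖ ^ 2 := by nlinarith
    exact this.ne'
  have hin : ContinuousAt (fun y : E => (1 - ‖y‖ ^ 2)⁻¹) z :=
    ContinuousAt.inv₀ (by fun_prop) hs
  have h1 : Continuous fun y : E => BQ E w (io y) • (io y : ℍ[ℝ] × E) +
      ∑ i, BQ E w (JQ R i (io y)) • JQ R i (io y) := by
    fun_prop
  have h2 : ContinuousAt (fun y : E => BQ E w (nu (BQ E) (GG R ρ) (io y))) z :=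
    (BQ E w).continuous.continuousAt.comp hν
  have hp : ContinuousAt (fun y : E => pH R ρ w y) z :=
    (continuousAt_const.add (hin.smul h1.continuousAt)).sub (h2.smul hν)
  exact hT.clm_apply hp

/-- (d): `T_zero0` for `z ≠ pr p`; otherwise the limit along `not_isolated` -/
theorem T_zero (h : Hyp R m ρ k lam p)
    (hbd : ∃ r : ℝ, r < 1 ∧ ∀ z ∈ Metric.ball (0 : E) 1, ρ z ≤ 0 → ‖z‖ ≤ r) {z : E}
    (hz : ‖z‖ < 1) (h0 : ρ z = 0) {w : ℍ[ℝ] × E}
    (hw : HzQ (BQ E) (JQ R) (io z) (nu (BQ E) (GG R ρ) (io z)) w) :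
    TT (BQ E) (JQ R) lam (GG R ρ) (io z) w = 0 := by
  by_cases hzp : pr R p = z
  · have hO : z ∈ OO ρ := ⟨hz, h.reg z hz h0⟩
    have hdim : 2 ≤ Module.finrank ℝ E := by
      have h1 := h.dim
      have h2 := h.two
      omega
    obtain ⟨y, hy, hy'⟩ := not_isolated hdim hz (h.smooth.of_le (by norm_num)) h0
      (h.reg z hz h0)
    have h1 : Tendsto (fun i => TT (BQ E) (JQ R) lam (GG R ρ) (io (y i)) (pH R ρ w (y i)))
        atTop (𝓝 (TT (BQ E) (JQ R) lam (GG R ρ) (io z) (pH R ρ w z))) :=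
      (TT_cont h hO w).tendsto.comp hy
    have h2 : ∀ i, TT (BQ E) (JQ R) lam (GG R ρ) (io (y i)) (pH R ρ w (y i)) = 0 := by
      intro i
      obtain ⟨h3, h4, h5⟩ := hy' i
      exact T_zero0 h hbd h3 h4 (fun h6 => h5 (h6.symm.trans hzp))
        (pH_hz h ⟨h3, h.reg _ h3 h4⟩ w)
    simp only [h2] at h1
    have h3 := tendsto_nhds_unique h1 tendsto_const_nhds
    rw [pH_self h hw] at h3
    exact h3
  · exact T_zero0 h hbd hz h0 hzp hw

end Pool.Agent.Helper77.JH
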