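import Pool.Agent.Helper77.JH.E1

/-! # JH: the centre -/

set_option autoImplicit false
set_option linter.unusedSectionVars false
set_option linter.unusedVariables false

open Filter Topology Set Quaternion
open scoped ContDiff

namespace Pool.Agent.Helper77.JH

open Pool.Agent.Helper77.JE (Hf Pt Gd rr nu NN tt xs SS)
open Pool.Agent.Helper41.ALX (divg Vertical ballMetric meanCurv radial)
open Pool.Agent.Helper64.JH (Qs BQ RL JQ pr io GG UU dn mc cQ hqQ gdQ cq)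

variable {E : Type*} [NormedAddCommGroup E] [InnerProductSpace ℝ E] [FiniteDimensional ℝ E]
variable {R : ℍ[ℝ] →L[ℝ] E →L[ℝ] E} {m : E →L[ℝ] E →L[ℝ] ℍ[ℝ]} {ρ : E → ℝ} {k : ℕ} {lam : ℝ}
variable {p : ℍ[ℝ] × E}

/-- the direction of the centre: `lam x - ν` -/
noncomputable def cc (R : ℍ[ℝ] →L[ℝ] E →L[ℝ] E) (ρ : E → ℝ) (lam : ℝ) (X : ℍ[ℝ] × E) : ℍ[ℝ] × E :=
  lam • xs (BQ E) X - nu (BQ E) (GG R ρ) X

private theorem e4_io_neg {z : E} (hz : ‖z‖ < 1) : BQ E (io z) (io z) < 0 := by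
  have h1 := Pool.Agent.Helper64.JH.tt_io z
  unfold tt at h1
  have h3 := norm_nonneg z
  nlinarith

private theorem e4_xs_B {X : ℍ[ℝ] × E} (hX : BQ E X X < 0) :
    BQ E (xs (BQ E) X) (xs (BQ E) X) = -1 := by
  have h : 0 < tt (BQ E) X := by unfold tt; linarith
  have h2 : √(tt (BQ E) X) * √(tt (BQ E) X) = tt (BQ E) X := Real.mul_self_sqrt h.le
  have h3 : √(tt (BQ E) X) ≠ 0 := (Real.sqrt_pos.2 h).ne'
  unfold xs
  rw [map_smul, map_smul, ContinuousLinearMap.smul_apply, smul_eq_mul, smul_eq_mul]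
  have h4 : BQ E X X = -(√(tt (BQ E) X) * √(tt (BQ E) X)) := by rw [h2]; unfold tt; ring
  rw [h4]
  field_simp

/-- piece `JH-E4` (a): `B c c = 1 - lam²`; compare `cc_B` in Helper77/JE/Fin.lean -/
theorem cc_B (h : Hyp R m ρ k lam p) {z : E} (hz : z ∈ OO ρ) :
    BQ E (cc R ρ lam (io z)) (cc R ρ lam (io z)) = 1 - lam ^ 2 := by
  have hU := io_UU h hz
  have hH := hqQ h.qs
  have hP := ptQ (fun i => gdQ h.qs h.smooth i) hH hU
  have h1 := e4_xs_B (e4_io_neg hz.1)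
  have h2 : BQ E (xs (BQ E) (io z)) (nu (BQ E) (GG R ρ) (io z)) = 0 := by
    unfold xs
    rw [map_smul, ContinuousLinearMap.smul_apply, hP.xn, smul_zero]
  have h3 : BQ E (nu (BQ E) (GG R ρ) (io z)) (xs (BQ E) (io z)) = 0 := by
    rw [hH.symm]; exact h2
  unfold cc
  simp only [map_sub, map_smul, ContinuousLinearMap.sub_apply, ContinuousLinearMap.smul_apply, smul_eq_mul]
  rw [h1, h2, h3, hP.nn]
  ring

/-- (b): the map to the centre is of class `C¹`; compare `cen_c1` -/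
theorem cen_c1 (h : Hyp R m ρ k lam p) :
    ContDiffOn ℝ 1 (fun z : E => pr R (cc R ρ lam (io z))) (OO ρ) := by
  intro z hz
  have hU := io_UU h hz
  have hG := gdQ h.qs h.smooth 0
  have hio : ContDiffAt ℝ 1 (fun z : E => (io z : ℍ[ℝ] × E)) z := by
    unfold io
    fun_prop
  have hneg := e4_io_neg hz.1
  have hxs : ContDiffAt ℝ 1 (xs (BQ E)) (io z) := by
    have ht : ContDiffAt ℝ 1 (fun X : ℍ[ℝ] × E => tt (BQ E) X) (io z) := by
      unfold tt
      fun_prop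
    have h0 : 0 < tt (BQ E) (io z) := by unfold tt; linarith
    have hs : ContDiffAt ℝ 1 (fun X : ℍ[ℝ] × E => √(tt (BQ E) X)) (io z) :=
      ht.sqrt h0.ne'
    exact (hs.inv (Real.sqrt_pos.2 h0).ne').smul contDiffAt_id
  have hnu : ContDiffAt ℝ 1 (nu (BQ E) (GG R ρ)) (io z) :=
    ((hG.nu_c2.contDiffAt (hG.isOpen.mem_nhds hU))).of_le (by norm_num)
  have hcc : ContDiffAt ℝ 1 (cc R ρ lam) (io z) := by
    unfold cc
    exact (hxs.const_smul lam).sub hnu
  have hB := cc_B h hz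
  have hl := h.one
  have hBn : BQ E (cc R ρ lam (io z)) (cc R ρ lam (io z)) < 0 := by
    rw [hB]; nlinarith
  have hpr : ContDiffAt ℝ 1 (pr R) (cc R ρ lam (io z)) :=
    (Pool.Agent.Helper64.JH.pr_smooth R (Pool.Agent.Helper64.JH.pr_ball h.qs hBn).1).of_le
      (by exact_mod_cast le_top)
  exact ((hpr.comp z (hcc.comp z hio))).contDiffWithinAt

private theorem e4_xs_hd {L : Type*} [NormedAddCommGroup L] [NormedSpace ℝ L]
    {B : L →L[ℝ] L →L[ℝ] ℝ} (hs0 : ∀ u v, B u v = B v u) {X : L} (hX : B X X < 0) :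
    ∃ D : L →L[ℝ] L, HasFDerivAt (xs B) D X ∧
      ∀ v, D v = (√(tt B X))⁻¹ • v + ((√(tt B X))⁻¹ * (tt B X)⁻¹ * B X v) • X := by
  have ht : 0 < tt B X := by
    unfold tt
    linarith
  have hs : 0 < √(tt B X) := Real.sqrt_pos.2 ht
  have h1 : HasFDerivAt (fun Y => B Y) B X := B.hasFDerivAt
  have h2 := (h1.clm_apply (hasFDerivAt_id X)).neg
  have h3 := h2.sqrt (show -(B X (id X)) ≠ 0 from ht.ne')
  have h4 := (hasDerivAt_inv (show √(-(B X (id X))) ≠ 0 from hs.ne')).comp_hasFDerivAt X h3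
  have h5 := h4.smul (hasFDerivAt_id X)
  refine ⟨_, h5, fun v => ?_⟩
  have e1 : √(tt B X) ^ 2 = tt B X := Real.sq_sqrt ht.le
  have e2 : √(-(B X X)) = √(tt B X) := rfl
  simp only [ContinuousLinearMap.add_apply, ContinuousLinearMap.smul_apply,
    ContinuousLinearMap.neg_apply, ContinuousLinearMap.smulRight_apply, id_eq,
    ContinuousLinearMap.comp_apply, ContinuousLinearMap.id_apply, Function.comp,
    ContinuousLinearMap.flip_apply, e2, e1, smul_eq_mul]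
  rw [hs0 v X]
  congr 1
  congr 1
  have e3 : √((-fun y => (B y) y) X) = √(tt B X) := rfl
  rw [e3, one_div, mul_inv]
  ring

private theorem e4_cc_hd {R : ℍ[ℝ] →L[ℝ] E →L[ℝ] E} {ρ : E → ℝ}
    (hG : ∀ i, Gd (BQ E) (JQ R i) (UU R ρ) (GG R ρ)) (lam : ℝ) {X : ℍ[ℝ] × E} (hX : X ∈ UU R ρ) :
    ∃ D : (ℍ[ℝ] × E) →L[ℝ] (ℍ[ℝ] × E), HasFDerivAt (cc R ρ lam) D X ∧
      ∀ v, D v = lam • ((√(tt (BQ E) X))⁻¹ • v +
        ((√(tt (BQ E) X))⁻¹ * (tt (BQ E) X)⁻¹ * BQ E X v) • X) - NN (BQ E) (GG R ρ) X v := by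
  obtain ⟨D, hD, hDv⟩ := e4_xs_hd (B := BQ E) Pool.Agent.Helper64.JH.BQ_symm ((hG 0).neg X hX)
  have hn : HasFDerivAt (nu (BQ E) (GG R ρ)) (NN (BQ E) (GG R ρ) X) X :=
    (((hG 0).nu_c2.contDiffAt ((hG 0).isOpen.mem_nhds hX)).differentiableAt
      (by norm_num)).hasFDerivAt
  refine ⟨_, (hD.const_smul lam).sub hn, fun v => ?_⟩
  rw [← hDv]
  rfl

/-- (c): its tangential derivative is zero on the hypersurface; compare `cen_der` in Helper77/JE/Fin.lean. `X = io z`, `w` with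
`dρ w = 0`: `(0, w) = u + a X + ∑ b_i J_i X` with `u` horizontal tangential at `X`. The derivatives of `cc` in the directions `X`,
`J_i X` are `0`, `J_i cc` (`ptQ`: `Nx`, `Njx`). In the direction `u`: `√tt D cc u = lam u - S u` and
`S u = lam u + lam⁻¹ ∑ B(ξ_i, u) ξ_i - ∑ B(ξ_i, u) J_i x` (`hT`, definition of `TT`), so it is `lam⁻¹ ∑ B(ξ_i, u) J_i (lam x - ν)`.
Hence `D cc (0, w)` is a combination of the `J_i cc = RL (uq i) cc`, and `D pr (cc) (RL q cc) = 0` (`Dpr_RL`). -/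
theorem cen_der (h : Hyp R m ρ k lam p)
    (hT : ∀ z : E, ‖z‖ < 1 → ρ z = 0 → ∀ w,
      HzQ (BQ E) (JQ R) (io z) (nu (BQ E) (GG R ρ) (io z)) w →
      TT (BQ E) (JQ R) lam (GG R ρ) (io z) w = 0) {z : E}
    (hz : ‖z‖ < 1) (h0 : ρ z = 0) {w : E} (hw : fderiv ℝ ρ z w = 0) :
    fderiv ℝ (fun z : E => pr R (cc R ρ lam (io z))) z w = 0 := by
  have hj := h.qs
  have hH := hqQ hj
  have hG := fun i => gdQ hj h.smooth i
  have hO : z ∈ OO ρ := ⟨hz, h.reg z hz h0⟩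
  have hX : io z ∈ UU R ρ := io_UU h hO
  have hP := ptQ hG hH hX
  obtain ⟨D, hD, hDv⟩ := e4_cc_hd hG lam hX
  have hxx := (hG 0).neg _ hX
  have ht : 0 < tt (BQ E) (io z) := by
    unfold tt
    linarith
  have hs : 0 < √(tt (BQ E) (io z)) := Real.sqrt_pos.2 ht
  have hcc : BQ E (cc R ρ lam (io z)) (cc R ρ lam (io z)) < 0 := by
    rw [cc_B h hO]
    nlinarith [h.one]
  have hc0 := (Pool.Agent.Helper64.JH.pr_ball hj hcc).1
  have hpr : HasFDerivAt (pr R) (fderiv ℝ (pr R) (cc R ρ lam (io z))) (cc R ρ lam (io z)) :=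
    (Pool.Agent.Helper64.JH.pr_diff R hc0).hasFDerivAt
  have hio : HasFDerivAt (io : E → ℍ[ℝ] × E)
      ((0 : E →L[ℝ] ℍ[ℝ]).prod (ContinuousLinearMap.id ℝ E)) z :=
    (hasFDerivAt_const (1 : ℍ[ℝ]) z).prodMk (hasFDerivAt_id z)
  have hF := hpr.comp z (hD.comp z hio)
  have hF' : fderiv ℝ (fun z : E => pr R (cc R ρ lam (io z))) z = _ := hF.fderiv
  rw [hF']
  show fderiv ℝ (pr R) (cc R ρ lam (io z)) (D (0, w)) = 0
  set X : ℍ[ℝ] × E := io z with hXd
  set v : ℍ[ℝ] × E := (0, w) with hv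
  set a : ℝ := -((tt (BQ E) X)⁻¹ * BQ E X v) with ha
  set b : Fin 3 → ℝ := fun i => -((tt (BQ E) X)⁻¹ * BQ E (JQ R i X) v) with hb
  set ν := nu (BQ E) (GG R ρ) X with hν
  have x1 : BQ E X X = -(tt (BQ E) X) := by
    unfold tt
    ring
  have x2 : ∀ i, BQ E (JQ R i X) X = 0 := fun i => hH.self0 i X
  have x3 : ∀ i, BQ E X (JQ R i X) = 0 := fun i => by rw [hH.symm, x2]
  have x4 : ∀ i k, BQ E (JQ R i X) (JQ R k X) = if i = k then -(tt (BQ E) X) else 0 := fun i k => by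
    rw [hH.jj, x1]
  have hvν : BQ E v ν = 0 := by
    have h1 : DifferentiableAt ℝ ρ z :=
      (h.smooth.contDiffAt (Metric.isOpen_ball.mem_nhds (by simpa using hz))).differentiableAt
        (by norm_num)
    have h2 : BQ E (GG R ρ X) v = 0 := by
      rw [Pool.Agent.Helper64.JH.GG_io hj h1, Pool.Agent.Helper64.JH.BQ_apply]
      have h3 : inner ℝ (gradient ρ z) w = fderiv ℝ ρ z w := by
        unfold gradient
        rw [InnerProductSpace.toDual_symm_apply]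
      simp [hv, h3, hw]
    rw [hH.symm, hν]
    unfold nu
    simp [h2]
  set u : ℍ[ℝ] × E := v - a • X - ∑ i, b i • JQ R i X with hu
  have hvu : v = u + a • X + ∑ i, b i • JQ R i X := by
    rw [hu]
    abel
  have u1 : BQ E u X = 0 := by
    rw [hu]
    simp only [map_sub, map_smul, map_sum, ContinuousLinearMap.sub_apply,
      ContinuousLinearMap.smul_apply, ContinuousLinearMap.sum_apply, smul_eq_mul]
    rw [x1, Finset.sum_eq_zero (fun i _ => by rw [x2, mul_zero]), hH.symm v X, ha]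
    field_simp
    ring
  have u2 : ∀ k, BQ E u (JQ R k X) = 0 := by
    intro k
    rw [hu]
    simp only [map_sub, map_smul, map_sum, ContinuousLinearMap.sub_apply,
      ContinuousLinearMap.smul_apply, ContinuousLinearMap.sum_apply, smul_eq_mul]
    rw [x3, hH.symm v (JQ R k X)]
    have e1 : ∑ i, b i * BQ E (JQ R i X) (JQ R k X) = b k * -(tt (BQ E) X) := by
      rw [Finset.sum_eq_single k]
      · rw [x4, if_pos rfl]
      · intro i _ hik
        rw [x4, if_neg hik, mul_zero]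
      · intro hk
        exact absurd (Finset.mem_univ k) hk
    rw [e1, hb]
    dsimp only
    field_simp
    ring
  have u3 : BQ E u ν = 0 := by
    rw [hu]
    simp only [map_sub, map_smul, map_sum, ContinuousLinearMap.sub_apply,
      ContinuousLinearMap.smul_apply, ContinuousLinearMap.sum_apply, smul_eq_mul]
    rw [hvν, hP.xn, Finset.sum_eq_zero (fun i _ => by rw [hP.jxn, mul_zero])]
    ring
  have hHz : HzQ (BQ E) (JQ R) X ν u := ⟨u1, u2, u3⟩
  have hTu := hT z hz h0 u hHz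
  set s := √(tt (BQ E) X) with hsd
  set β : Fin 3 → ℝ := fun i => BQ E (JQ R i ν) u with hβ
  set Nu := NN (BQ E) (GG R ρ) X u with hNu
  have hTu' : s • Nu + ∑ i, β i • JQ R i (xs (BQ E) X) - lam • u - lam⁻¹ • ∑ i, β i • JQ R i ν = 0 := by
    rw [← hTu]
    simp only [TT, SS, ContinuousLinearMap.sub_apply, ContinuousLinearMap.add_apply,
      ContinuousLinearMap.smul_apply, ContinuousLinearMap.sum_apply,
      ContinuousLinearMap.smulRight_apply, ContinuousLinearMap.id_apply]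
    rfl
  have hNu' : Nu = s⁻¹ • (lam • u + lam⁻¹ • ∑ i, β i • JQ R i ν - ∑ i, β i • JQ R i (xs (BQ E) X)) := by
    have h1 : s • Nu = lam • u + lam⁻¹ • ∑ i, β i • JQ R i ν - ∑ i, β i • JQ R i (xs (BQ E) X) := by
      rw [← sub_eq_zero]
      rw [← hTu']
      abel
    rw [← h1, smul_smul, inv_mul_cancel₀ hs.ne', one_smul]
  have hlam0 : lam ≠ 0 := by linarith [h.one]
  have hxsd : xs (BQ E) X = s⁻¹ • X := rfl
  have hccd : ∀ i, JQ R i (cc R ρ lam X) = lam • s⁻¹ • JQ R i X - JQ R i ν := by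
    intro i
    unfold cc
    rw [map_sub, map_smul, hxsd, map_smul]
  have hDX : D X = 0 := by
    rw [hDv, hP.Nx, x1]
    have : (√(tt (BQ E) X))⁻¹ * (tt (BQ E) X)⁻¹ * -(tt (BQ E) X) = -(√(tt (BQ E) X))⁻¹ := by
      field_simp
    rw [this]
    module
  have hDJ : ∀ i, D (JQ R i X) = JQ R i (cc R ρ lam X) := by
    intro i
    rw [hDv, hP.Njx, x3, hccd]
    module
  have hDu : D u = ∑ i, (s⁻¹ * lam⁻¹ * β i) • JQ R i (cc R ρ lam X) := by
    have e1 : D u = s⁻¹ • (∑ i, β i • JQ R i (xs (BQ E) X) - lam⁻¹ • ∑ i, β i • JQ R i ν) := by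
      rw [hDv, hH.symm X u, u1, ← hNu, hNu']
      module
    have e2 : ∑ i, (s⁻¹ * lam⁻¹ * β i) • JQ R i (cc R ρ lam X) =
        (s⁻¹ * lam⁻¹) • (lam • (∑ i, β i • JQ R i (xs (BQ E) X)) - ∑ i, β i • JQ R i ν) := by
      rw [smul_sub, Finset.smul_sum, Finset.smul_sum, Finset.smul_sum, ← Finset.sum_sub_distrib]
      refine Finset.sum_congr rfl fun i _ => ?_
      rw [hccd, hxsd, map_smul]
      module
    rw [e1, e2]
    match_scalars <;> field_simp
  have hDv1 : D v = ∑ i, (s⁻¹ * lam⁻¹ * β i + b i) • JQ R i (cc R ρ lam X) := by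
    conv_lhs => rw [hvu]
    rw [map_add, map_add, map_smul, map_sum, hDX, hDu, smul_zero, add_zero, ← Finset.sum_add_distrib]
    refine Finset.sum_congr rfl fun i _ => ?_
    rw [map_smul, hDJ, add_smul]
  rw [hDv1, map_sum]
  refine Finset.sum_eq_zero fun i _ => ?_
  rw [map_smul]
  have h7 : fderiv ℝ (pr R) (cc R ρ lam X) (JQ R i (cc R ρ lam X)) = 0 :=
    Pool.Agent.Helper64.JH.Dpr_RL hj hc0 _
  rw [h7, smul_zero]

/-- (d): compare `cq_level` in Helper77/JE/Fin.lean (`cq_symm`, `cq_pr`; `B (io z) (lam x - ν) = - lam √(1 - ‖z‖²)`,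
`B (J_i (io z)) (lam x - ν) = 0`) -/
theorem cq_level (h : Hyp R m ρ k lam p) {z : E} (hz : z ∈ OO ρ) :
    cq R (pr R (cc R ρ lam (io z))) z * (lam ^ 2 - 1) =
      lam ^ 2 * (1 - ‖pr R (cc R ρ lam (io z))‖ ^ 2) * (1 - ‖z‖ ^ 2) := by
  have hl := h.one
  have hH := hqQ h.qs
  have hG := fun i => gdQ h.qs h.smooth i
  have hX := io_UU h hz
  have hP := ptQ hG hH hX
  have hB := cc_B h hz
  have hneg : BQ E (cc R ρ lam (io z)) (cc R ρ lam (io z)) < 0 := by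
    rw [hB]
    nlinarith
  have hz1 : 0 < 1 - ‖z‖ ^ 2 := by
    have h1 := hz.1
    have h2 := norm_nonneg z
    nlinarith
  have htt : tt (BQ E) (io z) = 1 - ‖z‖ ^ 2 := Pool.Agent.Helper64.JH.tt_io z
  have hbx : BQ E (io z) (io z) = -(1 - ‖z‖ ^ 2) := by
    rw [← htt]
    unfold tt
    ring
  have hs : √(1 - ‖z‖ ^ 2) ^ 2 = 1 - ‖z‖ ^ 2 := Real.sq_sqrt hz1.le
  have hs0 : √(1 - ‖z‖ ^ 2) ≠ 0 := (Real.sqrt_pos.2 hz1).ne'
  have e1 : BQ E (io z) (nu (BQ E) (GG R ρ) (io z)) = 0 := hP.xn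
  have e3 : BQ E (io z) (cc R ρ lam (io z)) = -(lam * √(1 - ‖z‖ ^ 2)) := by
    rw [cc, map_sub, map_smul, xs, map_smul, e1, htt, hbx]
    simp only [smul_eq_mul, sub_zero]
    nth_rw 2 [← hs]
    field_simp
  have e4 : ∀ i, BQ E (JQ R i (io z)) (cc R ρ lam (io z)) = 0 := by
    intro i
    rw [cc, map_sub, map_smul, xs, map_smul, hP.jxn, hH.self0]
    simp
  have h3 := Pool.Agent.Helper64.JH.cq_pr (a := z) h.qs hneg
  rw [hB, e3, Finset.sum_eq_zero (fun i _ => by rw [e4]; norm_num)] at h3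
  rw [Pool.Agent.Helper64.JH.cq_symm h.qs]
  have h4 : cq R z (pr R (cc R ρ lam (io z))) * (lam ^ 2 - 1) =
      lam ^ 2 * √(1 - ‖z‖ ^ 2) ^ 2 * (1 - ‖pr R (cc R ρ lam (io z))‖ ^ 2) := by
    linear_combination h3
  rw [h4, hs]
  ring

end Pool.Agent.Helper77.JH
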