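import Pool.Agent.Helper77.JH.E3b
import Pool.Agent.Helper77.JH.E4

/-! # JH: the theorem in the form of the proof -/

set_option autoImplicit false
set_option linter.unusedSectionVars false
set_option linter.unusedVariables false

open Filter Topology Set Quaternion
open scoped ContDiff

namespace Pool.Agent.Helper77.JH

open Pool.Agent.Helper77.JE (Hf Pt Gd rr nu NN tt xs SS const_on_level set_eq)
open Pool.Agent.Helper41.ALX (divg Vertical ballMetric meanCurv radial)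
open Pool.Agent.Helper64.JH (Qs BQ RL JQ pr io GG UU dn mc cQ hqQ gdQ cq cq_convex cq_self pr_ball)

variable {E : Type*} [NormedAddCommGroup E] [InnerProductSpace ℝ E] [FiniteDimensional ℝ E]
variable {R : ℍ[ℝ] →L[ℝ] E →L[ℝ] E} {m : E →L[ℝ] E →L[ℝ] ℍ[ℝ]} {ρ : E → ℝ} {k : ℕ} {lam : ℝ}
variable {p : ℍ[ℝ] × E}

/-- piece `JH-E5`: compare `main` in Helper77/JE/Fin.lean: `T_zero`, `cen_der`, `const_on_level`, `cq_level`, `set_eq` -/
theorem main (h : Hyp R m ρ k lam p)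
    (hbd : ∃ r : ℝ, r < 1 ∧ ∀ z ∈ Metric.ball (0 : E) 1, ρ z ≤ 0 → ‖z‖ ≤ r)
    (hne : ∃ z ∈ Metric.ball (0 : E) 1, ρ z < 0)
    (hcon : IsPreconnected {z ∈ Metric.ball (0 : E) 1 | ρ z = 0}) :
    ∃ c₀ : E, ‖c₀‖ < 1 ∧ ∀ z ∈ Metric.ball (0 : E) 1,
      (ρ z < 0 ↔ cq R c₀ z < lam ^ 2 / (lam ^ 2 - 1) * (1 - ‖c₀‖ ^ 2) * (1 - ‖z‖ ^ 2)) ∧
      (ρ z = 0 ↔ cq R c₀ z = lam ^ 2 / (lam ^ 2 - 1) * (1 - ‖c₀‖ ^ 2) * (1 - ‖z‖ ^ 2)) := by
  have hlam : 0 < lam ^ 2 - 1 := by nlinarith [h.one]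
  have hlam0 : 0 < lam ^ 2 := by nlinarith [h.one]
  have hn : ∀ z : E, z ∈ Metric.ball (0 : E) 1 ↔ ‖z‖ < 1 := fun z => mem_ball_zero_iff
  have hρc : ContinuousOn ρ (Metric.ball 0 1) := h.smooth.continuousOn
  -- the hypersurface is not empty
  have : Nontrivial E := by
    have h1 : 0 < Module.finrank ℝ E := by
      have := h.two
      have := h.dim
      omega
    exact Module.nontrivial_of_finrank_pos h1
  obtain ⟨r, hR, hR2⟩ := hbd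
  obtain ⟨z₁, hz₁, hz₁'⟩ := hne
  obtain ⟨z₀, hz₀, hz₀'⟩ : ∃ z ∈ Metric.ball (0 : E) 1, ρ z = 0 := by
    have hm0 : 0 ≤ max r 0 := le_max_right _ _
    have hm1 : max r 0 < 1 := max_lt hR one_pos
    obtain ⟨x, hx⟩ := exists_norm_eq E (show 0 ≤ (max r 0 + 1) / 2 by linarith)
    have hxb : x ∈ Metric.ball (0 : E) 1 := by
      rw [hn, hx]
      linarith
    have hxp : 0 < ρ x := by
      by_contra hcon
      have h1 := hR2 x hxb (not_lt.1 hcon)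
      have h2 := le_max_left r 0
      rw [hx] at h1
      linarith
    have h1 := (convex_ball (0 : E) 1).isPreconnected.intermediate_value hz₁ hxb hρc
    obtain ⟨z, hz, hz'⟩ := h1 ⟨hz₁'.le, hxp.le⟩
    exact ⟨z, hz, hz'⟩
  have hz₀n : ‖z₀‖ < 1 := (hn z₀).1 hz₀
  have hOO : ∀ z : E, ‖z‖ < 1 → ρ z = 0 → z ∈ OO ρ := fun z hz h0 => ⟨hz, h.reg z hz h0⟩
  have hT := fun (z : E) (hz : ‖z‖ < 1) (h0 : ρ z = 0) w hw => T_zero h ⟨r, hR, hR2⟩ hz h0 (w := w) hw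
  have hset : {z | z ∈ OO ρ ∧ ρ z = 0} = {z ∈ Metric.ball (0 : E) 1 | ρ z = 0} := by
    ext z
    constructor
    · rintro ⟨h1, h2⟩
      exact ⟨(hn z).2 h1.1, h2⟩
    · rintro ⟨h1, h2⟩
      exact ⟨hOO z ((hn z).1 h1) h2, h2⟩
  have hconst := const_on_level (oo_open h)
    ((h.smooth.of_le (by norm_num)).mono fun z hz => (hn z).2 hz.1)
    (fun z hz _ => hz.2) (cen_c1 h)
    (fun z hz h0 w hw => cen_der h hT hz.1 h0 hw) (by rw [hset]; exact hcon)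
  set c₀ : E := pr R (cc R ρ lam (io z₀)) with hc₀
  have hcB := cc_B h (hOO z₀ hz₀n hz₀')
  have hcn : ‖c₀‖ < 1 := by
    have h1 := (pr_ball h.qs (X := cc R ρ lam (io z₀)) (by rw [hcB]; linarith)).2
    exact (hn _).1 h1
  have hc2 : 0 < 1 - ‖c₀‖ ^ 2 := by nlinarith [norm_nonneg c₀]
  refine ⟨c₀, hcn, ?_⟩
  set K : ℝ := lam ^ 2 / (lam ^ 2 - 1) * (1 - ‖c₀‖ ^ 2) with hK
  have hK0 : 0 ≤ K := by positivity
  obtain ⟨hq1, hq2⟩ := cq_convex h.qs c₀ hK0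
  have hq0 : cq R c₀ c₀ - K * (1 - ‖c₀‖ ^ 2) < 0 := by
    rw [cq_self h.qs, hK]
    have h1 : 1 < lam ^ 2 / (lam ^ 2 - 1) := by
      rw [one_lt_div hlam]
      linarith
    have h2 : 0 < (1 - ‖c₀‖ ^ 2) ^ 2 := by positivity
    nlinarith
  have hlev : ∀ z ∈ Metric.ball (0 : E) 1, ρ z = 0 → cq R c₀ z - K * (1 - ‖z‖ ^ 2) = 0 := by
    intro z hz h0
    have hzO := hOO z ((hn z).1 hz) h0
    have h1 := hconst z hzO h0 z₀ (hOO z₀ hz₀n hz₀') hz₀'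
    have h2 := cq_level h hzO
    rw [h1, ← hc₀] at h2
    rw [hK, sub_eq_zero]
    field_simp
    linarith
  have hfin := set_eq hρc ⟨r, hR, hR2⟩ ⟨z₁, hz₁, hz₁'⟩ hq1 hq2 ((hn c₀).2 hcn) hq0 hlev
  intro z hz
  obtain ⟨h1, h2⟩ := hfin z hz
  exact ⟨h1.trans sub_neg, h2.trans sub_eq_zero⟩

end Pool.Agent.Helper77.JH
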