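import Pool.Agent.Helper75.ROT.St

/-! # JH: definitions for the statement

`HV n` is `ℍ^(n+1)`, a right vector space.  The unit ball with the metric `ballMetric P`, `IsPH P`, is quaternionic hyperbolic space.
-/

set_option autoImplicit false

namespace Pool.Agent.Helper77.JH

open Pool.Agent.Helper75.ROT Quaternion

variable {n : ℕ}

/-- The hermitian product `∑ star a_j b_j`. -/
noncomputable def hm (a b : HV n) : ℍ[ℝ] := ∑ j, star (a j) * b j

/-- The unit normal `∇ρ / |∇ρ|` of the level sets of `ρ` for the metric `g`. -/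
noncomputable def unorH (g : HV n → HV n →L[ℝ] HV n) (ρ : HV n → ℝ) (z : HV n) : HV n :=
  (√(inner ℝ (gradient ρ z) ((g z).inverse (gradient ρ z))))⁻¹ • (g z).inverse (gradient ρ z)

/-- The end point `lim exp_z (- t u)`, `t → ∞`, on the unit sphere, of the inner normal ray at `z` (`u` the unit normal). -/
noncomputable def endH (g : HV n → HV n →L[ℝ] HV n) (ρ : HV n → ℝ) (z : HV n) : HV n :=
  WithLp.toLp 2 fun i => z i - unorH g ρ z i * (1 - (1 - ‖z‖ ^ 2)⁻¹ • hm z (unorH g ρ z))⁻¹

/-- `p` lies in the closed horoball with centre `b` (`|b| = 1`) whose boundary contains `z`. -/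
def HoroH (b z p : HV n) : Prop :=
  ‖1 - hm p b‖ ^ 2 * (1 - ‖z‖ ^ 2) ≤ ‖1 - hm z b‖ ^ 2 * (1 - ‖p‖ ^ 2)

end Pool.Agent.Helper77.JH
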