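import Pool.Agent.Helper77.JH.E5
import Pool.Agent.Helper77.JH.St

/-! # JH: the theorem for quaternionic hyperbolic space -/

set_option autoImplicit false
set_option linter.unusedSectionVars false
set_option linter.unusedVariables false

open Filter Topology Set Quaternion
open scoped ContDiff

namespace Pool.Agent.Helper77.JH

open Pool.Agent.Helper77.JE (Hf Pt Gd rr nu NN tt xs SS)
open Pool.Agent.Helper41.ALX (divg Vertical ballMetric meanCurv radial)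
open Pool.Agent.Helper75.ROT (HV RH hH IsPH CMC hH_apply RH_apply)
open Pool.Agent.Helper64.JH (Qs BQ RL JQ pr io GG UU dn mc cQ hqQ gdQ cq cq_eq ctr horo normal_eq
  meanCurv_mc quat_data BQ_apply)

theorem endH_eq {n : ℕ} {P : HV n → HV n →L[ℝ] HV n} (hP : IsPH P) {ρ : HV n → ℝ}
    (hs : ContDiffOn ℝ 3 ρ (Metric.ball 0 1)) {z : HV n} (hz : ‖z‖ < 1) (hr : fderiv ℝ ρ z ≠ 0) :
    endH (ballMetric P) ρ z =
      ctr (RH n) (hH n) 1 z (√(1 - ‖z‖ ^ 2) • dn (RH n) (nu (BQ (HV n)) (GG (RH n) ρ)) z) := by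
  obtain ⟨hq, hk, hdet, hinv⟩ := quat_data hP
  have hd : DifferentiableAt ℝ ρ z :=
    (hs.contDiffAt (Metric.isOpen_ball.mem_nhds (mem_ball_zero_iff.2 hz))).differentiableAt
      (by norm_num)
  have hu : unorH (ballMetric P) ρ z =
      √(1 - ‖z‖ ^ 2) • dn (RH n) (nu (BQ (HV n)) (GG (RH n) ρ)) z := by
    unfold unorH
    rw [hinv z _ hz]
    exact normal_eq hq hz hd hr
  rw [← hu]
  unfold endH ctr
  refine PiLp.ext fun i => ?_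
  show z i - unorH (ballMetric P) ρ z i *
    (1 - (1 - ‖z‖ ^ 2)⁻¹ • hm z (unorH (ballMetric P) ρ z))⁻¹ =
    z i - unorH (ballMetric P) ρ z i *
      (((1 : ℝ) : ℍ[ℝ]) - (1 - ‖z‖ ^ 2)⁻¹ • hH n z (unorH (ballMetric P) ρ z))⁻¹
  rw [Quaternion.coe_one]
  rfl

/-- the theorem -/
theorem final {n : ℕ} (hn : 1 ≤ n) {P : HV n → HV n →L[ℝ] HV n} (hP : IsPH P) {ρ : HV n → ℝ}
    {lam : ℝ} (hlam : 1 < lam) (hc : CMC (ballMetric P) ρ ((4 * n + 3) * lam + 3 * lam⁻¹))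
    {p : HV n} (hp : ‖p‖ < 1)
    (hb : ∀ z ∈ Metric.ball (0 : HV n) 1, ρ z = 0 → HoroH (endH (ballMetric P) ρ z) z p) :
    ∃ c : HV n, ‖c‖ < 1 ∧ ∀ z ∈ Metric.ball (0 : HV n) 1,
      (ρ z < 0 ↔ ‖1 - hm c z‖ ^ 2 * (1 - lam⁻¹ ^ 2) < (1 - ‖c‖ ^ 2) * (1 - ‖z‖ ^ 2)) ∧
      (ρ z = 0 ↔ ‖1 - hm c z‖ ^ 2 * (1 - lam⁻¹ ^ 2) = (1 - ‖c‖ ^ 2) * (1 - ‖z‖ ^ 2)) := by
  obtain ⟨hq, hk, hdet, hinv⟩ := quat_data hP
  have hreg : ∀ z : HV n, ‖z‖ < 1 → ρ z = 0 → fderiv ℝ ρ z ≠ 0 := by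
    intro z hz h0 hf
    apply hc.regular z (by simpa using hz) h0
    rw [gradient, hf, map_zero]
  have hp2 : 0 < 1 - ‖p‖ ^ 2 := by nlinarith [norm_nonneg p]
  have hl0 : 0 < lam := by linarith
  have hl2 : 0 < lam ^ 2 - 1 := by nlinarith
  set c := (√(1 - ‖p‖ ^ 2))⁻¹ with hcd
  have hc2 : c ^ 2 * (1 - ‖p‖ ^ 2) = 1 := by
    rw [hcd, inv_pow, Real.sq_sqrt hp2.le, inv_mul_cancel₀ hp2.ne']
  have hPP : BQ (HV n) (c • io p) (c • io p) = -1 := by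
    have h1 : BQ (HV n) (io p) (io p) = ‖p‖ ^ 2 - 1 := by
      rw [BQ_apply]
      show inner ℝ p p - inner ℝ (1 : ℍ[ℝ]) 1 = _
      rw [real_inner_self_eq_norm_sq, real_inner_self_eq_norm_sq, norm_one]
      ring
    simp only [map_smul, smul_apply, smul_eq_mul]
    rw [h1]
    linear_combination -hc2
  have hyp : Hyp (RH n) (hH n) ρ (2 * n + 4) lam (c • io p) := by
    refine ⟨hq, hk, by omega, hlam, hc.smooth, hreg, ?_, hPP, ?_⟩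
    · intro z hz h0
      rw [← meanCurv_mc hq hk hdet hinv hc.smooth hz (hreg z hz h0),
        hc.curvature z (by simpa using hz) h0]
      push_cast
      ring
    · intro z hz h0
      have hr := hreg z hz h0
      have h1 := hb z (by simpa using hz) h0
      unfold HoroH at h1
      rw [endH_eq hP hc.smooth hz hr] at h1
      exact horo hq hc.smooth hz hr hp h1
  obtain ⟨c₀, hc0, hm'⟩ := main hyp hc.bounded hc.nonempty hc.connected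
  refine ⟨c₀, hc0, fun z hz => ?_⟩
  obtain ⟨ha, hb'⟩ := hm' z hz
  have h1 : cq (RH n) c₀ z = ‖1 - hm c₀ z‖ ^ 2 := cq_eq hq c₀ z
  have h2 : (1 - lam⁻¹ ^ 2) = (lam ^ 2 - 1) / lam ^ 2 := by
    field_simp
  have h3 : 0 < lam ^ 2 := by positivity
  rw [h1] at ha hb'
  have h4 : lam ^ 2 / (lam ^ 2 - 1) * (1 - ‖c₀‖ ^ 2) * (1 - ‖z‖ ^ 2) =
      ((1 - ‖c₀‖ ^ 2) * (1 - ‖z‖ ^ 2)) / ((lam ^ 2 - 1) / lam ^ 2) := by
    field_simp
  have h5 : 0 < (lam ^ 2 - 1) / lam ^ 2 := div_pos hl2 h3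
  rw [h4, lt_div_iff₀ h5] at ha
  rw [h4, eq_div_iff h5.ne'] at hb'
  rw [h2]
  exact ⟨ha, hb'⟩

/-- the theorem for horospherically convex domains -/
theorem final' {n : ℕ} (hn : 1 ≤ n) {P : HV n → HV n →L[ℝ] HV n} (hP : IsPH P) {ρ : HV n → ℝ}
    {lam : ℝ} (hlam : 1 < lam) (hc : CMC (ballMetric P) ρ ((4 * n + 3) * lam + 3 * lam⁻¹))
    (hb : ∀ z ∈ Metric.ball (0 : HV n) 1, ρ z = 0 → ∀ p ∈ Metric.ball (0 : HV n) 1, ρ p < 0 →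
      HoroH (endH (ballMetric P) ρ z) z p) :
    ∃ c : HV n, ‖c‖ < 1 ∧ ∀ z ∈ Metric.ball (0 : HV n) 1,
      (ρ z < 0 ↔ ‖1 - hm c z‖ ^ 2 * (1 - lam⁻¹ ^ 2) < (1 - ‖c‖ ^ 2) * (1 - ‖z‖ ^ 2)) ∧
      (ρ z = 0 ↔ ‖1 - hm c z‖ ^ 2 * (1 - lam⁻¹ ^ 2) = (1 - ‖c‖ ^ 2) * (1 - ‖z‖ ^ 2)) := by
  obtain ⟨p, hp, hp0⟩ := hc.nonempty
  exact final hn hP hlam hc (by simpa using hp) fun z hz h0 => hb z hz h0 p hp hp0

end Pool.Agent.Helper77.JH
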