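import Mathlib

/-! # JH: the farthest point of the hypersurface from the origin -/

set_option autoImplicit false
set_option linter.unusedSectionVars false
set_option linter.unusedVariables false

open Filter Topology Set

namespace Pool.Agent.Helper77.JH

variable {E : Type*} [NormedAddCommGroup E] [InnerProductSpace ℝ E] [FiniteDimensional ℝ E]

/-- move outwards from a point with `ρ < 0` -/
private theorem far_out [Nontrivial E] {ρ : E → ℝ} (hs : ContDiffOn ℝ 3 ρ (Metric.ball 0 1))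
    {y : E} (hy : y ∈ Metric.ball (0 : E) 1) (h : ρ y < 0) :
    ∃ y' ∈ Metric.ball (0 : E) 1, ρ y' ≤ 0 ∧ ‖y‖ < ‖y'‖ := by
  obtain ⟨e, he⟩ : ∃ e : E, ∀ s : ℝ, 0 < s → ‖y‖ < ‖y + s • e‖ := by
    by_cases h0 : y = 0
    · obtain ⟨e, he⟩ := exists_ne (0 : E)
      refine ⟨e, fun s hs => ?_⟩
      rw [h0, zero_add, norm_zero, norm_smul]
      exact mul_pos (norm_pos_iff.2 hs.ne') (norm_pos_iff.2 he)
    · refine ⟨y, fun s hs => ?_⟩
      have : y + s • y = (1 + s) • y := by rw [add_smul, one_smul]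
      rw [this, norm_smul, Real.norm_eq_abs, abs_of_pos (by linarith)]
      have h1 : 0 < ‖y‖ := norm_pos_iff.2 h0
      nlinarith
  have hcy : ContinuousAt ρ y := (hs.continuousOn.continuousAt (Metric.isOpen_ball.mem_nhds hy))
  have hcl : ContinuousAt (fun s : ℝ => y + s • e) 0 := by fun_prop
  have h0 : (fun s : ℝ => y + s • e) 0 = y := by simp
  have h1 : ∀ᶠ s in 𝓝 (0 : ℝ), y + s • e ∈ Metric.ball (0 : E) 1 := by
    refine hcl.eventually ?_
    rw [h0]
    exact Metric.isOpen_ball.mem_nhds hy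
  have h2 : ∀ᶠ s in 𝓝 (0 : ℝ), ρ (y + s • e) < 0 := by
    have h3 : ContinuousAt (fun s : ℝ => ρ (y + s • e)) 0 := by
      refine ContinuousAt.comp (g := ρ) ?_ hcl
      simpa using hcy
    refine h3.eventually (Iio_mem_nhds ?_)
    simpa using h
  have h3 : ∀ᶠ s in 𝓝[>] (0 : ℝ), y + s • e ∈ Metric.ball (0 : E) 1 ∧ ρ (y + s • e) < 0 :=
    (h1.and h2).filter_mono nhdsWithin_le_nhds
  obtain ⟨s, ⟨hs1, hs2⟩, hs3⟩ := (h3.and self_mem_nhdsWithin).exists
  exact ⟨_, hs1, hs2.le, he s hs3⟩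

/-- piece `JH-F1` (a): a point of the compact set `ρ ≤ 0` with the largest norm. It is not `0` (the open set `ρ < 0` has points with
positive norm) and `ρ = 0` there (if `ρ < 0` move outwards) -/
theorem far_point [Nontrivial E] {ρ : E → ℝ} (hs : ContDiffOn ℝ 3 ρ (Metric.ball 0 1))
    (hbd : ∃ R : ℝ, R < 1 ∧ ∀ z ∈ Metric.ball (0 : E) 1, ρ z ≤ 0 → ‖z‖ ≤ R)
    (hne : ∃ z ∈ Metric.ball (0 : E) 1, ρ z < 0) :
    ∃ z : E, 0 < ‖z‖ ∧ ‖z‖ < 1 ∧ ρ z = 0 ∧ ∀ y ∈ Metric.ball (0 : E) 1, ρ y ≤ 0 → ‖y‖ ≤ ‖z‖ := by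
  obtain ⟨R, hR1, hR⟩ := hbd
  obtain ⟨z0, hz0, hz0'⟩ := hne
  have hsub : Metric.closedBall (0 : E) R ⊆ Metric.ball (0 : E) 1 :=
    Metric.closedBall_subset_ball hR1
  have hc : ContinuousOn ρ (Metric.closedBall (0 : E) R) := hs.continuousOn.mono hsub
  have hcl : IsClosed (Metric.closedBall (0 : E) R ∩ ρ ⁻¹' Iic 0) :=
    hc.preimage_isClosed_of_isClosed Metric.isClosed_closedBall isClosed_Iic
  have hcomp : IsCompact (Metric.closedBall (0 : E) R ∩ ρ ⁻¹' Iic 0) :=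
    (isCompact_closedBall (0 : E) R).of_isClosed_subset hcl inter_subset_left
  have hmem : ∀ y ∈ Metric.ball (0 : E) 1, ρ y ≤ 0 →
      y ∈ Metric.closedBall (0 : E) R ∩ ρ ⁻¹' Iic 0 := by
    intro y hy hy'
    refine ⟨?_, hy'⟩
    rw [mem_closedBall_zero_iff]
    exact hR y hy hy'
  obtain ⟨z, hz, hmax⟩ := hcomp.exists_isMaxOn ⟨z0, hmem z0 hz0 hz0'.le⟩
    (continuous_norm.continuousOn)
  have hmax' : ∀ y ∈ Metric.ball (0 : E) 1, ρ y ≤ 0 → ‖y‖ ≤ ‖z‖ :=
    fun y hy hy' => hmax (hmem y hy hy')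
  have hzb : z ∈ Metric.ball (0 : E) 1 := hsub hz.1
  refine ⟨z, ?_, by simpa using hzb, ?_, hmax'⟩
  · obtain ⟨y', h1, h2, h3⟩ := far_out hs hz0 hz0'
    exact (norm_nonneg _).trans_lt (h3.trans_le (hmax' y' h1 h2))
  · by_contra hcon
    have hlt : ρ z < 0 := lt_of_le_of_ne hz.2 hcon
    obtain ⟨y', h1, h2, h3⟩ := far_out hs hzb hlt
    exact absurd (hmax' y' h1 h2) (not_le.2 h3)

/-- (b): first order: `ρ ≥ 0` on the sphere `‖y‖ = ‖z‖` (limit of points outside), with equality at `z`; use the great circle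
`cos t z + sin t w`, `‖w‖ = ‖z‖` (or any `w ⟂ z` after scaling), and `t ↦ ρ (t z)` for `t > 1` -/
theorem far_first {ρ : E → ℝ} (hs : ContDiffOn ℝ 3 ρ (Metric.ball 0 1)) {z : E} (h0 : 0 < ‖z‖)
    (h1 : ‖z‖ < 1) (hz : ρ z = 0) (hr : fderiv ℝ ρ z ≠ 0)
    (hm : ∀ y ∈ Metric.ball (0 : E) 1, ρ y ≤ 0 → ‖y‖ ≤ ‖z‖) :
    (∀ w, inner ℝ z w = 0 → fderiv ℝ ρ z w = 0) ∧ 0 < fderiv ℝ ρ z z := by
  have hzb : z ∈ Metric.ball (0 : E) 1 := by simpa using h1
  have hd : DifferentiableAt ℝ ρ z :=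
    (hs.contDiffAt (Metric.isOpen_ball.mem_nhds hzb)).differentiableAt (by norm_num)
  have hline : ∀ w : E, HasDerivAt (fun s : ℝ => ρ (z + s • w)) (fderiv ℝ ρ z w) 0 := by
    intro w
    have h2 : HasDerivAt (fun s : ℝ => z + s • w) w 0 := by
      simpa using ((hasDerivAt_id (0 : ℝ)).smul_const w).const_add z
    have h3 : HasFDerivAt ρ (fderiv ℝ ρ z) ((fun s : ℝ => z + s • w) 0) := by
      simpa using hd.hasFDerivAt
    exact h3.comp_hasDerivAt (0 : ℝ) h2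
  have hball : ∀ w : E, ∀ᶠ s in 𝓝 (0 : ℝ), z + s • w ∈ Metric.ball (0 : E) 1 := by
    intro w
    have hcl : ContinuousAt (fun s : ℝ => z + s • w) 0 := by fun_prop
    refine hcl.eventually ?_
    have h2 : (fun s : ℝ => z + s • w) 0 = z := by simp
    have h3 : Metric.ball (0 : E) 1 ∈ 𝓝 ((fun s : ℝ => z + s • w) 0) := by
      rw [h2]
      exact Metric.isOpen_ball.mem_nhds hzb
    exact h3
  have hw : ∀ w, inner ℝ z w = 0 → fderiv ℝ ρ z w = 0 := by
    intro w hw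
    have hmin : IsLocalMin (fun s : ℝ => ρ (z + s • w)) 0 := by
      filter_upwards [hball w] with s hsb
      rw [zero_smul, add_zero, hz]
      by_contra hcon
      push Not at hcon
      have h2 := hm _ hsb hcon.le
      have h3 : ‖z + s • w‖ ^ 2 = ‖z‖ ^ 2 + ‖s • w‖ ^ 2 := by
        rw [norm_add_sq_real, inner_smul_right, hw]
        ring
      have h4 : ‖z + s • w‖ ^ 2 ≤ ‖z‖ ^ 2 := by gcongr
      have h5 : ‖s • w‖ ^ 2 ≤ 0 := by linarith
      have h6 : s • w = 0 := by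
        have : ‖s • w‖ = 0 := by
          have := sq_nonneg ‖s • w‖
          exact pow_eq_zero_iff (two_ne_zero) |>.1 (le_antisymm h5 this)
        exact norm_eq_zero.1 this
      rw [h6, add_zero, hz] at hcon
      exact lt_irrefl _ hcon
    exact hmin.hasDerivAt_eq_zero (hline w)
  refine ⟨hw, ?_⟩
  have hge : 0 ≤ fderiv ℝ ρ z z := by
    by_contra hcon
    push Not at hcon
    have h2 := (hline z).tendsto_slope_zero_right
    have h3 : ∀ᶠ s in 𝓝[>] (0 : ℝ), s⁻¹ • (ρ (z + (0 + s) • z) - ρ (z + (0 : ℝ) • z)) < 0 :=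
      h2.eventually (Iio_mem_nhds hcon)
    have h4 : ∀ᶠ s in 𝓝[>] (0 : ℝ), z + s • z ∈ Metric.ball (0 : E) 1 :=
      (hball z).filter_mono nhdsWithin_le_nhds
    obtain ⟨s, ⟨hs1, hs2⟩, hs3⟩ := ((h3.and h4).and self_mem_nhdsWithin).exists
    rw [zero_add, zero_smul, add_zero, hz, sub_zero, smul_eq_mul] at hs1
    have hs3' : (0 : ℝ) < s := hs3
    have h5 : ρ (z + s • z) < 0 := by
      by_contra h6
      push Not at h6
      have := mul_nonneg (inv_nonneg.2 hs3'.le) h6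
      linarith
    have h6 := hm _ hs2 h5.le
    have h7 : z + s • z = (1 + s) • z := by rw [add_smul, one_smul]
    rw [h7, norm_smul, Real.norm_eq_abs, abs_of_pos (by linarith)] at h6
    nlinarith
  refine lt_of_le_of_ne hge fun hcon => hr ?_
  ext v
  have h2 : fderiv ℝ ρ z (v - ((inner ℝ z v) / ‖z‖ ^ 2) • z) = 0 := by
    apply hw
    rw [inner_sub_right, inner_smul_right, real_inner_self_eq_norm_sq]
    field_simp
    ring
  rw [map_sub, map_smul, ← hcon, smul_zero, sub_zero] at h2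
  rw [h2]
  simp

/-- (c): second order: the second derivative of `t ↦ ρ (cos t z + sin t w)` at its minimum `t = 0` is not negative
(`‖w‖ = ‖z‖`, then scale) -/
theorem far_second {ρ : E → ℝ} (hs : ContDiffOn ℝ 3 ρ (Metric.ball 0 1)) {z : E} (h0 : 0 < ‖z‖)
    (h1 : ‖z‖ < 1) (hz : ρ z = 0) (hr : fderiv ℝ ρ z ≠ 0)
    (hm : ∀ y ∈ Metric.ball (0 : E) 1, ρ y ≤ 0 → ‖y‖ ≤ ‖z‖) {w : E} (hw : inner ℝ z w = 0) :
    fderiv ℝ ρ z z * ‖w‖ ^ 2 ≤ ‖z‖ ^ 2 * fderiv ℝ (fderiv ℝ ρ) z w w := by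
  by_cases hw0 : w = 0
  · rw [hw0]
    simp
  have hwn : 0 < ‖w‖ := norm_pos_iff.2 hw0
  have hzb : z ∈ Metric.ball (0 : E) 1 := by simpa using h1
  set c : ℝ := ‖w‖ ^ 2 / (2 * ‖z‖ ^ 2) with hc
  have hcpos : 0 < c := by positivity
  have hcz : 2 * c * ‖z‖ ^ 2 = ‖w‖ ^ 2 := by
    rw [hc]
    field_simp
  -- the curve
  set y : ℝ → E := fun s => z + s • w - (c * s ^ 2) • z with hy
  have hy0 : y 0 = z := by simp [hy]
  have hyd : ∀ s : ℝ, HasDerivAt y (w - (2 * c * s) • z) s := by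
    intro s
    have e1 : HasDerivAt (fun s : ℝ => z + s • w) w s := by
      simpa using ((hasDerivAt_id s).smul_const w).const_add z
    have e2 : HasDerivAt (fun s : ℝ => c * s ^ 2) (2 * c * s) s := by
      have := (hasDerivAt_pow 2 s).const_mul c
      refine this.congr_deriv ?_
      simp
      ring
    exact e1.sub (e2.smul_const z)
  have hyc : ContinuousAt y 0 := (hyd 0).continuousAt
  have hball : ∀ᶠ s in 𝓝 (0 : ℝ), y s ∈ Metric.ball (0 : E) 1 := by
    refine hyc.eventually ?_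
    rw [hy0]
    exact Metric.isOpen_ball.mem_nhds hzb
  have hnorm : ∀ s : ℝ, ‖y s‖ ^ 2 = ‖z‖ ^ 2 + c ^ 2 * s ^ 4 * ‖z‖ ^ 2 := by
    intro s
    have e1 : y s = (1 - c * s ^ 2) • z + s • w := by
      simp only [hy, sub_smul, one_smul]
      abel
    rw [e1, norm_add_sq_real, inner_smul_left, inner_smul_right, hw, norm_smul, norm_smul,
      mul_pow, mul_pow, Real.norm_eq_abs, Real.norm_eq_abs, sq_abs, sq_abs]
    simp only [mul_zero, add_zero]
    rw [← hcz]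
    ring
  have hpos : ∀ᶠ s in 𝓝 (0 : ℝ), s ≠ 0 → 0 < ρ (y s) := by
    filter_upwards [hball] with s hsb hs0
    by_contra hcon
    push Not at hcon
    have h2 := hm _ hsb hcon
    have h3 : ‖y s‖ ^ 2 ≤ ‖z‖ ^ 2 := by gcongr
    rw [hnorm] at h3
    have h4 : 0 < c ^ 2 * s ^ 4 * ‖z‖ ^ 2 := by positivity
    linarith
  have hcd : ∀ x ∈ Metric.ball (0 : E) 1, ContDiffAt ℝ 3 ρ x := fun x hx =>
    hs.contDiffAt (Metric.isOpen_ball.mem_nhds hx)
  have hg1 : ∀ᶠ s in 𝓝 (0 : ℝ), HasDerivAt (fun s => ρ (y s))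
      (fderiv ℝ ρ (y s) (w - (2 * c * s) • z)) s := by
    filter_upwards [hball] with s hsb
    exact ((hcd _ hsb).differentiableAt (by norm_num)).hasFDerivAt.comp_hasDerivAt s (hyd s)
  have hg1' : deriv (fun s => ρ (y s)) =ᶠ[𝓝 0]
      fun s => fderiv ℝ ρ (y s) (w - (2 * c * s) • z) := by
    filter_upwards [hg1] with s h
    exact h.deriv
  have hD : DifferentiableAt ℝ (fderiv ℝ ρ) z := by
    have := (hcd z hzb).fderiv_right (m := 2) (by norm_num)
    exact this.differentiableAt (by norm_num)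
  have hg2 : HasDerivAt (fun s => fderiv ℝ ρ (y s) (w - (2 * c * s) • z))
      (fderiv ℝ (fderiv ℝ ρ) z w w + fderiv ℝ ρ z (-((2 * c) • z))) 0 := by
    have e1 : HasDerivAt (fun s => fderiv ℝ ρ (y s)) (fderiv ℝ (fderiv ℝ ρ) z w) 0 := by
      have e2 : HasFDerivAt (fderiv ℝ ρ) (fderiv ℝ (fderiv ℝ ρ) z) (y 0) := by
        rw [hy0]
        exact hD.hasFDerivAt
      have e3 := e2.comp_hasDerivAt (0 : ℝ) (hyd 0)
      rw [mul_zero, zero_smul, sub_zero] at e3
      exact e3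
    have e4 : HasDerivAt (fun s : ℝ => w - (2 * c * s) • z) (-((2 * c) • z)) 0 := by
      have e5 : HasDerivAt (fun s : ℝ => 2 * c * s) (2 * c) 0 := by
        simpa using (hasDerivAt_id (0 : ℝ)).const_mul (2 * c)
      exact (e5.smul_const z).const_sub w
    have e6 := e1.clm_apply e4
    simpa [hy0] using e6
  have hdd : deriv (deriv fun s => ρ (y s)) 0 =
      fderiv ℝ (fderiv ℝ ρ) z w w + fderiv ℝ ρ z (-((2 * c) • z)) := by
    rw [hg1'.deriv_eq]
    exact hg2.deriv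
  have hd0 : deriv (fun s => ρ (y s)) 0 = 0 := by
    rw [hg1'.self_of_nhds]
    simp only [mul_zero, zero_smul, sub_zero, hy0]
    exact (far_first hs h0 h1 hz hr hm).1 w hw
  have hge : 0 ≤ fderiv ℝ (fderiv ℝ ρ) z w w + fderiv ℝ ρ z (-((2 * c) • z)) := by
    by_contra hcon
    push Not at hcon
    rw [← hdd] at hcon
    have hcont : ContinuousAt (fun s => ρ (y s)) 0 := hg1.self_of_nhds.continuousAt
    have hmax := isLocalMax_of_deriv_deriv_neg hcon hd0 hcont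
    have h2 : ∀ᶠ s in 𝓝[>] (0 : ℝ), ρ (y s) ≤ ρ (y 0) ∧ (s ≠ 0 → 0 < ρ (y s)) :=
      (Filter.Eventually.and hmax hpos).filter_mono nhdsWithin_le_nhds
    obtain ⟨s, ⟨hs1, hs2⟩, hs3⟩ := (h2.and self_mem_nhdsWithin).exists
    rw [hy0, hz] at hs1
    exact absurd (hs2 (ne_of_gt hs3)) (not_lt.2 hs1)
  rw [map_neg, map_smul, smul_eq_mul] at hge
  have h9 : ‖w‖ ^ 2 = 2 * c * ‖z‖ ^ 2 := hcz.symm
  rw [h9]
  have h10 : 0 < ‖z‖ ^ 2 := by positivity
  nlinarith

/-- (d): every `H > m + 2 a` is of the form `(m + a) lam + a lam⁻¹` with `lam > 1`: larger root of the quadratic equation -/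
theorem exists_lam {m a H : ℝ} (hm : 0 ≤ m) (ha : 0 < a) (h : m + 2 * a < H) :
    ∃ lam : ℝ, 1 < lam ∧ H = (m + a) * lam + a * lam⁻¹ := by
  have hma : 0 < m + a := by linarith
  have hle : 1 ≤ H / (m + a) := by
    rw [le_div_iff₀ hma]
    linarith
  have hcont : ContinuousOn (fun t : ℝ => (m + a) * t + a * t⁻¹) (Icc 1 (H / (m + a))) := by
    intro t ht
    have ht0 : t ≠ 0 := by
      have := ht.1
      linarith
    exact ContinuousAt.continuousWithinAt (by fun_prop (disch := exact ht0))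
  have hmem : H ∈ Icc ((fun t : ℝ => (m + a) * t + a * t⁻¹) 1)
      ((fun t : ℝ => (m + a) * t + a * t⁻¹) (H / (m + a))) := by
    constructor
    · simp only [mul_one, inv_one]
      linarith
    · have h2 : (m + a) * (H / (m + a)) = H := by field_simp
      have h3 : 0 ≤ a * (H / (m + a))⁻¹ := by
        have : 0 < H / (m + a) := by linarith
        positivity
      simp only
      rw [h2]
      linarith
  obtain ⟨t, ht, hft⟩ := intermediate_value_Icc hle hcont hmem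
  refine ⟨t, lt_of_le_of_ne ht.1 ?_, hft.symm⟩
  intro h1
  rw [← h1] at hft
  simp only [mul_one, inv_one] at hft
  linarith

end Pool.Agent.Helper77.JH
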