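import Pool.Agent.Helper77.JH.E1
import Pool.Agent.Helper77.JH.E2
import Pool.Agent.Helper77.JH.F1

/-! # JH: the mean curvature at the farthest point, quaternionic case -/

set_option autoImplicit false
set_option linter.unusedSectionVars false
set_option linter.unusedVariables false

open Filter Topology Set Quaternion
open scoped ContDiff

namespace Pool.Agent.Helper77.JH

open Pool.Agent.Helper77.JE (Hf Pt Gd rr nu NN tt xs SS)
open Pool.Agent.Helper64.JH (Qs BQ RL JQ pr io GG UU dn mc cQ hqQ gdQ ff GG_B GG_io)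

variable {E : Type*} [NormedAddCommGroup E] [InnerProductSpace ℝ E] [FiniteDimensional ℝ E]
variable {R : ℍ[ℝ] →L[ℝ] E →L[ℝ] E} {m : E →L[ℝ] E →L[ℝ] ℍ[ℝ]} {ρ : E → ℝ}

private theorem f2_mem (h : Qs R m) {z : E} (hz : ‖z‖ < 1) (hr : fderiv ℝ ρ z ≠ 0) :
    (io z : ℍ[ℝ] × E) ∈ UU R ρ := by
  refine ⟨?_, ?_⟩
  · have h1 := Pool.Agent.Helper64.JH.tt_io z
    unfold tt at h1
    have h2 := norm_nonneg z
    nlinarith
  · rw [Pool.Agent.Helper64.JH.pr_io h]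
    exact hr

/-- piece `JH-F2` (a): `G (1, z) = μ (‖z‖², z)` if `dρ w = μ ⟪z, w⟫` (`GG_io`, `Qs.mself`) -/
theorem GG_far (h : Qs R m) {z : E} (hd : DifferentiableAt ℝ ρ z) {μ : ℝ}
    (hg : ∀ w, fderiv ℝ ρ z w = μ * inner ℝ z w) :
    GG R ρ (io z) = μ • (((‖z‖ ^ 2 : ℝ) : ℍ[ℝ]), z) := by
  have hgr : gradient ρ z = μ • z := by
    refine ext_inner_right ℝ fun w => ?_
    unfold gradient
    rw [InnerProductSpace.toDual_symm_apply, hg, real_inner_smul_left]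
  rw [GG_io h hd, hgr, map_smul, h.mself]
  rfl

/-- (b): `B (DG (0, w)) (0, w) = D²ρ(w, w)`: `t ↦ ff (1, z + t w) = ρ (z + t w)` (`GG_B`: `B (G (1, y)) (0, w) = dρ_y w`, differentiate
in the direction `w`) -/
theorem DG_w (h : Qs R m) (hs : ContDiffOn ℝ 3 ρ (Metric.ball 0 1)) {z : E} (hz : ‖z‖ < 1)
    (hr : fderiv ℝ ρ z ≠ 0) (w : E) :
    BQ E (fderiv ℝ (GG R ρ) (io z) (0, w)) (0, w) = fderiv ℝ (fderiv ℝ ρ) z w w := by
  have hz' : z ∈ Metric.ball (0 : E) 1 := by simpa using hz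
  have hX := f2_mem h hz hr
  have hG := gdQ h hs 0
  have hGd : HasFDerivAt (GG R ρ) (fderiv ℝ (GG R ρ) (io z)) (io z) :=
    ((hG.c2.contDiffAt (hG.isOpen.mem_nhds hX)).differentiableAt (by norm_num)).hasFDerivAt
  have hio : HasFDerivAt (fun y : E => (io y : ℍ[ℝ] × E))
      ((0 : E →L[ℝ] ℍ[ℝ]).prod (ContinuousLinearMap.id ℝ E)) z :=
    (hasFDerivAt_const (1 : ℍ[ℝ]) z).prodMk (hasFDerivAt_id z)
  have h1 := ((BQ E).flip ((0, w) : ℍ[ℝ] × E)).hasFDerivAt.comp z (hGd.comp z hio)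
  have hd : ContDiffOn ℝ 2 (fderiv ℝ ρ) (Metric.ball 0 1) :=
    hs.fderiv_of_isOpen Metric.isOpen_ball (by norm_num)
  have hd2 : HasFDerivAt (fderiv ℝ ρ) (fderiv ℝ (fderiv ℝ ρ) z) z :=
    ((hd.contDiffAt (Metric.isOpen_ball.mem_nhds hz')).differentiableAt (by norm_num)).hasFDerivAt
  have h2 := hd2.clm_apply (hasFDerivAt_const w z)
  have h3 : (fun y : E => fderiv ℝ ρ y w) =ᶠ[𝓝 z]
      (fun y : E => (BQ E).flip ((0, w) : ℍ[ℝ] × E) (GG R ρ (io y))) := by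
    filter_upwards [Metric.isOpen_ball.mem_nhds hz'] with y hy
    have hdy : DifferentiableAt ℝ ρ y :=
      ((hs.contDiffAt (Metric.isOpen_ball.mem_nhds hy)).differentiableAt (by norm_num))
    rw [ContinuousLinearMap.flip_apply, GG_io h hdy, Pool.Agent.Helper64.JH.BQ_apply]
    show _ = inner ℝ (gradient ρ y) w - inner ℝ (m y (gradient ρ y)) 0
    rw [inner_zero_right, sub_zero]
    unfold gradient
    rw [InnerProductSpace.toDual_symm_apply]
  have h4 := (h1.congr_of_eventuallyEq h3).unique h2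
  have h5 := congrArg (fun T : E →L[ℝ] ℝ => T w) h4
  simpa using h5

/-- (c): `B (N v) v = rr⁻¹ B (DG v) v` for `v ⟂ ν` (`nu = rr⁻¹ • G`) -/
theorem N_DG (h : Qs R m) (hs : ContDiffOn ℝ 3 ρ (Metric.ball 0 1)) {z : E} (hz : ‖z‖ < 1)
    (hr : fderiv ℝ ρ z ≠ 0) {v : ℍ[ℝ] × E} (hv : BQ E v (nu (BQ E) (GG R ρ) (io z)) = 0) :
    BQ E (NN (BQ E) (GG R ρ) (io z) v) v =
      (rr (BQ E) (GG R ρ) (io z))⁻¹ * BQ E (fderiv ℝ (GG R ρ) (io z) v) v := by
  have hX := f2_mem h hz hr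
  have hG := gdQ h hs 0
  have hU := hG.isOpen.mem_nhds hX
  have hr1 : DifferentiableAt ℝ (rr (BQ E) (GG R ρ)) (io z) :=
    (hG.rr_c2.contDiffAt hU).differentiableAt (by norm_num)
  have hrp := hG.rr_pos hX
  have hr2 : DifferentiableAt ℝ (fun X => (rr (BQ E) (GG R ρ) X)⁻¹) (io z) := hr1.inv hrp.ne'
  have hg1 : DifferentiableAt ℝ (GG R ρ) (io z) :=
    (hG.c2.contDiffAt hU).differentiableAt (by norm_num)
  have h1 : NN (BQ E) (GG R ρ) (io z) v =
      (rr (BQ E) (GG R ρ) (io z))⁻¹ • fderiv ℝ (GG R ρ) (io z) v +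
        (fderiv ℝ (fun X => (rr (BQ E) (GG R ρ) X)⁻¹) (io z) v) • GG R ρ (io z) := by
    unfold NN
    have e : nu (BQ E) (GG R ρ) = fun X => (rr (BQ E) (GG R ρ) X)⁻¹ • GG R ρ X := rfl
    rw [e, fderiv_fun_smul hr2 hg1]
    rfl
  have h2 : BQ E (GG R ρ (io z)) v = 0 := by
    have h3 : GG R ρ (io z) = rr (BQ E) (GG R ρ) (io z) • nu (BQ E) (GG R ρ) (io z) := by
      unfold nu
      rw [smul_smul, mul_inv_cancel₀ hrp.ne', one_smul]
    rw [h3, map_smul, ContinuousLinearMap.smul_apply, Pool.Agent.Helper64.JH.BQ_symm, hv, smul_zero]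
  rw [h1, map_add, map_smul, map_smul, ContinuousLinearMap.add_apply,
    ContinuousLinearMap.smul_apply, ContinuousLinearMap.smul_apply, h2, smul_zero, add_zero,
    smul_eq_mul]

end Pool.Agent.Helper77.JH
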