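import Pool.Agent.Helper77.JE.Fin
import Pool.Agent.Helper77.JH.F1

/-! # JH: the mean curvature at the farthest point, complex case -/

set_option autoImplicit false
set_option linter.unusedSectionVars false
set_option linter.unusedVariables false

open Filter Topology Set
open scoped ContDiff

namespace Pool.Agent.Helper77.JH.CH

open Pool.Agent.Helper77.JE
open Pool.Agent.Helper77.JH (far_first far_second)

variable {E : Type*} [NormedAddCommGroup E] [InnerProductSpace ℝ E] [FiniteDimensional ℝ E]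
variable {j : E →L[ℝ] E} {ρ : E → ℝ}

/-- piece `JH-F2C` (a): `G (1, 0, z) = μ (‖z‖², 0, z)` if `dρ w = μ ⟪z, w⟫` (`GG_io`) -/
theorem GG_far (hj : Cj j) {z : E} (hd : DifferentiableAt ℝ ρ z) {μ : ℝ}
    (hg : ∀ w, fderiv ℝ ρ z w = μ * inner ℝ z w) :
    GG j ρ (io z) = μ • ((‖z‖ ^ 2 : ℝ), (0 : ℝ), z) := by
  have h1 : gradient ρ z = μ • z := by
    refine ext_inner_right ℝ fun w => ?_
    unfold gradient
    rw [InnerProductSpace.toDual_symm_apply, hg, real_inner_smul_left]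
  have h2 : inner ℝ z (j z) = (0 : ℝ) := by
    have h3 := hj.inv z (j z)
    rw [hj.jj, inner_neg_right, real_inner_comm] at h3
    linarith
  rw [GG_io hj hd, h1, real_inner_smul_left, real_inner_smul_left, h2, real_inner_self_eq_norm_sq]
  rfl

private theorem far_mem {z : E} (hz : ‖z‖ < 1) (hr : fderiv ℝ ρ z ≠ 0) : io z ∈ UU j ρ := by
  refine ⟨?_, ?_⟩
  · rw [BL_apply]
    show inner ℝ z z - ((1 : ℝ) * 1 + 0 * 0) < 0
    rw [real_inner_self_eq_norm_sq]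
    have := norm_nonneg z
    nlinarith
  · rw [pr_io]
    exact hr

private theorem far_diff (hj : Cj j) (hs : ContDiffOn ℝ 3 ρ (Metric.ball 0 1)) {z : E} (hz : ‖z‖ < 1)
    (hr : fderiv ℝ ρ z ≠ 0) : DifferentiableAt ℝ (GG j ρ) (io z) := by
  have hG := gdL hj hs
  exact (hG.c2.contDiffAt (hG.isOpen.mem_nhds (far_mem hz hr))).differentiableAt (by norm_num)

/-- (b): `B (DG (0, 0, w)) (0, 0, w) = D²ρ(w, w)`: `ff (1, 0, z + t w) = ρ (z + t w)` (`GG_B`: `B (G (1, 0, y)) (0, 0, w) = dρ_y w`,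
differentiate in the direction `w`) -/
theorem DG_w (hj : Cj j) (hs : ContDiffOn ℝ 3 ρ (Metric.ball 0 1)) {z : E} (hz : ‖z‖ < 1)
    (hr : fderiv ℝ ρ z ≠ 0) (w : E) :
    BL E (fderiv ℝ (GG j ρ) (io z) (0, 0, w)) (0, 0, w) = fderiv ℝ (fderiv ℝ ρ) z w w := by
  have hzb : z ∈ Metric.ball (0 : E) 1 := by simpa using hz
  set ι : E →L[ℝ] (ℝ × ℝ × E) :=
    (ContinuousLinearMap.inr ℝ ℝ (ℝ × E)).comp (ContinuousLinearMap.inr ℝ ℝ E) with hι
  have hio : HasFDerivAt (io : E → ℝ × ℝ × E) ι z := by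
    have e1 : (io : E → ℝ × ℝ × E) = fun y => ((1, 0, 0) : ℝ × ℝ × E) + ι y := by
      funext y
      show ((1, 0, y) : ℝ × ℝ × E) = (1 + 0, 0 + 0, 0 + y)
      simp
    rw [e1]
    exact ι.hasFDerivAt.const_add _
  have hG : HasFDerivAt (fun y : E => GG j ρ (io y)) ((fderiv ℝ (GG j ρ) (io z)).comp ι) z :=
    (far_diff hj hs hz hr).hasFDerivAt.comp z hio
  have h1 : HasFDerivAt (fun y : E => BL E (GG j ρ (io y)) (0, 0, w))
      (((BL E).flip (0, 0, w)).comp ((fderiv ℝ (GG j ρ) (io z)).comp ι)) z :=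
    ((BL E).flip (0, 0, w)).hasFDerivAt.comp z hG
  have hF : DifferentiableAt ℝ (fderiv ℝ ρ) z :=
    ((hs.contDiffAt (Metric.isOpen_ball.mem_nhds hzb)).fderiv_right
      (m := 2) (by norm_num)).differentiableAt (by norm_num)
  have h2 : HasFDerivAt (fun y : E => fderiv ℝ ρ y w)
      ((ContinuousLinearMap.apply ℝ ℝ w).comp (fderiv ℝ (fderiv ℝ ρ) z)) z :=
    (ContinuousLinearMap.apply ℝ ℝ w).hasFDerivAt.comp z hF.hasFDerivAt
  have h3 : (fun y : E => fderiv ℝ ρ y w) =ᶠ[𝓝 z] fun y : E => BL E (GG j ρ (io y)) (0, 0, w) := by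
    filter_upwards [Metric.isOpen_ball.mem_nhds hzb] with y hy
    have hdy : DifferentiableAt ℝ ρ y :=
      (hs.contDiffAt (Metric.isOpen_ball.mem_nhds hy)).differentiableAt (by norm_num)
    rw [GG_io hj hdy, BL_apply]
    show fderiv ℝ ρ y w = inner ℝ (gradient ρ y) w - (_ * 0 + _ * 0)
    unfold gradient
    rw [InnerProductSpace.toDual_symm_apply]
    ring
  have h4 := (h1.congr_of_eventuallyEq h3).unique h2
  exact congrArg (fun f : E →L[ℝ] ℝ => f w) h4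

/-- (c): `B (N v) v = rr⁻¹ B (DG v) v` for `v ⟂ ν` (`nu = rr⁻¹ • G`) -/
theorem N_DG (hj : Cj j) (hs : ContDiffOn ℝ 3 ρ (Metric.ball 0 1)) {z : E} (hz : ‖z‖ < 1)
    (hr : fderiv ℝ ρ z ≠ 0) {v : ℝ × ℝ × E} (hv : BL E v (nu (BL E) (GG j ρ) (io z)) = 0) :
    BL E (NN (BL E) (GG j ρ) (io z) v) v =
      (rr (BL E) (GG j ρ) (io z))⁻¹ * BL E (fderiv ℝ (GG j ρ) (io z) v) v := by
  have hX := far_mem (j := j) hz hr
  have hd := far_diff hj hs hz hr
  have hpos := (gdL hj hs).pos _ hX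
  have hq : DifferentiableAt ℝ (fun Y => BL E (GG j ρ Y) (GG j ρ Y)) (io z) :=
    ((BL E).hasFDerivAt_of_bilinear hd.hasFDerivAt hd.hasFDerivAt).differentiableAt
  have hrr : 0 < rr (BL E) (GG j ρ) (io z) := Real.sqrt_pos.2 hpos
  have hr' : DifferentiableAt ℝ (fun Y => (rr (BL E) (GG j ρ) Y)⁻¹) (io z) :=
    (hq.sqrt hpos.ne').inv hrr.ne'
  have h1 : HasFDerivAt (nu (BL E) (GG j ρ)) ((rr (BL E) (GG j ρ) (io z))⁻¹ • fderiv ℝ (GG j ρ) (io z) +
      (fderiv ℝ (fun Y => (rr (BL E) (GG j ρ) Y)⁻¹) (io z)).smulRight (GG j ρ (io z))) (io z) :=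
    hr'.hasFDerivAt.smul hd.hasFDerivAt
  have h2 : NN (BL E) (GG j ρ) (io z) = _ := h1.fderiv
  have h3 : BL E (GG j ρ (io z)) v = 0 := by
    have h4 : BL E v (nu (BL E) (GG j ρ) (io z)) =
        (rr (BL E) (GG j ρ) (io z))⁻¹ * BL E v (GG j ρ (io z)) := by
      unfold nu
      rw [map_smul, smul_eq_mul]
    rw [h4] at hv
    rw [(hfL hj).symm]
    exact (mul_eq_zero.1 hv).resolve_left (inv_ne_zero hrr.ne')
  rw [h2]
  show BL E ((rr (BL E) (GG j ρ) (io z))⁻¹ • fderiv ℝ (GG j ρ) (io z) v +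
    (fderiv ℝ (fun Y => (rr (BL E) (GG j ρ) Y)⁻¹) (io z)) v • GG j ρ (io z)) v = _
  rw [map_add, map_smul, map_smul]
  show (rr (BL E) (GG j ρ) (io z))⁻¹ * BL E (fderiv ℝ (GG j ρ) (io z) v) v +
    (fderiv ℝ (fun Y => (rr (BL E) (GG j ρ) Y)⁻¹) (io z)) v * BL E (GG j ρ (io z)) v = _
  rw [h3, mul_zero, add_zero]

end Pool.Agent.Helper77.JH.CH
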