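import Pool.Agent.Helper77.JH.F2

/-! # JH: the mean curvature at the farthest point, quaternionic case -/

set_option autoImplicit false
set_option linter.unusedSectionVars false
set_option linter.unusedVariables false

open Filter Topology Set Quaternion
open scoped ContDiff

namespace Pool.Agent.Helper77.JH

open Pool.Agent.Helper77.JE (Hf Pt Gd rr nu NN tt xs SS)
open Pool.Agent.Helper64.JH (Qs BQ RL JQ pr io GG UU dn mc cQ hqQ gdQ ff GG_B GG_io)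

variable {E : Type*} [NormedAddCommGroup E] [InnerProductSpace ℝ E] [FiniteDimensional ℝ E]
variable {R : ℍ[ℝ] →L[ℝ] E →L[ℝ] E} {m : E →L[ℝ] E →L[ℝ] ℍ[ℝ]} {ρ : E → ℝ}

private theorem f2d_mem (h : Qs R m) {z : E} (hz : ‖z‖ < 1) (hr : fderiv ℝ ρ z ≠ 0) :
    (io z : ℍ[ℝ] × E) ∈ UU R ρ := by
  refine ⟨?_, ?_⟩
  · have h1 := Pool.Agent.Helper64.JH.tt_io z
    unfold tt at h1
    have h2 := norm_nonneg z
    nlinarith
  · rw [Pool.Agent.Helper64.JH.pr_io h]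
    exact hr

/-- a horizontal vector orthogonal to the quaternionic line of the normal -/
private theorem f2d_ev (h : Qs R m) {z : E} (h1 : ‖z‖ < 1) {e ν : ℍ[ℝ] × E} {a : ℝ} (ha : a ≠ 0)
    (hν : ν = a • ((((‖z‖ ^ 2 : ℝ) : ℍ[ℝ])), z)) (e1 : BQ E e (io z) = 0)
    (e2 : ∀ i, BQ E e (JQ R i (io z)) = 0) (e3 : BQ E e ν = 0) (e4 : ∀ i, BQ E e (JQ R i ν) = 0) :
    e.1 = 0 ∧ inner ℝ z e.2 = 0 := by
  have a1 := (Pool.Agent.Helper64.JH.orth_iff h e (io z)).2 ⟨e1, e2⟩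
  have a2 := (Pool.Agent.Helper64.JH.orth_iff h e ν).2 ⟨e3, e4⟩
  have b1 : ∀ q : ℍ[ℝ], inner ℝ e.2 (R q z) - inner ℝ e.1 q = 0 := by
    intro q
    have := a1 q
    rw [Pool.Agent.Helper64.JH.BQ_apply, Pool.Agent.Helper64.JH.RL_apply] at this
    have h3 : inner ℝ e.2 (R q z) - inner ℝ e.1 (1 * q) = 0 := this
    rwa [one_mul] at h3
  have b2 : ∀ q : ℍ[ℝ], inner ℝ e.2 (R q z) - ‖z‖ ^ 2 * inner ℝ e.1 q = 0 := by
    intro q
    have h3 := a2 q
    rw [hν, map_smul, map_smul, smul_eq_mul] at h3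
    have h4 := (mul_eq_zero.1 h3).resolve_left ha
    rw [Pool.Agent.Helper64.JH.BQ_apply, Pool.Agent.Helper64.JH.RL_apply] at h4
    have h5 : inner ℝ e.2 (R q z) - inner ℝ e.1 (((‖z‖ ^ 2 : ℝ) : ℍ[ℝ]) * q) = 0 := h4
    rwa [Quaternion.coe_mul_eq_smul, inner_smul_right] at h5
  have hlt : ‖z‖ ^ 2 < 1 := by
    have := norm_nonneg z
    nlinarith
  have c1 := b1 e.1
  have c2 := b2 e.1
  have c3 : (1 - ‖z‖ ^ 2) * inner ℝ e.1 e.1 = 0 := by linarith
  have c4 : inner ℝ e.1 e.1 = (0 : ℝ) := (mul_eq_zero.1 c3).resolve_left (by linarith)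
  have c5 : e.1 = 0 := inner_self_eq_zero.1 c4
  refine ⟨c5, ?_⟩
  have c6 := b1 1
  rw [h.one, c5, inner_zero_left, sub_zero] at c6
  rw [real_inner_comm]
  exact c6

/-- piece `JH-F2d`: the mean curvature at the farthest point. `μ = dρ(z) / ‖z‖²`, `r = ‖z‖`, `X = io z`, `ν = (r √(1 - r²))⁻¹ (r², z)`,
`rr = μ r √(1 - r²)`. Frame at `X' = (√(1 - r²))⁻¹ X` (`exists_fr`): the vectors `e (inl i)` are orthogonal to all `X q`, `ν q`, so they
are `(0, w)` with `|w| = 1`, `w ⟂ z`, and `B (N' e) e = √(1 - r²) rr⁻¹ D²ρ(w, w) ≥ 1 / r` (`far_second`); `e (inr i) = J_i ν` is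
`(r √(1 - r²))⁻¹ ((1 - r²) (0, z e_i) + r² J_i X)`, `DG (J_i X) = J_i G`, so `B (N' ξ_i) ξ_i ≥ (1 + r²) / r`. The sum over the frame is `mc`
(`FrQ.trace`, `NN_smul`) and it is at least `m / r + 3 (1 + r²) / r > m + 6`, `m = dim E - 4` -/
theorem mc_far (h : Qs R m) (hs : ContDiffOn ℝ 3 ρ (Metric.ball 0 1)) {z : E} (h0 : 0 < ‖z‖)
    (h1 : ‖z‖ < 1) (hz : ρ z = 0) (hr : fderiv ℝ ρ z ≠ 0)
    (hm : ∀ y ∈ Metric.ball (0 : E) 1, ρ y ≤ 0 → ‖y‖ ≤ ‖z‖) :
    (Module.finrank ℝ E : ℝ) + 2 < mc R ρ z := by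
  obtain ⟨f1, f2⟩ := far_first hs h0 h1 hz hr hm
  have hH := hqQ h
  have hG := fun i => gdQ h hs i
  obtain ⟨r, hrdef⟩ : ∃ r : ℝ, r = ‖z‖ := ⟨_, rfl⟩
  obtain ⟨s, hsdef⟩ : ∃ s : ℝ, s = √(1 - ‖z‖ ^ 2) := ⟨_, rfl⟩
  obtain ⟨μ, hμ⟩ : ∃ μ : ℝ, μ = fderiv ℝ ρ z z / ‖z‖ ^ 2 := ⟨_, rfl⟩
  have hr0 : 0 < r := by rw [hrdef]; exact h0
  have hr1 : r < 1 := by rw [hrdef]; exact h1
  have ht : 0 < 1 - ‖z‖ ^ 2 := by
    have := norm_nonneg z
    nlinarith
  have hs0 : 0 < s := by rw [hsdef]; exact Real.sqrt_pos.2 ht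
  have hs2 : s * s = 1 - r * r := by
    rw [hsdef, Real.mul_self_sqrt ht.le, hrdef]
    ring
  have hμ0 : 0 < μ := by rw [hμ]; positivity
  have hμr : fderiv ℝ ρ z z = μ * (r * r) := by
    rw [hμ, hrdef]
    field_simp
  have hzz : inner ℝ z z = r * r := by rw [real_inner_self_eq_norm_sq, hrdef]; ring
  -- the differential
  have hg : ∀ w, fderiv ℝ ρ z w = μ * inner ℝ z w := by
    intro w
    have h2 : inner ℝ z (w - (inner ℝ z w / (r * r)) • z) = 0 := by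
      rw [inner_sub_right, inner_smul_right, hzz]
      field_simp
      ring
    have h3 := f1 _ h2
    rw [map_sub, map_smul, smul_eq_mul, hμr] at h3
    have h4 : inner ℝ z w / (r * r) * (μ * (r * r)) = μ * inner ℝ z w := by
      field_simp
    linarith
  have hd : DifferentiableAt ℝ ρ z :=
    (hs.contDiffAt (Metric.isOpen_ball.mem_nhds (mem_ball_zero_iff.2 h1))).differentiableAt
      (by norm_num)
  have hGz := GG_far h hd hg
  have hBG : BQ E (GG R ρ (io z)) (GG R ρ (io z)) = (μ * r * s) ^ 2 := by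
    rw [hGz]
    simp only [map_smul, ContinuousLinearMap.smul_apply, smul_eq_mul]
    rw [Pool.Agent.Helper64.JH.BQ_apply]
    have h2 : inner ℝ (((‖z‖ ^ 2 : ℝ) : ℍ[ℝ])) (((‖z‖ ^ 2 : ℝ) : ℍ[ℝ])) = (r * r) * (r * r) := by
      rw [real_inner_self_eq_norm_sq, Quaternion.norm_coe, hrdef]
      rw [Real.norm_of_nonneg (by positivity)]
      ring
    show μ * (μ * (inner ℝ z z - inner ℝ (((‖z‖ ^ 2 : ℝ) : ℍ[ℝ])) (((‖z‖ ^ 2 : ℝ) : ℍ[ℝ])))) = _
    rw [h2, hzz]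
    linear_combination (-(μ * μ * r * r)) * hs2
  have hrr : rr (BQ E) (GG R ρ) (io z) = μ * r * s := by
    unfold rr
    rw [hBG, Real.sqrt_sq (by positivity)]
  have hX := f2d_mem h h1 hr
  have hP := ptQ hG hH hX
  obtain ⟨ν, hν⟩ : ∃ ν, ν = nu (BQ E) (GG R ρ) (io z) := ⟨_, rfl⟩
  obtain ⟨N, hN⟩ : ∃ N, N = NN (BQ E) (GG R ρ) (io z) := ⟨_, rfl⟩
  have hν1 : ν = (r * s)⁻¹ • ((((‖z‖ ^ 2 : ℝ) : ℍ[ℝ])), z) := by
    rw [hν]
    unfold nu
    rw [hrr, hGz, smul_smul]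
    congr 1
    field_simp
  have hNv : ∀ w : E, inner ℝ z w = 0 →
      (‖w‖ ^ 2 * (r * s)⁻¹ ≤ BQ E (N ((0 : ℍ[ℝ]), w)) ((0 : ℍ[ℝ]), w)) := by
    intro w hw
    have h2 : BQ E ((0 : ℍ[ℝ]), w) (nu (BQ E) (GG R ρ) (io z)) = 0 := by
      rw [← hν, hν1, map_smul, Pool.Agent.Helper64.JH.BQ_apply]
      show (r * s)⁻¹ • (inner ℝ w z - inner ℝ (0 : ℍ[ℝ]) _) = 0
      rw [inner_zero_left, real_inner_comm, hw, sub_zero, smul_zero]
    have h3 := N_DG h hs h1 hr h2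
    rw [← hN, hrr, DG_w h hs h1 hr] at h3
    have h4 := far_second hs h0 h1 hz hr hm hw
    rw [hμr, ← hrdef] at h4
    have h5 : μ * ‖w‖ ^ 2 ≤ fderiv ℝ (fderiv ℝ ρ) z w w := by
      have h6 : (r * r) * (μ * ‖w‖ ^ 2) ≤ (r * r) * fderiv ℝ (fderiv ℝ ρ) z w w := by
        calc (r * r) * (μ * ‖w‖ ^ 2) = μ * (r * r) * ‖w‖ ^ 2 := by ring
          _ ≤ r ^ 2 * fderiv ℝ (fderiv ℝ ρ) z w w := h4
          _ = _ := by ring
      exact le_of_mul_le_mul_left h6 (by positivity)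
    rw [h3]
    have h7 : ‖w‖ ^ 2 * (r * s)⁻¹ = (μ * r * s)⁻¹ * (μ * ‖w‖ ^ 2) := by
      field_simp
    rw [h7]
    exact mul_le_mul_of_nonneg_left h5 (by positivity)
  -- the point `X'`
  obtain ⟨c, hc⟩ : ∃ c : ℝ, c = s⁻¹ := ⟨_, rfl⟩
  have hc0 : 0 < c := by rw [hc]; exact inv_pos.2 hs0
  have hci : c⁻¹ = s := by rw [hc, inv_inv]
  have hBX : BQ E (io z) (io z) = -(s * s) := by
    have h2 := Pool.Agent.Helper64.JH.tt_io z
    unfold tt at h2
    rw [hs2, hrdef]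
    linarith
  have hxx : BQ E (c • io z) (c • io z) = -1 := by
    simp only [map_smul, ContinuousLinearMap.smul_apply, smul_eq_mul]
    rw [hBX, hc]
    field_simp
  have hX' : c • io z ∈ UU R ρ :=
    ⟨by rw [hxx]; norm_num, by
      rw [Pool.Agent.Helper64.JH.pr_smul h hc0.ne', Pool.Agent.Helper64.JH.pr_io h]
      exact hr⟩
  have hGs : ∀ a : ℝ, 0 < a → ∀ Y, GG R ρ (a • Y) = a⁻¹ • GG R ρ Y :=
    fun a ha Y => Pool.Agent.Helper64.JH.GG_smul h ρ ha Y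
  obtain ⟨e1, e2, e3⟩ := Pool.Agent.Helper64.JH.NN_smul (B := BQ E) hGs hc0 (io z)
  have hP' := ptQ hG hH hX'
  obtain ⟨d, e, he, hdim⟩ := Pool.Agent.Helper64.JH.exists_fr h hxx hP'.nn
    (by rw [hH.symm]; exact hP'.xn) (fun i => by rw [hH.symm]; exact hP'.jxn i)
  have htr : mc R ρ z = ∑ i, BQ E (NN (BQ E) (GG R ρ) (c • io z) (e i)) (e i) := by
    have h2 := he.trace hH (NN (BQ E) (GG R ρ) (c • io z))
    have h3 : ∀ i, BQ E (NN (BQ E) (GG R ρ) (c • io z) (JQ R i (c • io z))) (JQ R i (c • io z)) = 0 := by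
      intro i
      rw [hP'.Njx, hH.inv, hH.symm, hP'.xn]
    rw [hP'.Nx, hP'.Nn, Finset.sum_congr rfl fun i _ => h3 i] at h2
    simp only [map_zero, ContinuousLinearMap.zero_apply, Finset.sum_const_zero] at h2
    have h4 : LinearMap.trace ℝ _ (NN (BQ E) (GG R ρ) (c • io z) : (ℍ[ℝ] × E) →ₗ[ℝ] (ℍ[ℝ] × E)) =
        mc R ρ z := by
      rw [e2, hci]
      unfold mc
      rw [← hsdef]
      have h6 : ((s • NN (BQ E) (GG R ρ) (io z) : (ℍ[ℝ] × E) →L[ℝ] (ℍ[ℝ] × E)) :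
        (ℍ[ℝ] × E) →ₗ[ℝ] (ℍ[ℝ] × E)) =
        s • (NN (BQ E) (GG R ρ) (io z) : (ℍ[ℝ] × E) →ₗ[ℝ] (ℍ[ℝ] × E)) := rfl
      rw [h6, map_smul, smul_eq_mul]
    rw [h4] at h2
    linarith
  have hN' : ∀ v, NN (BQ E) (GG R ρ) (c • io z) v = s • N v := by
    intro v
    rw [e2, hci, hN]
    rfl
  have hxi : ∀ i, e (Sum.inr i) = JQ R i ν := by
    intro i
    rw [he.xi i, e1, hν]
  have hl : ∀ i : Fin d, r⁻¹ ≤
      BQ E (NN (BQ E) (GG R ρ) (c • io z) (e (Sum.inl i))) (e (Sum.inl i)) := by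
    intro i
    obtain ⟨k1, k2, k3⟩ := he.hz (Sum.inl i)
    have k1' : BQ E (e (Sum.inl i)) (io z) = 0 := by
      rw [map_smul, smul_eq_mul] at k1
      exact (mul_eq_zero.1 k1).resolve_left hc0.ne'
    have k2' : ∀ j, BQ E (e (Sum.inl i)) (JQ R j (io z)) = 0 := by
      intro j
      have k4 := k2 j
      rw [map_smul, map_smul, smul_eq_mul] at k4
      exact (mul_eq_zero.1 k4).resolve_left hc0.ne'
    have k3' : BQ E (e (Sum.inl i)) ν = 0 := by
      rw [hν, ← e1]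
      exact k3
    have k4 : ∀ j, BQ E (e (Sum.inl i)) (JQ R j ν) = 0 := by
      intro j
      rw [← hxi j, he.on]
      simp
    obtain ⟨m1, m2⟩ := f2d_ev h h1 (a := (r * s)⁻¹) (by positivity) hν1 k1' k2' k3' k4
    have m3 : e (Sum.inl i) = ((0 : ℍ[ℝ]), (e (Sum.inl i)).2) := Prod.ext m1 rfl
    have m4 : ‖(e (Sum.inl i)).2‖ ^ 2 = 1 := by
      have m5 := he.on (Sum.inl i) (Sum.inl i)
      rw [if_pos rfl, Pool.Agent.Helper64.JH.BQ_apply, m1, inner_zero_left, sub_zero,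
        real_inner_self_eq_norm_sq] at m5
      exact m5
    have m5 := hNv _ m2
    rw [← m3, m4, one_mul] at m5
    rw [hN', map_smul, ContinuousLinearMap.smul_apply, smul_eq_mul]
    calc r⁻¹ = s * (r * s)⁻¹ := by field_simp
      _ ≤ _ := mul_le_mul_of_nonneg_left m5 hs0.le
  have hri : ∀ i : Fin 3, (1 + r * r) / r ≤
      BQ E (NN (BQ E) (GG R ρ) (c • io z) (e (Sum.inr i))) (e (Sum.inr i)) := by
    intro i
    obtain ⟨u, hu⟩ : ∃ u, u = Pool.Agent.Helper64.JH.uq i := ⟨_, rfl⟩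
    have hustar : star u = -u := by rw [hu]; exact Pool.Agent.Helper64.JH.uq_star i
    have hunorm : ‖u‖ = 1 := by rw [hu]; exact Pool.Agent.Helper64.JH.uq_norm i
    obtain ⟨w, hw⟩ : ∃ w, w = R u z := ⟨_, rfl⟩
    have hww : ‖w‖ ^ 2 = r * r := by
      rw [hw, h.norm, hunorm, one_mul, ← hrdef]
      ring
    have hzw : inner ℝ z w = 0 := by
      have h2 : inner ℝ (R u z) z = inner ℝ z (R (star u) z) := h.adj u z z
      rw [hustar, map_neg, ContinuousLinearMap.neg_apply, inner_neg_right] at h2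
      rw [real_inner_comm z (R u z)] at h2
      rw [hw]
      linarith
    have hJν : JQ R i ν = (r / s) • JQ R i (io z) + (s / r) • (((0 : ℍ[ℝ]), w) : ℍ[ℝ] × E) := by
      have h2 : JQ R i ν = (r * s)⁻¹ • ((((‖z‖ ^ 2 : ℝ) : ℍ[ℝ])) * u, R u z) := by
        rw [hν1, map_smul, hu]
        rfl
      have h3 : JQ R i (io z) = (u, R u z) := by
        rw [hu]
        show (1 * Pool.Agent.Helper64.JH.uq i, _) = _
        rw [one_mul]
        rfl
      rw [h2, h3, ← hw]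
      refine Prod.ext ?_ ?_
      · show (r * s)⁻¹ • ((((‖z‖ ^ 2 : ℝ) : ℍ[ℝ])) * u) = (r / s) • u + (s / r) • (0 : ℍ[ℝ])
        rw [Quaternion.coe_mul_eq_smul, smul_smul, smul_zero, add_zero, ← hrdef]
        congr 1
        field_simp
      · show (r * s)⁻¹ • w = (r / s) • w + (s / r) • w
        rw [← add_smul]
        congr 1
        field_simp
        linarith
    obtain ⟨v, hv⟩ : ∃ v : ℍ[ℝ] × E, v = ((0 : ℍ[ℝ]), w) := ⟨_, rfl⟩
    have hNv' : (r * r) * (r * s)⁻¹ ≤ BQ E (N v) v := by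
      have h2 := hNv w hzw
      rw [hww, ← hv] at h2
      exact h2
    have hJv : BQ E (JQ R i ν) v = r / s := by
      rw [hJν, hv]
      simp only [map_add, map_smul, ContinuousLinearMap.add_apply, ContinuousLinearMap.smul_apply,
        smul_eq_mul]
      have h3 : BQ E (JQ R i (io z)) ((0 : ℍ[ℝ]), w) = r * r := by
        rw [Pool.Agent.Helper64.JH.BQ_apply]
        show inner ℝ (R (Pool.Agent.Helper64.JH.uq i) z) w - inner ℝ _ (0 : ℍ[ℝ]) = r * r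
        rw [inner_zero_right, sub_zero, ← hu, ← hw, real_inner_self_eq_norm_sq, hww]
      have h4 : BQ E ((0 : ℍ[ℝ]), w) ((0 : ℍ[ℝ]), w) = r * r := by
        rw [Pool.Agent.Helper64.JH.BQ_apply]
        show inner ℝ w w - inner ℝ (0 : ℍ[ℝ]) (0 : ℍ[ℝ]) = r * r
        rw [inner_zero_right, sub_zero, real_inner_self_eq_norm_sq, hww]
      rw [h3, h4]
      field_simp
      linear_combination hs2
    have hNJ : N (JQ R i (io z)) = JQ R i ν := by
      rw [hN, hν]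
      exact hP.Njx i
    have hNvX : BQ E (N v) (JQ R i (io z)) = r / s := by
      have h2 := hP.NJX i v
      rw [← hN, ← hν] at h2
      rw [h2, ← hJv, hH.skew]
    have hνν : BQ E (JQ R i ν) (JQ R i ν) = 1 := by
      rw [hH.inv, hν]
      exact hP.nn
    have hmain : BQ E (N (JQ R i ν)) (JQ R i ν) =
        r / s + (s / r) * ((r / s) * (r / s) + (s / r) * BQ E (N v) v) := by
      have h2 : N (JQ R i ν) = (r / s) • JQ R i ν + (s / r) • N v := by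
        conv_lhs => rw [hJν, ← hv, map_add, map_smul, map_smul, hNJ]
      rw [h2, map_add, map_smul, map_smul, ContinuousLinearMap.add_apply,
        ContinuousLinearMap.smul_apply, ContinuousLinearMap.smul_apply, hνν]
      have h3 : BQ E (N v) (JQ R i ν) = (r / s) * (r / s) + (s / r) * BQ E (N v) v := by
        rw [hJν, ← hv, map_add, map_smul, map_smul, hNvX]
        simp only [smul_eq_mul]
      rw [h3]
      simp only [smul_eq_mul]
      ring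
    rw [hxi, hN', map_smul, ContinuousLinearMap.smul_apply, smul_eq_mul, hmain]
    have h9 : (1 + r * r) / r = s * (r / s + (s / r) * ((r / s) * (r / s) +
        (s / r) * ((r * r) * (r * s)⁻¹))) := by
      field_simp
      linear_combination -hs2
    rw [h9]
    have h10 : (s / r) * ((r * r) * (r * s)⁻¹) ≤ (s / r) * BQ E (N v) v :=
      mul_le_mul_of_nonneg_left hNv' (by positivity)
    have h11 : (s / r) * ((r / s) * (r / s) + (s / r) * ((r * r) * (r * s)⁻¹)) ≤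
        (s / r) * ((r / s) * (r / s) + (s / r) * BQ E (N v) v) :=
      mul_le_mul_of_nonneg_left (by linarith) (by positivity)
    exact mul_le_mul_of_nonneg_left (by linarith) hs0.le
  rw [htr, Fintype.sum_sum_type]
  have t1 : (d : ℝ) * r⁻¹ ≤ ∑ i : Fin d, BQ E (NN (BQ E) (GG R ρ) (c • io z) (e (Sum.inl i)))
      (e (Sum.inl i)) := by
    have t2 : ∑ _i : Fin d, r⁻¹ ≤ ∑ i : Fin d, BQ E (NN (BQ E) (GG R ρ) (c • io z)
      (e (Sum.inl i))) (e (Sum.inl i)) := Finset.sum_le_sum fun i _ => hl i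
    rw [Finset.sum_const, Finset.card_univ, Fintype.card_fin, nsmul_eq_mul] at t2
    exact t2
  have t3 : 3 * ((1 + r * r) / r) ≤ ∑ i : Fin 3, BQ E (NN (BQ E) (GG R ρ) (c • io z)
      (e (Sum.inr i))) (e (Sum.inr i)) := by
    have t2 : ∑ _i : Fin 3, (1 + r * r) / r ≤ ∑ i : Fin 3, BQ E (NN (BQ E) (GG R ρ) (c • io z)
      (e (Sum.inr i))) (e (Sum.inr i)) := Finset.sum_le_sum fun i _ => hri i
    rw [Finset.sum_const, Finset.card_univ, Fintype.card_fin, nsmul_eq_mul] at t2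
    exact t2
  have t4 : (d : ℝ) ≤ d * r⁻¹ := by
    have h2 : 1 ≤ r⁻¹ := (one_le_inv₀ hr0).2 hr1.le
    have h3 : (0 : ℝ) ≤ d := Nat.cast_nonneg d
    nlinarith
  have t5 : 2 < (1 + r * r) / r := by
    rw [lt_div_iff₀ hr0]
    nlinarith [sq_pos_of_pos (sub_pos.2 hr1)]
  have t6 : (Module.finrank ℝ E : ℝ) = d + 4 := by
    rw [← hdim]
    push_cast
    ring
  rw [t6]
  linarith

end Pool.Agent.Helper77.JH
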