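import Pool.Agent.Helper77.JE.St

/-! # JH: definitions for the statement, complex hyperbolic space -/

set_option autoImplicit false

namespace Pool.Agent.Helper77.JH

open Pool.Agent.Helper77.JE

variable {n : ℕ}

/-- The end point `lim exp_z (- t u)`, `t → ∞`, on the unit sphere, of the inner normal ray at `z` (`u` the unit normal). -/
noncomputable def endC
    (g : EuclideanSpace ℂ (Fin n) → EuclideanSpace ℂ (Fin n) →L[ℝ] EuclideanSpace ℂ (Fin n))
    (ρ : EuclideanSpace ℂ (Fin n) → ℝ) (z : EuclideanSpace ℂ (Fin n)) : EuclideanSpace ℂ (Fin n) :=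
  z - (1 - inner ℂ z (unor g ρ z) / (1 - ‖z‖ ^ 2))⁻¹ • unor g ρ z

/-- `p` lies in the closed horoball with centre `b` (`|b| = 1`) whose boundary contains `z`. -/
def HoroC (b z p : EuclideanSpace ℂ (Fin n)) : Prop :=
  ‖1 - inner ℂ p b‖ ^ 2 * (1 - ‖z‖ ^ 2) ≤ ‖1 - inner ℂ z b‖ ^ 2 * (1 - ‖p‖ ^ 2)

end Pool.Agent.Helper77.JH
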