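import Pool.Agent.Helper77.JE.Fin
import Pool.Agent.Helper77.JH.StC

/-! # JH, complex hyperbolic space: the horoballs -/

set_option autoImplicit false
set_option linter.unusedSectionVars false
set_option linter.unusedVariables false

open Filter Topology Set
open scoped ContDiff

namespace Pool.Agent.Helper77.JH.CH

open Pool.Agent.Helper77.JE
open Pool.Agent.Helper77.JH (endC HoroC)
open Pool.Agent.Helper41.ALX (divg Vertical ballMetric meanCurv PC bergman vertical_PC bergman_eq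
  radial)

private theorem k5_inner {n : ℕ} (x y : EuclideanSpace ℂ (Fin n)) :
    inner ℝ x y = (inner ℂ x y).re := by
  simp [PiLp.inner_apply]

private theorem k5_inner_I {n : ℕ} (z v : EuclideanSpace ℂ (Fin n)) :
    inner ℝ (Complex.I • z) v = (inner ℂ z v).im := by
  rw [k5_inner, inner_smul_left]
  simp

private theorem k5_smul {n : ℕ} (a : ℝ) (z : EuclideanSpace ℂ (Fin n)) : a • z = (a : ℂ) • z := by
  ext i
  simp

/-- the lift of a point of the sphere -/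
private theorem k5_hq {n : ℕ} (a b : EuclideanSpace ℂ (Fin n)) (Y : ℝ × ℝ × EuclideanSpace ℂ (Fin n))
    {c : ℂ} (hr : c.re = Y.1) (hi : c.im = Y.2.1) (hY : Y.2.2 = c • b) :
    BL (EuclideanSpace ℂ (Fin n)) (io a) Y ^ 2 +
      BL (EuclideanSpace ℂ (Fin n)) (JL (Pool.Agent.Helper75.ROT.iC n) (io a)) Y ^ 2 =
      ‖c‖ ^ 2 * ‖1 - inner ℂ a b‖ ^ 2 := by
  have h1 : BL (EuclideanSpace ℂ (Fin n)) (io a) Y = (c * inner ℂ a b - c).re := by
    rw [BL_apply]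
    simp only [io]
    rw [k5_inner, hY, inner_smul_right, Complex.sub_re, hr]
    ring
  have h2 : BL (EuclideanSpace ℂ (Fin n)) (JL (Pool.Agent.Helper75.ROT.iC n) (io a)) Y =
      (c * inner ℂ a b - c).im := by
    rw [BL_apply, JL_apply]
    simp only [io]
    rw [Pool.Agent.Helper75.ROT.iC_apply, k5_inner_I, hY, inner_smul_right, Complex.sub_im, hi]
    ring
  rw [h1, h2, ← mul_pow, ← norm_mul, mul_sub, mul_one, ← norm_sub_rev, ← Complex.normSq_eq_norm_sq,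
    Complex.normSq_apply]
  ring

/-- piece `JH-K5`: compare `centre_eq` in Helper77/JE/Fin.lean (there with `lam > 1`, here `lam = 1`) and Helper64/JH/D13.lean. Put
`X = io z`, `s = √(1 - ‖z‖²)`, `ν = nu .. (io z) = (a, b, v)`, `q = a + i b = ⟨z, v⟩`, `u = unor = s (v - q z)`, `(1 - ‖z‖²)⁻¹ ⟨z, u⟩ = s q`;
`Y = xs X - ν`, its complex first component is `c = s⁻¹ - q`, not zero because `|q|² (1 - ‖z‖²) ≤ ‖z‖² < 1` (`|v|² - |q|² = 1`,
`|q| ≤ ‖z‖ |v|`); `b := endC = pr Y`, so `Y = c (1, b)` and `BL (io a) Y ^ 2 + BL (JL (io a)) Y ^ 2 = |c|² |1 - ⟨a, b⟩|²` for every `a`;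
for `a = z` the left side is `1 - ‖z‖²` (`BL (io z) Y = - s`, `BL (JL (io z)) Y = 0`). -/
theorem horoC {n : ℕ} {ρ : EuclideanSpace ℂ (Fin n) → ℝ}
    (hs : ContDiffOn ℝ 3 ρ (Metric.ball 0 1)) {z : EuclideanSpace ℂ (Fin n)} (hz : ‖z‖ < 1)
    (hr : fderiv ℝ ρ z ≠ 0) {p : EuclideanSpace ℂ (Fin n)} (hp : ‖p‖ < 1)
    (hb : HoroC (endC (bergman n) ρ z) z p) :
    BL (EuclideanSpace ℂ (Fin n)) ((√(1 - ‖p‖ ^ 2))⁻¹ • io p)
        (nu (BL _) (GG (Pool.Agent.Helper75.ROT.iC n) ρ) (io z) - xs (BL _) (io z)) ^ 2 +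
      BL (EuclideanSpace ℂ (Fin n)) (JL (Pool.Agent.Helper75.ROT.iC n) ((√(1 - ‖p‖ ^ 2))⁻¹ • io p))
        (nu (BL _) (GG (Pool.Agent.Helper75.ROT.iC n) ρ) (io z) - xs (BL _) (io z)) ^ 2 ≤ 1 := by
  obtain ⟨hj, -, hinv⟩ := bergman_data (n := n)
  have hz' : z ∈ Metric.ball (0 : EuclideanSpace ℂ (Fin n)) 1 := by simpa using hz
  have hd : DifferentiableAt ℝ ρ z :=
    ((hs.differentiableOn (by norm_num)) z hz').differentiableAt (Metric.isOpen_ball.mem_nhds hz')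
  have hS : 0 < 1 - ‖z‖ ^ 2 := by
    have := norm_nonneg z
    nlinarith
  have hp2 : 0 < 1 - ‖p‖ ^ 2 := by
    have := norm_nonneg p
    nlinarith
  have hbx : BL (EuclideanSpace ℂ (Fin n)) (io z) (io z) = -(1 - ‖z‖ ^ 2) := by
    simp [BL_apply, io]
  have htt : tt (BL (EuclideanSpace ℂ (Fin n))) (io z) = 1 - ‖z‖ ^ 2 := by
    rw [tt, hbx, neg_neg]
  have hX : io z ∈ UU (Pool.Agent.Helper75.ROT.iC n) ρ := by
    refine ⟨by rw [hbx]; linarith, ?_⟩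
    rw [pr_io]
    exact hr
  have hP := (gdL hj hs).pt (hfL hj) hX
  have hu : unor (bergman n) ρ z = √(1 - ‖z‖ ^ 2) •
      dn (Pool.Agent.Helper75.ROT.iC n) (nu (BL (EuclideanSpace ℂ (Fin n)))
        (GG (Pool.Agent.Helper75.ROT.iC n) ρ)) z := by
    unfold unor
    rw [hinv z _ hz]
    exact normal_eq hj hz hd hr
  have hdn : dn (Pool.Agent.Helper75.ROT.iC n) (nu (BL (EuclideanSpace ℂ (Fin n)))
        (GG (Pool.Agent.Helper75.ROT.iC n) ρ)) z =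
      (nu (BL (EuclideanSpace ℂ (Fin n))) (GG (Pool.Agent.Helper75.ROT.iC n) ρ) (io z)).2.2 -
      (nu (BL (EuclideanSpace ℂ (Fin n))) (GG (Pool.Agent.Helper75.ROT.iC n) ρ) (io z)).1 • z -
      (nu (BL (EuclideanSpace ℂ (Fin n))) (GG (Pool.Agent.Helper75.ROT.iC n) ρ) (io z)).2.1 •
        (Complex.I • z) := rfl
  have hnn := hP.nn
  have hxn := hP.xn
  have hjxn := hP.jxn
  rw [hdn] at hu
  generalize nu (BL (EuclideanSpace ℂ (Fin n))) (GG (Pool.Agent.Helper75.ROT.iC n) ρ) (io z) = ν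
    at hu hnn hxn hjxn ⊢
  obtain ⟨σ, hσ⟩ : ∃ σ, σ = √(1 - ‖z‖ ^ 2) := ⟨_, rfl⟩
  have hσ0 : 0 < σ := by
    rw [hσ]
    exact Real.sqrt_pos.2 hS
  have hσ2 : σ ^ 2 = 1 - ‖z‖ ^ 2 := by
    rw [hσ]
    exact Real.sq_sqrt hS.le
  have hxs : xs (BL (EuclideanSpace ℂ (Fin n))) (io z) = σ⁻¹ • io z := by
    rw [xs, htt, ← hσ]
  -- the values at `io z`
  have e1 : BL (EuclideanSpace ℂ (Fin n)) (io z) (σ⁻¹ • io z - ν) = -σ := by
    rw [map_sub, hxn, map_smul, hbx, smul_eq_mul, ← hσ2]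
    field_simp
    ring
  have e2 : BL (EuclideanSpace ℂ (Fin n)) (JL (Pool.Agent.Helper75.ROT.iC n) (io z))
      (σ⁻¹ • io z - ν) = 0 := by
    rw [map_sub, hjxn, map_smul, (hfL hj).self0, smul_eq_mul]
    ring
  obtain ⟨a, b, v⟩ := ν
  have hnn' : ‖v‖ ^ 2 = 1 + (a ^ 2 + b ^ 2) := by
    rw [BL_apply] at hnn
    simp only at hnn
    rw [real_inner_self_eq_norm_sq] at hnn
    linarith
  have hxn' : inner ℝ z v = a := by
    rw [BL_apply] at hxn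
    simp only [io] at hxn
    linarith
  have hjxn' : inner ℝ (Complex.I • z) v = b := by
    rw [BL_apply, JL_apply] at hjxn
    simp only [io] at hjxn
    have h1 : inner ℝ (Pool.Agent.Helper75.ROT.iC n z) v = b := by linarith
    exact h1
  simp only at hu
  obtain ⟨q, hq⟩ : ∃ q : ℂ, q = (a : ℂ) + b * Complex.I := ⟨_, rfl⟩
  have hqre : q.re = a := by
    rw [hq]
    simp
  have hqim : q.im = b := by
    rw [hq]
    simp
  have hin : inner ℂ z v = q := by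
    refine Complex.ext ?_ ?_
    · rw [← k5_inner, hxn', hqre]
    · rw [← k5_inner_I, hjxn', hqim]
  have hqn : ‖q‖ ^ 2 = a ^ 2 + b ^ 2 := by
    rw [← Complex.normSq_eq_norm_sq, Complex.normSq_apply, hqre, hqim]
    ring
  have hqs : ‖q‖ ^ 2 * σ ^ 2 < 1 := by
    have h1 : ‖q‖ ≤ ‖z‖ * ‖v‖ := by
      rw [← hin]
      exact norm_inner_le_norm z v
    have h2 : ‖q‖ ^ 2 ≤ ‖z‖ ^ 2 * ‖v‖ ^ 2 := by
      rw [← mul_pow]
      exact pow_le_pow_left₀ (norm_nonneg _) h1 2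
    rw [hnn', ← hqn] at h2
    rw [hσ2]
    nlinarith
  have hσc : (σ : ℂ) ≠ 0 := by exact_mod_cast hσ0.ne'
  obtain ⟨c, hc⟩ : ∃ c : ℂ, c = (σ : ℂ)⁻¹ - q := ⟨_, rfl⟩
  have hcre : c.re = (σ⁻¹ • io z - (a, b, v) : ℝ × ℝ × EuclideanSpace ℂ (Fin n)).1 := by
    rw [hc, Complex.sub_re, hqre, ← Complex.ofReal_inv, Complex.ofReal_re]
    simp [io]
  have hcim : c.im = (σ⁻¹ • io z - (a, b, v) : ℝ × ℝ × EuclideanSpace ℂ (Fin n)).2.1 := by
    rw [hc, Complex.sub_im, hqim, ← Complex.ofReal_inv, Complex.ofReal_im]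
    simp [io]
  have hcne : c ≠ 0 := by
    intro h0
    have h1 : q = ((σ⁻¹ : ℝ) : ℂ) := by
      rw [Complex.ofReal_inv]
      rw [hc] at h0
      exact (sub_eq_zero.1 h0).symm
    have h2 : ‖q‖ ^ 2 * σ ^ 2 = 1 := by
      rw [h1, Complex.norm_real, Real.norm_eq_abs, sq_abs]
      field_simp
    linarith
  have hu2 : unor (bergman n) ρ z = (σ : ℂ) • (v - q • z) := by
    rw [hu, ← hσ, k5_smul σ, k5_smul a, k5_smul b, hq, smul_smul]
    congr 1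
    module
  have hzz : inner ℂ z z = ((‖z‖ ^ 2 : ℝ) : ℂ) := by
    rw [inner_self_eq_norm_sq_to_K]
    push_cast
    rfl
  have hin2 : inner ℂ z (unor (bergman n) ρ z) = (σ : ℂ) * (q * ((σ ^ 2 : ℝ) : ℂ)) := by
    rw [hu2, inner_smul_right, inner_sub_right, inner_smul_right, hin, hzz, hσ2]
    push_cast
    ring
  have hend : c • endC (bergman n) ρ z = ((σ⁻¹ : ℝ) : ℂ) • z - v := by
    unfold endC
    have h2 : (1 : ℂ) - (‖z‖ : ℂ) ^ 2 = (σ : ℂ) ^ 2 := by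
      have : ((σ ^ 2 : ℝ) : ℂ) = ((1 - ‖z‖ ^ 2 : ℝ) : ℂ) := by rw [hσ2]
      push_cast at this
      exact this.symm
    have h1 : (1 - inner ℂ z (unor (bergman n) ρ z) / (1 - (‖z‖ : ℂ) ^ 2))⁻¹ = (σ * c)⁻¹ := by
      congr 1
      rw [hin2, h2, hc]
      push_cast
      field_simp
    rw [h1, hu2, smul_sub, smul_smul, smul_smul]
    have h3 : c * (σ * c)⁻¹ * σ = 1 := by
      field_simp
    rw [h3, one_smul]
    have h4 : c • z = (((σ⁻¹ : ℝ) : ℂ) - q) • z := by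
      rw [hc]
      push_cast
      rfl
    rw [h4]
    module
  have hY2 : (σ⁻¹ • io z - (a, b, v) : ℝ × ℝ × EuclideanSpace ℂ (Fin n)).2.2 =
      c • endC (bergman n) ρ z := by
    rw [hend, ← k5_smul]
    simp [io]
  have hzq := k5_hq z (endC (bergman n) ρ z) _ hcre hcim hY2
  have hpq := k5_hq p (endC (bergman n) ρ z) _ hcre hcim hY2
  rw [e1, e2] at hzq
  unfold HoroC at hb
  have hneg : ((a, b, v) - xs (BL (EuclideanSpace ℂ (Fin n))) (io z) :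
      ℝ × ℝ × EuclideanSpace ℂ (Fin n)) = -(σ⁻¹ • io z - (a, b, v)) := by
    rw [hxs]
    abel
  rw [hneg]
  generalize (σ⁻¹ • io z - (a, b, v) : ℝ × ℝ × EuclideanSpace ℂ (Fin n)) = Y at hzq hpq ⊢
  have e6 : BL (EuclideanSpace ℂ (Fin n)) (io p) Y ^ 2 +
      BL (EuclideanSpace ℂ (Fin n)) (JL (Pool.Agent.Helper75.ROT.iC n) (io p)) Y ^ 2 ≤
      1 - ‖p‖ ^ 2 := by
    rw [hpq]
    have e7 := mul_le_mul_of_nonneg_left hb (sq_nonneg ‖c‖)
    have e8 : ‖c‖ ^ 2 * ‖1 - inner ℂ p (endC (bergman n) ρ z)‖ ^ 2 * (1 - ‖z‖ ^ 2) ≤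
        (1 - ‖p‖ ^ 2) * (1 - ‖z‖ ^ 2) := by
      calc _ = ‖c‖ ^ 2 * (‖1 - inner ℂ p (endC (bergman n) ρ z)‖ ^ 2 * (1 - ‖z‖ ^ 2)) := by ring
        _ ≤ _ := e7
        _ = (‖c‖ ^ 2 * ‖1 - inner ℂ z (endC (bergman n) ρ z)‖ ^ 2) * (1 - ‖p‖ ^ 2) := by ring
        _ = _ := by
          rw [← hzq, ← hσ2]
          ring
    exact le_of_mul_le_mul_right e8 hS
  have e10 : (√(1 - ‖p‖ ^ 2))⁻¹ ^ 2 = (1 - ‖p‖ ^ 2)⁻¹ := by
    rw [inv_pow, Real.sq_sqrt hp2.le]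
  have e11 : ∀ X : ℝ × ℝ × EuclideanSpace ℂ (Fin n),
      BL (EuclideanSpace ℂ (Fin n)) ((√(1 - ‖p‖ ^ 2))⁻¹ • X) (-Y) ^ 2 =
        (1 - ‖p‖ ^ 2)⁻¹ * BL (EuclideanSpace ℂ (Fin n)) X Y ^ 2 := by
    intro X
    rw [map_neg, map_smul, ContinuousLinearMap.smul_apply, smul_eq_mul, neg_sq, mul_pow, e10]
  have e12 : JL (Pool.Agent.Helper75.ROT.iC n) ((√(1 - ‖p‖ ^ 2))⁻¹ • io p) =
      (√(1 - ‖p‖ ^ 2))⁻¹ • JL (Pool.Agent.Helper75.ROT.iC n) (io p) := map_smul _ _ _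
  rw [e12, e11, e11, ← mul_add, inv_mul_le_iff₀ hp2, mul_one]
  exact e6

end Pool.Agent.Helper77.JH.CH
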