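import Pool.Agent.Helper77.JH.K4
import Pool.Agent.Helper77.JH.K5

/-! # JH, complex hyperbolic space: the theorem -/

set_option autoImplicit false
set_option linter.unusedSectionVars false
set_option linter.unusedVariables false

open Filter Topology Set
open scoped ContDiff

namespace Pool.Agent.Helper77.JH.CH

open Pool.Agent.Helper77.JE
open Pool.Agent.Helper77.JH (endC HoroC)
open Pool.Agent.Helper41.ALX (divg Vertical ballMetric meanCurv PC bergman vertical_PC bergman_eq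
  radial)

/-- the theorem -/
theorem finalC {n : ℕ} (hn : 2 ≤ n) {ρ : EuclideanSpace ℂ (Fin n) → ℝ} {lam : ℝ} (hlam : 1 < lam)
    (hc : Pool.Agent.Helper75.ROT.CMC (bergman n) ρ ((2 * n - 1) * lam + lam⁻¹))
    {p : EuclideanSpace ℂ (Fin n)} (hp : ‖p‖ < 1)
    (hb : ∀ z ∈ Metric.ball (0 : EuclideanSpace ℂ (Fin n)) 1, ρ z = 0 →
      HoroC (endC (bergman n) ρ z) z p) :
    ∃ c : EuclideanSpace ℂ (Fin n), ‖c‖ < 1 ∧
      ∀ z ∈ Metric.ball (0 : EuclideanSpace ℂ (Fin n)) 1,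
        (ρ z < 0 ↔ ‖1 - inner ℂ c z‖ ^ 2 * (1 - lam⁻¹ ^ 2) < (1 - ‖c‖ ^ 2) * (1 - ‖z‖ ^ 2)) ∧
        (ρ z = 0 ↔ ‖1 - inner ℂ c z‖ ^ 2 * (1 - lam⁻¹ ^ 2) = (1 - ‖c‖ ^ 2) * (1 - ‖z‖ ^ 2)) := by
  obtain ⟨hj, hdet, hinv⟩ := bergman_data (n := n)
  have hdim : Module.finrank ℝ (EuclideanSpace ℂ (Fin n)) = 2 * n := by
    have h1 := finrank_real_of_complex (EuclideanSpace ℂ (Fin n))
    rw [finrank_euclideanSpace_fin] at h1
    exact h1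
  have hreg : ∀ z : EuclideanSpace ℂ (Fin n), ‖z‖ < 1 → ρ z = 0 → fderiv ℝ ρ z ≠ 0 := by
    intro z hz h0 hf
    apply hc.regular z (by simpa using hz) h0
    rw [gradient, hf, map_zero]
  have hcurv : ∀ z : EuclideanSpace ℂ (Fin n), ‖z‖ < 1 → ρ z = 0 →
      mc (Pool.Agent.Helper75.ROT.iC n) ρ z = (2 * n - 1) * lam + lam⁻¹ := by
    intro z hz h0
    rw [← meanCurv_mc hj hdim hdet hinv hc.smooth hz (hreg z hz h0)]
    exact hc.curvature z (by simpa using hz) h0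
  have hp2 : 0 < 1 - ‖p‖ ^ 2 := by nlinarith [norm_nonneg p]
  have hl0 : 0 < lam := by linarith
  have hl2 : 0 < lam ^ 2 - 1 := by nlinarith
  set c := (√(1 - ‖p‖ ^ 2))⁻¹ with hcd
  have hc2 : c ^ 2 * (1 - ‖p‖ ^ 2) = 1 := by
    rw [hcd, inv_pow, Real.sq_sqrt hp2.le, inv_mul_cancel₀ hp2.ne']
  have hPP : BL (EuclideanSpace ℂ (Fin n)) (c • io p) (c • io p) = -1 := by
    have h1 : BL (EuclideanSpace ℂ (Fin n)) (io p) (io p) = ‖p‖ ^ 2 - 1 := by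
      rw [BL_apply]
      simp [io]
    simp only [map_smul, smul_apply, smul_eq_mul]
    rw [h1]
    linear_combination -hc2
  have hyp : Hy (Pool.Agent.Helper75.ROT.iC n) ρ n lam (c • io p) :=
    ⟨hj, hdim, hn, hlam, hc.smooth, hreg, hcurv, hPP, fun z hz h0 =>
      horoC hc.smooth hz (hreg z hz h0) hp (hb z (by simpa using hz) h0)⟩
  obtain ⟨c₀, hc0, hm⟩ := main hyp hc.bounded hc.nonempty hc.connected
  refine ⟨c₀, hc0, fun z hz => ?_⟩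
  have hz1 : ‖z‖ < 1 := by simpa using hz
  have hz2 : 0 < 1 - ‖z‖ ^ 2 := by nlinarith [norm_nonneg z]
  have hn2 : 0 < 1 - ‖c₀‖ ^ 2 := by nlinarith [norm_nonneg c₀]
  obtain ⟨ha, hb'⟩ := hm z hz
  have h1 : cq (Pool.Agent.Helper75.ROT.iC n) c₀ z = ‖1 - inner ℂ c₀ z‖ ^ 2 := by
    have h2 := coshSq_eq c₀ z
    unfold coshSq at h2
    have h3 : (1 - ‖c₀‖ ^ 2) * (1 - ‖z‖ ^ 2) ≠ 0 := (mul_pos hn2 hz2).ne'
    rw [div_left_inj' h3] at h2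
    exact h2.symm
  have h2 : (1 - lam⁻¹ ^ 2) = (lam ^ 2 - 1) / lam ^ 2 := by
    field_simp
  have h3 : 0 < lam ^ 2 := by positivity
  rw [h1] at ha hb'
  have h4 : lam ^ 2 / (lam ^ 2 - 1) * (1 - ‖c₀‖ ^ 2) * (1 - ‖z‖ ^ 2) =
      ((1 - ‖c₀‖ ^ 2) * (1 - ‖z‖ ^ 2)) / ((lam ^ 2 - 1) / lam ^ 2) := by
    field_simp
  have h5 : 0 < (lam ^ 2 - 1) / lam ^ 2 := div_pos hl2 h3
  rw [h4, lt_div_iff₀ h5] at ha
  rw [h4, eq_div_iff h5.ne'] at hb'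
  rw [h2]
  exact ⟨ha, hb'⟩

end Pool.Agent.Helper77.JH.CH
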