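import Pool.Agent.Helper77.JH.E6
import Pool.Agent.Helper77.JH.K6
import Pool.Agent.Helper77.JH.F2d
import Pool.Agent.Helper77.JH.F2Cd

/-! # JH: the theorems for every constant mean curvature -/

set_option autoImplicit false
set_option linter.unusedSectionVars false
set_option linter.unusedVariables false

open Filter Topology Set Quaternion
open scoped ContDiff

namespace Pool.Agent.Helper77.JH

open Pool.Agent.Helper41.ALX (ballMetric bergman)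
open Pool.Agent.Helper75.ROT (HV RH hH IsPH CMC iC)
open Pool.Agent.Helper64.JH (quat_data)

theorem finalH {n : ℕ} (hn : 1 ≤ n) {P : HV n → HV n →L[ℝ] HV n} (hP : IsPH P) {ρ : HV n → ℝ}
    {H : ℝ} (hc : CMC (ballMetric P) ρ H) {p : HV n} (hp : ‖p‖ < 1)
    (hb : ∀ z ∈ Metric.ball (0 : HV n) 1, ρ z = 0 → HoroH (endH (ballMetric P) ρ z) z p) :
    ∃ (c : HV n) (R : ℝ), ‖c‖ < 1 ∧ 1 < R ∧ ∀ z ∈ Metric.ball (0 : HV n) 1,
      (ρ z < 0 ↔ ‖1 - hm c z‖ ^ 2 < R * (1 - ‖z‖ ^ 2) * (1 - ‖c‖ ^ 2)) ∧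
      (ρ z = 0 ↔ ‖1 - hm c z‖ ^ 2 = R * (1 - ‖z‖ ^ 2) * (1 - ‖c‖ ^ 2)) := by
  obtain ⟨hq, hk, hdet, hinv⟩ := quat_data hP
  have hfin : Module.finrank ℝ (HV n) = 4 * n + 4 := by omega
  have : Nontrivial (HV n) := Module.nontrivial_of_finrank_pos (R := ℝ) (by omega)
  have hreg : ∀ z : HV n, ‖z‖ < 1 → ρ z = 0 → fderiv ℝ ρ z ≠ 0 := by
    intro z hz h0 hf
    apply hc.regular z (by simpa using hz) h0
    rw [gradient, hf, map_zero]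
  obtain ⟨z₀, h0, h1, hz, hm'⟩ := far_point hc.smooth hc.bounded hc.nonempty
  have hgt := mc_far hq hc.smooth h0 h1 hz (hreg z₀ h1 hz) hm'
  rw [← Pool.Agent.Helper64.JH.meanCurv_mc hq hk hdet hinv hc.smooth h1 (hreg z₀ h1 hz),
    hc.curvature z₀ (by simpa using h1) hz, hfin] at hgt
  obtain ⟨lam, hlam, hH⟩ := exists_lam (m := 4 * n) (a := 3) (H := H) (by positivity)
    (by norm_num) (by push_cast at hgt; linarith)
  rw [hH] at hc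
  obtain ⟨c, hc1, hc2⟩ := final hn hP hlam hc hp hb
  have hl2 : 0 < lam ^ 2 - 1 := by nlinarith
  have hl3 : 0 < lam ^ 2 := by nlinarith
  refine ⟨c, lam ^ 2 / (lam ^ 2 - 1), hc1, ?_, fun z hz => ?_⟩
  · rw [one_lt_div hl2]
    linarith
  · obtain ⟨ha, hb'⟩ := hc2 z hz
    have h2 : (1 - lam⁻¹ ^ 2) = (lam ^ 2 - 1) / lam ^ 2 := by
      field_simp
    have h4 : lam ^ 2 / (lam ^ 2 - 1) * (1 - ‖z‖ ^ 2) * (1 - ‖c‖ ^ 2) =
        ((1 - ‖c‖ ^ 2) * (1 - ‖z‖ ^ 2)) / ((lam ^ 2 - 1) / lam ^ 2) := by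
      field_simp
    have h5 : 0 < (lam ^ 2 - 1) / lam ^ 2 := div_pos hl2 hl3
    rw [h2] at ha hb'
    rw [h4, lt_div_iff₀ h5, eq_div_iff h5.ne']
    exact ⟨ha, hb'⟩

theorem finalCH {n : ℕ} (hn : 2 ≤ n) {ρ : EuclideanSpace ℂ (Fin n) → ℝ} {H : ℝ}
    (hc : CMC (bergman n) ρ H) {p : EuclideanSpace ℂ (Fin n)} (hp : ‖p‖ < 1)
    (hb : ∀ z ∈ Metric.ball (0 : EuclideanSpace ℂ (Fin n)) 1, ρ z = 0 →
      HoroC (endC (bergman n) ρ z) z p) :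
    ∃ (c : EuclideanSpace ℂ (Fin n)) (R : ℝ), ‖c‖ < 1 ∧ 1 < R ∧
      ∀ z ∈ Metric.ball (0 : EuclideanSpace ℂ (Fin n)) 1,
      (ρ z < 0 ↔ ‖1 - inner ℂ c z‖ ^ 2 < R * (1 - ‖z‖ ^ 2) * (1 - ‖c‖ ^ 2)) ∧
      (ρ z = 0 ↔ ‖1 - inner ℂ c z‖ ^ 2 = R * (1 - ‖z‖ ^ 2) * (1 - ‖c‖ ^ 2)) := by
  obtain ⟨hj, hdet, hinv⟩ := Pool.Agent.Helper77.JE.bergman_data (n := n)
  have hdim : Module.finrank ℝ (EuclideanSpace ℂ (Fin n)) = 2 * n := by
    have h1 := finrank_real_of_complex (EuclideanSpace ℂ (Fin n))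
    rw [finrank_euclideanSpace_fin] at h1
    exact h1
  have : Nontrivial (EuclideanSpace ℂ (Fin n)) :=
    Module.nontrivial_of_finrank_pos (R := ℝ) (by omega)
  have hreg : ∀ z : EuclideanSpace ℂ (Fin n), ‖z‖ < 1 → ρ z = 0 → fderiv ℝ ρ z ≠ 0 := by
    intro z hz h0 hf
    apply hc.regular z (by simpa using hz) h0
    rw [gradient, hf, map_zero]
  obtain ⟨z₀, h0, h1, hz, hm'⟩ := far_point hc.smooth hc.bounded hc.nonempty
  have hgt := CH.mc_far hj hc.smooth h0 h1 hz (hreg z₀ h1 hz) hm'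
  rw [← Pool.Agent.Helper77.JE.meanCurv_mc hj hdim hdet hinv hc.smooth h1 (hreg z₀ h1 hz),
    hc.curvature z₀ (by simpa using h1) hz, hdim] at hgt
  have hn' : (2 : ℝ) ≤ n := by exact_mod_cast hn
  obtain ⟨lam, hlam, hH⟩ := exists_lam (m := 2 * n - 2) (a := 1) (H := H) (by linarith)
    (by norm_num) (by push_cast at hgt; linarith)
  have hH' : H = (2 * n - 1) * lam + lam⁻¹ := by rw [hH]; ring
  rw [hH'] at hc
  obtain ⟨c, hc1, hc2⟩ := CH.finalC hn hlam hc hp hb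
  have hl2 : 0 < lam ^ 2 - 1 := by nlinarith
  have hl3 : 0 < lam ^ 2 := by nlinarith
  refine ⟨c, lam ^ 2 / (lam ^ 2 - 1), hc1, ?_, fun z hz => ?_⟩
  · rw [one_lt_div hl2]
    linarith
  · obtain ⟨ha, hb'⟩ := hc2 z hz
    have h2 : (1 - lam⁻¹ ^ 2) = (lam ^ 2 - 1) / lam ^ 2 := by
      field_simp
    have h4 : lam ^ 2 / (lam ^ 2 - 1) * (1 - ‖z‖ ^ 2) * (1 - ‖c‖ ^ 2) =
        ((1 - ‖c‖ ^ 2) * (1 - ‖z‖ ^ 2)) / ((lam ^ 2 - 1) / lam ^ 2) := by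
      field_simp
    have h5 : 0 < (lam ^ 2 - 1) / lam ^ 2 := div_pos hl2 hl3
    rw [h2] at ha hb'
    rw [h4, lt_div_iff₀ h5, eq_div_iff h5.ne']
    exact ⟨ha, hb'⟩

end Pool.Agent.Helper77.JH
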