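import Pool.Agent.Helper77.JH.E0
import Pool.Agent.Helper77.JH.E2
import Pool.Agent.Helper77.JE.Lift

/-! # JH: one complex structure -/

set_option autoImplicit false
set_option linter.unusedSectionVars false
set_option linter.unusedVariables false

namespace Pool.Agent.Helper77.JH

open Pool.Agent.Helper77.JE (Hf Hz Fr Pt Gd rr nu NN tt xs SS Tm)

variable {L : Type*} [NormedAddCommGroup L] [NormedSpace ℝ L]
variable {κ : Type*} [Fintype κ] [DecidableEq κ]
variable {B : L →L[ℝ] L →L[ℝ] ℝ} {J : L →L[ℝ] L} {X ν w : L}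

/-- one complex structure as a family -/
noncomputable def JU (J : L →L[ℝ] L) : Unit → L →L[ℝ] L := fun _ => J

theorem hq_unit (hH : Hf B J) : Hq B (JU J) (fun _ _ _ => 0) := by
  refine ⟨fun _ => hH, hH.symm, hH.nd, fun i j v => ?_, fun _ _ _ => by simp, fun _ _ _ => by simp,
    fun i l => ?_⟩
  · simp [JU, hH.jj]
  · simp

theorem hz_unit : HzQ B (JU J) X ν w ↔ Hz B J X ν w := by
  constructor
  · rintro ⟨h1, h2, h3⟩
    exact ⟨h1, h2 (), h3⟩
  · rintro ⟨h1, h2, h3⟩
    exact ⟨h1, fun _ => h2, h3⟩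

theorem fr_unit {e : Option κ → L} (he : Fr B J X ν e) :
    FrQ B (JU J) X ν (Sum.elim (fun i => e (some i)) (fun _ : Unit => e none)) := by
  refine ⟨fun _ => he.xi, ?_, ?_, fun w => ?_⟩
  · rintro (i | i)
    · exact hz_unit.2 (he.hz _)
    · exact hz_unit.2 (he.hz _)
  · rintro (i | i) (j | j)
    · simpa using he.on (some i) (some j)
    · simpa using he.on (some i) none
    · simpa using he.on none (some j)
    · simpa using he.on none none
  · conv_lhs => rw [he.comp w]
    rw [Fintype.sum_option, Fintype.sum_sum_type]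
    simp only [Sum.elim_inl, Sum.elim_inr, Finset.univ_unique, Finset.sum_singleton, JU]
    abel

theorem tt_unit (lam : ℝ) (g : L → L) :
    TT B (JU J) lam g X = Tm B J lam (xs B X) (nu B g X) (SS B g X) := by
  unfold TT Tm
  simp [JU]

end Pool.Agent.Helper77.JH
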