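import Pool.Agent.Helper65.HB.T0

/-! # JH, complex hyperbolic space: the point `p` on the hypersurface -/

set_option autoImplicit false
set_option linter.unusedSectionVars false
set_option linter.unusedVariables false

open Filter Topology Set
open scoped ContDiff

namespace Pool.Agent.Helper77.JH.CH

open Pool.Agent.Helper77.JE
open Pool.Agent.Helper77.JH (HzQ TT VQ GpO JU Rq hz_unit tt_unit)
open Pool.Agent.Helper41.ALX (divg Vertical ballMetric meanCurv PC bergman vertical_PC bergman_eq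
  radial)

section abs_k3b

variable {L : Type*} [NormedAddCommGroup L] [NormedSpace ℝ L]
variable {B : L →L[ℝ] L →L[ℝ] ℝ} {J : L →L[ℝ] L} {U : Set L} {g : L → L}

/-- the projection on the horizontal tangential vectors -/
private noncomputable def pHk (B : L →L[ℝ] L →L[ℝ] ℝ) (J : L →L[ℝ] L) (g : L → L) (w X : L) : L :=
  w + (tt B X)⁻¹ • (B w X • X + B w (J X) • J X) - B w (nu B g X) • nu B g X

private theorem pHk_hz (hH : Hf B J) (hG : Gd B J U g) {X : L} (hX : X ∈ U) (w : L) :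
    Hz B J X (nu B g X) (pHk B J g w X) := by
  have hP := hG.pt hH hX
  have ht : tt B X ≠ 0 := by
    have h1 := hG.neg X hX
    unfold tt
    linarith
  have x1 : B X X = -(tt B X) := by unfold tt; ring
  have x2 : B (J X) X = 0 := hH.self0 X
  have x3 : B X (J X) = 0 := by rw [hH.symm, x2]
  have x4 : B (J X) (J X) = -(tt B X) := by rw [hH.inv, x1]
  have x5 : B (nu B g X) X = 0 := by rw [hH.symm, hP.xn]
  have x6 : B (nu B g X) (J X) = 0 := by rw [hH.symm, hP.jxn]
  refine ⟨?_, ?_, ?_⟩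
  · unfold pHk
    simp only [map_add, map_sub, map_smul, ContinuousLinearMap.add_apply,
      ContinuousLinearMap.sub_apply, ContinuousLinearMap.smul_apply, smul_eq_mul, x1, x2, x5]
    field_simp
    ring
  · unfold pHk
    simp only [map_add, map_sub, map_smul, ContinuousLinearMap.add_apply,
      ContinuousLinearMap.sub_apply, ContinuousLinearMap.smul_apply, smul_eq_mul, x3, x4, x6]
    field_simp
    ring
  · unfold pHk
    simp only [map_add, map_sub, map_smul, ContinuousLinearMap.add_apply,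
      ContinuousLinearMap.sub_apply, ContinuousLinearMap.smul_apply, smul_eq_mul, hP.xn, hP.jxn,
      hP.nn]
    ring

private theorem pHk_self {X w : L} (hw : Hz B J X (nu B g X) w) : pHk B J g w X = w := by
  unfold pHk
  rw [hw.1, hw.2.1, hw.2.2]
  simp

private theorem Tk_cont (hG : Gd B J U g) (lam : ℝ) (w : L) :
    ContinuousOn (fun X => Tm B J lam (xs B X) (nu B g X) (SS B g X) (pHk B J g w X)) U := by
  have ht : ContinuousOn (tt B) U := by
    have h1 : Continuous fun X : L => B X X := by fun_prop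
    exact h1.neg.continuousOn
  have htp : ∀ X ∈ U, 0 < tt B X := fun X hX => neg_pos.2 (hG.neg X hX)
  have hst : ContinuousOn (fun X => √(tt B X)) U := ht.sqrt
  have hx : ContinuousOn (xs B) U :=
    (hst.inv₀ fun X hX => (Real.sqrt_pos.2 (htp X hX)).ne').smul continuousOn_id
  have hν : ContinuousOn (nu B g) U := hG.nu_c2.continuousOn
  have hS : ContinuousOn (SS B g) U := hst.smul hG.NN_c1.continuousOn
  have hJν : ContinuousOn (fun X => J (nu B g X)) U := J.continuous.comp_continuousOn hν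
  have hJx : ContinuousOn (fun X => J (xs B X)) U := J.continuous.comp_continuousOn hx
  have hp : ContinuousOn (fun X => pHk B J g w X) U := by
    have a1 : Continuous fun X : L => B w X • X := by fun_prop
    have a2 : Continuous fun X : L => B w (J X) • J X := by fun_prop
    have a3 : ContinuousOn (fun X => B w (nu B g X)) U := (B w).continuous.comp_continuousOn hν
    exact (continuousOn_const.add ((ht.inv₀ fun X hX => (htp X hX).ne').smul
      (a1.add a2).continuousOn)).sub (a3.smul hν)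
  have hb : ContinuousOn (fun X => B (J (nu B g X)) (pHk B J g w X)) U :=
    (B.continuous.comp_continuousOn hJν).clm_apply hp
  have h2 := ((((hS.clm_apply hp).add (hb.smul hJx)).sub (hp.const_smul lam)).sub
    ((hb.const_smul lam⁻¹).smul hJν))
  refine h2.congr fun X _ => ?_
  simp [Tm, smul_smul]

end abs_k3b

variable {E : Type*} [NormedAddCommGroup E] [InnerProductSpace ℝ E] [FiniteDimensional ℝ E]

private theorem not_isolated_k3b {ρ : E → ℝ} (hdim : 2 ≤ Module.finrank ℝ E) {z : E}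
    (hz : ‖z‖ < 1) (hs : ContDiffOn ℝ 1 ρ (Metric.ball 0 1)) (h0 : ρ z = 0)
    (hr : fderiv ℝ ρ z ≠ 0) :
    ∃ y : ℕ → E, Tendsto y atTop (𝓝 z) ∧ ∀ i, ‖y i‖ < 1 ∧ ρ (y i) = 0 ∧ y i ≠ z := by
  obtain ⟨v, hv⟩ : ∃ v, 0 < fderiv ℝ ρ z v := by
    by_contra hcon
    push Not at hcon
    apply hr
    ext v
    have h1 := hcon v
    have h2 := hcon (-v)
    rw [map_neg] at h2
    rw [ContinuousLinearMap.zero_apply]
    linarith
  have hv0 : v ≠ 0 := by
    rintro rfl
    simp at hv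
  have hvn : 0 < ‖v‖ := norm_pos_iff.2 hv0
  have hd : HasFDerivAt ρ (fderiv ℝ ρ z) z :=
    ((hs.contDiffAt (Metric.isOpen_ball.mem_nhds (by simpa using hz))).differentiableAt
      (by norm_num)).hasFDerivAt
  have hl : HasDerivAt (fun t : ℝ => z + t • v) v 0 := by
    simpa using ((hasDerivAt_id (0 : ℝ)).smul_const v).const_add z
  have hd' : HasFDerivAt ρ (fderiv ℝ ρ z) ((fun t : ℝ => z + t • v) 0) := by simpa using hd
  have hline : HasDerivAt (fun t : ℝ => ρ (z + t • v)) (fderiv ℝ ρ z v) 0 :=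
    hd'.comp_hasDerivAt (0 : ℝ) hl
  have hsl := (hasDerivAt_iff_tendsto_slope.1 hline).eventually (lt_mem_nhds hv)
  rw [eventually_nhdsWithin_iff, Metric.eventually_nhds_iff] at hsl
  obtain ⟨ε, hε, hsl⟩ := hsl
  have hsl' : ∀ t : ℝ, |t| < ε → t ≠ 0 → 0 < t⁻¹ * ρ (z + t • v) := by
    intro t ht ht0
    have h1 := hsl (y := t) (by simpa using ht) ht0
    rw [slope_def_field] at h1
    simp only [zero_smul, add_zero, h0, sub_zero] at h1
    rw [mul_comm, ← div_eq_mul_inv]
    exact h1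
  have hrank : 1 < Module.rank ℝ E := by
    rw [← Module.finrank_eq_rank]
    exact_mod_cast (by omega : 1 < Module.finrank ℝ E)
  obtain ⟨δ, hδ⟩ : ∃ δ : ℝ, δ = min ε ((1 - ‖z‖) / ‖v‖) := ⟨_, rfl⟩
  have hδ0 : 0 < δ := by
    rw [hδ]
    exact lt_min hε (div_pos (by linarith) hvn)
  have key : ∀ t : ℝ, 0 < t → t < δ → ∃ y : E, ‖y - z‖ = t * ‖v‖ ∧ ‖y‖ < 1 ∧ ρ y = 0 := by
    intro t ht htδ
    have ht1 : t < ε := htδ.trans_le (hδ ▸ min_le_left _ _)
    have ht2 : t * ‖v‖ < 1 - ‖z‖ := by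
      have h1 : t < (1 - ‖z‖) / ‖v‖ := htδ.trans_le (hδ ▸ min_le_right _ _)
      rwa [lt_div_iff₀ hvn] at h1
    have hin : ∀ y ∈ Metric.sphere z (t * ‖v‖), ‖y‖ < 1 := by
      intro y hy
      rw [mem_sphere_iff_norm] at hy
      have h1 : ‖y‖ ≤ ‖y - z‖ + ‖z‖ := by simpa using norm_add_le (y - z) z
      linarith
    have hcon : ContinuousOn ρ (Metric.sphere z (t * ‖v‖)) :=
      hs.continuousOn.mono fun y hy => mem_ball_zero_iff.2 (hin y hy)
    have ha : z - t • v ∈ Metric.sphere z (t * ‖v‖) := by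
      rw [mem_sphere_iff_norm]
      simp [norm_smul, abs_of_pos ht]
    have hb : z + t • v ∈ Metric.sphere z (t * ‖v‖) := by
      rw [mem_sphere_iff_norm]
      simp [norm_smul, abs_of_pos ht]
    have hb' : 0 < ρ (z + t • v) := by
      have h1 := hsl' t (by rwa [abs_of_pos ht]) ht.ne'
      exact (pos_iff_pos_of_mul_pos h1).1 (inv_pos.2 ht)
    have ha' : ρ (z - t • v) < 0 := by
      have h1 := hsl' (-t) (by rwa [abs_neg, abs_of_pos ht]) (neg_ne_zero.2 ht.ne')
      rw [neg_smul, ← sub_eq_add_neg] at h1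
      exact (neg_iff_neg_of_mul_pos h1).1 (inv_lt_zero.2 (neg_lt_zero.2 ht))
    obtain ⟨y, hy, hy0⟩ := (isPreconnected_sphere hrank z (t * ‖v‖)).intermediate_value ha hb hcon
      (show (0 : ℝ) ∈ Icc _ _ from ⟨ha'.le, hb'.le⟩)
    exact ⟨y, mem_sphere_iff_norm.1 hy, hin y hy, hy0⟩
  have hti : ∀ i : ℕ, 0 < δ / ((i : ℝ) + 2) ∧ δ / ((i : ℝ) + 2) < δ := by
    intro i
    have h1 : (0 : ℝ) ≤ i := Nat.cast_nonneg i
    refine ⟨by positivity, ?_⟩
    rw [div_lt_iff₀ (by positivity)]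
    nlinarith
  choose y hy1 hy2 hy3 using fun i : ℕ => key (δ / ((i : ℝ) + 2)) (hti i).1 (hti i).2
  refine ⟨y, ?_, fun i => ⟨hy2 i, hy3 i, ?_⟩⟩
  · rw [tendsto_iff_norm_sub_tendsto_zero]
    have h1 : Tendsto (fun i : ℕ => δ / ((i : ℝ) + 2)) atTop (𝓝 0) := by
      refine Tendsto.div_atTop tendsto_const_nhds ?_
      exact tendsto_atTop_add_const_right _ _ tendsto_natCast_atTop_atTop
    have h2 := h1.mul_const ‖v‖
    rw [zero_mul] at h2
    exact h2.congr fun i => (hy1 i).symm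
  · intro hyz
    have h1 := hy1 i
    rw [hyz, sub_self, norm_zero] at h1
    have h2 := mul_pos (hti i).1 hvn
    linarith

variable {j : E →L[ℝ] E} {ρ : E → ℝ} {n : ℕ} {lam : ℝ} {p : ℝ × ℝ × E}

/-- piece `JH-K3b`: the same as Helper77/JH/E3b.lean (copy the private lemmas; `not_isolated` is there, import E3b when it is done or copy).
First `w + (tt)⁻¹ (B(w, X) X + B(w, J X) J X) - B(w, ν) ν`, continuity, then `T_zero0` and the limit -/
theorem T_zero (h : Hy j ρ n lam p)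
    (hbd : ∃ r : ℝ, r < 1 ∧ ∀ z ∈ Metric.ball (0 : E) 1, ρ z ≤ 0 → ‖z‖ ≤ r) {z : E}
    (hz : ‖z‖ < 1) (h0 : ρ z = 0) {w : ℝ × ℝ × E}
    (hw : HzQ (BL E) (JU (JL j)) (io z) (nu (BL E) (GG j ρ) (io z)) w) :
    TT (BL E) (JU (JL j)) lam (GG j ρ) (io z) w = 0 := by
  by_cases hzp : pr j p = z
  · have hH := hfL h.cj
    have hG := gdL h.cj h.smooth
    have hdim : 2 ≤ Module.finrank ℝ E := by
      have := h.two
      rw [h.dim]
      omega
    have hr := h.reg z hz h0
    obtain ⟨y, hy, hy1⟩ := not_isolated_k3b hdim hz (h.smooth.of_le (by norm_num)) h0 hr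
    have hOO : ∀ i, y i ∈ OO ρ := fun i => ⟨(hy1 i).1, h.reg _ (hy1 i).1 (hy1 i).2.1⟩
    have hF : ∀ i, Tm (BL E) (JL j) lam (xs (BL E) (io (y i))) (nu (BL E) (GG j ρ) (io (y i)))
        (SS (BL E) (GG j ρ) (io (y i))) (pHk (BL E) (JL j) (GG j ρ) w (io (y i))) = 0 := by
      intro i
      rw [← tt_unit]
      refine T_zero0 h hbd (hy1 i).1 (hy1 i).2.1 ?_ ?_
      · rw [hzp]
        exact (hy1 i).2.2.symm
      · exact hz_unit.2 (pHk_hz hH hG (io_UU h (hOO i)) w)
    have hio : Continuous (io : E → ℝ × ℝ × E) := by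
      unfold io
      fun_prop
    have hzU : io z ∈ UU j ρ := io_UU h ⟨hz, hr⟩
    have hc := (Tk_cont hG lam w).continuousAt (hG.isOpen.mem_nhds hzU)
    have h1 : Tendsto (fun i => (io (y i) : ℝ × ℝ × E)) atTop (𝓝 (io z)) :=
      (hio.tendsto z).comp hy
    have h2 := hc.tendsto.comp h1
    have h3 : Tendsto (fun i : ℕ => (0 : ℝ × ℝ × E)) atTop (𝓝
        (Tm (BL E) (JL j) lam (xs (BL E) (io z)) (nu (BL E) (GG j ρ) (io z))
          (SS (BL E) (GG j ρ) (io z)) (pHk (BL E) (JL j) (GG j ρ) w (io z)))) :=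
      h2.congr fun i => hF i
    have h4 := tendsto_nhds_unique h3 tendsto_const_nhds
    rw [pHk_self (hz_unit.1 hw)] at h4
    rw [tt_unit]
    exact h4
  · exact T_zero0 h hbd hz h0 hzp hw

/-- in the form of JE (`tt_unit`, `hz_unit` in K0; `xs (io z)` is a multiple of `io z`) -/
theorem T_zero' (h : Hy j ρ n lam p)
    (hbd : ∃ r : ℝ, r < 1 ∧ ∀ z ∈ Metric.ball (0 : E) 1, ρ z ≤ 0 → ‖z‖ ≤ r) {z : E}
    (hz : ‖z‖ < 1) (h0 : ρ z = 0) {w : ℝ × ℝ × E}
    (hw : Hz (BL E) (JL j) (xs (BL E) (io z)) (nu (BL E) (GG j ρ) (io z)) w) :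
    Tm (BL E) (JL j) lam (xs (BL E) (io z)) (nu (BL E) (GG j ρ) (io z))
      (SS (BL E) (GG j ρ) (io z)) w = 0 := by
  rw [← tt_unit]
  refine T_zero h hbd hz h0 (hz_unit.2 ?_)
  have ht : 0 < tt (BL E) (io z) := by
    have := io_neg hz
    unfold tt
    linarith
  have hs : (√(tt (BL E) (io z)))⁻¹ ≠ 0 := (inv_pos.2 (Real.sqrt_pos.2 ht)).ne'
  obtain ⟨h1, h2, h3⟩ := hw
  unfold xs at h1 h2
  rw [map_smul, smul_eq_mul] at h1
  rw [map_smul, map_smul, smul_eq_mul] at h2
  exact ⟨(mul_eq_zero.1 h1).resolve_left hs, (mul_eq_zero.1 h2).resolve_left hs, h3⟩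

end Pool.Agent.Helper77.JH.CH
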