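import Pool.Agent.Helper77.JH.K3b

/-! # JH, complex hyperbolic space: the centre and the theorem in the form of the proof (copied from Helper77/JE/Fin.lean) -/

set_option autoImplicit false
set_option linter.unusedSectionVars false
set_option linter.unusedVariables false

open Filter Topology Set
open scoped ContDiff

namespace Pool.Agent.Helper77.JH.CH

open Pool.Agent.Helper77.JE
open Pool.Agent.Helper77.JH (HzQ TT VQ GpO JU Rq)
open Pool.Agent.Helper41.ALX (divg Vertical ballMetric meanCurv PC bergman vertical_PC bergman_eq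
  radial)

variable {E : Type*} [NormedAddCommGroup E] [InnerProductSpace ℝ E] [FiniteDimensional ℝ E]
variable {j : E →L[ℝ] E} {ρ : E → ℝ} {n : ℕ} {lam : ℝ} {p : ℝ × ℝ × E}

/-- piece `JE-F4` (a): `B c c = 1 - lam²` -/
theorem cc_B (h : Hy j ρ n lam p) {z : E} (hz : z ∈ OO ρ) :
    BL E (cc j ρ lam (io z)) (cc j ρ lam (io z)) = 1 - lam ^ 2 := by
  have hU := io_UU h hz
  have hP := (gdL h.cj h.smooth).pt (hfL h.cj) hU
  have h1 := xs_B (io_neg hz.1)
  have hH := hfL h.cj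
  have h2 : BL E (xs (BL E) (io z)) (nu (BL E) (GG j ρ) (io z)) = 0 := by
    unfold xs
    rw [map_smul, smul_apply, hP.xn, smul_zero]
  have h3 : BL E (nu (BL E) (GG j ρ) (io z)) (xs (BL E) (io z)) = 0 := by
    rw [hH.symm]; exact h2
  unfold cc
  simp only [map_sub, map_smul, sub_apply, smul_apply, smul_eq_mul]
  rw [h1, h2, h3, hP.nn]
  ring

/-- piece `JE-F4` (b): the map to the centre is of class `C¹` -/
theorem cen_c1 (h : Hy j ρ n lam p) :
    ContDiffOn ℝ 1 (fun z : E => pr j (cc j ρ lam (io z))) (OO ρ) := by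
  intro z hz
  have hU := io_UU h hz
  have hG := gdL h.cj h.smooth
  have hio : ContDiffAt ℝ 1 (fun z : E => (io z : ℝ × ℝ × E)) z := by
    unfold io
    fun_prop
  have hneg := io_neg hz.1
  have hxs : ContDiffAt ℝ 1 (xs (BL E)) (io z) := by
    have ht : ContDiffAt ℝ 1 (fun X : ℝ × ℝ × E => tt (BL E) X) (io z) := by
      unfold tt
      fun_prop
    have h0 : 0 < tt (BL E) (io z) := by unfold tt; linarith
    have hs : ContDiffAt ℝ 1 (fun X : ℝ × ℝ × E => √(tt (BL E) X)) (io z) :=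
      ht.sqrt h0.ne'
    exact (hs.inv (Real.sqrt_pos.2 h0).ne').smul contDiffAt_id
  have hnu : ContDiffAt ℝ 1 (nu (BL E) (GG j ρ)) (io z) :=
    ((hG.nu_c2.contDiffAt (hG.isOpen.mem_nhds hU))).of_le (by norm_num)
  have hcc : ContDiffAt ℝ 1 (cc j ρ lam) (io z) := by
    unfold cc
    exact (hxs.const_smul lam).sub hnu
  have hB := cc_B h hz
  have hl := h.one
  have hBn : BL E (cc j ρ lam (io z)) (cc j ρ lam (io z)) < 0 := by
    rw [hB]; nlinarith
  have hpr : ContDiffAt ℝ 1 (pr j) (cc j ρ lam (io z)) :=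
    (pr_smooth j (pr_ball h.cj hBn).1.ne').of_le (by exact_mod_cast le_top)
  exact ((hpr.comp z (hcc.comp z hio))).contDiffWithinAt

private theorem xs_hd {L : Type*} [NormedAddCommGroup L] [NormedSpace ℝ L]
    {B : L →L[ℝ] L →L[ℝ] ℝ} {J : L →L[ℝ] L} (hH : Hf B J) {X : L} (hX : B X X < 0) :
    ∃ D : L →L[ℝ] L, HasFDerivAt (xs B) D X ∧
      ∀ v, D v = (√(tt B X))⁻¹ • v + ((√(tt B X))⁻¹ * (tt B X)⁻¹ * B X v) • X := by
  have ht : 0 < tt B X := by
    unfold tt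
    linarith
  have hs : 0 < √(tt B X) := Real.sqrt_pos.2 ht
  have h1 : HasFDerivAt (fun Y => B Y) B X := B.hasFDerivAt
  have h2 := (h1.clm_apply (hasFDerivAt_id X)).neg
  have h3 := h2.sqrt (show -(B X (id X)) ≠ 0 from ht.ne')
  have h4 := (hasDerivAt_inv (show √(-(B X (id X))) ≠ 0 from hs.ne')).comp_hasFDerivAt X h3
  have h5 := h4.smul (hasFDerivAt_id X)
  refine ⟨_, h5, fun v => ?_⟩
  have e1 : √(tt B X) ^ 2 = tt B X := Real.sq_sqrt ht.le
  have e2 : √(-(B X X)) = √(tt B X) := rfl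
  simp only [ContinuousLinearMap.add_apply, ContinuousLinearMap.smul_apply,
    ContinuousLinearMap.neg_apply, ContinuousLinearMap.smulRight_apply, id_eq,
    ContinuousLinearMap.comp_apply, ContinuousLinearMap.id_apply, Function.comp,
    ContinuousLinearMap.flip_apply, e2, e1, smul_eq_mul]
  rw [hH.symm v X]
  congr 1
  congr 1
  have e3 : √((-fun y => (B y) y) X) = √(tt B X) := rfl
  rw [e3, one_div, mul_inv]
  ring

private theorem cc_hd {j : E →L[ℝ] E} {ρ : E → ℝ} (hj : Cj j)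
    (hG : Gd (BL E) (JL j) (UU j ρ) (GG j ρ)) (lam : ℝ) {X : ℝ × ℝ × E} (hX : X ∈ UU j ρ) :
    ∃ D : (ℝ × ℝ × E) →L[ℝ] (ℝ × ℝ × E), HasFDerivAt (cc j ρ lam) D X ∧
      ∀ v, D v = lam • ((√(tt (BL E) X))⁻¹ • v +
        ((√(tt (BL E) X))⁻¹ * (tt (BL E) X)⁻¹ * BL E X v) • X) - NN (BL E) (GG j ρ) X v := by
  obtain ⟨D, hD, hDv⟩ := xs_hd (hfL hj) (hG.neg X hX)
  have hn : HasFDerivAt (nu (BL E) (GG j ρ)) (NN (BL E) (GG j ρ) X) X :=
    ((hG.nu_c2.contDiffAt (hG.isOpen.mem_nhds hX)).differentiableAt (by norm_num)).hasFDerivAt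
  refine ⟨_, (hD.const_smul lam).sub hn, fun v => ?_⟩
  rw [← hDv]
  rfl

/-- piece `JE-F4` (c): its tangential derivative is zero on the hypersurface. `X = io z`, `w` with `dρ w = 0`:
`(0, 0, w) = u + a X + b J X` with `u` tangential horizontal at `xs X`. The derivatives of `cc` in the directions `X`, `J X`
are `0`, `J cc` (`N2`-free: `xs`, `nu` have degree `0` and are equivariant: `Nx`, `Njx`). In the direction `u`:
`√tt D cc u = lam u - S u` and `S u = lam u + lam⁻¹ B(ξ, u) ξ - B(ξ, u) J x` (`N_eq`, `T_zero`), so it is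
`B(ξ, u) (J x - lam⁻¹ J ν) = lam⁻¹ B(ξ, u) J (lam x - ν)`. Hence `D cc (0, 0, w)` is a multiple of `J cc`, and
`D pr (cc) (J cc) = 0` (`Dpr_JX`). -/
theorem cen_der (h : Hy j ρ n lam p)
    (hT : ∀ z : E, ‖z‖ < 1 → ρ z = 0 → ∀ w,
      Hz (BL E) (JL j) (xs (BL E) (io z)) (nu (BL E) (GG j ρ) (io z)) w →
      Tm (BL E) (JL j) lam (xs (BL E) (io z)) (nu (BL E) (GG j ρ) (io z))
        (SS (BL E) (GG j ρ) (io z)) w = 0) {z : E}
    (hz : ‖z‖ < 1) (h0 : ρ z = 0) {w : E} (hw : fderiv ℝ ρ z w = 0) :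
    fderiv ℝ (fun z : E => pr j (cc j ρ lam (io z))) z w = 0 := by
  have hj := h.cj
  have hH := hfL hj
  have hG : Gd (BL E) (JL j) (UU j ρ) (GG j ρ) := gdL hj h.smooth
  have hO : z ∈ OO ρ := ⟨hz, h.reg z hz h0⟩
  have hX : io z ∈ UU j ρ := io_UU h hO
  have hP := hG.pt hH hX
  obtain ⟨D, hD, hDv⟩ := cc_hd hj hG lam hX
  have hxx := hG.neg _ hX
  have ht : 0 < tt (BL E) (io z) := by
    unfold tt
    linarith
  have hs : 0 < √(tt (BL E) (io z)) := Real.sqrt_pos.2 ht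
  have hcc : BL E (cc j ρ lam (io z)) (cc j ρ lam (io z)) < 0 := by
    rw [cc_B h hO]
    nlinarith [h.one]
  have hc0 := (pr_ball hj hcc).1.ne'
  have hpr : HasFDerivAt (pr j) (fderiv ℝ (pr j) (cc j ρ lam (io z))) (cc j ρ lam (io z)) :=
    ((pr_smooth j hc0).differentiableAt (by norm_num)).hasFDerivAt
  have hio : HasFDerivAt (io : E → ℝ × ℝ × E)
      ((0 : E →L[ℝ] ℝ).prod ((0 : E →L[ℝ] ℝ).prod (ContinuousLinearMap.id ℝ E))) z :=
    (hasFDerivAt_const (1 : ℝ) z).prodMk ((hasFDerivAt_const (0 : ℝ) z).prodMk (hasFDerivAt_id z))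
  have hF := hpr.comp z (hD.comp z hio)
  have hF' : fderiv ℝ (fun z : E => pr j (cc j ρ lam (io z))) z = _ := hF.fderiv
  rw [hF']
  show fderiv ℝ (pr j) (cc j ρ lam (io z)) (D (0, 0, w)) = 0
  set X : ℝ × ℝ × E := io z with hXd
  set v : ℝ × ℝ × E := (0, 0, w) with hv
  set a : ℝ := -((tt (BL E) X)⁻¹ * BL E X v) with ha
  set b : ℝ := -((tt (BL E) X)⁻¹ * BL E (JL j X) v) with hb
  set ν := nu (BL E) (GG j ρ) X with hν
  have x1 : BL E X X = -(tt (BL E) X) := by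
    unfold tt
    ring
  have x2 : BL E (JL j X) X = 0 := hH.self0 X
  have x3 : BL E X (JL j X) = 0 := by rw [hH.symm, x2]
  have x4 : BL E (JL j X) (JL j X) = -(tt (BL E) X) := by rw [hH.inv, x1]
  have hrr := hG.rr_pos hX
  have hvν : BL E v ν = 0 := by
    have h1 : DifferentiableAt ℝ ρ z :=
      (h.smooth.contDiffAt (Metric.isOpen_ball.mem_nhds (by simpa using hz))).differentiableAt
        (by norm_num)
    have h2 : BL E (GG j ρ X) v = 0 := by
      rw [GG_io hj h1, BL_apply]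
      have h3 : inner ℝ (gradient ρ z) w = fderiv ℝ ρ z w := by
        unfold gradient
        rw [InnerProductSpace.toDual_symm_apply]
      simp [hv, h3, hw]
    rw [hH.symm, hν]
    unfold nu
    simp [h2]
  set u : ℝ × ℝ × E := v - a • X - b • JL j X with hu
  have hvu : v = u + a • X + b • JL j X := by
    rw [hu]
    abel
  have u1 : BL E u X = 0 := by
    rw [hu]
    simp only [map_sub, map_smul, ContinuousLinearMap.sub_apply, ContinuousLinearMap.smul_apply,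
      smul_eq_mul]
    rw [x1, x2, hH.symm v X, ha]
    field_simp
    ring
  have u2 : BL E u (JL j X) = 0 := by
    rw [hu]
    simp only [map_sub, map_smul, ContinuousLinearMap.sub_apply, ContinuousLinearMap.smul_apply,
      smul_eq_mul]
    rw [x3, x4, hH.symm v (JL j X), hb]
    field_simp
    ring
  have u3 : BL E u ν = 0 := by
    rw [hu]
    simp only [map_sub, map_smul, ContinuousLinearMap.sub_apply, ContinuousLinearMap.smul_apply,
      smul_eq_mul]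
    rw [hvν, hP.xn, hP.jxn]
    ring
  have hHz : Hz (BL E) (JL j) (xs (BL E) X) ν u := by
    refine ⟨?_, ?_, u3⟩
    · unfold xs
      simp [u1]
    · unfold xs
      simp [u2]
  have hTu := hT z hz h0 u hHz
  rw [Tm_apply] at hTu
  set s := √(tt (BL E) X) with hsd
  set β := BL E (JL j ν) u with hβ
  set Nu := NN (BL E) (GG j ρ) X u with hNu
  have hSS : SS (BL E) (GG j ρ) X u = s • Nu := rfl
  rw [← hν, hSS] at hTu
  have hNu' : Nu = s⁻¹ • (lam • u + (lam⁻¹ * β) • JL j ν - β • JL j (xs (BL E) X)) := by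
    have h1 : s • Nu = lam • u + (lam⁻¹ * β) • JL j ν - β • JL j (xs (BL E) X) := by
      rw [← sub_eq_zero]
      rw [← hTu]
      abel
    rw [← h1, smul_smul, inv_mul_cancel₀ hs.ne', one_smul]
  have hlam0 : lam ≠ 0 := by linarith [h.one]
  have hxsd : xs (BL E) X = s⁻¹ • X := rfl
  have hccd : JL j (cc j ρ lam X) = lam • s⁻¹ • JL j X - JL j ν := by
    unfold cc
    rw [map_sub, map_smul, hxsd, map_smul]
  have hDv1 : D v = (s⁻¹ * lam⁻¹ * β + b) • JL j (cc j ρ lam X) := by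
    have hDX : D X = 0 := by
      rw [hDv, hP.Nx, x1]
      have : (√(tt (BL E) X))⁻¹ * (tt (BL E) X)⁻¹ * -(tt (BL E) X) = -(√(tt (BL E) X))⁻¹ := by
        field_simp
      rw [this]
      module
    have hDJ : D (JL j X) = JL j (cc j ρ lam X) := by
      rw [hDv, hP.Njx, x3, hccd]
      module
    have hDu : D u = (s⁻¹ * lam⁻¹ * β) • JL j (cc j ρ lam X) := by
      rw [hDv, hH.symm X u, u1, ← hNu, hNu', hccd, hxsd, map_smul]
      have : β = lam⁻¹ * lam * β := by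
        rw [inv_mul_cancel₀ hlam0, one_mul]
      match_scalars <;> field_simp <;> ring
    conv_lhs => rw [hvu]
    rw [map_add, map_add, map_smul, map_smul, hDX, hDJ, hDu]
    module
  rw [hDv1, map_smul, Dpr_JX hj hc0, smul_zero]

/-- piece `JE-F5` (b): at a point of the hypersurface, `c₀ = pr (cc (io z))`: `cq c₀ z (lam² - 1) =
lam² (1 - ‖c₀‖²) (1 - ‖z‖²)` (`cq_symm`, `cq_pr`; `B (io z) (lam x - ν) = - lam √(1 - ‖z‖²)`, `B (J (io z)) (lam x - ν) = 0`) -/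
theorem cq_level (h : Hy j ρ n lam p) {z : E} (hz : z ∈ OO ρ) :
    cq j (pr j (cc j ρ lam (io z))) z * (lam ^ 2 - 1) =
      lam ^ 2 * (1 - ‖pr j (cc j ρ lam (io z))‖ ^ 2) * (1 - ‖z‖ ^ 2) := by
  have hl := h.one
  have hH := hfL h.cj
  have hG := gdL h.cj h.smooth
  have hX := io_UU h hz
  have hB := cc_B h hz
  have hneg : BL E (cc j ρ lam (io z)) (cc j ρ lam (io z)) < 0 := by
    rw [hB]
    nlinarith
  have hz1 : 0 < 1 - ‖z‖ ^ 2 := by
    have h1 := hz.1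
    have h2 := norm_nonneg z
    nlinarith
  have hbx : BL E (io z) (io z) = -(1 - ‖z‖ ^ 2) := by
    simp [BL_apply, io]
  have htt : tt (BL E) (io z) = 1 - ‖z‖ ^ 2 := by
    rw [tt, hbx, neg_neg]
  have hs : √(1 - ‖z‖ ^ 2) ^ 2 = 1 - ‖z‖ ^ 2 := Real.sq_sqrt hz1.le
  have hs0 : √(1 - ‖z‖ ^ 2) ≠ 0 := (Real.sqrt_pos.2 hz1).ne'
  have e1 : BL E (io z) (nu (BL E) (GG j ρ) (io z)) = 0 := by
    rw [hH.symm, nu, map_smul, ContinuousLinearMap.smul_apply, hG.gx _ hX, smul_zero]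
  have e2 : BL E (JL j (io z)) (nu (BL E) (GG j ρ) (io z)) = 0 := by
    rw [hH.symm, nu, map_smul, ContinuousLinearMap.smul_apply, hG.gjx _ hX, smul_zero]
  have e3 : BL E (io z) (cc j ρ lam (io z)) = -(lam * √(1 - ‖z‖ ^ 2)) := by
    rw [cc, map_sub, map_smul, xs, map_smul, e1, htt, hbx]
    simp only [smul_eq_mul, sub_zero]
    nth_rw 2 [← hs]
    field_simp
  have e4 : BL E (JL j (io z)) (cc j ρ lam (io z)) = 0 := by
    rw [cc, map_sub, map_smul, xs, map_smul, e2, hH.self0]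
    simp
  have h3 := cq_pr (a := z) h.cj hneg
  rw [hB, e3, e4] at h3
  rw [cq_symm h.cj]
  have h4 : cq j z (pr j (cc j ρ lam (io z))) * (lam ^ 2 - 1) =
      lam ^ 2 * √(1 - ‖z‖ ^ 2) ^ 2 * (1 - ‖pr j (cc j ρ lam (io z))‖ ^ 2) := by
    linear_combination h3
  rw [h4, hs]
  ring

private lemma F6_cq_self (hj : Cj j) (a : E) : cq j a a = (1 - ‖a‖ ^ 2) ^ 2 := by
  have hH := hfL hj
  have h1 : BL E (JL j (io a)) (io a) = 0 := by
    have e1 := hH.inv (JL j (io a)) (io a)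
    rw [hH.jj, map_neg, neg_apply, hH.symm (io a) (JL j (io a))] at e1
    linarith
  unfold cq
  rw [h1, BL_apply]
  simp only [io]
  rw [real_inner_self_eq_norm_sq]
  ring

/-- piece `JE-F6`: the theorem in the form of the proof. `T_zero`, `cen_der`, `const_on_level` (on `OO ρ`; the hypersurface is
not empty: intermediate values on the ray through a point with `ρ < 0`), `cq_level`, `set_eq` with
`q z = cq c₀ z - K (1 - ‖z‖²)`, `K = lam² / (lam² - 1) (1 - ‖c₀‖²)`, `z₁ = c₀`. -/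
theorem main (h : Hy j ρ n lam p)
    (hbd : ∃ R : ℝ, R < 1 ∧ ∀ z ∈ Metric.ball (0 : E) 1, ρ z ≤ 0 → ‖z‖ ≤ R)
    (hne : ∃ z ∈ Metric.ball (0 : E) 1, ρ z < 0)
    (hcon : IsPreconnected {z ∈ Metric.ball (0 : E) 1 | ρ z = 0}) :
    ∃ c₀ : E, ‖c₀‖ < 1 ∧ ∀ z ∈ Metric.ball (0 : E) 1,
      (ρ z < 0 ↔ cq j c₀ z < lam ^ 2 / (lam ^ 2 - 1) * (1 - ‖c₀‖ ^ 2) * (1 - ‖z‖ ^ 2)) ∧
      (ρ z = 0 ↔ cq j c₀ z = lam ^ 2 / (lam ^ 2 - 1) * (1 - ‖c₀‖ ^ 2) * (1 - ‖z‖ ^ 2)) := by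
  have hlam : 0 < lam ^ 2 - 1 := by nlinarith [h.one]
  have hlam0 : 0 < lam ^ 2 := by nlinarith [h.one]
  have hn : ∀ z : E, z ∈ Metric.ball (0 : E) 1 ↔ ‖z‖ < 1 := fun z => mem_ball_zero_iff
  have hρc : ContinuousOn ρ (Metric.ball 0 1) := h.smooth.continuousOn
  -- the hypersurface is not empty
  have : Nontrivial E := by
    have h1 : 0 < Module.finrank ℝ E := by
      have := h.two
      rw [h.dim]
      omega
    exact Module.nontrivial_of_finrank_pos h1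
  obtain ⟨R, hR, hR2⟩ := hbd
  obtain ⟨z₁, hz₁, hz₁'⟩ := hne
  obtain ⟨z₀, hz₀, hz₀'⟩ : ∃ z ∈ Metric.ball (0 : E) 1, ρ z = 0 := by
    have hm0 : 0 ≤ max R 0 := le_max_right _ _
    have hm1 : max R 0 < 1 := max_lt hR one_pos
    obtain ⟨x, hx⟩ := exists_norm_eq E (show 0 ≤ (max R 0 + 1) / 2 by linarith)
    have hxb : x ∈ Metric.ball (0 : E) 1 := by
      rw [hn, hx]
      linarith
    have hxp : 0 < ρ x := by
      by_contra hcon
      have h1 := hR2 x hxb (not_lt.1 hcon)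
      have h2 := le_max_left R 0
      rw [hx] at h1
      linarith
    have h1 := (convex_ball (0 : E) 1).isPreconnected.intermediate_value hz₁ hxb hρc
    obtain ⟨z, hz, hz'⟩ := h1 ⟨hz₁'.le, hxp.le⟩
    exact ⟨z, hz, hz'⟩
  have hz₀n : ‖z₀‖ < 1 := (hn z₀).1 hz₀
  have hOO : ∀ z : E, ‖z‖ < 1 → ρ z = 0 → z ∈ OO ρ := fun z hz h0 => ⟨hz, h.reg z hz h0⟩
  have hT := fun (z : E) (hz : ‖z‖ < 1) (h0 : ρ z = 0) w hw => T_zero' h ⟨R, hR, hR2⟩ hz h0 (w := w) hw
  have hset : {z | z ∈ OO ρ ∧ ρ z = 0} = {z ∈ Metric.ball (0 : E) 1 | ρ z = 0} := by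
    ext z
    constructor
    · rintro ⟨h1, h2⟩
      exact ⟨(hn z).2 h1.1, h2⟩
    · rintro ⟨h1, h2⟩
      exact ⟨hOO z ((hn z).1 h1) h2, h2⟩
  have hconst := const_on_level (oo_open h)
    ((h.smooth.of_le (by norm_num)).mono fun z hz => (hn z).2 hz.1)
    (fun z hz _ => hz.2) (cen_c1 h)
    (fun z hz h0 w hw => cen_der h hT hz.1 h0 hw) (by rw [hset]; exact hcon)
  set c₀ : E := pr j (cc j ρ lam (io z₀)) with hc₀
  have hcB := cc_B h (hOO z₀ hz₀n hz₀')
  have hcn : ‖c₀‖ < 1 := by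
    have h1 := (pr_ball h.cj (X := cc j ρ lam (io z₀)) (by rw [hcB]; linarith)).2
    exact (hn _).1 h1
  have hc2 : 0 < 1 - ‖c₀‖ ^ 2 := by nlinarith [norm_nonneg c₀]
  refine ⟨c₀, hcn, ?_⟩
  set K : ℝ := lam ^ 2 / (lam ^ 2 - 1) * (1 - ‖c₀‖ ^ 2) with hK
  have hK0 : 0 ≤ K := by positivity
  obtain ⟨hq1, hq2⟩ := cq_convex h.cj c₀ hK0
  have hq0 : cq j c₀ c₀ - K * (1 - ‖c₀‖ ^ 2) < 0 := by
    rw [F6_cq_self h.cj, hK]
    have h1 : 1 < lam ^ 2 / (lam ^ 2 - 1) := by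
      rw [one_lt_div hlam]
      linarith
    have h2 : 0 < (1 - ‖c₀‖ ^ 2) ^ 2 := by positivity
    nlinarith
  have hlev : ∀ z ∈ Metric.ball (0 : E) 1, ρ z = 0 → cq j c₀ z - K * (1 - ‖z‖ ^ 2) = 0 := by
    intro z hz h0
    have hzO := hOO z ((hn z).1 hz) h0
    have h1 := hconst z hzO h0 z₀ (hOO z₀ hz₀n hz₀') hz₀'
    have h2 := cq_level h hzO
    rw [h1, ← hc₀] at h2
    rw [hK, sub_eq_zero]
    field_simp
    linarith
  have hfin := set_eq hρc ⟨R, hR, hR2⟩ ⟨z₁, hz₁, hz₁'⟩ hq1 hq2 ((hn c₀).2 hcn) hq0 hlev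
  intro z hz
  obtain ⟨h1, h2⟩ := hfin z hz
  exact ⟨h1.trans sub_neg, h2.trans sub_eq_zero⟩

end Pool.Agent.Helper77.JH.CH
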